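import Pool.Agent.Lib.ZT.ArchDefs
import Pool.Agent.Lib.Z579.BE10

/-!
# Archimedean side of `T2(15)`: assembly of a certificate from integer data
-/

open Finset Set Z579 Z579.BE Z579.EM Z579.Arch Z579.Num

namespace ZT

namespace AC

def sclL (k : ℤ) (L : List (ℕ × ℤ)) : List (ℕ × ℤ) := L.map fun t => (t.1, k * t.2)

lemma FJ_sclL (k : ℤ) (L : List (ℕ × ℤ)) (s : ℝ) : FJ (sclL k L) s = k * FJ L s := by
  induction L with
  | nil => simp [sclL, FJ]
  | cons t L ih =>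
    have : sclL k (t :: L) = (t.1, k * t.2) :: sclL k L := rfl
    rw [this]
    simp only [FJ]
    rw [ih]
    unfold T1
    push_cast
    ring

lemma FJ_dens {CA : List ℤ} {den : ℤ} {N : ℕ} (hl : CA.length = N) (s : ℝ) :
    FJ (jl 0 0 CA) s / den = Up (fun i => ((CA.getD i 0 : ℤ) : ℝ) / den) N s := by
  rw [FJ_jl, Int.cast_zero, zero_mul, zero_add, hl]
  unfold Up
  rw [Finset.sum_div]
  refine Finset.sum_congr rfl fun i _ => ?_
  rw [VB_eq, zero_add]
  push_cast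
  ring

theorem tail_T {c : ℕ → ℝ} {N Y0 : ℕ} (hc : ∀ i, 0 ≤ c i) (hm : ∑ i ∈ range N, c i = 23)
    (hN : N < Y0) (h18 : 18 < Y0) {s : ℝ} (hs : (Y0 : ℝ) ≤ s) :
    PhiT N c s ≤ 92 * Real.log Y0 - 48 * Real.log ((Y0 : ℝ) ^ 2 - 324) -
      (Real.log s - Real.log Y0) := by
  have halY : (18 : ℝ) < Y0 := by exact_mod_cast h18
  have hY0 : (0 : ℝ) < Y0 := by linarith
  have hs0 : 0 < s := by linarith
  -- the field
  have hH : 18 * Real.log (s ^ 2 - 324) ≤ HH 18 s := by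
    obtain ⟨ξ, hξ, h⟩ := HJ_mvt (a := 0) (b := 18) (s := s) (by norm_num) (by linarith) le_rfl
    have e0 : GG (0 - s) 0 + GG (0 + s) 0 = 0 := by
      rw [zero_sub, zero_add, GG_neg]; ring
    rw [e0, sub_zero, sub_zero] at h
    unfold HH
    rw [h]
    apply mul_le_mul_of_nonneg_left _ (by norm_num)
    have h2 : 0 < s ^ 2 - (324 : ℝ) := by nlinarith
    apply Real.log_le_log h2
    have := hξ.1
    have := hξ.2
    nlinarith
  -- the potentials
  have hV : ∀ i < N, VB i (i + 1) s ≤ 2 * Real.log s := by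
    intro i hi
    have hi' : (i : ℝ) + 1 < s := by
      have : (i : ℝ) + 1 ≤ N := by exact_mod_cast hi
      have h2 : (N : ℝ) < Y0 := by exact_mod_cast hN
      linarith
    have hi0 : (0 : ℝ) ≤ i := Nat.cast_nonneg i
    obtain ⟨ξ, hξ, h⟩ := HJ_mvt (a := (i : ℝ)) (b := (i : ℝ) + 1) (s := s) (by linarith) hi' hi0
    unfold VB
    rw [h, show (i : ℝ) + 1 - i = 1 by ring, one_mul]
    have e : 2 * Real.log s = Real.log (s ^ 2) := by rw [Real.log_pow]; push_cast; ring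
    rw [e]
    have := hξ.1
    have := hξ.2
    apply Real.log_le_log (by nlinarith)
    nlinarith
  have hA : Up c N s ≤ 23 * (2 * Real.log s) := by
    rw [← hm]
    unfold Up
    rw [Finset.sum_mul]
    exact Finset.sum_le_sum fun i hi =>
      mul_le_mul_of_nonneg_left (hV i (Finset.mem_range.1 hi)) (hc i)
  -- comparison
  have hlog : Real.log ((Y0 : ℝ) ^ 2 - 324) + 2 * (Real.log s - Real.log Y0) ≤
      Real.log (s ^ 2 - 324) := by
    have p1 : 0 < (Y0 : ℝ) ^ 2 - 324 := by nlinarith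
    have p2 : 0 < s ^ 2 - (324 : ℝ) := by nlinarith
    have e : Real.log ((Y0 : ℝ) ^ 2 - 324) + 2 * (Real.log s - Real.log Y0) =
        Real.log (((Y0 : ℝ) ^ 2 - 324) * (s ^ 2 / (Y0 : ℝ) ^ 2)) := by
      rw [Real.log_mul p1.ne' (by positivity), Real.log_div (by positivity) (by positivity),
        Real.log_pow, Real.log_pow]
      push_cast
      ring
    rw [e]
    apply Real.log_le_log (by positivity)
    rw [mul_div_assoc', div_le_iff₀ (by positivity)]
    have : (324 : ℝ) * (Y0 : ℝ) ^ 2 ≤ 324 * s ^ 2 := by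
      apply mul_le_mul_of_nonneg_left _ (by positivity)
      exact pow_le_pow_left₀ hY0.le hs 2
    nlinarith
  have hls : 0 ≤ Real.log s - Real.log Y0 := by
    have := Real.log_le_log hY0 hs
    linarith
  unfold PhiT
  linarith

def tailT (Y0 : ℕ) (l : ℤ) : Bool :=
  decide (1000 * (92 * (lgI Y0).2 - 48 * (lgI (Y0 ^ 2 - 324)).1) ≤ l * 4294967296)

theorem tailT_spec {Y0 : ℕ} {l : ℤ} (h18 : 18 < Y0) (h : tailT Y0 l = true) :
    92 * Real.log Y0 - 48 * Real.log ((Y0 : ℝ) ^ 2 - 324) ≤ (l : ℝ) / 1000 := by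
  unfold tailT at h
  rw [decide_eq_true_eq] at h
  have h1 := (lgI_bounds Y0 (by omega)).2
  have hlt : 18 ^ 2 < Y0 ^ 2 := Nat.pow_lt_pow_left h18 (by norm_num)
  have h2 := (lgI_bounds (Y0 ^ 2 - 324) (by omega)).1
  have e : (((Y0 ^ 2 - 324 : ℕ)) : ℝ) = (Y0 : ℝ) ^ 2 - 324 := by
    rw [Nat.cast_sub (by omega)]; push_cast; ring
  rw [e] at h2
  have h3 : (1000 : ℝ) * (92 * (((lgI Y0).2 : ℤ) : ℝ) -
      48 * (((lgI (Y0 ^ 2 - 324)).1 : ℤ) : ℝ)) ≤ l * 4294967296 := by exact_mod_cast h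
  rw [le_div_iff₀ (by norm_num)]
  linarith

/-- integer form of the total, unit `1 / (6000 den)` -/
def totT (N Y0 : ℕ) (CA : List ℤ) (den l : ℤ) (S E : ℕ → ℤ × ℤ) : ℤ :=
  138 * den * l + 2 * den * sumZ Y0 (fun i => (S i).1 + (S i).2) -
    3 * sumZ N (fun i => CA.getD i 0 * ((E i).1 + (E i).2))

theorem mk_acert {CA : List ℤ} {den D : ℤ} {N : ℕ} (hden : 0 < den) (hD : 3 * D = 8 * den)
    (hN1 : 1 ≤ N) (hl : CA.length = N) (hCA : ∀ x ∈ CA, 0 ≤ x)
    (hmass : sumZ N (fun i => CA.getD i 0) = 23 * den)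
    {J : List (ℕ × ℤ)} (hJ : jl 0 0 CA = J)
    {g : ℕ → ℤ × ℤ} {NT : ℕ} (hT : TabOK g NT) {Y0 : ℕ} (hN : N < Y0) (h18 : 18 < Y0)
    (hNT : Y0 + N + 2 ≤ NT) (hNT' : Y0 + 20 ≤ NT)
    (hj : ∀ t ∈ J, t.1 ≤ N)
    (l : ℤ) (S E : ℕ → ℤ × ℤ)
    (kS : ∀ i, 18 ≤ i → i < Y0 → cell2 g ((18, -D) :: sclL 2 J) den i
      (l + (S i).1) (l + (S i).2) = true)
    (kP : ∀ i < Y0, (decide (0 ≤ (S i).1) && decide (0 ≤ (S i).2)) = true)
    (kE : ∀ i < N, (decide (CA.getD i 0 = 0) ||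
      cell2 g (sclL (-1) J) den i (-(E i).1) (-(E i).2)) = true)
    (kT : tailT Y0 l = true) {A0 : ℤ}
    (kTot : totT N Y0 CA den l S E ≤ 6000 * den * A0) :
    Nonempty (ACert (A0 : ℝ)) := by
  have hd : (den : ℝ) ≠ 0 := by exact_mod_cast hden.ne'
  have hdp : (0 : ℝ) < den := by exact_mod_cast hden
  have hDr : (3 : ℝ) * D = 8 * den := by exact_mod_cast hD
  have hU : ∀ s, Up (fun i => ((CA.getD i 0 : ℤ) : ℝ) / den) N s = FJ J s / den := by
    intro s
    rw [← hJ, FJ_dens hl]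
  have hPh : ∀ s, PhiT N (fun i => ((CA.getD i 0 : ℤ) : ℝ) / den) s =
      FJ ((18, -D) :: sclL 2 J) s / den := by
    intro s
    unfold PhiT
    rw [hU]
    simp only [FJ]
    rw [FJ_sclL]
    unfold T1 HH
    push_cast
    have hDd : (D : ℝ) = 8 / 3 * den := by linarith
    rw [hDd]
    field_simp
  have bS : ∀ i < Y0, ∀ t ∈ ((18, -D) :: sclL 2 J : List (ℕ × ℤ)), t.1 + i + 1 < NT := by
    intro i hi t ht
    rcases List.mem_cons.1 ht with h | h
    · rw [h]; simp only; omega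
    · rw [sclL, List.mem_map] at h
      obtain ⟨t', ht', rfl⟩ := h
      have := hj t' ht'
      simp only
      omega
  have bE : ∀ i < Y0, ∀ t ∈ sclL (-1) J, t.1 + i + 1 < NT := by
    intro i hi t h
    rw [sclL, List.mem_map] at h
    obtain ⟨t', ht', rfl⟩ := h
    have := hj t' ht'
    simp only
    omega
  have hc0 : ∀ i, (0 : ℝ) ≤ ((CA.getD i 0 : ℤ) : ℝ) / den := by
    intro i
    have h : 0 ≤ CA.getD i 0 := by
      rcases lt_or_ge i CA.length with hi | hi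
      · rw [List.getD_eq_getElem _ _ hi]
        exact hCA _ (List.getElem_mem hi)
      · rw [List.getD_eq_default _ _ hi]
    have h' : (0 : ℝ) ≤ ((CA.getD i 0 : ℤ) : ℝ) := by exact_mod_cast h
    exact div_nonneg h' hdp.le
  have hm : ∑ i ∈ range N, ((CA.getD i 0 : ℤ) : ℝ) / den = 23 := by
    have h : ((sumZ N (fun i => CA.getD i 0) : ℤ) : ℝ) = ((23 * den : ℤ) : ℝ) := by rw [hmass]
    rw [sumZ_eq] at h
    rw [← Finset.sum_div, h]
    push_cast
    field_simp
  refine ⟨{ N := N, c := fun i => ((CA.getD i 0 : ℤ) : ℝ) / den, l := (l : ℝ) / 1000, Y0 := Y0,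
            sL := fun i => (((S i).1 : ℤ) : ℝ) / 1000,
            sR := fun i => (((S i).2 : ℤ) : ℝ) / 1000,
            eL := fun i => (((E i).1 : ℤ) : ℝ) / 1000,
            eR := fun i => (((E i).2 : ℤ) : ℝ) / 1000,
            N1 := hN1, cn := hc0, mass := hm, hY := by omega,
            sLn := ?_, sRn := ?_, site := ?_, tail := ?_, en := ?_, tot := ?_ }⟩
  · intro i hi
    have h := kP i hi
    simp only [Bool.and_eq_true, decide_eq_true_eq] at h
    have : (0 : ℝ) ≤ (((S i).1 : ℤ) : ℝ) := by exact_mod_cast h.1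
    positivity
  · intro i hi
    have h := kP i hi
    simp only [Bool.and_eq_true, decide_eq_true_eq] at h
    have : (0 : ℝ) ≤ (((S i).2 : ℤ) : ℝ) := by exact_mod_cast h.2
    positivity
  · intro i hi hi' s hs hs'
    have h := cell2_spec hT hden (bS i hi') (kS i hi hi') s hs hs'
    rw [hPh]
    push_cast at h
    calc _ ≤ _ := h
      _ = _ := by ring
  · intro s hs
    have h1 := tail_T hc0 hm hN h18 hs
    have h2 := tailT_spec h18 kT
    linarith
  · intro i hi hc s hs hs'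
    have hk := kE i hi
    rw [Bool.or_eq_true, decide_eq_true_eq] at hk
    have hne : CA.getD i 0 ≠ 0 := by
      intro h0
      apply hc
      simp only [h0]
      simp
    have hk' := hk.resolve_left hne
    have h := cell2_spec hT hden (bE i (by omega)) hk' s hs hs'
    simp only at h ⊢
    rw [FJ_sclL] at h
    rw [hU]
    push_cast at h
    calc -(FJ J s / den) = -1 * FJ J s / den := by ring
      _ ≤ _ := h
      _ = _ := by ring
  · have h' : ((totT N Y0 CA den l S E : ℤ) : ℝ) ≤ 6000 * den * A0 := by exact_mod_cast kTot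
    rw [totT] at h'
    push_cast [sumZ_eq] at h'
    have e1 : ∑ i ∈ range Y0, ((((S i).1 : ℤ) : ℝ) / 1000 + (((S i).2 : ℤ) : ℝ) / 1000) / 2 =
        (∑ i ∈ range Y0, ((((S i).1 : ℤ) : ℝ) + (((S i).2 : ℤ) : ℝ))) / 2000 := by
      rw [Finset.sum_div]
      exact Finset.sum_congr rfl fun i _ => by ring
    have e2 : ∑ i ∈ range N, ((CA.getD i 0 : ℤ) : ℝ) / den * (((((E i).1 : ℤ) : ℝ) / 1000 +
        (((E i).2 : ℤ) : ℝ) / 1000) / 2) = (∑ i ∈ range N, ((CA.getD i 0 : ℤ) : ℝ) *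
        ((((E i).1 : ℤ) : ℝ) + (((E i).2 : ℤ) : ℝ))) / (2000 * den) := by
      rw [Finset.sum_div]
      refine Finset.sum_congr rfl fun i _ => ?_
      field_simp
      ring
    rw [e1, e2]
    rw [← mul_le_mul_iff_right₀ (show (0 : ℝ) < 6000 * den by positivity)]
    refine le_trans (le_of_eq ?_) h'
    field_simp
    ring

end AC

end ZT
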