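import Pool.Agent.Lib.ZT.ArchTab
import Pool.Agent.Lib.ZT.ArchA

/-!
# The certificate for the archimedean side of `T2(15)`
-/

open Finset Set Z579 Z579.BE Z579.EM Z579.Arch Z579.Num

namespace ZT

namespace AC

set_option maxRecDepth 100000

def cD : List ℤ :=
  List.replicate 18 0 ++ List.replicate 18 1000 ++ List.replicate 1 963 ++ List.replicate 16 407
  ++ List.replicate 26 139 ++ List.replicate 42 57 ++ List.replicate 67 23 ++ List.replicate 107
  9 ++ List.replicate 171 3

def cJ : List (ℕ × ℤ) :=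
  [(18, -1000), (36, 37), (37, 556), (53, 268), (79, 82), (121, 34), (188, 14), (295, 6), (466,
  3)]

def cF : List (ℕ × ℤ) :=
  [(18, -4000), (18, -2000), (36, 74), (37, 1112), (53, 536), (79, 164), (121, 68), (188, 28),
  (295, 12), (466, 6)]

def cM : List (ℕ × ℤ) :=
  [(18, 1000), (36, -37), (37, -556), (53, -268), (79, -82), (121, -34), (188, -14), (295, -6),
  (466, -3)]

open Z579.BE.TT in
def tS : TT :=
  (n (n (n (n (n (n (l 0 0) (n (n (n (n (l 6713 4538) (l 0 0)) (l 0 0)) (l 0 0)) (l 0 0))) (l 0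
  0)) (n (n (l 0 0) (n (n (n (n (l 1753 1255) (l 0 0)) (l 0 0)) (l 0 0)) (l 0 0))) (n (n (n (n (n
  (l 39383 33585) (l 0 0)) (l 0 0)) (l 0 0)) (l 0 0)) (n (n (n (n (l 96 182) (l 0 0)) (l 0 0)) (l
  0 0)) (l 0 0))))) (n (n (n (l 0 0) (n (n (n (n (l 958 1576) (l 0 0)) (l 0 0)) (l 0 0)) (l 0
  0))) (n (n (n (n (n (l 70987 61383) (l 0 0)) (l 0 0)) (l 0 0)) (n (n (n (l 6 17) (l 0 0)) (l 0
  0)) (l 0 0))) (l 0 0))) (n (l 0 0) (n (n (n (n (n (l 19438 15646) (l 0 0)) (l 0 0)) (l 0 0)) (l
  0 0)) (n (n (n (n (l 126 53) (l 0 0)) (l 0 0)) (l 0 0)) (l 0 0)))))) (n (n (n (n (l 0 0) (n (n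
  (n (n (l 2794 1539) (l 0 0)) (l 0 0)) (l 0 0)) (l 0 0))) (n (n (n (n (n (l 99851 82664) (l 0
  0)) (l 0 0)) (l 0 0)) (l 0 0)) (l 0 0))) (n (n (l 0 0) (n (n (n (n (l 702 156) (l 0 0)) (l 0
  0)) (l 0 0)) (l 0 0))) (n (n (n (n (n (l 28367 23667) (l 0 0)) (l 0 0)) (l 0 0)) (l 0 0)) (n (n
  (n (n (l 199 179) (l 0 0)) (l 0 0)) (l 0 0)) (l 0 0))))) (n (n (n (l 0 0) (n (n (n (n (l 2361
  2208) (l 0 0)) (l 0 0)) (l 0 0)) (l 0 0))) (n (n (n (n (n (l 53118 45852) (l 0 0)) (l 0 0)) (l
  0 0)) (n (n (n (l 13 0) (l 0 0)) (l 0 0)) (l 0 0))) (l 0 0))) (n (l 0 0) (n (n (n (n (n (l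
  12269 9292) (l 0 0)) (l 0 0)) (l 0 0)) (l 0 0)) (l 0 0)))))) (n (n (n (n (n (l 0 0) (n (n (n (n
  (l 4538 2794) (l 0 0)) (l 0 0)) (l 0 0)) (l 0 0))) (l 0 0)) (n (n (l 0 0) (n (n (n (n (l 1247
  707) (l 0 0)) (l 0 0)) (l 0 0)) (l 0 0))) (n (n (n (n (n (l 33585 28367) (l 0 0)) (l 0 0)) (l 0
  0)) (l 0 0)) (n (n (n (n (l 178 201) (l 0 0)) (l 0 0)) (l 0 0)) (l 0 0))))) (n (n (n (l 0 0) (n
  (n (n (n (l 1830 2559) (l 0 0)) (l 0 0)) (l 0 0)) (l 0 0))) (n (n (n (n (n (l 61383 53118) (l 0
  0)) (l 0 0)) (l 0 0)) (n (n (n (l 16 14) (l 0 0)) (l 0 0)) (l 0 0))) (l 0 0))) (n (l 0 0) (n (n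
  (n (n (n (l 15646 12269) (l 0 0)) (l 0 0)) (l 0 0)) (l 0 0)) (n (n (n (n (l 52 0) (l 0 0)) (l 0
  0)) (l 0 0)) (l 0 0)))))) (n (n (n (n (l 0 0) (n (n (n (n (l 1539 940) (l 0 0)) (l 0 0)) (l 0
  0)) (l 0 0))) (n (n (n (n (n (l 82659 70987) (l 0 0)) (l 0 0)) (l 0 0)) (n (n (n (l 0 7) (l 0
  0)) (l 0 0)) (l 0 0))) (l 0 0))) (n (n (l 0 0) (n (n (n (n (l 154 0) (l 0 0)) (l 0 0)) (l 0 0))
  (l 0 0))) (n (n (n (n (n (l 23667 19438) (l 0 0)) (l 0 0)) (l 0 0)) (l 0 0)) (n (n (n (n (l 178
  127) (l 0 0)) (l 0 0)) (l 0 0)) (l 0 0))))) (n (n (n (l 0 0) (n (n (n (n (l 2161 1768) (l 0 0))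
  (l 0 0)) (l 0 0)) (l 0 0))) (n (n (n (n (n (l 45852 39383) (l 0 0)) (l 0 0)) (l 0 0)) (l 0 0))
  (n (n (n (n (l 0 104) (l 0 0)) (l 0 0)) (l 0 0)) (l 0 0)))) (n (l 0 0) (n (n (n (n (n (l 9292
  6713) (l 0 0)) (l 0 0)) (l 0 0)) (l 0 0)) (l 0 0)))))))

open Z579.BE.TT in
def tE : TT :=
  (n (n (n (n (n (n (n (n (n (l 0 0) (l 252697 252882)) (n (l 219578 219959) (l 272267 272391)))
  (n (n (l 185860 186570) (l 263571 263721)) (n (l 238982 239242) (l 279651 279760)))) (n (n (n
  (l 153882 154458) (l 258348 258519)) (n (l 230106 230397) (l 276081 276196))) (n (n (l 205627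
  206104) (l 268131 268266)) (n (l 246400 246610) (l 0 0))))) (n (n (n (n (l 0 0) (l 255579
  255755)) (n (l 225190 225513) (l 274210 274328))) (n (n (l 196783 197458) (l 265912 266054)) (n
  (l 242881 243110) (l 281385 281495)))) (n (n (n (l 170644 171576) (l 261076 261237)) (n (l
  234604 234876) (l 277891 278002))) (n (n (l 212779 213203) (l 270245 270374)) (n (l 249653
  249848) (l 0 0)))))) (n (n (n (n (n (l 0 0) (l 254156 254336)) (n (l 222498 222845) (l 273248
  273369))) (n (n (l 191274 191927) (l 264758 264904)) (n (l 240992 241234) (l 280518 280626))))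
  (n (n (n (l 163212 164237) (l 259741 259914)) (n (l 232394 232674) (l 276993 277106))) (n (n (l
  209313 209755) (l 269200 269332)) (n (l 248055 248258) (l 0 0))))) (n (n (n (n (l 153654
  153260) (l 256974 257146)) (n (l 227714 228019) (l 275153 275270))) (n (n (l 201566 202102) (l
  267036 267174)) (n (l 244678 244897) (l 0 0)))) (n (n (n (l 179411 180334) (l 262346 262501))
  (n (l 236773 237045) (l 278777 278886))) (n (n (l 216194 216664) (l 271267 271393)) (n (l
  251198 251388) (l 0 0))))))) (n (n (n (n (n (n (l 0 0) (l 253432 253614)) (n (l 221072 221434)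
  (l 272760 272882))) (n (n (l 188630 189299) (l 264169 264317)) (n (l 240005 240255) (l 280086
  280194)))) (n (n (n (l 157171 158921) (l 259034 259207)) (n (l 231261 231546) (l 276539
  276653))) (n (n (l 207506 207963) (l 268669 268802)) (n (l 247235 247442) (l 0 0))))) (n (n (n
  (n (l 156910 155763) (l 256280 256454)) (n (l 226470 226784) (l 274684 274801))) (n (n (l
  199314 199896) (l 266478 266618)) (n (l 243790 244014) (l 0 0)))) (n (n (n (l 174597 175939) (l
  261717 261875)) (n (l 235690 235961) (l 278335 278446))) (n (n (l 214475 214900) (l 270759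
  270886)) (n (l 250431 250624) (l 0 0)))))) (n (n (n (n (n (l 0 0) (l 254872 255050)) (n (l
  223868 224202) (l 273731 273851))) (n (n (l 193894 194566) (l 265339 265483)) (n (l 241949
  242184) (l 280951 281059)))) (n (n (n (l 167047 167944) (l 260420 260585)) (n (l 233507 233782)
  (l 277444 277556))) (n (n (l 211065 211496) (l 269725 269856)) (n (l 248861 249060) (l 0 0)))))
  (n (n (n (n (l 152831 152920) (l 257662 257834)) (n (l 228924 229222) (l 275619 275735))) (n (n
  (l 203656 204158) (l 267587 267723)) (n (l 245548 245763) (l 0 0)))) (n (n (n (l 182855 183636)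
  (l 262963 263116)) (n (l 237887 238176) (l 279215 279324))) (n (n (l 217991 218399) (l 271770
  271895)) (n (l 251953 252140) (l 0 0)))))))) (n (n (n (n (n (n (n (l 0 0) (l 253066 253249)) (n
  (l 220335 220706) (l 272514 272637))) (n (n (l 187267 187953) (l 263871 264020)) (n (l 239499
  239753) (l 279869 279977)))) (n (n (n (l 155174 156090) (l 258691 258862)) (n (l 230687 230975)
  (l 276310 276425))) (n (n (l 206576 207043) (l 268401 268535)) (n (l 246820 247028) (l 0 0)))))
  (n (n (n (n (l 160689 158226) (l 255930 256105)) (n (l 225835 226154) (l 274447 274566))) (n (n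
  (l 198099 198716) (l 266196 266337)) (n (l 243338 243565) (l 0 0)))) (n (n (n (l 172535 173552)
  (l 261398 261558)) (n (l 235148 235419) (l 278114 278225))) (n (n (l 213627 214051) (l 270502
  270631)) (n (l 250044 250238) (l 0 0)))))) (n (n (n (n (n (l 0 0) (l 254515 254694)) (n (l
  223189 223530) (l 273490 273611))) (n (n (l 192579 193234) (l 265050 265195)) (n (l 241474
  241712) (l 280734 280843)))) (n (n (n (l 165206 166138) (l 260084 260253)) (n (l 232953 233230)
  (l 277219 277331))) (n (n (l 210195 210631) (l 269463 269595)) (n (l 248460 248661) (l 0 0)))))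
  (n (n (n (n (l 152998 152856) (l 257319 257491)) (n (l 228323 228625) (l 275387 275503))) (n (n
  (l 202628 203146) (l 267312 267450)) (n (l 245115 245332) (l 0 0)))) (n (n (n (l 181209 182048)
  (l 262656 262810)) (n (l 237319 237597) (l 278996 279106))) (n (n (l 217140 217573) (l 271519
  271644)) (n (l 251577 251765) (l 0 0))))))) (n (n (n (n (n (n (l 0 0) (l 253795 253976)) (n (l
  221793 222147) (l 273005 273126))) (n (n (l 189962 190620) (l 264465 264612)) (n (l 240503
  240748) (l 280302 280410)))) (n (n (n (l 160822 162097) (l 259381 259560)) (n (l 231830 232113)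
  (l 276766 276880))) (n (n (l 208417 208867) (l 268935 269068)) (n (l 247647 247852) (l 0 0)))))
  (n (n (n (n (l 154887 154186) (l 256627 256801)) (n (l 227096 227406) (l 274919 275036))) (n (n
  (l 200465 201021) (l 266757 266897)) (n (l 244237 244458) (l 0 0)))) (n (n (n (l 177341 178425)
  (l 262033 262190)) (n (l 236231 236502) (l 278556 278667))) (n (n (l 215328 215760) (l 271013
  271140)) (n (l 250816 251008) (l 0 0)))))) (n (n (n (n (n (l 0 0) (l 255227 255403)) (n (l
  224534 224863) (l 273971 274090))) (n (n (l 195243 196006) (l 265627 265770)) (n (l 242418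
  242650) (l 281167 281276)))) (n (n (n (l 168837 169735) (l 260750 260913)) (n (l 234057 234331)
  (l 277668 277780))) (n (n (l 211925 212353) (l 269986 270116)) (n (l 249258 249456) (l 0 0)))))
  (n (n (n (n (l 153122 153442) (l 258005 258177)) (n (l 229519 229813) (l 275851 275966))) (n (n
  (l 204654 205143) (l 267860 267995)) (n (l 245976 246188) (l 0 0)))) (n (n (n (l 184396 185136)
  (l 263268 263420)) (n (l 238450 238718) (l 279434 279543))) (n (n (l 218799 219192) (l 272019
  272143)) (n (l 252327 252512) (l 0 0))))))))) (n (n (n (n (n (n (n (n (l 0 0) (l 252882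
  253066)) (n (l 219959 220335) (l 272391 272514))) (n (n (l 186570 187267) (l 263721 263871)) (n
  (l 239242 239499) (l 279760 279869)))) (n (n (n (l 154454 155183) (l 258519 258691)) (n (l
  230397 230687) (l 276196 276310))) (n (n (l 206104 206576) (l 268266 268401)) (n (l 246610
  246820) (l 0 0))))) (n (n (n (n (l 0 0) (l 255755 255930)) (n (l 225513 225835) (l 274328
  274447))) (n (n (l 197458 198099) (l 266054 266196)) (n (l 243110 243338) (l 281495 281607))))
  (n (n (n (l 171574 172539) (l 261237 261398)) (n (l 234876 235148) (l 278002 278114))) (n (n (l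
  213203 213627) (l 270374 270502)) (n (l 249848 250044) (l 0 0)))))) (n (n (n (n (n (l 0 0) (l
  254336 254515)) (n (l 222845 223189) (l 273369 273490))) (n (n (l 191926 192579) (l 264904
  265050)) (n (l 241234 241474) (l 280626 280734)))) (n (n (n (l 164237 165206) (l 259914
  260084)) (n (l 232674 232953) (l 277106 277219))) (n (n (l 209755 210195) (l 269332 269463)) (n
  (l 248258 248460) (l 0 0))))) (n (n (n (n (l 153261 152997) (l 257146 257319)) (n (l 228019
  228323) (l 275270 275387))) (n (n (l 202102 202628) (l 267174 267312)) (n (l 244897 245115) (l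
  0 0)))) (n (n (n (l 180334 181209) (l 262501 262656)) (n (l 237045 237319) (l 278886 278996)))
  (n (n (l 216673 217140) (l 271393 271519)) (n (l 251388 251577) (l 0 0))))))) (n (n (n (n (n (n
  (l 0 0) (l 253614 253795)) (n (l 221434 221793) (l 272882 273005))) (n (n (l 189299 189962) (l
  264317 264465)) (n (l 240255 240503) (l 280194 280302)))) (n (n (n (l 159059 160818) (l 259207
  259382)) (n (l 231546 231830) (l 276653 276766))) (n (n (l 207963 208417) (l 268802 268935)) (n
  (l 247442 247647) (l 0 0))))) (n (n (n (n (l 155776 154880) (l 256454 256627)) (n (l 226784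
  227096) (l 274801 274919))) (n (n (l 199896 200465) (l 266618 266757)) (n (l 244014 244237) (l
  0 0)))) (n (n (n (l 176005 177341) (l 261875 262033)) (n (l 235961 236231) (l 278446 278556)))
  (n (n (l 214900 215328) (l 270886 271013)) (n (l 250624 250816) (l 0 0)))))) (n (n (n (n (n (l
  0 0) (l 255050 255227)) (n (l 224202 224534) (l 273851 273971))) (n (n (l 194563 195257) (l
  265483 265627)) (n (l 242184 242418) (l 281059 281168)))) (n (n (n (l 167944 168838) (l 260585
  260750)) (n (l 233782 234057) (l 277556 277668))) (n (n (l 211496 211925) (l 269856 269986)) (n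
  (l 249060 249258) (l 0 0))))) (n (n (n (n (l 152920 153123) (l 257834 258005)) (n (l 229222
  229519) (l 275735 275851))) (n (n (l 204158 204654) (l 267723 267860)) (n (l 245763 245976) (l
  0 0)))) (n (n (n (l 183636 184396) (l 263116 263268)) (n (l 238176 238450) (l 279324 279434)))
  (n (n (l 218399 218799) (l 271895 272019)) (n (l 252140 252327) (l 0 0)))))))) (n (n (n (n (n
  (n (n (l 0 0) (l 253249 253432)) (n (l 220706 221072) (l 272637 272760))) (n (n (l 187953
  188630) (l 264020 264169)) (n (l 239753 240005) (l 279977 280086)))) (n (n (n (l 156061 157252)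
  (l 258862 259034)) (n (l 230975 231261) (l 276425 276539))) (n (n (l 207043 207506) (l 268535
  268669)) (n (l 247028 247235) (l 0 0))))) (n (n (n (n (l 158387 156869) (l 256105 256280)) (n
  (l 226154 226470) (l 274566 274684))) (n (n (l 198716 199314) (l 266337 266478)) (n (l 243565
  243790) (l 0 0)))) (n (n (n (l 173540 174641) (l 261558 261717)) (n (l 235419 235690) (l 278225
  278335))) (n (n (l 214051 214475) (l 270631 270759)) (n (l 250238 250431) (l 0 0)))))) (n (n (n
  (n (n (l 0 0) (l 254694 254872)) (n (l 223530 223868) (l 273611 273731))) (n (n (l 193234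
  193895) (l 265195 265339)) (n (l 241712 241949) (l 280843 280951)))) (n (n (n (l 166138 167047)
  (l 260253 260420)) (n (l 233230 233507) (l 277331 277444))) (n (n (l 210631 211065) (l 269595
  269725)) (n (l 248661 248861) (l 0 0))))) (n (n (n (n (l 152857 152831) (l 257491 257662)) (n
  (l 228625 228924) (l 275503 275619))) (n (n (l 203146 203656) (l 267450 267587)) (n (l 245332
  245548) (l 0 0)))) (n (n (n (l 182048 182855) (l 262810 262963)) (n (l 237594 237884) (l 279106
  279215))) (n (n (l 217573 217991) (l 271644 271770)) (n (l 251765 251953) (l 0 0))))))) (n (n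
  (n (n (n (n (l 0 0) (l 253976 254156)) (n (l 222147 222498) (l 273126 273248))) (n (n (l 190620
  191274) (l 264612 264758)) (n (l 240748 240992) (l 280410 280518)))) (n (n (n (l 162097 163212)
  (l 259562 259741)) (n (l 232113 232394) (l 276880 276993))) (n (n (l 208867 209313) (l 269068
  269200)) (n (l 247852 248055) (l 0 0))))) (n (n (n (n (l 154189 153652) (l 256801 256974)) (n
  (l 227406 227714) (l 275036 275153))) (n (n (l 201021 201566) (l 266897 267036)) (n (l 244458
  244678) (l 0 0)))) (n (n (n (l 178425 179411) (l 262190 262346)) (n (l 236502 236773) (l 278667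
  278777))) (n (n (l 215759 216200) (l 271140 271267)) (n (l 251008 251198) (l 0 0)))))) (n (n (n
  (n (n (l 0 0) (l 255403 255579)) (n (l 224863 225190) (l 274090 274210))) (n (n (l 196026
  196783) (l 265770 265912)) (n (l 242650 242881) (l 281276 281385)))) (n (n (n (l 169734 170645)
  (l 260913 261076)) (n (l 234331 234604) (l 277780 277891))) (n (n (l 212353 212779) (l 270116
  270245)) (n (l 249456 249653) (l 0 0))))) (n (n (n (n (l 153441 153884) (l 258177 258348)) (n
  (l 229813 230106) (l 275966 276081))) (n (n (l 205143 205627) (l 267995 268131)) (n (l 246188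
  246400) (l 0 0)))) (n (n (n (l 185136 185860) (l 263420 263571)) (n (l 238718 238982) (l 279543
  279651))) (n (n (l 219192 219578) (l 272143 272267)) (n (l 252512 252697) (l 0 0))))))))))

def fS (i : ℕ) : ℤ × ℤ := tS.get i

def fE (i : ℕ) : ℤ × ℤ := tE.get i

lemma hJ : jl 0 0 cD = cJ := by decide +kernel

lemma hF : (18, -(4000)) :: sclL 2 cJ = cF := by decide +kernel

lemma hM : sclL (-1) cJ = cM := by decide +kernel

lemma hj : ∀ t ∈ cJ, t.1 ≤ 466 := by decide +kernel

lemma hlen : cD.length = 466 := by decide +kernel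

lemma hnn : ∀ x ∈ cD, 0 ≤ x := by decide +kernel

lemma hmass : sumZ 466 (fun i => cD.getD i 0) = 23 * 1500 := by decide +kernel

def chS (i : ℕ) : Bool :=
  cell2 gG cF 1500 i (-25988 + (fS i).1) (-25988 + (fS i).2)

def chP (i : ℕ) : Bool := decide (0 ≤ (fS i).1) && decide (0 ≤ (fS i).2)

def chE (i : ℕ) : Bool := decide (cD.getD i 0 = 0) ||
  cell2 gG cM 1500 i (-(fE i).1) (-(fE i).2)

lemma hS_0 : allB 100 (fun i => chS (18 + i)) = true := by decide +kernel

lemma hS_1 : allB 100 (fun i => chS (118 + i)) = true := by decide +kernel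

lemma hS_2 : allB 100 (fun i => chS (218 + i)) = true := by decide +kernel

lemma hS_3 : allB 100 (fun i => chS (318 + i)) = true := by decide +kernel

lemma hS_4 : allB 100 (fun i => chS (418 + i)) = true := by decide +kernel

lemma hS_5 : allB 100 (fun i => chS (518 + i)) = true := by decide +kernel

lemma hS_6 : allB 51 (fun i => chS (618 + i)) = true := by decide +kernel

lemma hP : allB 669 chP = true := by decide +kernel

lemma hE_0 : allB 100 (fun i => chE (0 + i)) = true := by decide +kernel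

lemma hE_1 : allB 100 (fun i => chE (100 + i)) = true := by decide +kernel

lemma hE_2 : allB 100 (fun i => chE (200 + i)) = true := by decide +kernel

lemma hE_3 : allB 100 (fun i => chE (300 + i)) = true := by decide +kernel

lemma hE_4 : allB 66 (fun i => chE (400 + i)) = true := by decide +kernel

lemma hTail : tailT 669 (-25988) = true := by decide +kernel

lemma hTot : totT 466 669 cD 1500 (-25988) fS fE ≤ 6000 * 1500 * (-4160) := by decide +kernel

theorem hasCertZ : Nonempty (ACert ((-4160 : ℤ) : ℝ)) := by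
  refine mk_acert (CA := cD) (den := 1500) (D := 4000) (N := 466) (by norm_num) (by norm_num)
    (by norm_num) hlen hnn hmass hJ tabG (Y0 := 669) (by norm_num) (by norm_num) (by norm_num)
    (by norm_num) hj (-25988) fS fE ?_ ?_ ?_ hTail hTot
  · intro i hi hi'
    rw [hF]
    rcases lt_or_ge i 118 with h | h
    · obtain ⟨j, rfl⟩ : ∃ j, i = 18 + j := ⟨i - 18, by omega⟩
      exact allB_spec hS_0 j (by omega)
    rcases lt_or_ge i 218 with h | h
    · obtain ⟨j, rfl⟩ : ∃ j, i = 118 + j := ⟨i - 118, by omega⟩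
      exact allB_spec hS_1 j (by omega)
    rcases lt_or_ge i 318 with h | h
    · obtain ⟨j, rfl⟩ : ∃ j, i = 218 + j := ⟨i - 218, by omega⟩
      exact allB_spec hS_2 j (by omega)
    rcases lt_or_ge i 418 with h | h
    · obtain ⟨j, rfl⟩ : ∃ j, i = 318 + j := ⟨i - 318, by omega⟩
      exact allB_spec hS_3 j (by omega)
    rcases lt_or_ge i 518 with h | h
    · obtain ⟨j, rfl⟩ : ∃ j, i = 418 + j := ⟨i - 418, by omega⟩
      exact allB_spec hS_4 j (by omega)
    rcases lt_or_ge i 618 with h | h
    · obtain ⟨j, rfl⟩ : ∃ j, i = 518 + j := ⟨i - 518, by omega⟩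
      exact allB_spec hS_5 j (by omega)
    rcases lt_or_ge i 669 with h | h
    · obtain ⟨j, rfl⟩ : ∃ j, i = 618 + j := ⟨i - 618, by omega⟩
      exact allB_spec hS_6 j (by omega)
    omega
  · exact fun i hi => allB_spec hP i hi
  · intro i hi
    rw [hM]
    rcases lt_or_ge i 100 with h | h
    · obtain ⟨j, rfl⟩ : ∃ j, i = 0 + j := ⟨i - 0, by omega⟩
      exact allB_spec hE_0 j (by omega)
    rcases lt_or_ge i 200 with h | h
    · obtain ⟨j, rfl⟩ : ∃ j, i = 100 + j := ⟨i - 100, by omega⟩
      exact allB_spec hE_1 j (by omega)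
    rcases lt_or_ge i 300 with h | h
    · obtain ⟨j, rfl⟩ : ∃ j, i = 200 + j := ⟨i - 200, by omega⟩
      exact allB_spec hE_2 j (by omega)
    rcases lt_or_ge i 400 with h | h
    · obtain ⟨j, rfl⟩ : ∃ j, i = 300 + j := ⟨i - 300, by omega⟩
      exact allB_spec hE_3 j (by omega)
    rcases lt_or_ge i 466 with h | h
    · obtain ⟨j, rfl⟩ : ∃ j, i = 400 + j := ⟨i - 400, by omega⟩
      exact allB_spec hE_4 j (by omega)
    omega

end AC

theorem hasCert : HasCert := by
  have h := AC.hasCertZ
  unfold HasCert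
  push_cast at h
  exact h

end ZT
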