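import Pool.Agent.Lib.ZT.ArchO
import Pool.Agent.Lib.ZT.ArchC

/-!
# Archimedean side of `T2(15)`: the bound `ArchTot (-2099)`
-/

open Polynomial Finset Z579

namespace ZT

lemma ArchTot.mono {A B : ℝ} (hAB : A ≤ B) (h : ArchTot A) : ArchTot B := by
  intro c δ hδ
  obtain ⟨k0, hk⟩ := h c δ hδ
  refine ⟨k0, fun k hk' => (hk k hk').trans ?_⟩
  apply Real.exp_le_exp.2
  apply mul_le_mul_of_nonneg_left _ (by positivity)
  linarith

lemma log_six_le : 1150 * Real.log 6 ≤ 2061 := by
  have h := (Num.lgI_bounds 6 (by norm_num)).2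
  have h1 : 1150 * (Num.lgI 6).2 ≤ 2061 * 4294967296 := by decide +kernel
  have h2 : (1150 : ℝ) * (((Num.lgI 6).2 : ℤ) : ℝ) ≤ 2061 * 4294967296 := by exact_mod_cast h1
  push_cast at h
  linarith

theorem archTot : ArchTot (-2099) := by
  refine (archOf _ hasCert).mono ?_
  have := log_six_le
  linarith

end ZT
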