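import Pool.Agent.Lib.ZT.Defs
import Pool.Agent.Lib.Z579.BE5

/-!
# Archimedean side of `T2(15)`: definitions and module statements (one block, coordinate `y = 6 v`)

`momT_n = ∑_t γ(t+1) R(x_t) (y_t^2)^n`, `y_t = 6 (a-1) + t + 1 = 6 x_t`, so
`mom_n = 36^(-n) momT_n` and `hankS mom K = 36^(-K(K-1)) hankS momT K`.
In the scale `k` (`a = 3k+2`, `K = 23k+12`): sites `y > 18 k`, `y mod 6 ∈ {0,2,3,4}` (density `2/3`,
used at most once), weight exponent `-(8/3) HH 18 s` (+ the constant `96 k log 6` per column).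
-/

open Polynomial Finset Z579

namespace ZT

/-- the sites `y = 6 v` -/
def sT (a : ℕ) : Set ℕ := {y | 6 * (a - 1) < y ∧ y % 6 ≠ 1 ∧ y % 6 ≠ 5}

/-- the weights at the sites -/
noncomputable def wT (a y : ℕ) : ℝ := (1 + (y : ℝ)) ^ 2 * |Rr a ((y : ℝ) / 6)|

/-- the moments in the coordinate `y = 6 v` -/
noncomputable def momT (c : ℤ × ℤ × ℤ) (a n : ℕ) : ℂ :=
  ∑' t : ℕ, (gam c (t + 1) : ℂ) * ((Rr a (xp a t) : ℝ) : ℂ) *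
    (((6 * (a - 1) + (t + 1) : ℕ) : ℂ) ^ 2) ^ n

/-- A1 (analogue of `BE.entryA`): the entries -/
def EntryT : Prop := ∀ c : ℤ × ℤ × ℤ, ∃ C : ℝ, 0 ≤ C ∧ ∀ (a K : ℕ) (U : ℕ → ℝ) (Z Z' : List ℕ)
  (V V' : ℝ), 1 ≤ a → 4 * K + 17 ≤ 32 * a → Z.length < K → Z'.length < K → 0 ≤ V → 0 ≤ V' →
  (∀ y, BE.av (6 * (a - 1) + 1) Set.univ Z y → BE.valN (fun y => Real.exp (-U y)) Z y ≤ V) →
  (∀ y, BE.av (6 * (a - 1) + 1) (sT a) Z' y →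
    BE.valN (fun y => wT a y * Real.exp (U y)) Z' y ≤ V') →
  ‖EM.LC (momT c a) (BE.PN Z * BE.PN Z')‖ ≤ C * V * V'

/-- A1b (analogue of `BE.wA_bdd`) -/
def BddT : Prop := ∀ a K : ℕ, 1 ≤ a → 4 * K + 17 ≤ 32 * a →
  ∃ W : ℝ, ∀ y ∈ sT a, wT a y * (1 + (y : ℝ) ^ 2) ^ (2 * K - 1) ≤ W

/-- A2 (analogue of `BE.wA_le`, `wt2_bound`): the weights in the scale `k` -/
def WgtT : Prop := ∃ C : ℝ, 0 ≤ C ∧ ∀ k y : ℕ, 1 ≤ k → y ∈ sT (pa k) →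
  wT (pa k) y ≤ Real.exp (-(8 / 3 * (k * BE.HH 18 (y / k) + 36 * (k * Real.log k))) +
    96 * k * Real.log 6 + C * Real.log (k + 1 + y))

/-- weighted potential -/
noncomputable def PhiT (N : ℕ) (c : ℕ → ℝ) (s : ℝ) : ℝ := -(8 / 3 * BE.HH 18 s) + 2 * BE.Up c N s

/-- numerical data for the archimedean bound -/
structure ACert (A0 : ℝ) where
  N : ℕ
  c : ℕ → ℝ
  l : ℝ
  Y0 : ℕ
  sL : ℕ → ℝ
  sR : ℕ → ℝ
  eL : ℕ → ℝ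
  eR : ℕ → ℝ
  N1 : 1 ≤ N
  cn : ∀ i, 0 ≤ c i
  mass : ∑ i ∈ range N, c i = 23
  hY : 1 ≤ Y0
  sLn : ∀ i < Y0, 0 ≤ sL i
  sRn : ∀ i < Y0, 0 ≤ sR i
  site : ∀ i, 18 ≤ i → i < Y0 → EM.CellLe (PhiT N c) i (l + sL i) (l + sR i)
  tail : ∀ s : ℝ, (Y0 : ℝ) ≤ s → PhiT N c s ≤ l - (Real.log s - Real.log Y0)
  en : ∀ i < N, c i ≠ 0 → EM.CellLe (fun s => -BE.Up c N s) i (-eL i) (-eR i)
  tot : 23 * l + 2 / 3 * ∑ i ∈ range Y0, (sL i + sR i) / 2 -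
    ∑ i ∈ range N, c i * ((eL i + eR i) / 2) ≤ A0

/-- A3: the bound from a certificate -/
def ArchOf : Prop := ∀ A0 : ℝ, Nonempty (ACert A0) → ArchTot (A0 + 1150 * Real.log 6)

/-- A4: a certificate (the optimum is about `-4182.6`; `-4159.6` suffices) -/
def HasCert : Prop := Nonempty (ACert (-4160))

end ZT
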