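import Pool.Agent.Lib.ZT.ArchDefs

/-!
# Entries of the determinant (port of `Z579/BE3.lean`)
-/

open Polynomial Finset Z579

namespace ZT

private lemma factorT_ge {a y : ℕ} (ha : 1 ≤ a) (hay : 6 * (a - 1) + 1 ≤ y) {w : ℤ} (hw : w ∈ pc a) :
    ((1 : ℝ) + y) / (36 * a) ≤ (y : ℝ) / 6 + (w : ℝ) := by
  rw [mem_pc] at hw
  have hw1 : (1 : ℝ) - a ≤ (w : ℝ) := by exact_mod_cast hw.1
  have ha' : (1 : ℝ) ≤ a := by exact_mod_cast ha
  have hy : (6 : ℝ) * a - 5 ≤ y := by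
    have h : 6 * a ≤ y + 5 := by omega
    have h' : (6 : ℝ) * a ≤ y + 5 := by exact_mod_cast h
    linarith
  rw [div_le_iff₀ (by linarith)]
  have h1 : (y : ℝ) / 6 + (1 - a) ≤ (y : ℝ) / 6 + (w : ℝ) := by linarith
  have h2 : (1 : ℝ) + y ≤ ((y : ℝ) / 6 + (1 - a)) * (36 * a) := by
    nlinarith [mul_nonneg (sub_nonneg.2 hy) (sub_nonneg.2 ha')]
  exact h2.trans (mul_le_mul_of_nonneg_right h1 (by linarith))

private lemma Rr_decay {a y : ℕ} (ha : 1 ≤ a) (hay : 6 * (a - 1) + 1 ≤ y) :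
    |Rr a ((y : ℝ) / 6)| ≤ (36 * (a : ℝ)) ^ (16 * (2 * a - 1)) * (1 + (y : ℝ)) /
      (1 + (y : ℝ)) ^ (16 * (2 * a - 1)) := by
  have ha' : (1 : ℝ) ≤ a := by exact_mod_cast ha
  have hy0 : (0 : ℝ) ≤ y := Nat.cast_nonneg y
  have hprod : (((1 : ℝ) + y) / (36 * a)) ^ (2 * a - 1) ≤ ∏ w ∈ pc a, ((y : ℝ) / 6 + (w : ℝ)) := by
    calc (((1 : ℝ) + y) / (36 * a)) ^ (2 * a - 1) = ∏ w ∈ pc a, (((1 : ℝ) + y) / (36 * a)) := by
          rw [Finset.prod_const, card_pc ha]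
      _ ≤ _ := Finset.prod_le_prod (fun _ _ => by positivity) fun w hw => factorT_ge ha hay hw
  have hp : (0 : ℝ) < (((1 : ℝ) + y) / (36 * a)) ^ (2 * a - 1) := by positivity
  have hP := hp.trans_le hprod
  unfold Rr
  rw [abs_div, abs_of_nonneg (by positivity : (0 : ℝ) ≤ 2 * ((y : ℝ) / 6)),
    abs_of_pos (pow_pos hP 16)]
  have h3 : 2 * ((y : ℝ) / 6) / (∏ w ∈ pc a, ((y : ℝ) / 6 + (w : ℝ))) ^ 16 ≤
      (1 + (y : ℝ)) / ((((1 : ℝ) + y) / (36 * a)) ^ (2 * a - 1)) ^ 16 := by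
    apply div_le_div₀ (by positivity) (by linarith) (by positivity)
    exact pow_le_pow_left₀ hp.le hprod 16
  refine h3.trans (le_of_eq ?_)
  rw [← pow_mul, div_pow, mul_comm (2 * a - 1) 16]
  field_simp

private lemma Rr_decay' {a y k : ℕ} (ha : 1 ≤ a) (hay : 6 * (a - 1) + 1 ≤ y)
    (hk : 2 * k + 3 ≤ 16 * (2 * a - 1)) :
    |Rr a ((y : ℝ) / 6)| * (1 + (y : ℝ) ^ 2) ^ k ≤
      (36 * (a : ℝ)) ^ (16 * (2 * a - 1)) * (1 / (1 + (y : ℝ)) ^ 2) := by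
  have h := Rr_decay ha hay
  set N := 16 * (2 * a - 1) with hN
  obtain ⟨j, hj⟩ : ∃ j, N = 2 * k + 3 + j := ⟨N - (2 * k + 3), by omega⟩
  have hy0 : (0 : ℝ) ≤ y := Nat.cast_nonneg y
  have h1 : (1 + (y : ℝ) ^ 2) ^ k ≤ (1 + (y : ℝ)) ^ (2 * k) := by
    rw [pow_mul]
    apply pow_le_pow_left₀ (by positivity)
    nlinarith
  calc |Rr a ((y : ℝ) / 6)| * (1 + (y : ℝ) ^ 2) ^ k
      ≤ ((36 * (a : ℝ)) ^ N * (1 + (y : ℝ)) / (1 + (y : ℝ)) ^ N) * (1 + (y : ℝ)) ^ (2 * k) :=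
        mul_le_mul h h1 (by positivity) (by positivity)
    _ = (36 * (a : ℝ)) ^ N * (1 / ((1 + (y : ℝ)) ^ 2 * (1 + (y : ℝ)) ^ j)) := by
        have : (1 + (y : ℝ)) ^ N = (1 + (y : ℝ)) * (1 + (y : ℝ)) ^ (2 * k) * (1 + (y : ℝ)) ^ 2 *
            (1 + (y : ℝ)) ^ j := by
          rw [hj, pow_add, pow_add]; ring
        rw [this]
        field_simp
    _ ≤ _ := by
        apply mul_le_mul_of_nonneg_left _ (by positivity)
        apply div_le_div_of_nonneg_left (by norm_num) (by positivity)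
        exact le_mul_of_one_le_right (by positivity) (one_le_pow₀ (by linarith))

/-- the constant of the coefficients -/
private noncomputable def Cc (c : ℤ × ℤ × ℤ) : ℝ := |(c.1 : ℝ)| + |(c.2.1 : ℝ)| + |(c.2.2 : ℝ)|

private lemma Cc_nonneg (c : ℤ × ℤ × ℤ) : 0 ≤ Cc c := by unfold Cc; positivity

private lemma norm_gam_le (c : ℤ × ℤ × ℤ) (n : ℕ) : ‖((gam c n : ℤ) : ℂ)‖ ≤ Cc c := by
  have h1 := abs_nonneg (c.1 : ℝ)
  have h2 := abs_nonneg (c.2.1 : ℝ)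
  have h3 := abs_nonneg (c.2.2 : ℝ)
  unfold gam Cc
  split_ifs
  · rw [Complex.norm_intCast]; linarith
  · rw [Complex.norm_intCast]; linarith
  · rw [Complex.norm_intCast]; linarith
  · simp only [Int.cast_zero, norm_zero]; linarith

private lemma gam_zero {c : ℤ × ℤ × ℤ} {n : ℕ} (h : n % 6 = 1 ∨ n % 6 = 5) : gam c n = 0 := by
  unfold gam
  rw [if_neg (by omega), if_neg (by omega), if_neg (by omega)]

private lemma xp_eq {a t : ℕ} (ha : 1 ≤ a) :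
    xp a t = ((6 * (a - 1) + (t + 1) : ℕ) : ℝ) / 6 := by
  unfold xp
  push_cast [Nat.cast_sub ha]
  ring

private lemma one_div_le_site {a t : ℕ} :
    1 / (1 + ((6 * (a - 1) + (t + 1) : ℕ) : ℝ)) ^ 2 ≤ 1 / ((t : ℝ) + 1) ^ 2 := by
  apply div_le_div_of_nonneg_left (by norm_num) (by positivity)
  apply pow_le_pow_left₀ (by positivity)
  have h : t + 1 ≤ 1 + (6 * (a - 1) + (t + 1)) := by omega
  exact_mod_cast h

private lemma summable_momT (c : ℤ × ℤ × ℤ) {a k : ℕ} (ha : 1 ≤ a)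
    (hk : 2 * k + 3 ≤ 16 * (2 * a - 1)) :
    Summable fun t : ℕ => (gam c (t + 1) : ℂ) * ((Rr a (xp a t) : ℝ) : ℂ) *
      (((6 * (a - 1) + (t + 1) : ℕ) : ℂ) ^ 2) ^ k := by
  refine Summable.of_norm_bounded (g := fun t : ℕ =>
    Cc c * ((36 * (a : ℝ)) ^ (16 * (2 * a - 1)) * (1 / ((t : ℝ) + 1) ^ 2)))
    ((BE.summable_site.mul_left _).mul_left _) fun t => ?_
  rw [norm_mul, norm_mul, norm_pow, norm_pow, Complex.norm_natCast, Complex.norm_real,
    Real.norm_eq_abs, xp_eq ha, mul_assoc]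
  have h1 := Rr_decay' (k := k) ha (y := 6 * (a - 1) + (t + 1)) (by omega) hk
  have h2 : ((((6 * (a - 1) + (t + 1) : ℕ) : ℝ)) ^ 2) ^ k ≤
      (1 + ((6 * (a - 1) + (t + 1) : ℕ) : ℝ) ^ 2) ^ k :=
    pow_le_pow_left₀ (by positivity) (by linarith) k
  refine mul_le_mul (norm_gam_le c _) ?_ (by positivity) (Cc_nonneg c)
  refine (mul_le_mul_of_nonneg_left h2 (abs_nonneg _)).trans (h1.trans ?_)
  exact mul_le_mul_of_nonneg_left one_div_le_site (by positivity)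

private theorem LC_momT (c : ℤ × ℤ × ℤ) {a D : ℕ} (ha : 1 ≤ a)
    (hD : 2 * D + 3 ≤ 16 * (2 * a - 1)) (G : ℂ[X]) (hG : G.natDegree ≤ D) :
    HasSum (fun t : ℕ => (gam c (t + 1) : ℂ) * ((Rr a (xp a t) : ℝ) : ℂ) *
      G.eval (((6 * (a - 1) + (t + 1) : ℕ) : ℂ) ^ 2)) (EM.LC (momT c a) G) := by
  have hG' : G.natDegree < D + 1 := by omega
  rw [EM.LC_apply _ _ hG']
  have h1 : ∀ t : ℕ, (gam c (t + 1) : ℂ) * ((Rr a (xp a t) : ℝ) : ℂ) *
      G.eval (((6 * (a - 1) + (t + 1) : ℕ) : ℂ) ^ 2) =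
      ∑ k ∈ Finset.range (D + 1), G.coeff k *
        ((gam c (t + 1) : ℂ) * ((Rr a (xp a t) : ℝ) : ℂ) *
          (((6 * (a - 1) + (t + 1) : ℕ) : ℂ) ^ 2) ^ k) := by
    intro t
    rw [Polynomial.eval_eq_sum_range' hG', Finset.mul_sum]
    exact Finset.sum_congr rfl fun k _ => by ring
  simp_rw [h1]
  refine hasSum_sum fun k hk => ?_
  rw [mem_range] at hk
  exact (summable_momT c ha (by omega)).hasSum.mul_left _

private lemma wT_nonneg (a y : ℕ) : 0 ≤ wT a y := by unfold wT; positivity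

/-- A1. Port of `BE.LC_momA`, `BE.entryA` (Z579/BE3.lean). `LC (momT c a) G = ∑' t, γ(t+1) R(x_t) G(y_t^2)`
with `y_t = 6 (a-1) + (t+1)`, `x_t = y_t / 6`. Decay: for `y ≥ 6 (a-1) + 1` and `w ∈ pc a`
(`|w| ≤ a-1`): `y/6 + w ≥ (1 + y) / (36 a)`, so
`|Rr a (y/6)| * (1 + y^2)^k ≤ (36 a)^(16 (2a-1)) / (1 + y)^2` as soon as `2k+3 ≤ 16 (2a-1)`.
`γ(t+1) = 0` unless `y_t % 6 ∈ {0,2,3,4}`; `C = (|c.1| + |c.2.1| + |c.2.2|) * BE.CS`. A term vanishes if
`y_t ∈ Z` or `y_t ∈ Z'` (`BE.eval_PN_mem`), otherwise `y_t` is available for both lists. -/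
theorem entryT : EntryT := by
  intro c
  refine ⟨Cc c * BE.CS, mul_nonneg (Cc_nonneg c) BE.CS_nonneg, ?_⟩
  intro a K U Z Z' V V' ha hK hZ hZ' hV0 hV0' hV hV'
  have hd : (BE.PN Z * BE.PN Z').natDegree ≤ 2 * K - 2 := by
    rw [(BE.PN_monic Z).natDegree_mul (BE.PN_monic Z'), BE.PN_natDegree, BE.PN_natDegree]
    omega
  have hs := LC_momT c ha (D := 2 * K - 2) (by omega) _ hd
  have hrw : Cc c * BE.CS * V * V' = ∑' t : ℕ, 1 / ((t : ℝ) + 1) ^ 2 * (Cc c * (V * V')) := by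
    rw [tsum_mul_right, ← BE.CS]; ring
  rw [← hs.tsum_eq, hrw]
  have hb : ∀ t : ℕ, ‖(gam c (t + 1) : ℂ) * ((Rr a (xp a t) : ℝ) : ℂ) *
      (BE.PN Z * BE.PN Z').eval (((6 * (a - 1) + (t + 1) : ℕ) : ℂ) ^ 2)‖ ≤
      1 / ((t : ℝ) + 1) ^ 2 * (Cc c * (V * V')) := by
    intro t
    rw [xp_eq ha]
    set y := 6 * (a - 1) + (t + 1) with hy
    have hpos : 0 ≤ 1 / ((t : ℝ) + 1) ^ 2 * (Cc c * (V * V')) := by
      have := Cc_nonneg c
      positivity
    by_cases hm : (t + 1) % 6 = 1 ∨ (t + 1) % 6 = 5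
    · rw [gam_zero hm]
      simpa using hpos
    · by_cases h : y ∈ Z ∨ y ∈ Z'
      · have h0 : (BE.PN Z * BE.PN Z').eval ((y : ℂ) ^ 2) = 0 := by
          rw [eval_mul]
          rcases h with h | h
          · rw [BE.eval_PN_mem h, zero_mul]
          · rw [BE.eval_PN_mem h, mul_zero]
        rw [h0, mul_zero, norm_zero]
        exact hpos
      · rw [not_or] at h
        have hyS : y ∈ sT a := ⟨by omega, by omega, by omega⟩
        have h1 := hV y ⟨Set.mem_univ _, fun _ => h.1⟩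
        have h2 := hV' y ⟨hyS, fun _ => h.2⟩
        have h3 := mul_le_mul h1 h2 (BE.valN_nonneg (fun y => mul_nonneg (wT_nonneg a y)
          (Real.exp_nonneg _)) Z' y) hV0
        unfold BE.valN at h3
        have e : Real.exp (-U y) * Real.exp (BE.potN Z y) * (wT a y * Real.exp (U y) *
            Real.exp (BE.potN Z' y)) =
            wT a y * (Real.exp (BE.potN Z y) * Real.exp (BE.potN Z' y)) := by
          have : Real.exp (-U y) * Real.exp (U y) = 1 := by rw [← Real.exp_add]; simp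
          linear_combination
            (wT a y * (Real.exp (BE.potN Z y) * Real.exp (BE.potN Z' y))) * this
        rw [e] at h3
        have h4 := BE.norm_eval_PN_le Z y
        have h5 := BE.norm_eval_PN_le Z' y
        have h6 : ((t : ℝ) + 1) ^ 2 ≤ (1 + (y : ℝ)) ^ 2 := by
          apply pow_le_pow_left₀ (by positivity)
          have : t + 1 ≤ 1 + y := by omega
          exact_mod_cast this
        have h7 : |Rr a ((y : ℝ) / 6)| * (‖(BE.PN Z).eval ((y : ℂ) ^ 2)‖ *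
            ‖(BE.PN Z').eval ((y : ℂ) ^ 2)‖) * ((t : ℝ) + 1) ^ 2 ≤ V * V' := by
          calc |Rr a ((y : ℝ) / 6)| * (‖(BE.PN Z).eval ((y : ℂ) ^ 2)‖ *
                ‖(BE.PN Z').eval ((y : ℂ) ^ 2)‖) * ((t : ℝ) + 1) ^ 2
              ≤ |Rr a ((y : ℝ) / 6)| * (Real.exp (BE.potN Z y) * Real.exp (BE.potN Z' y)) *
                (1 + (y : ℝ)) ^ 2 := by
                apply mul_le_mul _ h6 (by positivity) (by positivity)
                apply mul_le_mul_of_nonneg_left _ (abs_nonneg _)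
                exact mul_le_mul h4 h5 (norm_nonneg _) (Real.exp_nonneg _)
            _ = wT a y * (Real.exp (BE.potN Z y) * Real.exp (BE.potN Z' y)) := by
                unfold wT; ring
            _ ≤ _ := h3
        rw [norm_mul, norm_mul, eval_mul, norm_mul, Complex.norm_real, Real.norm_eq_abs, mul_assoc,
          div_mul_eq_mul_div, one_mul, le_div_iff₀ (by positivity), mul_assoc]
        exact mul_le_mul (norm_gam_le c _) h7 (by positivity) (Cc_nonneg c)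
  have hsum : Summable fun t : ℕ => 1 / ((t : ℝ) + 1) ^ 2 * (Cc c * (V * V')) :=
    BE.summable_site.mul_right _
  exact tsum_of_norm_bounded hsum.hasSum hb

/-- A1b. `W = (36 a)^(16 (2a-1))` by the same decay estimate with `k = 2K-1`. -/
theorem bddT : BddT := by
  intro a K ha hK
  refine ⟨(36 * (a : ℝ)) ^ (16 * (2 * a - 1)), fun y hy => ?_⟩
  have hay : 6 * (a - 1) + 1 ≤ y := hy.1
  have h := Rr_decay' (k := 2 * K - 1) ha hay (by omega)
  have hy1 : (0 : ℝ) < (1 + (y : ℝ)) ^ 2 := by positivity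
  unfold wT
  calc (1 + (y : ℝ)) ^ 2 * |Rr a ((y : ℝ) / 6)| * (1 + (y : ℝ) ^ 2) ^ (2 * K - 1)
      = (|Rr a ((y : ℝ) / 6)| * (1 + (y : ℝ) ^ 2) ^ (2 * K - 1)) * (1 + (y : ℝ)) ^ 2 := by ring
    _ ≤ ((36 * (a : ℝ)) ^ (16 * (2 * a - 1)) * (1 / (1 + (y : ℝ)) ^ 2)) * (1 + (y : ℝ)) ^ 2 :=
        mul_le_mul_of_nonneg_right h hy1.le
    _ = _ := by field_simp

end ZT
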