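import Pool.Agent.Lib.ZT.ArchDefs

/-!
# The weights in the scale `k` (port of `BE.wA_le`, `BE.wt2_bound` in Z579/BE5.lean, BE6.lean)
-/

open Polynomial Finset Z579

namespace ZT

private lemma aw_GG (x : ℝ) : Arch.GG x 0 = x * Real.log x - x := by
  unfold Arch.GG
  rw [div_zero, Real.arctan_zero, mul_zero, add_zero, zero_pow two_ne_zero, add_zero,
    Real.log_pow]
  push_cast
  ring

private lemma aw_step {x : ℝ} (hx : 0 < x) :
    Arch.GG (x + 6) 0 - Arch.GG x 0 ≤ 6 * Real.log (x + 6) := by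
  have hx6 : 0 < x + 6 := by linarith
  rw [aw_GG, aw_GG]
  have h1 : Real.log ((x + 6) / x) ≤ (x + 6) / x - 1 := Real.log_le_sub_one_of_pos (by positivity)
  rw [Real.log_div hx6.ne' hx.ne'] at h1
  have h2 : (x + 6) / x - 1 = 6 / x := by field_simp; ring
  rw [h2] at h1
  have h3 := mul_le_mul_of_nonneg_left h1 hx.le
  have h4 : x * (6 / x) = 6 := by field_simp
  rw [h4] at h3
  nlinarith [h3]

private lemma aw_prod {z : ℝ} (hz : 1 ≤ z) (n : ℕ) :
    Real.exp ((Arch.GG (z + 6 * n) 0 - Arch.GG z 0) / 6) ≤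
      ∏ j ∈ range (n + 1), (z + 6 * (j : ℝ)) := by
  induction n with
  | zero =>
    rw [zero_add, Finset.prod_range_one]
    simp only [Nat.cast_zero, mul_zero, add_zero, sub_self, zero_div, Real.exp_zero]
    exact hz
  | succ n ih =>
    rw [Finset.prod_range_succ]
    have h0 : 0 < z + 6 * (n : ℝ) := by positivity
    have h1 := aw_step h0
    have e : z + 6 * (n : ℝ) + 6 = z + 6 * ((n + 1 : ℕ) : ℝ) := by push_cast; ring
    rw [e] at h1
    have h2 : 0 < z + 6 * ((n + 1 : ℕ) : ℝ) := by positivity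
    have h3 : (Arch.GG (z + 6 * ((n + 1 : ℕ) : ℝ)) 0 - Arch.GG z 0) / 6 ≤
        (Arch.GG (z + 6 * n) 0 - Arch.GG z 0) / 6 + Real.log (z + 6 * ((n + 1 : ℕ) : ℝ)) := by
      linarith
    refine (Real.exp_le_exp.2 h3).trans ?_
    rw [Real.exp_add, Real.exp_log h2]
    exact mul_le_mul_of_nonneg_right ih h2.le

private lemma aw_reindex (b y : ℕ) : ∏ w ∈ pc (b + 1), ((y : ℝ) + 6 * (w : ℝ)) =
    ∏ j ∈ range (2 * b + 1), ((y : ℝ) - 6 * b + 6 * (j : ℝ)) := by
  refine Finset.prod_nbij' (fun w => (w + b).toNat) (fun j => (j : ℤ) - b) ?_ ?_ ?_ ?_ ?_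
  · intro w hw
    unfold pc at hw
    rw [Finset.mem_Icc] at hw
    push_cast at hw
    rw [Finset.mem_range]
    omega
  · intro j hj
    rw [Finset.mem_range] at hj
    unfold pc
    rw [Finset.mem_Icc]
    push_cast
    omega
  · intro w hw
    unfold pc at hw
    rw [Finset.mem_Icc] at hw
    push_cast at hw
    omega
  · intro j hj
    omega
  · intro w hw
    unfold pc at hw
    rw [Finset.mem_Icc] at hw
    push_cast at hw
    have e : (((w + b).toNat : ℕ) : ℝ) = (w : ℝ) + b := by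
      have : (((w + b).toNat : ℕ) : ℤ) = w + b := by omega
      exact_mod_cast this
    rw [e]
    ring

private lemma aw_card (b : ℕ) : (pc (b + 1)).card = 2 * b + 1 := by
  unfold pc
  rw [Int.card_Icc]
  push_cast
  omega

/-- A2. With `b = a - 1 = 3k+1`, `y ≥ 6b+1`: `∏_{w ∈ pc a} (y/6 + w) = 6^(-(2b+1)) ∏_{u=-b}^{b} (y + 6u)`.
For real `x ≥ 6`: `log x ≥ (1/6) (GG x 0 - GG (x-6) 0)` (mean value theorem, `GG x 0 = x log x - x`);
sum over `u = -b+1, ..., b` (telescoping) and `log (y - 6b) ≥ 0`: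
`∑ log (y + 6u) ≥ (1/6) (GG (y+6b) 0 - GG (y-6b) 0) = (1/6) HH (6b) y`. Then `BE.HH_shift` from `6b = 18k+6`
to `18k` (in two steps of size at most 4), `BE.HH_scale`, and
`wT = (1+y)^2 * 2 (y/6) * 6^(16 (6k+3)) * (∏ (y+6u))^(-16)`. -/
theorem wgtT : WgtT := by
  refine ⟨4000, by norm_num, ?_⟩
  intro k y hk hy
  have hk1 : (1 : ℝ) ≤ k := by exact_mod_cast hk
  have hk0 : (0 : ℝ) < k := by linarith
  set b : ℕ := 3 * k + 1 with hb
  have hpa : pa k = b + 1 := by unfold pa; omega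
  have hbr : (b : ℝ) = 3 * k + 1 := by rw [hb]; push_cast; ring
  have hy1 : 6 * b + 1 ≤ y := by
    have h := hy.1
    rw [hpa] at h
    have : b + 1 - 1 = b := by omega
    rw [this] at h
    exact h
  have hyr : 6 * (b : ℝ) + 1 ≤ y := by exact_mod_cast hy1
  have hy0 : (0 : ℝ) < y := by rw [hbr] at hyr; linarith
  -- the product
  set P : ℝ := ∏ w ∈ pc (b + 1), ((y : ℝ) + 6 * (w : ℝ)) with hP
  have hPlow : Real.exp (BE.HH (6 * b) y / 6) ≤ P := by
    have h1 := aw_prod (z := (y : ℝ) - 6 * b) (by linarith) (2 * b)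
    rw [hP, aw_reindex]
    refine le_trans (le_of_eq ?_) h1
    congr 2
    unfold BE.HH
    have e1 : (y : ℝ) - 6 * b + 6 * ((2 * b : ℕ) : ℝ) = 6 * b + y := by push_cast; ring
    have e2 : (6 * (b : ℝ) - y) = -((y : ℝ) - 6 * b) := by ring
    rw [e1, e2, Num.GG_neg]
    ring
  have hPpos : 0 < P := lt_of_lt_of_le (Real.exp_pos _) hPlow
  have hR : |Rr (b + 1) ((y : ℝ) / 6)| = (y : ℝ) / 3 * 6 ^ (16 * (2 * b + 1)) / P ^ 16 := by
    unfold Rr
    have h1 : ∏ w ∈ pc (b + 1), ((y : ℝ) / 6 + (w : ℝ)) = P / 6 ^ (2 * b + 1) := by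
      rw [hP, ← aw_card b, ← Finset.prod_const, ← Finset.prod_div_distrib]
      exact Finset.prod_congr rfl fun w _ => by ring
    rw [h1, div_pow, ← pow_mul, mul_comm (2 * b + 1) 16, abs_of_pos (by positivity)]
    field_simp
    ring
  -- logarithms
  set Lg : ℝ := Real.log ((k : ℝ) + 1 + y) with hLg
  have hLg0 : 1 / 2 ≤ Lg := BE.half_le_log' hk
  have hl6 : Real.log 6 ≤ 5 := by
    have := Real.log_le_sub_one_of_pos (show (0 : ℝ) < 6 by norm_num)
    linarith
  set L : ℝ := 18 * k + 6 + y + 5 with hL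
  have hlL : Real.log L ≤ 28 + Lg := by
    have h1 : L ≤ 29 * ((k : ℝ) + 1 + y) := by rw [hL]; linarith
    have h2 : Real.log L ≤ Real.log (29 * ((k : ℝ) + 1 + y)) :=
      Real.log_le_log (by rw [hL]; positivity) h1
    rw [Real.log_mul (by norm_num) (by positivity)] at h2
    have h3 := Real.log_le_sub_one_of_pos (show (0 : ℝ) < 29 by norm_num)
    linarith
  have hHH : k * BE.HH 18 (y / k) + 36 * (k * Real.log k) - 2 * (8 * Real.log L + 8) ≤
      BE.HH (6 * b) y := by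
    have h1 := BE.HH_shift (A := 18 * k + 6) (B := 18 * k + 3) (s := y) (L := L) (by positivity)
      (by positivity) hy0.le (by rw [abs_le]; constructor <;> linarith) (by rw [hL])
    have h2 := BE.HH_shift (A := 18 * k + 3) (B := 18 * k) (s := y) (L := L) (by positivity)
      (by positivity) hy0.le (by rw [abs_le]; constructor <;> linarith) (by rw [hL]; linarith)
    have h3 := BE.HH_scale hk0 18 (y / k)
    have e1 : (k : ℝ) * (y / k) = y := by field_simp
    have e2 : (k : ℝ) * 18 = 18 * k := by ring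
    rw [e1, e2] at h3
    have e3 : 6 * (b : ℝ) = 18 * k + 6 := by rw [hbr]; ring
    rw [e3]
    rw [abs_le] at h1 h2
    linarith [h1.1, h1.2, h2.1, h2.2]
  -- conclusion
  unfold wT
  rw [hpa, hR]
  have hexp : Real.exp (16 * (BE.HH (6 * b) y / 6)) ≤ P ^ 16 := by
    have h1 := pow_le_pow_left₀ (Real.exp_nonneg _) hPlow 16
    rw [← Real.exp_nat_mul] at h1
    exact_mod_cast h1
  have h1y : (1 + (y : ℝ)) ^ 2 * ((y : ℝ) / 3) ≤ Real.exp (3 * Lg) := by
    have h1 : Real.exp (3 * Lg) = ((k : ℝ) + 1 + y) ^ 3 := by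
      have h := Real.exp_log (show 0 < (k : ℝ) + 1 + y by positivity)
      have h2 : Real.exp (3 * Lg) = Real.exp Lg ^ 3 := by
        rw [← Real.exp_nat_mul]; push_cast; rfl
      rw [h2, hLg, h]
    rw [h1]
    have h2 : (1 + (y : ℝ)) ^ 2 ≤ ((k : ℝ) + 1 + y) ^ 2 :=
      pow_le_pow_left₀ (by positivity) (by linarith) 2
    have h3 : (y : ℝ) / 3 ≤ (k : ℝ) + 1 + y := by linarith
    calc (1 + (y : ℝ)) ^ 2 * ((y : ℝ) / 3) ≤ ((k : ℝ) + 1 + y) ^ 2 * ((k : ℝ) + 1 + y) :=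
          mul_le_mul h2 h3 (by positivity) (by positivity)
      _ = ((k : ℝ) + 1 + y) ^ 3 := by ring
  have h6 : (6 : ℝ) ^ (16 * (2 * b + 1)) = Real.exp ((96 * k + 48) * Real.log 6) := by
    rw [← Real.exp_log (show (0 : ℝ) < 6 ^ (16 * (2 * b + 1)) by positivity), Real.log_pow]
    congr 2
    push_cast
    rw [hbr]
    ring
  calc (1 + (y : ℝ)) ^ 2 * ((y : ℝ) / 3 * 6 ^ (16 * (2 * b + 1)) / P ^ 16)
      = ((1 + (y : ℝ)) ^ 2 * ((y : ℝ) / 3)) * 6 ^ (16 * (2 * b + 1)) * (P ^ 16)⁻¹ := by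
        rw [div_eq_mul_inv]; ring
    _ ≤ Real.exp (3 * Lg) * Real.exp ((96 * k + 48) * Real.log 6) *
          (Real.exp (16 * (BE.HH (6 * b) y / 6)))⁻¹ := by
        rw [h6]
        refine mul_le_mul (mul_le_mul_of_nonneg_right h1y (Real.exp_nonneg _))
          (inv_anti₀ (Real.exp_pos _) hexp) (by positivity) (by positivity)
    _ ≤ _ := by
        rw [← Real.exp_neg, ← Real.exp_add, ← Real.exp_add, Real.exp_le_exp]
        nlinarith [hHH, hlL, hl6, hLg0]

end ZT
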