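import Pool.Agent.Lib.ZT.ArchE
import Pool.Agent.Lib.ZT.ArchW
import Pool.Agent.Lib.Z579.BE8

/-!
# The archimedean bound from a certificate (one block, coordinate `y = 6 v`)
-/

open Polynomial Finset Z579

namespace ZT

open BE EM Arch Z579.Num

/-! ## the residues mod `6` -/

/-- indicator of the residues `0,2,3,4` minus `2/3` -/
noncomputable def h6 (n : ℕ) : ℝ := if n % 6 ≠ 1 ∧ n % 6 ≠ 5 then 1 / 3 else -(2 / 3)

/-- primitive of `h6` -/
noncomputable def H6 (n : ℕ) : ℝ :=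
  if n % 6 = 1 then 1 / 3 else if n % 6 = 2 then -(1 / 3) else if n % 6 = 4 then 1 / 3 else
    if n % 6 = 5 then 2 / 3 else 0

lemma H6_succ (n : ℕ) : H6 (n + 1) = H6 n + h6 n := by
  unfold H6 h6
  have h : n % 6 = 0 ∨ n % 6 = 1 ∨ n % 6 = 2 ∨ n % 6 = 3 ∨ n % 6 = 4 ∨ n % 6 = 5 := by omega
  rcases h with h | h | h | h | h | h
  · have h' : (n + 1) % 6 = 1 := by omega
    rw [h, h']; norm_num
  · have h' : (n + 1) % 6 = 2 := by omega
    rw [h, h']; norm_num
  · have h' : (n + 1) % 6 = 3 := by omega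
    rw [h, h']; norm_num
  · have h' : (n + 1) % 6 = 4 := by omega
    rw [h, h']; norm_num
  · have h' : (n + 1) % 6 = 5 := by omega
    rw [h, h']; norm_num
  · have h' : (n + 1) % 6 = 0 := by omega
    rw [h, h']; norm_num

lemma H6_abs (n : ℕ) : |H6 n| ≤ 2 / 3 := by
  unfold H6
  split_ifs <;> norm_num [abs_le]

/-- summation by parts -/
lemma sum_h6 (p : ℕ) (α β : ℝ) (k : ℕ) :
    ∑ j ∈ range k, h6 (p + j) * (α + β * j) =
      H6 (p + k) * (α + β * k) - H6 p * α - β * ∑ j ∈ range k, H6 (p + j + 1) := by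
  induction k with
  | zero => simp
  | succ k ih =>
    rw [Finset.sum_range_succ, ih, Finset.sum_range_succ, ← Nat.add_assoc, H6_succ (p + k)]
    push_cast
    ring

lemma sum_h6_abs (p : ℕ) (α β : ℝ) (k : ℕ) :
    ∑ j ∈ range k, h6 (p + j) * (α + β * j) ≤ |α + β * k| + |α| + |β| * k := by
  rw [sum_h6]
  have h1 : H6 (p + k) * (α + β * k) ≤ |α + β * k| := by
    refine (le_abs_self _).trans ?_
    rw [abs_mul]
    have := H6_abs (p + k)
    nlinarith [abs_nonneg (α + β * k)]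
  have h2 : -(H6 p * α) ≤ |α| := by
    refine (neg_le_abs _).trans ?_
    rw [abs_mul]
    have := H6_abs p
    nlinarith [abs_nonneg α]
  have h3 : |∑ j ∈ range k, H6 (p + j + 1)| ≤ k := by
    refine (Finset.abs_sum_le_sum_abs _ _).trans ?_
    calc ∑ j ∈ range k, |H6 (p + j + 1)| ≤ ∑ j ∈ range k, (1 : ℝ) :=
          Finset.sum_le_sum fun j _ => (H6_abs _).trans (by norm_num)
      _ = k := by simp
  have h4 : -(β * ∑ j ∈ range k, H6 (p + j + 1)) ≤ |β| * k := by
    refine (neg_le_abs _).trans ?_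
    rw [abs_mul]
    exact mul_le_mul_of_nonneg_left h3 (abs_nonneg _)
  linarith

/-! ## the reference configuration -/

/-- weights -/
noncomputable def cwT (c : ℕ → ℝ) (k x : ℕ) : ℝ := c (x / k) + if x = 0 then (12 : ℝ) else 0

/-- potential -/
noncomputable def PPT (c : ℕ → ℝ) (N k y : ℕ) : ℝ :=
  ∑ x ∈ range (N * k), cwT c k x * KK (y : ℂ) (x : ℂ)

variable {A0 : ℝ} (A : ACert A0)

lemma cwT_nonneg (k x : ℕ) : 0 ≤ cwT A.c k x := by
  unfold cwT
  have := A.cn (x / k)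
  split_ifs <;> positivity

lemma NkT_pos {k : ℕ} (hk : 1 ≤ k) : 1 ≤ A.N * k := by
  have := A.N1
  exact Nat.one_le_iff_ne_zero.2 (by positivity)

lemma cwT_mass {k : ℕ} (hk : 1 ≤ k) : ∑ x ∈ range (A.N * k), cwT A.c k x = ((pK k : ℕ) : ℝ) := by
  unfold cwT
  rw [Finset.sum_add_distrib, sum_dens, A.mass]
  have h := sum_ite_zero (NkT_pos A hk) (12 : ℝ) (fun _ => 1)
  simp only [mul_one] at h
  rw [h, pK]
  push_cast
  ring

/-- the potential of the reference configuration -/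
theorem PPT_bound : ∃ C : ℝ, 0 ≤ C ∧ ∀ k y : ℕ, 1 ≤ k →
    |PPT A.c A.N k y - (k * Up A.c A.N (y / k) + 46 * (k * Real.log k))| ≤
      C * Real.log (k + 1 + y) := by
  obtain ⟨C1, hC1, h1⟩ := pot_nat A.c A.cn A.N
  refine ⟨C1 + 24, by positivity, ?_⟩
  intro k y hk
  have hl := half_le_log' (y := y) hk
  have hs := log_sq_le (y := y) hk
  have hs0 := log_sq_nonneg y
  have e : PPT A.c A.N k y = ∑ x ∈ range (A.N * k), A.c (x / k) * KK (y : ℂ) (x : ℂ) +
      12 * Real.log (1 + (y : ℝ) ^ 2) := by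
    unfold PPT cwT
    rw [← KK_zero, ← sum_ite_zero (NkT_pos A hk) (12 : ℝ) (fun x => KK (y : ℂ) (x : ℂ)),
      ← Finset.sum_add_distrib]
    exact Finset.sum_congr rfl fun x _ => by ring
  have g := h1 k y hk
  rw [A.mass] at g
  rw [e]
  rw [abs_le] at g ⊢
  constructor <;> linarith [g.1, g.2]

/-- the values against the reference -/
theorem cond_boundT : ∃ C : ℝ, 0 ≤ C ∧ ∀ k y : ℕ, 1 ≤ k → y ∈ sT (pa k) →
    wT (pa k) y * Real.exp (2 * PPT A.c A.N k y) ≤
      Real.exp (k * PhiT A.N A.c (y / k) - 4 * (k * Real.log k) + 96 * k * Real.log 6 +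
        C * Real.log (k + 1 + y)) := by
  obtain ⟨C1, hC1, h1⟩ := PPT_bound A
  obtain ⟨C2, hC2, h2⟩ := wgtT
  refine ⟨2 * C1 + C2, by positivity, ?_⟩
  intro k y hk hy
  have g1 := (abs_le.1 (h1 k y hk)).2
  have g2 := h2 k y hk hy
  refine (mul_le_mul_of_nonneg_right g2 (Real.exp_nonneg _)).trans ?_
  rw [← Real.exp_add, Real.exp_le_exp]
  unfold PhiT
  linarith

/-- lower bound for the energy -/
theorem energyT : ∃ C : ℝ, 0 ≤ C ∧ ∀ k : ℕ, 1 ≤ k →
    (k : ℝ) ^ 2 * (1058 * Real.log k) +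
      (k : ℝ) ^ 2 * ∑ i ∈ range A.N, A.c i * ((A.eL i + A.eR i) / 2) -
      C * (k * Real.log (k + 1)) ≤
    ∑ x ∈ range (A.N * k), cwT A.c k x * PPT A.c A.N k x := by
  obtain ⟨C1, hC1, h1⟩ := PPT_bound A
  have hl0 : 0 ≤ Real.log ((A.N : ℝ) + 2) := Real.log_nonneg (by
    have : (0 : ℝ) ≤ (A.N : ℝ) := by positivity
    linarith)
  set D : ℝ := 2 * Real.log ((A.N : ℝ) + 2) + 1 with hD
  set E : ℝ := |∑ i ∈ range A.N, A.c i * (A.eR i - A.eL i)| with hE
  have hE0 : 0 ≤ E := abs_nonneg _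
  refine ⟨23 * (C1 * D) + E, by positivity, ?_⟩
  intro k hk
  have hk0 : (0 : ℝ) < k := by exact_mod_cast hk
  have hk1 : (1 : ℝ) ≤ k := by exact_mod_cast hk
  set Lg := Real.log ((k : ℝ) + 1) with hLg
  have hLg2 : 1 / 2 ≤ Lg := half_le_log hk
  set c0 : ℝ := 46 * (k * Real.log k) - C1 * (D * Lg) with hc0
  have hstep : ∑ x ∈ range (A.N * k), A.c (x / k) * (k * (A.eL (x / k) +
      (A.eR (x / k) - A.eL (x / k)) * (((x : ℝ) + 0) / k - ((x / k : ℕ) : ℝ))) + c0) ≤
      ∑ x ∈ range (A.N * k), cwT A.c k x * PPT A.c A.N k x := by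
    refine Finset.sum_le_sum fun x hx => ?_
    rw [mem_range] at hx
    have hS : 0 ≤ PPT A.c A.N k x :=
      Finset.sum_nonneg fun x' _ => mul_nonneg (cwT_nonneg A k x') (KK_nonneg _ _)
    have hcw : A.c (x / k) ≤ cwT A.c k x := by
      unfold cwT
      split_ifs <;> linarith
    refine le_trans ?_ (mul_le_mul_of_nonneg_right hcw hS)
    obtain ⟨d1, d2, d3⟩ := div_mem_cell hk hx (h := 0) le_rfl one_pos
    by_cases hd : A.c (x / k) = 0
    · rw [hd, zero_mul, zero_mul]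
    apply mul_le_mul_of_nonneg_left _ (A.cn _)
    have g1 := (abs_le.1 (h1 k x hk)).1
    have g2 := A.en (x / k) d1 hd _ d2 d3
    rw [add_zero] at g2 ⊢
    have g3 : A.eL (x / k) + (A.eR (x / k) - A.eL (x / k)) * ((x : ℝ) / k - ((x / k : ℕ) : ℝ)) ≤
        Up A.c A.N (x / k) := by linarith
    have g4 := mul_le_mul_of_nonneg_left g3 hk0.le
    have hx' : (x : ℝ) ≤ A.N * k := by exact_mod_cast hx.le
    have g6 : Real.log ((k : ℝ) + 1 + x) ≤ D * Lg := by
      have h3 : (k : ℝ) + 1 + x ≤ ((A.N : ℝ) + 2) * (k + 1) := by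
        have : (0 : ℝ) ≤ (A.N : ℝ) := by positivity
        nlinarith
      refine (Real.log_le_log (by positivity) h3).trans ?_
      rw [Real.log_mul (by positivity) (by positivity), hD]
      nlinarith
    have g7 := mul_le_mul_of_nonneg_left g6 hC1
    rw [hc0]
    linarith
  have hid : ∑ x ∈ range (A.N * k), A.c (x / k) * (k * (A.eL (x / k) +
      (A.eR (x / k) - A.eL (x / k)) * (((x : ℝ) + 0) / k - ((x / k : ℕ) : ℝ))) + c0) =
      (k : ℝ) ^ 2 * ∑ i ∈ range A.N, A.c i * ((A.eL i + A.eR i) / 2) + k * c0 * 23 -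
        1 / 2 * k * ∑ i ∈ range A.N, A.c i * (A.eR i - A.eL i) := by
    have h := sum_aff_cells hk A.N 0 (fun i => A.c i * (k * A.eL i + c0))
      (fun i => A.c i * (k * A.eR i + c0))
    have e1 : ∑ x ∈ range (A.N * k), A.c (x / k) * (k * (A.eL (x / k) +
      (A.eR (x / k) - A.eL (x / k)) * (((x : ℝ) + 0) / k - ((x / k : ℕ) : ℝ))) + c0) =
      ∑ t ∈ range (A.N * k), (A.c (t / k) * (k * A.eL (t / k) + c0) +
        (A.c (t / k) * (k * A.eR (t / k) + c0) - A.c (t / k) * (k * A.eL (t / k) + c0)) *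
        (((t : ℝ) + 0) / k - ((t / k : ℕ) : ℝ))) :=
      Finset.sum_congr rfl fun x _ => by ring
    rw [e1, h, ← A.mass, Finset.mul_sum, Finset.mul_sum, Finset.mul_sum,
      ← Finset.sum_add_distrib, ← Finset.sum_sub_distrib]
    exact Finset.sum_congr rfl fun i _ => by ring
  refine le_trans ?_ (le_trans (le_of_eq hid.symm) hstep)
  have q0 := (abs_le.1 (le_refl |∑ i ∈ range A.N, A.c i * (A.eR i - A.eL i)|)).2
  rw [← hE] at q0
  have q1 : 1 / 2 * k * ∑ i ∈ range A.N, A.c i * (A.eR i - A.eL i) ≤ E * (k * Lg) := by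
    have q2 : 1 / 2 * ∑ i ∈ range A.N, A.c i * (A.eR i - A.eL i) ≤ E * Lg := by nlinarith
    have q3 := mul_le_mul_of_nonneg_left q2 hk0.le
    linarith
  rw [hc0]
  nlinarith [q1]

/-! ## excess at the sites -/

/-- the affine function of a cell -/
noncomputable def cellV (k y : ℕ) : ℝ :=
  k * (A.sL (y / k) + (A.sR (y / k) - A.sL (y / k)) * (((y : ℝ) + 0) / k - ((y / k : ℕ) : ℝ)))

open Classical in
/-- excess at the sites -/
noncomputable def psiT (k y : ℕ) : ℝ :=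
  if y ∈ sT (pa k) ∧ y < A.Y0 * k then cellV A k y else 0

lemma cellV_nonneg {k y : ℕ} (hk : 1 ≤ k) (hy : y < A.Y0 * k) : 0 ≤ cellV A k y := by
  unfold cellV
  have hkp : (0 : ℝ) < k := by exact_mod_cast hk
  obtain ⟨d1, d2, d3⟩ := div_mem_cell hk hy (h := 0) le_rfl one_pos
  have s1 := A.sLn _ d1
  have s2 := A.sRn _ d1
  refine mul_nonneg hkp.le ?_
  set x : ℝ := ((y : ℝ) + 0) / k - ((y / k : ℕ) : ℝ) with hx
  have hx0 : 0 ≤ x := by linarith
  have hx1 : x ≤ 1 := by linarith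
  nlinarith [mul_nonneg s1 (sub_nonneg.2 hx1), mul_nonneg s2 hx0]

lemma psiT_nonneg {k : ℕ} (hk : 1 ≤ k) (y : ℕ) : 0 ≤ psiT A k y := by
  unfold psiT
  split_ifs with h
  · exact cellV_nonneg A hk h.2
  · exact le_rfl

lemma sum_psiT_le : ∃ C : ℝ, 0 ≤ C ∧ ∀ k : ℕ, 1 ≤ k →
    ∑ y ∈ range (A.Y0 * k), psiT A k y ≤
      (k : ℝ) ^ 2 * (2 / 3 * ∑ i ∈ range A.Y0, (A.sL i + A.sR i) / 2) + C * k := by
  set C1 : ℝ := ∑ i ∈ range A.Y0, (|A.sR i| + |A.sL i| + |A.sR i - A.sL i|) with hC1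
  have hC10 : 0 ≤ C1 := Finset.sum_nonneg fun i _ => by positivity
  set E : ℝ := |∑ i ∈ range A.Y0, (A.sR i - A.sL i)| with hE
  have hE0 : 0 ≤ E := abs_nonneg _
  refine ⟨E + C1, by positivity, ?_⟩
  intro k hk
  have hk0 : (0 : ℝ) < k := by exact_mod_cast hk
  -- drop the cut-off
  have h1 : ∀ y ∈ range (A.Y0 * k), psiT A k y ≤ (2 / 3 + h6 y) * cellV A k y := by
    intro y hy
    have hv := cellV_nonneg A hk (mem_range.1 hy)
    unfold psiT
    split_ifs with h
    · have h2 : h6 y = 1 / 3 := by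
        unfold h6
        exact if_pos ⟨h.1.2.1, h.1.2.2⟩
      rw [h2]
      linarith
    · have h2 : 0 ≤ 2 / 3 + h6 y := by
        unfold h6
        split_ifs <;> norm_num
      exact mul_nonneg h2 hv
  refine (Finset.sum_le_sum h1).trans ?_
  have h2 : ∑ y ∈ range (A.Y0 * k), (2 / 3 + h6 y) * cellV A k y =
      2 / 3 * ∑ y ∈ range (A.Y0 * k), cellV A k y + ∑ y ∈ range (A.Y0 * k), h6 y * cellV A k y := by
    rw [Finset.mul_sum, ← Finset.sum_add_distrib]
    exact Finset.sum_congr rfl fun y _ => by ring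
  rw [h2]
  have h3 : ∑ y ∈ range (A.Y0 * k), cellV A k y ≤
      (k : ℝ) ^ 2 * ∑ i ∈ range A.Y0, (A.sL i + A.sR i) / 2 + E * k := by
    unfold cellV
    rw [← Finset.mul_sum, sum_aff_cells hk, Finset.sum_add_distrib, ← Finset.mul_sum,
      ← Finset.sum_mul]
    have q0 := (abs_le.1 (le_refl |∑ i ∈ range A.Y0, (A.sR i - A.sL i)|)).1
    rw [← hE] at q0
    have q2 : (∑ i ∈ range A.Y0, (A.sR i - A.sL i)) * (0 - 1 / 2) ≤ E := by linarith
    have q3 := mul_le_mul_of_nonneg_left q2 hk0.le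
    calc (k : ℝ) * (k * ∑ i ∈ range A.Y0, (A.sL i + A.sR i) / 2 +
          (∑ i ∈ range A.Y0, (A.sR i - A.sL i)) * (0 - 1 / 2))
        = (k : ℝ) ^ 2 * ∑ i ∈ range A.Y0, (A.sL i + A.sR i) / 2 +
          k * ((∑ i ∈ range A.Y0, (A.sR i - A.sL i)) * (0 - 1 / 2)) := by ring
      _ ≤ _ := by linarith
  have h4 : ∑ y ∈ range (A.Y0 * k), h6 y * cellV A k y ≤ C1 * k := by
    rw [sum_range_mul A.Y0 k fun y => h6 y * cellV A k y, hC1, Finset.sum_mul]
    refine Finset.sum_le_sum fun i _ => ?_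
    have e1 : ∑ j ∈ range k, h6 (i * k + j) * cellV A k (i * k + j) =
        ∑ j ∈ range k, h6 (i * k + j) * (k * A.sL i + (A.sR i - A.sL i) * j) := by
      refine Finset.sum_congr rfl fun j hj => ?_
      congr 1
      unfold cellV
      rw [cell_div (mem_range.1 hj)]
      push_cast
      field_simp
      ring
    rw [e1]
    refine (sum_h6_abs _ _ _ _).trans ?_
    have e2 : k * A.sL i + (A.sR i - A.sL i) * k = k * A.sR i := by ring
    rw [e2, abs_mul, abs_mul, abs_of_pos hk0]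
    linarith
  have h5 := mul_nonneg hE0 hk0.le
  linarith

/-- the pointwise conditions -/
theorem pointwiseT : ∃ (C : ℝ) (k0 : ℕ), 0 ≤ C ∧
    ∀ k : ℕ, k0 ≤ k → 1 ≤ k → ∀ y : ℕ, y ∈ sT (pa k) →
    wT (pa k) y * Real.exp (2 * PPT A.c A.N k y) ≤
      Real.exp (k * A.l - 4 * (k * Real.log k) + 96 * k * Real.log 6 +
        C * Real.log (k + 1) + psiT A k y) := by
  obtain ⟨C, hC, h⟩ := cond_boundT A
  have hY0 : (0 : ℝ) ≤ A.Y0 := Nat.cast_nonneg _
  have hlY : 0 ≤ Real.log ((A.Y0 : ℝ) + 2) := Real.log_nonneg (by linarith)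
  set D : ℝ := 2 * Real.log ((A.Y0 : ℝ) + 2) + 3 with hD
  have hD0 : 0 ≤ D := by positivity
  obtain ⟨n, hn⟩ := exists_nat_ge C
  refine ⟨C * D, n, by positivity, ?_⟩
  intro k hk hk1 y hy
  have hkp : (0 : ℝ) < k := by exact_mod_cast hk1
  have hk1' : (1 : ℝ) ≤ k := by exact_mod_cast hk1
  have hkC : C ≤ k := by
    have : (n : ℝ) ≤ k := by exact_mod_cast hk
    linarith
  set Lg := Real.log ((k : ℝ) + 1) with hLg
  have hLg2 : 1 / 2 ≤ Lg := half_le_log hk1
  have hy0 : (0 : ℝ) ≤ y := Nat.cast_nonneg y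
  refine (h k y hk1 hy).trans ?_
  rw [Real.exp_le_exp]
  have hyl : 18 * k ≤ y := by
    have h1 := hy.1
    unfold pa at h1
    omega
  rcases lt_or_ge y (A.Y0 * k) with hc | hc
  · obtain ⟨d1, d2, d3⟩ := div_mem_cell hk1 hc (h := 0) le_rfl one_pos
    have hal : 18 ≤ y / k := (Nat.le_div_iff_mul_le (by omega)).2 hyl
    have i2 := A.site _ hal d1 _ d2 d3
    have e : psiT A k y = cellV A k y := if_pos ⟨hy, hc⟩
    rw [e, cellV]
    rw [add_zero] at i2 ⊢
    have i3 := mul_le_mul_of_nonneg_left i2 hkp.le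
    have hyc : (y : ℝ) ≤ A.Y0 * k := by exact_mod_cast hc.le
    have i4 : Real.log ((k : ℝ) + 1 + y) ≤ D * Lg := by
      have h3 : (k : ℝ) + 1 + y ≤ ((A.Y0 : ℝ) + 2) * (k + 1) := by nlinarith
      refine (Real.log_le_log (by positivity) h3).trans ?_
      rw [Real.log_mul (by positivity) (by positivity), hD]
      nlinarith
    have i5 := mul_le_mul_of_nonneg_left i4 hC
    linarith
  · have e : psiT A k y = 0 := if_neg (fun h' => absurd h'.2 (by omega))
    rw [e, add_zero]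
    have hY1 : (1 : ℝ) ≤ A.Y0 := by exact_mod_cast A.hY
    have hyc : (A.Y0 : ℝ) * k ≤ y := by exact_mod_cast hc
    set s : ℝ := (y : ℝ) / k with hs
    have hsY : (A.Y0 : ℝ) ≤ s := by rw [hs, le_div_iff₀ hkp]; exact hyc
    have hs0 : 0 < s := by linarith
    have hyk : (y : ℝ) = k * s := by rw [hs]; field_simp
    have i2 := A.tail s hsY
    have i3 := mul_le_mul_of_nonneg_left i2 hkp.le
    have hls : 0 ≤ Real.log s - Real.log A.Y0 := by
      have := Real.log_le_log (by linarith) hsY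
      linarith
    have i4 : Real.log ((k : ℝ) + 1 + y) ≤ Lg + (Real.log 2 + Real.log s) := by
      have h3 : (k : ℝ) + 1 + y ≤ (k + 1) * (2 * s) := by rw [hyk]; nlinarith
      refine (Real.log_le_log (by positivity) h3).trans (le_of_eq ?_)
      rw [Real.log_mul (by positivity) (by positivity), Real.log_mul (by norm_num) (by linarith)]
    have i5 := mul_le_mul_of_nonneg_left i4 hC
    have i6 := mul_le_mul_of_nonneg_right hkC hls
    have i7 : Real.log A.Y0 ≤ Real.log ((A.Y0 : ℝ) + 2) :=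
      Real.log_le_log (by linarith) (by linarith)
    have i8 : Lg + (Real.log 2 + Real.log A.Y0) ≤ D * Lg := by
      have := Real.log_two_lt_d9
      rw [hD]
      nlinarith
    have i9 := mul_le_mul_of_nonneg_left i8 hC
    nlinarith

/-- size of the constants -/
theorem const_boundT (C0 : ℝ) (hC0 : 0 ≤ C0) : ∃ C : ℝ, 0 ≤ C ∧ ∀ k : ℕ, 1 ≤ k →
    (((pK k).factorial : ℕ) : ℝ) * (4 * C0) ^ (pK k) ≤ Real.exp (C * (k * Real.log (k + 1))) := by
  set c4 : ℝ := 1 + 4 * C0 with hc4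
  have hc40 : 1 ≤ c4 := by rw [hc4]; linarith
  have hl4 : 0 ≤ Real.log c4 := Real.log_nonneg hc40
  have hlm : 0 ≤ Real.log (36 : ℝ) := Real.log_nonneg (by norm_num)
  refine ⟨35 * (2 * Real.log 36 + 1) + 70 * Real.log c4, by positivity, ?_⟩
  intro k hk
  have hk0 : (0 : ℝ) < k := by exact_mod_cast hk
  have hk1 : (1 : ℝ) ≤ k := by exact_mod_cast hk
  set Lg := Real.log ((k : ℝ) + 1) with hLg
  have hLg2 : 1 / 2 ≤ Lg := half_le_log hk
  have hMr : ((pK k : ℕ) : ℝ) ≤ 35 * k := by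
    unfold pK
    push_cast
    linarith
  have hM0 : (0 : ℝ) ≤ ((pK k : ℕ) : ℝ) := Nat.cast_nonneg _
  set M := pK k with hM
  have f1 : ((M.factorial : ℕ) : ℝ) ≤ Real.exp (35 * (2 * Real.log 36 + 1) * (k * Lg)) := by
    have g1 : ((M.factorial : ℕ) : ℝ) ≤ (M : ℝ) ^ M := by exact_mod_cast Nat.factorial_le_pow M
    have g2 : (M : ℝ) ≤ 36 * (k + 1) := by linarith
    have g3 : (M : ℝ) ^ M ≤ Real.exp (M * (Real.log 36 + Lg)) := by
      rw [← Real.log_mul (by positivity) (by positivity), Real.exp_nat_mul,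
        Real.exp_log (by positivity)]
      exact pow_le_pow_left₀ hM0 g2 M
    refine g1.trans (g3.trans ?_)
    rw [Real.exp_le_exp]
    have g4 : Real.log 36 + Lg ≤ (2 * Real.log 36 + 1) * Lg := by nlinarith
    calc (M : ℝ) * (Real.log 36 + Lg) ≤ M * ((2 * Real.log 36 + 1) * Lg) :=
          mul_le_mul_of_nonneg_left g4 hM0
      _ ≤ 35 * k * ((2 * Real.log 36 + 1) * Lg) :=
          mul_le_mul_of_nonneg_right hMr (by positivity)
      _ = _ := by ring
  have f3 : (4 * C0) ^ M ≤ Real.exp (70 * Real.log c4 * (k * Lg)) := by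
    have g1 : (4 * C0) ^ M ≤ c4 ^ M := pow_le_pow_left₀ (by positivity) (by rw [hc4]; linarith) M
    have g2 : c4 ^ M = Real.exp (M * Real.log c4) := by
      rw [Real.exp_nat_mul, Real.exp_log (by positivity)]
    rw [g2] at g1
    refine g1.trans ?_
    rw [Real.exp_le_exp]
    calc (M : ℝ) * Real.log c4 ≤ 35 * k * Real.log c4 := mul_le_mul_of_nonneg_right hMr hl4
      _ ≤ 35 * k * (2 * Lg * Real.log c4) := by
          apply mul_le_mul_of_nonneg_left _ (by positivity)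
          nlinarith
      _ = _ := by ring
  refine (mul_le_mul f1 f3 (by positivity) (Real.exp_nonneg _)).trans (le_of_eq ?_)
  rw [← Real.exp_add]
  congr 1
  ring

lemma exists_siteT (a : ℕ) (Z : List ℕ) : ∃ y, av (6 * (a - 1) + 1) (sT a) Z y := by
  have hinf : (sT a).Infinite := by
    apply Set.infinite_of_not_bddAbove
    rintro ⟨B, hB⟩
    have h1 : 6 * (a + B) + 6 ∈ sT a := ⟨by omega, by omega, by omega⟩
    have h2 := hB h1
    omega
  obtain ⟨y, hy1, hy2⟩ := hinf.exists_notMem_finset Z.toFinset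
  exact ⟨y, hy1, fun _ h => hy2 (List.mem_toFinset.2 h)⟩

lemma exists_rowT (a : ℕ) (Z : List ℕ) : ∃ y, av (6 * (a - 1) + 1) Set.univ Z y :=
  ⟨0, Set.mem_univ _, fun h => by omega⟩

lemma wT_nonneg (a y : ℕ) : 0 ≤ wT a y := by unfold wT; positivity

include A in
/-- bound for the complex determinant -/
theorem det_boundT (c : ℤ × ℤ × ℤ) : ∀ δ : ℝ, 0 < δ → ∃ k0 : ℕ, ∀ k : ℕ, k0 ≤ k →
    ‖hankS (momT c (pa k)) (pK k)‖ ≤ Real.exp (k ^ 2 * (-1150 * Real.log k + A0 +
      2208 * Real.log 6 + δ)) := by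
  intro δ hδ
  obtain ⟨C0, hC0, hent⟩ := entryT c
  obtain ⟨C1, k1, hC1, h1⟩ := pointwiseT A
  obtain ⟨C2, hC2, h2⟩ := const_boundT C0 hC0
  obtain ⟨C3, hC3, h3⟩ := energyT A
  obtain ⟨E, hE0, h4⟩ := sum_psiT_le A
  have hl6 : 0 ≤ Real.log 6 := Real.log_nonneg (by norm_num)
  set G : ℝ := 2 * |A.l| + 192 * Real.log 6 with hG
  have hG0 : 0 ≤ G := by positivity
  set C5 : ℝ := C2 + 35 * C1 + 2 * E + 12 * G + C3 with hC5
  obtain ⟨k0, hk0⟩ := eventually_klog C5 δ hδ
  refine ⟨max (max k0 k1) 1, fun k hk => ?_⟩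
  have hk1 : 1 ≤ k := (le_max_right _ _).trans hk
  have hkk1 : k1 ≤ k := ((le_max_right _ _).trans (le_max_left _ _)).trans hk
  have hkk := hk0 k (((le_max_left _ _).trans (le_max_left _ _)).trans hk)
  have hkp : (0 : ℝ) < k := by exact_mod_cast hk1
  have hk1' : (1 : ℝ) ≤ k := by exact_mod_cast hk1
  set Lg := Real.log ((k : ℝ) + 1) with hLg
  have hLg2 : 1 / 2 ≤ Lg := half_le_log hk1
  set K : ℕ := pK k with hK
  set a : ℕ := pa k with ha
  have ha1 : 1 ≤ a := by rw [ha]; unfold pa; omega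
  have hdeg : 4 * K + 17 ≤ 32 * a := by rw [ha, hK]; unfold pa pK; omega
  obtain ⟨W, hW⟩ := bddT a K ha1 hdeg
  set e : (Σ _ : Unit, Fin K) ≃ Fin K := Equiv.uniqueSigma (fun _ : Unit => Fin K) with he
  -- the energy method
  have hmain := block_energy (β := Unit) (fun _ => K) K e
    (fun _ => LC (momT c a)) (6 * (a - 1) + 1) (fun _ => sT a) (fun _ => wT a)
    (fun _ y => wT_nonneg a y)
    (range (A.N * k)) (fun x => (x : ℂ)) (fun _ x => cwT A.c k x)
    (fun _ => cwT_mass A hk1)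
    (fun Z => exists_rowT a Z)
    (fun _ Z => exists_siteT a Z)
    C0 hC0
    (fun _ Z Z' hm hm' V V' hV0 hV0' hV hV' =>
      hent a K _ Z Z' V V' ha1 hdeg hm hm' hV0 hV0' hV hV')
    (fun Z hZ => by
      obtain ⟨V, hV⟩ := bdR (range (A.N * k)) (fun x => (x : ℂ))
        (fun x => ∑ _ : Unit, cwT A.c k x)
        (fun x _ => Finset.sum_nonneg fun _ _ => cwT_nonneg A k x)
        (M := K) (by
          simp only [Finset.univ_unique, Finset.sum_const, Finset.card_singleton, one_smul]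
          exact cwT_mass A hk1) Z hZ
      exact ⟨V, fun y _ => hV y⟩)
    (fun _ Z hZ => by
      obtain ⟨V, hV⟩ := bdC (range (A.N * k)) (fun x => (x : ℂ))
        (fun x => ∑ _ : Unit, cwT A.c k x)
        (fun x _ => Finset.sum_nonneg fun _ _ => cwT_nonneg A k x)
        (M := K) (K := K) (N := 2 * K - 1) (by
          simp only [Finset.univ_unique, Finset.sum_const, Finset.card_singleton, one_smul]
          exact cwT_mass A hk1) (by omega) (S := sT a) (w := wT a) (W := W)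
        (fun y => wT_nonneg a y) hW Z hZ
      exact ⟨V, fun y hy => hV y hy.1⟩)
    (fun _ => k * A.l - 4 * (k * Real.log k) + 96 * k * Real.log 6 + C1 * Lg)
    (fun _ y => psiT A k y)
    (fun _ y => psiT_nonneg A hk1 y)
    (fun _ => range (A.Y0 * k))
    (fun _ y hy => if_neg (fun h => by
      have h' := h.1.1
      rw [← ha] at h'
      omega))
    (fun _ y hy => if_neg (fun h => hy (mem_range.2 h.2)))
    (fun _ y hy => by
      have g := h1 k hkk1 hk1 y hy
      refine le_trans (le_of_eq ?_) g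
      rw [mul_assoc, ← Real.exp_add]
      congr 2
      unfold PPT
      simp only [Finset.univ_unique, Finset.sum_const, Finset.card_singleton, one_smul]
      rw [two_mul])
  -- the determinant
  have hdet : hankS (momT c a) K = Matrix.det (Matrix.of fun i j : (Σ _ : Unit, Fin K) =>
      LC (momT c a) (X ^ ((e i : ℕ) + (j.2 : ℕ)))) := by
    unfold hankS
    rw [← Matrix.det_submatrix_equiv_self e]
    congr 1
    ext i j
    rw [Matrix.submatrix_apply, Matrix.of_apply, Matrix.of_apply, LC_X_pow]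
    rfl
  rw [hdet]
  refine hmain.trans ?_
  rw [← mul_assoc]
  have hconst := h2 k hk1
  rw [← hK] at hconst
  refine (mul_le_mul_of_nonneg_right hconst (Real.exp_nonneg _)).trans ?_
  rw [← Real.exp_add, Real.exp_le_exp]
  simp only [Finset.univ_unique, Finset.sum_const, Finset.card_singleton, one_smul]
  have g3 := h3 k hk1
  have e3 : ∑ x ∈ range (A.N * k), cwT A.c k x * PPT A.c A.N k x =
      ∑ x ∈ range (A.N * k), ∑ x' ∈ range (A.N * k), cwT A.c k x * cwT A.c k x' *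
        KK (x : ℂ) (x' : ℂ) := by
    refine Finset.sum_congr rfl fun x _ => ?_
    unfold PPT
    rw [Finset.mul_sum]
    exact Finset.sum_congr rfl fun x' _ => by ring
  rw [e3] at g3
  have hpsi := h4 k hk1
  have t1 := mul_le_mul_of_nonneg_left A.tot (sq_nonneg (k : ℝ))
  have hlogk : Real.log k ≤ Lg := Real.log_le_log hkp (by linarith)
  have hlogk0 : 0 ≤ Real.log k := Real.log_nonneg hk1'
  have hKr : (K : ℝ) = 23 * k + 12 := by rw [hK]; unfold pK; push_cast; ring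
  have hsmall : 12 * (k * A.l - 4 * (k * Real.log k) + 96 * k * Real.log 6) ≤
      12 * G * (k * Lg) := by
    have q1 : k * A.l ≤ 2 * |A.l| * (k * Lg) := by
      have := le_abs_self A.l
      have q := abs_nonneg A.l
      have q' : A.l ≤ 2 * |A.l| * Lg := by nlinarith
      nlinarith
    have q2 : 96 * k * Real.log 6 ≤ 192 * Real.log 6 * (k * Lg) := by
      have := mul_nonneg hkp.le hl6
      nlinarith
    have q3 : 0 ≤ k * Real.log k := mul_nonneg hkp.le hlogk0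
    rw [hG]
    nlinarith
  have hE2 : E * k ≤ 2 * E * (k * Lg) := by nlinarith [mul_nonneg hE0 hkp.le]
  have hC1L : (K : ℝ) * (C1 * Lg) ≤ 35 * C1 * (k * Lg) := by
    have h5 : (K : ℝ) ≤ 35 * k := by rw [hKr]; linarith
    have := mul_le_mul_of_nonneg_right h5 (by positivity : 0 ≤ C1 * Lg)
    linarith
  have hC5' : C5 * (k * Lg) = C2 * (k * Lg) + 35 * C1 * (k * Lg) + 2 * E * (k * Lg) +
      12 * G * (k * Lg) + C3 * (k * Lg) := by rw [hC5]; ring
  rw [hC5'] at hkk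
  have t2 : (K : ℝ) * (k * A.l - 4 * (k * Real.log k) + 96 * k * Real.log 6 + C1 * Lg) =
      (k : ℝ) ^ 2 * (23 * A.l) - 92 * ((k : ℝ) ^ 2 * Real.log k) +
        (k : ℝ) ^ 2 * (2208 * Real.log 6) +
        12 * (k * A.l - 4 * (k * Real.log k) + 96 * k * Real.log 6) + (K : ℝ) * (C1 * Lg) := by
    rw [hKr]; ring
  rw [t2]
  linarith [g3, t1, hsmall, hpsi, hkk, hE2, hC1L]

/-! ## the change of the coordinate -/

lemma momT_eq (c : ℤ × ℤ × ℤ) (a n : ℕ) (ha : 1 ≤ a) :
    momT c a n = ((36 ^ n * mom c a n : ℝ) : ℂ) := by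
  unfold momT mom
  rw [← tsum_mul_left, Complex.ofReal_tsum]
  congr 1
  funext t
  have hx : ((6 * (a - 1) + (t + 1) : ℕ) : ℝ) = 6 * xp a t := by
    unfold xp
    push_cast [Nat.cast_sub ha]
    ring
  have h1 : ((6 * (a - 1) + (t + 1) : ℕ) : ℂ) = ((6 * xp a t : ℝ) : ℂ) := by
    rw [← hx]; push_cast; rfl
  rw [h1]
  push_cast
  have h2 : ((6 : ℂ) * (xp a t : ℂ)) ^ 2 = 36 * (xp a t : ℂ) ^ 2 := by ring
  rw [h2, mul_pow]
  ring

lemma hank_scale (μ : ℕ → ℝ) (K : ℕ) :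
    hankS (fun n => (36 : ℝ) ^ n * μ n) K = Real.exp ((K : ℝ) * (K - 1) * Real.log 36) *
      hankS μ K := by
  unfold hankS
  have h1 : (Matrix.of fun i j : Fin K => (36 : ℝ) ^ ((i : ℕ) + (j : ℕ)) * μ ((i : ℕ) + (j : ℕ))) =
      Matrix.of (fun i j : Fin K => (36 : ℝ) ^ (i : ℕ) * (Matrix.of (fun i j : Fin K =>
        (36 : ℝ) ^ (j : ℕ) * (Matrix.of fun i j : Fin K => μ ((i : ℕ) + (j : ℕ))) i j)) i j) := by
    ext i j
    simp only [Matrix.of_apply]
    rw [pow_add]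
    ring
  rw [h1, Matrix.det_mul_column, Matrix.det_mul_row, ← mul_assoc]
  congr 1
  have h2 : ∏ i : Fin K, (36 : ℝ) ^ (i : ℕ) = Real.exp ((K : ℝ) * (K - 1) / 2 * Real.log 36) := by
    rw [Finset.prod_pow_eq_pow_sum, Fin.sum_univ_eq_sum_range (fun i => i) K,
      ← Real.rpow_natCast, Real.rpow_def_of_pos (by norm_num)]
    congr 1
    have h3 := Finset.sum_range_id_mul_two K
    have h4 : ((∑ i ∈ range K, i : ℕ) : ℝ) * 2 = (K : ℝ) * (K - 1) := by
      rcases Nat.eq_zero_or_pos K with h0 | h0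
      · subst h0; simp
      · have h5 : (((∑ i ∈ range K, i) * 2 : ℕ) : ℝ) = ((K * (K - 1) : ℕ) : ℝ) := by rw [h3]
        push_cast [Nat.cast_sub h0] at h5
        push_cast
        exact h5
    rw [← h4]
    ring
  rw [h2, ← Real.exp_add]
  congr 1
  ring

theorem archOf : ArchOf := by
  intro A0 hA c δ hδ
  obtain ⟨A⟩ := hA
  obtain ⟨k0, h⟩ := det_boundT A c δ hδ
  refine ⟨k0, fun k hk => ?_⟩
  have g := h k hk
  have ha : 1 ≤ pa k := by unfold pa; omega
  have e1 : hankS (momT c (pa k)) (pK k) =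
      ((hankS (fun n => (36 : ℝ) ^ n * mom c (pa k) n) (pK k) : ℝ) : ℂ) := by
    unfold hankS
    rw [← Complex.coe_algebraMap, RingHom.map_det]
    congr 1
    ext i j
    rw [RingHom.mapMatrix_apply, Matrix.map_apply, Matrix.of_apply, Matrix.of_apply,
      momT_eq c (pa k) _ ha]
    rfl
  rw [e1, Complex.norm_real, hank_scale, Real.norm_eq_abs, abs_mul, abs_of_pos (Real.exp_pos _)] at g
  have hl36 : Real.log 36 = 2 * Real.log 6 := by
    rw [show (36 : ℝ) = 6 ^ 2 by norm_num, Real.log_pow]; push_cast; ring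
  have hl6 : 0 ≤ Real.log 6 := Real.log_nonneg (by norm_num)
  have hKr : ((pK k : ℕ) : ℝ) = 23 * k + 12 := by unfold pK; push_cast; ring
  have hk0 : (0 : ℝ) ≤ k := Nat.cast_nonneg k
  have h3 : |hankS (mom c (pa k)) (pK k)| ≤ Real.exp (k ^ 2 * (-1150 * Real.log k + A0 +
      2208 * Real.log 6 + δ)) * Real.exp (-(((pK k : ℕ) : ℝ) * ((pK k : ℕ) - 1) * Real.log 36)) := by
    rw [Real.exp_neg, ← div_eq_mul_inv, le_div_iff₀ (Real.exp_pos _), mul_comm]
    exact g
  refine h3.trans ?_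
  rw [← Real.exp_add, Real.exp_le_exp, hKr, hl36]
  have h5 : (0 : ℝ) ≤ (529 * k + 132) * (2 * Real.log 6) := by positivity
  nlinarith

end ZT
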