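import Pool.Agent.Lib.ZT.PDefs

/-!
# T4: the functional against products of token factors
-/

open Polynomial Finset Z579

namespace ZT

/-- coefficientwise integrality -/
def IC (p : ℕ) (G : ℚ[X]) : Prop := ∀ n, VG p 0 (G.coeff n)

section
variable {p : ℕ} [hp : Fact p.Prime]

lemma IC.mul {F G : ℚ[X]} (hF : IC p F) (hG : IC p G) : IC p (F * G) := by
  intro n
  rw [Polynomial.coeff_mul]
  refine VG.sum fun x _ => ?_
  simpa using (hF x.1).mul (hG x.2)

lemma IC.one : IC p (1 : ℚ[X]) := by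
  intro n
  rw [Polynomial.coeff_one]
  split_ifs
  · exact VG.one
  · exact VG.zero' _ _

lemma IC.prod {ι : Type*} {s : Finset ι} {f : ι → ℚ[X]} (h : ∀ i ∈ s, IC p (f i)) :
    IC p (∏ i ∈ s, f i) :=
  Finset.prod_induction _ (IC p) (fun _ _ h1 h2 => h1.mul h2) IC.one h

lemma IC.sub_C {x : ℚ} (hx : VG p 0 x) : IC p (X - Polynomial.C x) := by
  intro n
  rw [Polynomial.coeff_sub, Polynomial.coeff_X, Polynomial.coeff_C]
  refine VG.sub ?_ ?_
  · split_ifs
    · exact VG.one
    · exact VG.zero' _ _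
  · split_ifs
    · exact hx
    · exact VG.zero' _ _

lemma WA_neg {K M : ℝ} {f : PowerSeries ℚ} (h : WA p K M f) : WA p K M (-f) := fun j => by
  rw [map_neg]; exact (h j).neg

lemma WA_fac0 {u : ℤ} {x : ℚ} (hx : VG p 0 x) :
    WA p 1 0 (Polynomial.aeval (Z579.lin (-u) ^ 2) (X - Polynomial.C x)) := by
  rw [map_sub, Polynomial.aeval_X, Polynomial.aeval_C, sub_eq_add_neg]
  have h1 : WA p 1 0 (Z579.lin (-u) ^ 2) := by
    simpa using (WA.lin0 (p := p) zero_le_one (-u)).pow 2
  have h2 : WA p 1 0 (algebraMap ℚ (PowerSeries ℚ) x) := WA.const hx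
  exact h1.add (WA_neg h2)

lemma WA_fac1 {u r : ℤ} (h : (p : ℤ) ∣ u - r ∨ (p : ℤ) ∣ u + r) :
    WA p 1 1 (Polynomial.aeval (Z579.lin (-u) ^ 2) (X - Polynomial.C ((r : ℚ) ^ 2))) := by
  rw [aeval_factor]
  rcases h with h | h
  · have h3 : (p : ℤ) ∣ -u + r := by
      have := (dvd_neg (α := ℤ)).2 h
      rwa [neg_sub, sub_eq_neg_add] at this
    have := (WA.lin0 (p := p) zero_le_one (-u - r)).mul
      (WA.lin (K := 1) (VG.of_dvd h3) le_rfl)
    simpa using this
  · have h3 : (p : ℤ) ∣ -u - r := by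
      have := (dvd_neg (α := ℤ)).2 h
      rwa [neg_add'] at this
    have := (WA.lin (K := 1) (VG.of_dvd h3) le_rfl).mul
      (WA.lin0 (p := p) zero_le_one (-u + r))
    simpa using this

lemma VG_sixth (hp5 : 5 ≤ p) : VG p 0 ((6 : ℚ)⁻¹) := by
  right
  rw [padicValRat.inv]
  have h1 : padicValRat p (6 : ℚ) = 0 := by
    have h2 : padicValRat p ((6 : ℕ) : ℚ) = padicValNat p 6 := padicValRat.of_nat
    have h3 : padicValNat p 6 = 0 := by
      refine padicValNat.eq_zero_of_not_dvd fun h => ?_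
      have h4 : p ∣ 2 * 3 := h
      rcases (Nat.Prime.dvd_mul hp.out).1 h4 with h5 | h5
      · have := Nat.le_of_dvd (by norm_num) h5; omega
      · have := Nat.le_of_dvd (by norm_num) h5; omega
    rw [h3] at h2
    simpa using h2
  rw [h1]; simp

lemma VG_pm (hp5 : 5 ≤ p) (m : ℕ) : VG p 1 (((p * m : ℕ) : ℚ) / 6) := by
  rw [div_eq_mul_inv]
  have h1 : VG p 1 (((p * m : ℕ) : ℤ) : ℚ) := VG.of_dvd (by push_cast; exact dvd_mul_right _ _)
  have h2 := h1.mul (VG_sixth hp5)
  simpa using h2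

lemma VG_pt (hp5 : 5 ≤ p) (m : ℕ) (u : ℤ) :
    VG p 1 ((((p * m : ℕ) : ℚ) / 6 - u) ^ 2 - (u : ℚ) ^ 2) := by
  have h1 := VG_pm (p := p) hp5 m
  have h2 : VG p 0 (((p * m : ℕ) : ℚ) / 6 - (((2 * u : ℤ)) : ℚ)) :=
    (h1.mono zero_le_one).sub (VG.int _)
  have h3 := h1.mul h2
  have h4 : (((p * m : ℕ) : ℚ) / 6 - u) ^ 2 - (u : ℚ) ^ 2 =
      ((p * m : ℕ) : ℚ) / 6 * (((p * m : ℕ) : ℚ) / 6 - (((2 * u : ℤ)) : ℚ)) := by
    push_cast; ring
  rw [h4]
  simpa using h3

/-- the token points of the one-pole class `± r` -/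
noncomputable def ptsl (p a : ℕ) (r : ℤ) : List ℚ :=
  ((mset p a r).toList.map fun m => (((p * m : ℕ) : ℚ) / 6 - r) ^ 2) ++
    (if r = 0 then [] else
      (mset p a (-r)).toList.map fun m => (((p * m : ℕ) : ℚ) / 6 - ((-r : ℤ) : ℚ)) ^ 2)

/-- the token points -/
noncomputable def xpt (p a : ℕ) (r : ℤ) (j : ℕ) : ℚ :=
  if (p : ℤ) - a < r then (r : ℚ) ^ 2 else (ptsl p a r).getD j ((r : ℚ) ^ 2)

lemma length_ptsl (p a : ℕ) (r : ℤ) : (ptsl p a r).length =
    (mset p a r).card + (if r = 0 then 0 else (mset p a (-r)).card) := by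
  unfold ptsl
  rw [List.length_append, List.length_map, Finset.length_toList]
  split_ifs
  · rfl
  · rw [List.length_map, Finset.length_toList]

lemma ptsl_sub (hp5 : 5 ≤ p) {a : ℕ} {r : ℤ} {y : ℚ} (hy : y ∈ ptsl p a r) :
    VG p 1 (y - (r : ℚ) ^ 2) := by
  unfold ptsl at hy
  rw [List.mem_append] at hy
  rcases hy with hy | hy
  · rw [List.mem_map] at hy
    obtain ⟨m, -, rfl⟩ := hy
    exact VG_pt hp5 m r
  · split_ifs at hy with h0
    · simp at hy
    · rw [List.mem_map] at hy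
      obtain ⟨m, -, rfl⟩ := hy
      have := VG_pt (p := p) hp5 m (-r)
      push_cast at this ⊢
      rwa [neg_sq] at this

lemma xpt_sub (hp5 : 5 ≤ p) (a : ℕ) (r : ℤ) (j : ℕ) : VG p 1 (xpt p a r j - (r : ℚ) ^ 2) := by
  unfold xpt
  split_ifs
  · rw [sub_self]; exact VG.zero' _ _
  · rcases Nat.lt_or_ge j (ptsl p a r).length with h | h
    · rw [List.getD_eq_getElem _ _ h]
      exact ptsl_sub hp5 (List.getElem_mem h)
    · rw [List.getD_eq_default _ _ h, sub_self]; exact VG.zero' _ _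

lemma xpt_int (hp5 : 5 ≤ p) (a : ℕ) (r : ℤ) (j : ℕ) : VG p 0 (xpt p a r j) := by
  have h1 := (xpt_sub (p := p) hp5 a r j).mono zero_le_one
  have h2 := h1.add (VG.int (p := p) (r ^ 2))
  push_cast at h2
  simpa using h2

omit hp in
/-- the points of the poles `u` in a one-pole class -/
lemma exists_pt {a : ℕ} {u : ℤ} (hu1 : |u| ≤ (p : ℤ) - a) (hu2 : |u| < a) {m : ℕ}
    (hm : m ∈ mset p a u) : ∃ k < ntok p a |u|, xpt p a |u| k =
      (((p * m : ℕ) : ℚ) / 6 - u) ^ 2 := by
  have hmem : (((p * m : ℕ) : ℚ) / 6 - u) ^ 2 ∈ ptsl p a |u| := by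
    unfold ptsl
    rw [List.mem_append]
    rcases le_or_gt 0 u with h0 | h0
    · left
      rw [abs_of_nonneg h0, List.mem_map]
      exact ⟨m, Finset.mem_toList.2 hm, rfl⟩
    · right
      rw [abs_of_neg h0, if_neg (by omega), List.mem_map]
      refine ⟨m, Finset.mem_toList.2 (by rwa [neg_neg]), by rw [neg_neg]⟩
  obtain ⟨k, hk, hk2⟩ := List.mem_iff_getElem.1 hmem
  refine ⟨k, ?_, ?_⟩
  · unfold ntok
    rw [if_neg (by omega), if_pos hu2]
    rwa [length_ptsl] at hk
  · unfold xpt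
    rw [if_neg (by omega), List.getD_eq_getElem _ _ hk, hk2]

lemma VG_term {c : ℤ × ℤ × ℤ} {n s k : ℕ} (hn : n < p ^ 2) (hk : k < n) :
    VG p (-(s : ℝ)) ((gam c (k + 1) : ℚ) * (6 / ((k : ℚ) + 1)) ^ s) := by
  have h1 : VG p (-1) (6 / ((k : ℚ) + 1)) := by
    rw [div_eq_mul_inv]
    have h2 : VG p (-1) (((k : ℚ) + 1)⁻¹) := by
      right
      rw [padicValRat.inv]
      have h3 : padicValRat p ((k : ℚ) + 1) = padicValNat p (k + 1) := by
        rw [← padicValRat.of_nat]; push_cast; rfl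
      rw [h3]
      have h4 : padicValNat p (k + 1) ≤ 1 := by
        have h5 : padicValNat p (k + 1) ≤ Nat.log p (k + 1) := padicValNat_le_nat_log (k + 1)
        have h6 : Nat.log p (k + 1) < 2 :=
          Nat.log_lt_of_lt_pow (by omega) (by omega)
        omega
      have h5 : (padicValNat p (k + 1) : ℝ) ≤ 1 := by exact_mod_cast h4
      rw [Int.cast_neg, Int.cast_natCast]
      linarith
    have h3 := (VG.nat (p := p) 6).mul h2
    simpa using h3
  have h2 := (VG.int (p := p) (gam c (k + 1))).mul (h1.pow s)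
  refine h2.mono (le_of_eq ?_)
  ring

lemma VG_wg {c : ℤ × ℤ × ℤ} {a : ℕ} {z : ℕ → ℚ} {u : ℤ} (hu : u ∈ pc a)
    (hp2 : 12 * a ≤ p ^ 2) (_ha : 1 ≤ a) (hz : ∀ s, VG p 0 (z s)) (i : ℕ) :
    VG p (-(i : ℝ)) (wg c a 1 z u i) := by
  unfold wg
  have hi0 : (0 : ℝ) ≤ i := Nat.cast_nonneg i
  rw [Nat.cast_one, one_mul]
  refine ((hz i).mono (by linarith)).sub ?_
  unfold Hg
  refine VG.sum fun k hk => ?_
  rw [Finset.mem_range] at hk
  have hu' : 1 - (a : ℤ) ≤ u ∧ u ≤ (a : ℤ) - 1 := by simpa [pc] using hu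
  refine VG_term (n := (6 * (u + a - 1)).toNat) ?_ hk
  omega

/-- the product of token factors -/
noncomputable def TP (p a : ℕ) (N : ℤ → ℕ) : ℚ[X] :=
  ∏ r ∈ Ip p, ∏ j ∈ range (N r), (X - Polynomial.C (xpt p a r j))

lemma TP_int (hp5 : 5 ≤ p) (a : ℕ) (N : ℤ → ℕ) : IC p (TP p a N) :=
  IC.prod fun _ _ => IC.prod fun _ _ => IC.sub_C (xpt_int hp5 _ _ _)

lemma TP_WA (hp5 : 5 ≤ p) {a : ℕ} (N : ℤ → ℕ) {u r : ℤ} (hr : r ∈ Ip p)
    (hra : (p : ℤ) - a < r) (h : (p : ℤ) ∣ u - r ∨ (p : ℤ) ∣ u + r) :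
    WA p 1 (N r) (Polynomial.aeval (Z579.lin (-u) ^ 2) (TP p a N)) := by
  unfold TP
  rw [map_prod]
  have h1 : WA p 1 (∑ r' ∈ Ip p, if r' = r then (N r : ℝ) else 0)
      (∏ r' ∈ Ip p, Polynomial.aeval (Z579.lin (-u) ^ 2)
        (∏ j ∈ range (N r'), (X - Polynomial.C (xpt p a r' j)))) := by
    refine WA.prod fun r' _ => ?_
    rw [map_prod]
    split_ifs with hrr
    · subst hrr
      have h2 : WA p 1 (∑ j ∈ range (N r'), (1 : ℝ)) (∏ j ∈ range (N r'),
          Polynomial.aeval (Z579.lin (-u) ^ 2) (X - Polynomial.C (xpt p a r' j))) := by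
        refine WA.prod fun j _ => ?_
        unfold xpt
        rw [if_pos hra]
        exact WA_fac1 h
      simpa using h2
    · have h2 : WA p 1 (∑ j ∈ range (N r'), (0 : ℝ)) (∏ j ∈ range (N r'),
          Polynomial.aeval (Z579.lin (-u) ^ 2) (X - Polynomial.C (xpt p a r' j))) :=
        WA.prod fun j _ => WA_fac0 (xpt_int hp5 _ _ _)
      simpa using h2
  rwa [Finset.sum_ite_eq' (Ip p) r, if_pos hr] at h1

omit hp in
lemma TP_eval_zero {a : ℕ} (N : ℤ → ℕ) {r : ℤ} (hr : r ∈ Ip p) {k : ℕ} (hk : k < N r) :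
    (TP p a N).eval (xpt p a r k) = 0 := by
  unfold TP
  rw [Polynomial.eval_prod]
  refine Finset.prod_eq_zero hr ?_
  rw [Polynomial.eval_prod]
  refine Finset.prod_eq_zero (Finset.mem_range.2 hk) ?_
  simp

lemma TP_eval_VG (hp5 : 5 ≤ p) {a : ℕ} (N : ℤ → ℕ) {r : ℤ} (hr : r ∈ Ip p) (k : ℕ) :
    VG p (N r) ((TP p a N).eval (xpt p a r k)) := by
  unfold TP
  rw [Polynomial.eval_prod]
  have h1 : VG p (∑ r' ∈ Ip p, if r' = r then (N r : ℝ) else 0)
      (∏ r' ∈ Ip p, (∏ j ∈ range (N r'),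
        (X - Polynomial.C (xpt p a r' j))).eval (xpt p a r k)) := by
    refine VG.prod fun r' _ => ?_
    rw [Polynomial.eval_prod]
    split_ifs with hrr
    · subst hrr
      have h2 : VG p (∑ j ∈ range (N r'), (1 : ℝ)) (∏ j ∈ range (N r'),
          (X - Polynomial.C (xpt p a r' j)).eval (xpt p a r' k)) := by
        refine VG.prod fun j _ => ?_
        rw [Polynomial.eval_sub, Polynomial.eval_X, Polynomial.eval_C]
        have h3 := (xpt_sub (p := p) hp5 a r' k).sub (xpt_sub (p := p) hp5 a r' j)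
        rwa [sub_sub_sub_cancel_right] at h3
      simpa using h2
    · have h2 : VG p (∑ j ∈ range (N r'), (0 : ℝ)) (∏ j ∈ range (N r'),
          (X - Polynomial.C (xpt p a r' j)).eval (xpt p a r k)) := by
        refine VG.prod fun j _ => ?_
        rw [Polynomial.eval_sub, Polynomial.eval_X, Polynomial.eval_C]
        exact (xpt_int hp5 _ _ _).sub (xpt_int hp5 _ _ _)
      simpa using h2
  rwa [Finset.sum_ite_eq' (Ip p) r, if_pos hr] at h1

end

theorem bounds (h : OneCls) : Bounds := by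
  intro c p a z hp hp5 ha hap hp2 hz
  have hfact := Fact.mk hp
  refine ⟨xpt p a, fun N N' t ht => ?_⟩
  change VG p t (FL c a 1 z (TP p a N * TP p a N'))
  have hodd : p % 2 = 1 := by
    rcases hp.eq_two_or_odd with h | h
    · omega
    · exact h
  have hval : ∀ r : ℤ, r ∈ Ip p → ∀ j, 0 ≤ tval p a r j := by
    intro r hr j
    unfold tval
    split_ifs with h1 h2
    · have : j < 16 := by simpa [ntok, h2] using h1
      have : (j : ℝ) ≤ 15 := by exact_mod_cast (by omega : j ≤ 15)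
      linarith
    · have h3 : ntok p a r ≤ 6 := by
        unfold ntok
        rw [if_neg h2]
        have hm : ∀ u, (mset p a u).card ≤ 3 := fun u => (Finset.card_filter_le _ _).trans (by simp)
        split_ifs
        · have := hm r; omega
        · have := hm r; have := hm (-r); omega
        · omega
      have : (j : ℝ) ≤ 5 := by exact_mod_cast (by omega : j ≤ 5)
      linarith
    · exact le_rfl
  have h0mem : (0 : ℤ) ∈ Ip p := by rw [Ip, Finset.mem_Icc]; omega
  have ht0 : t ≤ 0 := by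
    have h1 := ht 0 h0mem
    have h2 := hval 0 h0mem (N 0)
    have h3 := hval 0 h0mem (N' 0)
    linarith
  have hG : IC p (TP p a N * TP p a N') := (TP_int hp5 a N).mul (TP_int hp5 a N')
  rw [FL, Lw_apply]
  refine VG.sum fun u hu => ?_
  have hu' : 1 - (a : ℤ) ≤ u ∧ u ≤ (a : ℤ) - 1 := by simpa [pc] using hu
  by_cases hone : ∀ w ∈ pc a, (p : ℤ) ∣ w - u → w = u
  · -- a class with one pole
    obtain ⟨ρ, hρ, hρ2⟩ := h c p a z u hp hp5 hz hu hone
    have h1 := hρ2 _ hG
    have hsum : ∑ i ∈ Finset.Icc 1 16, ((Nat.choose (i + 0 - 1) 0 : ℚ) * wg c a 1 z u i) *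
        Acoef 16 0 a a u i (TP p a N * TP p a N') =
        ∑ i ∈ Finset.Icc 1 16, wg c a 1 z u i * Acoef 16 0 a a u i (TP p a N * TP p a N') := by
      refine Finset.sum_congr rfl fun i _ => ?_
      rw [Nat.choose_zero_right, Nat.cast_one, one_mul]
    rw [hsum]
    have key : VG p t (∑ m ∈ mset p a u, ρ m *
        (TP p a N * TP p a N').eval ((((p * m : ℕ) : ℚ) / 6 - u) ^ 2)) := by
      refine VG.sum fun m hm => ?_
      have hup : |u| ≤ (p : ℤ) - a := by
        by_contra hcon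
        push Not at hcon
        rcases abs_cases u with ⟨h2, h3⟩ | ⟨h2, h3⟩
        · have h4 := hone (u - p) (by rw [pc, Finset.mem_Icc]; omega) (by simp)
          have : (0 : ℤ) < p := by exact_mod_cast hp.pos
          omega
        · have h4 := hone (u + p) (by rw [pc, Finset.mem_Icc]; omega) (by simp)
          have : (0 : ℤ) < p := by exact_mod_cast hp.pos
          omega
      have hua : |u| < a := by rw [abs_lt]; omega
      have hur : |u| ∈ Ip p := by
        rw [Ip, Finset.mem_Icc]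
        have := abs_nonneg u
        omega
      obtain ⟨k, hk, hk2⟩ := exists_pt hup hua hm
      rw [← hk2, Polynomial.eval_mul]
      rcases Nat.lt_or_ge k (N |u|) with h2 | h2
      · rw [TP_eval_zero N hur h2, zero_mul, mul_zero]; exact VG.zero' _ _
      rcases Nat.lt_or_ge k (N' |u|) with h3 | h3
      · rw [TP_eval_zero N' hur h3, mul_zero, mul_zero]; exact VG.zero' _ _
      have h4 := (hρ m hm).mul
        ((TP_eval_VG hp5 (a := a) N hur k).mul (TP_eval_VG hp5 (a := a) N' hur k))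
      refine h4.mono ?_
      have h5 := ht |u| hur
      have h6 : tval p a |u| (N |u|) = 16 - 2 * (N |u| : ℝ) := by
        unfold tval
        rw [if_pos (by omega), if_neg (by omega)]
      have h7 : tval p a |u| (N' |u|) = 16 - 2 * (N' |u| : ℝ) := by
        unfold tval
        rw [if_pos (by omega), if_neg (by omega)]
      rw [h6, h7] at h5
      linarith
    have h2 := (h1.mono ht0).add key
    rwa [sub_add_cancel] at h2
  · -- a class with two poles
    push Not at hone
    obtain ⟨w, hw, hwu, hne⟩ := hone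
    have hw' : 1 - (a : ℤ) ≤ w ∧ w ≤ (a : ℤ) - 1 := by simpa [pc] using hw
    obtain ⟨r, hr, hur⟩ := exists_class hp (by omega) u
    have hp0 : (0 : ℤ) < p := by exact_mod_cast hp.pos
    have hr' : 0 ≤ r ∧ r ≤ (((p - 1) / 2 : ℕ) : ℤ) := by simpa [Ip] using hr
    have hapZ : (a : ℤ) < p := by exact_mod_cast hap
    -- the only multiples of `p` in the range are `0, ± p`
    have hmul : ∀ x : ℤ, (p : ℤ) ∣ x → |x| < 2 * p → x = 0 ∨ x = p ∨ x = -p := by
      intro x hx hx2
      obtain ⟨k, rfl⟩ := hx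
      rw [abs_lt] at hx2
      have h1 : k < 2 := by nlinarith
      have h2 : -2 < k := by nlinarith
      have h3 : k = -1 ∨ k = 0 ∨ k = 1 := by omega
      rcases h3 with rfl | rfl | rfl
      · right; right; ring
      · left; ring
      · right; left; ring
    have hwu2 : w - u = p ∨ w - u = -p := by
      rcases hmul _ hwu (by rw [abs_lt]; omega) with h1 | h1
      · exact absurd (sub_eq_zero.1 h1) hne
      · exact h1
    have hra : (p : ℤ) - a < r := by
      rcases hur with h1 | h1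
      · rcases hmul _ h1 (by rw [abs_lt]; omega) with h2 | h2 | h2 <;> omega
      · rcases hmul _ h1 (by rw [abs_lt]; omega) with h2 | h2 | h2 <;> omega
    have hcnt : cnt p (pc a) u ≤ 2 := by
      have h1 : ((pc a).filter fun w => (p : ℤ) ∣ w - u) ⊆ {u, w} := by
        intro v hv
        rw [Finset.mem_filter] at hv
        have hv' : 1 - (a : ℤ) ≤ v ∧ v ≤ (a : ℤ) - 1 := by simpa [pc] using hv.1
        rw [Finset.mem_insert, Finset.mem_singleton]
        rcases hmul _ hv.2 (by rw [abs_lt]; omega) with h2 | h2 | h2 <;> omega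
      exact (Finset.card_le_card h1).trans Finset.card_le_two
    have hScl : (-32 : ℝ) ≤ (Scl p 16 0 a a u : ℝ) := by
      rw [Scl_eq]
      have : (cnt p (pc a) u : ℝ) ≤ 2 := by exact_mod_cast hcnt
      push_cast
      linarith
    refine VG.sum fun i hi => ?_
    rw [Finset.mem_Icc] at hi
    have h1 := base_WA (p := p) (q := 16) (B := 0) (a := a) (b := a) le_rfl (by omega) hu
    have h2 := (TP_WA hp5 (a := a) N hr hra hur).mul (TP_WA hp5 (a := a) N' hr hra hur)
    rw [← map_mul] at h2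
    have h3 := (h1.mul h2) (16 - i)
    have h4 := ((VG.nat (p := p) (Nat.choose (i + 0 - 1) 0)).mul
      (VG_wg (c := c) hu hp2 ha hz i)).mul h3
    refine VG.mono h4 ?_
    have h5 := ht r hr
    have htv : ∀ j : ℕ, tval p a r j = if j < 16 then 32 - 2 * (j : ℝ) else 0 := by
      intro j
      unfold tval ntok
      rw [if_pos hra]
      simp only [if_pos hra]
    rw [htv, htv] at h5
    rw [Nat.cast_sub hi.2]
    push_cast at *
    have h6 : t ≤ (N r : ℝ) + N' r - 32 := by
      split_ifs at h5 with g1 g2 g2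
      · linarith
      · push Not at g2
        have : (16 : ℝ) ≤ N' r := by exact_mod_cast g2
        linarith
      · push Not at g1
        have : (16 : ℝ) ≤ N r := by exact_mod_cast g1
        linarith
      · push Not at g1 g2
        have h7 : (16 : ℝ) ≤ N' r := by exact_mod_cast g2
        have h8 : (16 : ℝ) ≤ N r := by exact_mod_cast g1
        linarith
    linarith

end ZT
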