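import Pool.Agent.Lib.ZT.PDefs

/-!
# T5: counting of the tokens
-/

open Polynomial Finset Z579

namespace ZT

/-- number of integers in a real interval -/
lemma cnt_card_le (S : Finset ℤ) (L U : ℝ) (hS : ∀ r ∈ S, L ≤ (r : ℝ) ∧ (r : ℝ) ≤ U)
    (h : 0 ≤ U - L + 1) : (S.card : ℝ) ≤ U - L + 1 := by
  have hsub : S ⊆ Finset.Icc ⌈L⌉ ⌊U⌋ := by
    intro r hr
    rw [Finset.mem_Icc]
    exact ⟨Int.ceil_le.2 (hS r hr).1, Int.le_floor.2 (hS r hr).2⟩
  have hc := Finset.card_le_card hsub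
  rw [Int.card_Icc] at hc
  have h1 : (S.card : ℝ) ≤ (((⌊U⌋ + 1 - ⌈L⌉).toNat : ℕ) : ℝ) := by exact_mod_cast hc
  refine h1.trans ?_
  rcases le_total 0 (⌊U⌋ + 1 - ⌈L⌉) with h2 | h2
  · have h3 : (((⌊U⌋ + 1 - ⌈L⌉).toNat : ℕ) : ℝ) = ((⌊U⌋ + 1 - ⌈L⌉ : ℤ) : ℝ) := by
      exact_mod_cast Int.toNat_of_nonneg h2
    rw [h3]
    push_cast
    have h4 := Int.floor_le U
    have h5 := Int.le_ceil L
    linarith
  · rw [Int.toNat_of_nonpos h2]
    simpa using h

/-- indicator of `p m / 6 ≤ u + a - 1` -/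
def ind (p a m : ℕ) (u : ℤ) : ℕ := if ((p * m : ℕ) : ℤ) ≤ 6 * (u + a - 1) then 1 else 0

lemma ind_le (p a m : ℕ) (u : ℤ) : ind p a m u ≤ 1 := by unfold ind; split_ifs <;> omega

lemma mset_card (p a : ℕ) (u : ℤ) :
    (mset p a u).card = ind p a 2 u + ind p a 3 u + ind p a 4 u := by
  unfold mset ind
  rw [Finset.card_filter]
  rw [Finset.sum_insert (by decide), Finset.sum_insert (by decide), Finset.sum_singleton]
  ring

lemma ind_anti (p a : ℕ) (u : ℤ) {m m' : ℕ} (h : m ≤ m') : ind p a m' u ≤ ind p a m u := by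
  unfold ind
  have h1 : ((p * m : ℕ) : ℤ) ≤ ((p * m' : ℕ) : ℤ) := by exact_mod_cast Nat.mul_le_mul_left p h
  split_ifs <;> omega

/-- sum of the values of the first `n` tokens -/
lemma sum_tok (n : ℕ) (V : ℝ) : ∑ j ∈ range n, (V - 2 * (j : ℝ)) = V * n - n * (n - 1) := by
  induction n with
  | zero => simp
  | succ n ih =>
    rw [Finset.sum_range_succ, ih]
    push_cast
    ring

lemma Trow_two (p a : ℕ) (r : ℤ) (h : (p : ℤ) - a < r) :
    ∑ j ∈ range (ntok p a r), tval p a r j = 272 := by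
  have hn : ntok p a r = 16 := by unfold ntok; rw [if_pos h]
  have h1 : ∀ j ∈ range (ntok p a r), tval p a r j = 32 - 2 * (j : ℝ) := by
    intro j hj
    unfold tval
    rw [if_pos (Finset.mem_range.1 hj), if_pos h]
  rw [Finset.sum_congr rfl h1, sum_tok, hn]
  norm_num

lemma Trow_one (p a : ℕ) (r : ℤ) (h : ¬ (p : ℤ) - a < r) :
    ∑ j ∈ range (ntok p a r), tval p a r j = 17 * (ntok p a r : ℝ) - (ntok p a r : ℝ) ^ 2 := by
  have h1 : ∀ j ∈ range (ntok p a r), tval p a r j = 16 - 2 * (j : ℝ) := by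
    intro j hj
    unfold tval
    rw [if_pos (Finset.mem_range.1 hj), if_neg h]
  rw [Finset.sum_congr rfl h1, sum_tok]
  ring

/-- sum of an indicator -/
lemma sum_ind_le (S : Finset ℤ) (f : ℤ → ℕ) (hf : ∀ r, f r ≤ 1) (L U : ℝ)
    (hS : ∀ r ∈ S, f r = 1 → L ≤ (r : ℝ) ∧ (r : ℝ) ≤ U) (h : 0 ≤ U - L + 1) :
    ∑ r ∈ S, (f r : ℝ) ≤ U - L + 1 := by
  have h1 : ∑ r ∈ S, (f r : ℝ) = ((S.filter fun r => f r = 1).card : ℝ) := by
    rw [Finset.card_filter]
    push_cast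
    refine Finset.sum_congr rfl fun r _ => ?_
    have := hf r
    interval_cases h2 : f r
    · simp
    · simp
  rw [h1]
  exact cnt_card_le _ L U (fun r hr => hS r (Finset.mem_filter.1 hr).1 (Finset.mem_filter.1 hr).2) h

lemma ind_eq_one {p a m : ℕ} {u : ℤ} (h : ind p a m u = 1) :
    (p : ℝ) * m / 6 ≤ (u : ℝ) + a - 1 := by
  unfold ind at h
  split_ifs at h with h1
  have h2 : ((p * m : ℕ) : ℝ) ≤ 6 * ((u : ℝ) + a - 1) := by exact_mod_cast h1
  push_cast at h2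
  linarith

/-- classes with two poles -/
noncomputable def S2c (p a : ℕ) : Finset ℤ := (Ip p).filter fun r => (p : ℤ) - a < r

/-- classes with one pole -/
noncomputable def S1c (p a : ℕ) : Finset ℤ :=
  (Ip p).filter fun r => ¬ (p : ℤ) - a < r ∧ r < a

lemma Ttok_le (p a : ℕ) (g : ℤ → ℝ)
    (hg : ∀ r ∈ S1c p a, 17 * (ntok p a r : ℝ) - (ntok p a r : ℝ) ^ 2 ≤ g r) :
    Ttok p a ≤ 272 * ((S2c p a).card : ℝ) + ∑ r ∈ S1c p a, g r := by
  unfold Ttok
  have h1 : ∀ r ∈ Ip p, ∑ j ∈ range (ntok p a r), tval p a r j ≤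
      272 * (if (p : ℤ) - a < r then 1 else 0) +
        (if ¬ (p : ℤ) - a < r ∧ r < a then g r else 0) := by
    intro r hr
    by_cases h2 : (p : ℤ) - a < r
    · rw [Trow_two p a r h2, if_pos h2, if_neg (by tauto)]
      norm_num
    · rw [Trow_one p a r h2, if_neg h2]
      by_cases h3 : r < a
      · rw [if_pos ⟨h2, h3⟩]
        have := hg r (Finset.mem_filter.2 ⟨hr, h2, h3⟩)
        linarith
      · rw [if_neg (by tauto)]
        have : ntok p a r = 0 := by unfold ntok; rw [if_neg h2, if_neg h3]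
        rw [this]
        norm_num
  refine (Finset.sum_le_sum h1).trans (le_of_eq ?_)
  rw [Finset.sum_add_distrib, ← Finset.mul_sum, S2c, S1c, Finset.sum_filter, Finset.card_filter]
  push_cast
  rfl

lemma ntok_le (p a : ℕ) (r : ℤ) (hr : r ∈ S1c p a) : ntok p a r ≤
    (ind p a 2 r + ind p a 3 r + ind p a 4 r) +
      (ind p a 2 (-r) + ind p a 3 (-r) + ind p a 4 (-r)) := by
  obtain ⟨_, h2, h3⟩ := Finset.mem_filter.1 hr
  unfold ntok
  rw [if_neg h2, if_pos h3, mset_card, mset_card]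
  split_ifs <;> omega

lemma S1c_bd {p a : ℕ} {r : ℤ} (hr : r ∈ S1c p a) : (0 : ℝ) ≤ r ∧ (r : ℝ) ≤ p - a ∧
    (r : ℝ) ≤ a - 1 := by
  obtain ⟨h1, h2, h3⟩ := Finset.mem_filter.1 hr
  rw [Ip, Finset.mem_Icc] at h1
  refine ⟨by exact_mod_cast h1.1, ?_, ?_⟩
  · have : r ≤ (p : ℤ) - a := by omega
    exact_mod_cast this
  · have : r ≤ (a : ℤ) - 1 := by omega
    exact_mod_cast this

lemma S2c_card {p a : ℕ} (hp : 5 ≤ p) :
    ((S2c p a).card : ℝ) ≤ max 0 ((a : ℝ) - p / 2 + 1) := by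
  rcases le_total 0 ((a : ℝ) - p / 2 + 1) with h | h
  · rw [max_eq_right h]
    have h1 := cnt_card_le (S2c p a) ((p : ℝ) - a) ((p : ℝ) / 2) (fun r hr => by
      obtain ⟨h1, h2⟩ := Finset.mem_filter.1 hr
      rw [Ip, Finset.mem_Icc] at h1
      refine ⟨?_, ?_⟩
      · have : (p : ℤ) - a ≤ r := by omega
        exact_mod_cast this
      · have h3 : 2 * r ≤ (p : ℤ) := by omega
        have h4 : 2 * (r : ℝ) ≤ p := by exact_mod_cast h3
        linarith) (by linarith)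
    linarith
  · rw [max_eq_left h]
    have : (S2c p a) = ∅ := by
      rw [Finset.eq_empty_iff_forall_notMem]
      intro r hr
      obtain ⟨h1, h2⟩ := Finset.mem_filter.1 hr
      rw [Ip, Finset.mem_Icc] at h1
      have h3 : 2 * (a : ℝ) + 2 ≤ p := by linarith
      have h4 : 2 * a + 2 ≤ p := by exact_mod_cast h3
      omega
    rw [this]
    simp

/-- `∑ A_m + B_m`, first bound -/
lemma N_le1 {p a m : ℕ} (hap : a < p) : ∑ r ∈ S1c p a, ((ind p a m r + ind p a m (-r) : ℕ) : ℝ) ≤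
    2 * ((p : ℝ) - a + 1) := by
  have hap' : (a : ℝ) < p := by exact_mod_cast hap
  push_cast
  rw [Finset.sum_add_distrib]
  have h1 := sum_ind_le (S1c p a) (fun r => ind p a m r) (fun r => ind_le _ _ _ _) 0 (p - a)
    (fun r hr _ => ⟨(S1c_bd hr).1, (S1c_bd hr).2.1⟩) (by linarith)
  have h2 := sum_ind_le (S1c p a) (fun r => ind p a m (-r)) (fun r => ind_le _ _ _ _) 0 (p - a)
    (fun r hr _ => ⟨(S1c_bd hr).1, (S1c_bd hr).2.1⟩) (by linarith)
  linarith

/-- `∑ B_m` -/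
lemma B_le {p a m : ℕ} : ∑ r ∈ S1c p a, (ind p a m (-r) : ℝ) ≤ max 0 ((a : ℝ) - p * m / 6) := by
  rcases le_total 0 ((a : ℝ) - p * m / 6) with h | h
  · rw [max_eq_right h]
    have h2 := sum_ind_le (S1c p a) (fun r => ind p a m (-r)) (fun r => ind_le _ _ _ _) 0
      (a - 1 - p * m / 6) (fun r hr h3 => ⟨(S1c_bd hr).1, by
        have := ind_eq_one h3
        push_cast at this
        linarith⟩) (by linarith)
    linarith
  · rw [max_eq_left h]
    refine le_of_eq (Finset.sum_eq_zero fun r hr => ?_)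
    have h3 := ind_le p a m (-r)
    rcases Nat.le_one_iff_eq_zero_or_eq_one.1 h3 with h4 | h4
    · rw [h4]; simp
    · have := ind_eq_one h4
      push_cast at this
      have := (S1c_bd hr).1
      exfalso
      linarith

/-- `∑ A_m` -/
lemma A_le {p a m : ℕ} (U : ℝ) (hU : ∀ r ∈ S1c p a, (r : ℝ) ≤ U)
    (h : 0 ≤ U + a - p * m / 6) : ∑ r ∈ S1c p a, (ind p a m r : ℝ) ≤ U + a - p * m / 6 := by
  have h2 := sum_ind_le (S1c p a) (fun r => ind p a m r) (fun r => ind_le _ _ _ _)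
      (p * m / 6 - a + 1) U (fun r hr h3 => ⟨by
        have := ind_eq_one h3
        linarith, hU r hr⟩) (by linarith)
  linarith

/-- `∑ A_m + B_m`, second bound -/
lemma N_le2 {p a m : ℕ} (hap : a < p) (hm : m ≤ 6) :
    ∑ r ∈ S1c p a, ((ind p a m r + ind p a m (-r) : ℕ) : ℝ) ≤ (p : ℝ) - p * m / 6 + 1 := by
  have hap' : (a : ℝ) < p := by exact_mod_cast hap
  have hm' : (m : ℝ) ≤ 6 := by exact_mod_cast hm
  have hpm : (p : ℝ) * m / 6 ≤ p := by
    have : (p : ℝ) * m ≤ p * 6 := mul_le_mul_of_nonneg_left hm' (Nat.cast_nonneg p)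
    linarith
  push_cast
  rw [Finset.sum_add_distrib]
  have h1 := B_le (p := p) (a := a) (m := m)
  rcases le_total 0 ((a : ℝ) - p * m / 6) with h | h
  · rw [max_eq_right h] at h1
    have h2 := sum_ind_le (S1c p a) (fun r => ind p a m r) (fun r => ind_le _ _ _ _) 0 (p - a)
      (fun r hr _ => ⟨(S1c_bd hr).1, (S1c_bd hr).2.1⟩) (by linarith)
    linarith
  · rw [max_eq_left h] at h1
    have h2 := A_le (p := p) (a := a) (m := m) (p - a) (fun r hr => (S1c_bd hr).2.1) (by linarith)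
    linarith

lemma S1c_card1 {p a : ℕ} (hap : a < p) : ∑ _r ∈ S1c p a, (1 : ℝ) ≤ (p : ℝ) - a + 1 := by
  have hap' : (a : ℝ) < p := by exact_mod_cast hap
  have := cnt_card_le (S1c p a) 0 (p - a) (fun r hr => ⟨(S1c_bd hr).1, (S1c_bd hr).2.1⟩)
    (by linarith)
  simpa using this

lemma S1c_card2 {p a : ℕ} : ∑ _r ∈ S1c p a, (1 : ℝ) ≤ (a : ℝ) := by
  have := cnt_card_le (S1c p a) 0 (a - 1) (fun r hr => ⟨(S1c_bd hr).1, (S1c_bd hr).2.2⟩)
    (by simp)
  have h2 : (0 : ℝ) ≤ a := Nat.cast_nonneg a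
  simpa using this

/-- all indicators -/
def nall (p a : ℕ) (r : ℤ) : ℕ :=
  (ind p a 2 r + ind p a 2 (-r)) + (ind p a 3 r + ind p a 3 (-r)) + (ind p a 4 r + ind p a 4 (-r))

lemma ntok_le' (p a : ℕ) (r : ℤ) (hr : r ∈ S1c p a) : ntok p a r ≤ nall p a r := by
  refine (ntok_le p a r hr).trans (le_of_eq ?_)
  unfold nall
  ring

lemma sum_nall (p a : ℕ) : ∑ r ∈ S1c p a, (nall p a r : ℝ) =
    ∑ r ∈ S1c p a, ((ind p a 2 r + ind p a 2 (-r) : ℕ) : ℝ) +
    ∑ r ∈ S1c p a, ((ind p a 3 r + ind p a 3 (-r) : ℕ) : ℝ) +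
    ∑ r ∈ S1c p a, ((ind p a 4 r + ind p a 4 (-r) : ℕ) : ℝ) := by
  rw [← Finset.sum_add_distrib, ← Finset.sum_add_distrib]
  refine Finset.sum_congr rfl fun r _ => ?_
  unfold nall
  push_cast
  ring

/-- linear majorant `(n - k)(n - k - 1) ≥ 0` -/
lemma quad_le (n k : ℕ) : 17 * (n : ℝ) - (n : ℝ) ^ 2 ≤ k * (k + 1) + (16 - 2 * k) * n := by
  have h : 0 ≤ ((n : ℤ) - k) * ((n : ℤ) - k - 1) := by
    rcases le_or_gt (n : ℤ) k with h1 | h1
    · exact mul_nonneg_of_nonpos_of_nonpos (by omega) (by omega)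
    · exact mul_nonneg (by omega) (by omega)
  have h2 : (0 : ℝ) ≤ ((n : ℝ) - k) * ((n : ℝ) - k - 1) := by exact_mod_cast h
  nlinarith

lemma Ttok_lin {p a : ℕ} (k : ℕ) (hk : k ≤ 8) (hap : a < p) (hp : 5 ≤ p)
    (h2 : (0 : ℝ) ≤ (a : ℝ) - p / 2 + 1) (N : ℝ) (hN : ∑ r ∈ S1c p a, (nall p a r : ℝ) ≤ N) :
    Ttok p a ≤ 272 * ((a : ℝ) - p / 2 + 1) + k * (k + 1) * ((p : ℝ) - a + 1) +
      (16 - 2 * k) * N := by
  have hk' : (k : ℝ) ≤ 8 := by exact_mod_cast hk
  have h := Ttok_le p a (fun r => k * (k + 1) * 1 + (16 - 2 * k) * (nall p a r : ℝ)) (by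
    intro r hr
    refine (quad_le (ntok p a r) k).trans ?_
    have h3 : (ntok p a r : ℝ) ≤ nall p a r := by exact_mod_cast ntok_le' p a r hr
    have h4 : (16 - 2 * (k : ℝ)) * (ntok p a r) ≤ (16 - 2 * k) * nall p a r :=
      mul_le_mul_of_nonneg_left h3 (by linarith)
    linarith)
  rw [Finset.sum_add_distrib, ← Finset.mul_sum, ← Finset.mul_sum] at h
  have h5 := S2c_card (p := p) (a := a) hp
  rw [max_eq_right h2] at h5
  have h6 := S1c_card1 hap
  have h7 : (k : ℝ) * (k + 1) * ∑ _r ∈ S1c p a, (1 : ℝ) ≤ k * (k + 1) * ((p : ℝ) - a + 1) :=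
    mul_le_mul_of_nonneg_left h6 (by positivity)
  have h8 : (16 - 2 * (k : ℝ)) * ∑ r ∈ S1c p a, (nall p a r : ℝ) ≤ (16 - 2 * k) * N :=
    mul_le_mul_of_nonneg_left hN (by linarith)
  linarith

lemma cnt1 {p a : ℕ} (hp : 5 ≤ p) (hap : a < p) (h : p ≤ 2 * a) :
    Ttok p a ≤ 206 * (a : ℝ) - 70 * p + 500 := by
  have h' : (p : ℝ) ≤ 2 * a := by exact_mod_cast h
  have h1 := Ttok_le p a (fun _ => 66 * 1) (by
    intro r hr
    have h3 := ntok_le p a r hr
    have h4 : ntok p a r ≤ 6 := by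
      have := ind_le p a 2 r
      have := ind_le p a 3 r
      have := ind_le p a 4 r
      have := ind_le p a 2 (-r)
      have := ind_le p a 3 (-r)
      have := ind_le p a 4 (-r)
      omega
    interval_cases (ntok p a r) <;> norm_num)
  rw [← Finset.mul_sum] at h1
  have h5 := S2c_card (p := p) (a := a) hp
  rw [max_eq_right (by linarith)] at h5
  have h6 := S1c_card1 hap
  linarith

lemma cnt2 {p a : ℕ} (hp : 5 ≤ p) (hap : a < p) (h : p ≤ 2 * a) :
    Ttok p a ≤ 226 * (a : ℝ) - 85 * p + 500 := by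
  have h' : (p : ℝ) ≤ 2 * a := by exact_mod_cast h
  have hap' : (a : ℝ) < p := by exact_mod_cast hap
  have hN2 := N_le1 (p := p) (a := a) (m := 2) hap
  have hN3 := N_le1 (p := p) (a := a) (m := 3) hap
  have hN3' := N_le2 (p := p) (a := a) (m := 3) hap (by norm_num)
  have hN4' := N_le2 (p := p) (a := a) (m := 4) hap (by norm_num)
  push_cast at hN2 hN3 hN3' hN4'
  have e := sum_nall p a
  push_cast at e
  rcases le_total (p : ℝ) (3 / 2 * a) with h2 | h2
  · have := Ttok_lin (p := p) (a := a) 4 (by norm_num) hap hp (by linarith)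
      (13 * p / 3 - 4 * a + 5) (by rw [e]; linarith)
    push_cast at this
    linarith
  · have := Ttok_lin (p := p) (a := a) 4 (by norm_num) hap hp (by linarith)
      (17 * p / 6 - 2 * a + 4) (by rw [e]; linarith)
    push_cast at this
    linarith

lemma cnt3 {p a : ℕ} (hp : 5 ≤ p) (hap : a < p) (h : p ≤ 2 * a) :
    Ttok p a ≤ 266 * (a : ℝ) - 335 / 3 * p + 500 := by
  have h' : (p : ℝ) ≤ 2 * a := by exact_mod_cast h
  have hap' : (a : ℝ) < p := by exact_mod_cast hap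
  have hN2' := N_le2 (p := p) (a := a) (m := 2) hap (by norm_num)
  have hN3' := N_le2 (p := p) (a := a) (m := 3) hap (by norm_num)
  have hN4' := N_le2 (p := p) (a := a) (m := 4) hap (by norm_num)
  push_cast at hN2' hN3' hN4'
  have e := sum_nall p a
  push_cast at e
  have := Ttok_lin (p := p) (a := a) 3 (by norm_num) hap hp (by linarith)
    (3 * p / 2 + 3) (by rw [e]; linarith)
  push_cast at this
  linarith

lemma f_le1 (n A2 A3 A4 B2 : ℕ) (hA2 : A2 ≤ 1) (h32 : A3 ≤ A2) (h43 : A4 ≤ A3) (hB : B2 ≤ 1)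
    (hn : n ≤ A2 + A3 + A4 + B2) :
    17 * (n : ℝ) - (n : ℝ) ^ 2 ≤ 16 * 1 + 14 * B2 + 14 * A3 + 12 * A4 := by
  interval_cases A2 <;> interval_cases A3 <;> interval_cases A4 <;> interval_cases B2 <;>
    interval_cases n <;> norm_num

lemma f_le2 (n A2 A3 : ℕ) (hA2 : A2 ≤ 1) (h32 : A3 ≤ A2) (hn : n ≤ A2 + A3) :
    17 * (n : ℝ) - (n : ℝ) ^ 2 ≤ 16 * A2 + 14 * A3 := by
  interval_cases A2 <;> interval_cases A3 <;> interval_cases n <;> norm_num

lemma f_le3 (n A2 : ℕ) (hA2 : A2 ≤ 1) (hn : n ≤ A2) :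
    17 * (n : ℝ) - (n : ℝ) ^ 2 ≤ 16 * A2 := by
  interval_cases A2 <;> interval_cases n <;> norm_num

lemma S2c_empty {p a : ℕ} (h : 2 * a < p) : S2c p a = ∅ := by
  rw [Finset.eq_empty_iff_forall_notMem]
  intro r hr
  obtain ⟨h1, h2⟩ := Finset.mem_filter.1 hr
  rw [Ip, Finset.mem_Icc] at h1
  omega

lemma ind_zero {p a m : ℕ} {u : ℤ} (h : 6 * (u + a - 1) < (p * m : ℕ)) : ind p a m u = 0 := by
  unfold ind
  rw [if_neg (by omega)]

lemma S1c_int {p a : ℕ} {r : ℤ} (hr : r ∈ S1c p a) : 0 ≤ r ∧ r < a := by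
  obtain ⟨h1, h2, h3⟩ := Finset.mem_filter.1 hr
  rw [Ip, Finset.mem_Icc] at h1
  exact ⟨h1.1, h3⟩

lemma Ttok_le' {p a : ℕ} (h : 2 * a < p) (g : ℤ → ℝ)
    (hg : ∀ r ∈ S1c p a, 17 * (ntok p a r : ℝ) - (ntok p a r : ℝ) ^ 2 ≤ g r) :
    Ttok p a ≤ ∑ r ∈ S1c p a, g r := by
  have := Ttok_le p a g hg
  rw [S2c_empty h] at this
  simpa using this

lemma cnt4 {p a : ℕ} (h1 : 2 * a < p) (h2 : p ≤ 3 * a) :
    Ttok p a ≤ 82 * (a : ℝ) - 59 / 3 * p + 500 := by
  have h1' : 2 * (a : ℝ) < p := by exact_mod_cast h1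
  have h2' : (p : ℝ) ≤ 3 * a := by exact_mod_cast h2
  have h := Ttok_le' h1 (fun r => 16 * 1 + 14 * (ind p a 2 (-r) : ℝ) + 14 * (ind p a 3 r : ℝ) +
      12 * (ind p a 4 r : ℝ)) (by
    intro r hr
    refine f_le1 _ (ind p a 2 r) _ _ _ (ind_le _ _ _ _) (ind_anti _ _ _ (by norm_num))
      (ind_anti _ _ _ (by norm_num)) (ind_le _ _ _ _) ?_
    have h3 := ntok_le p a r hr
    have h4 := S1c_int hr
    have h5 : ind p a 3 (-r) = 0 := ind_zero (by push_cast; omega)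
    have h6 : ind p a 4 (-r) = 0 := ind_zero (by push_cast; omega)
    omega)
  simp only [Finset.sum_add_distrib, ← Finset.mul_sum] at h
  have c1 := S1c_card2 (p := p) (a := a)
  have c2 := B_le (p := p) (a := a) (m := 2)
  push_cast at c2
  rw [max_eq_right (by linarith)] at c2
  have c3 := A_le (p := p) (a := a) (m := 3) a (fun r hr => by
    have := (S1c_bd hr).2.2
    linarith) (by push_cast; linarith)
  have c4 := A_le (p := p) (a := a) (m := 4) a (fun r hr => by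
    have := (S1c_bd hr).2.2
    linarith) (by push_cast; linarith)
  push_cast at c3 c4
  linarith

lemma cnt5 {p a : ℕ} (h1 : 3 * a < p) (h2 : p ≤ 4 * a) :
    Ttok p a ≤ 60 * (a : ℝ) - 37 / 3 * p + 500 := by
  have h1' : 3 * (a : ℝ) < p := by exact_mod_cast h1
  have h2' : (p : ℝ) ≤ 4 * a := by exact_mod_cast h2
  have h := Ttok_le' (p := p) (a := a) (by omega)
      (fun r => 16 * (ind p a 2 r : ℝ) + 14 * (ind p a 3 r : ℝ)) (by
    intro r hr
    refine f_le2 _ _ _ (ind_le _ _ _ _) (ind_anti _ _ _ (by norm_num)) ?_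
    have h3 := ntok_le p a r hr
    have h4 := S1c_int hr
    have h5 : ind p a 3 (-r) = 0 := ind_zero (by push_cast; omega)
    have h6 : ind p a 4 (-r) = 0 := ind_zero (by push_cast; omega)
    have h7 : ind p a 2 (-r) = 0 := ind_zero (by push_cast; omega)
    have h8 : ind p a 4 r = 0 := ind_zero (by push_cast; omega)
    omega)
  simp only [Finset.sum_add_distrib, ← Finset.mul_sum] at h
  have c2 := A_le (p := p) (a := a) (m := 2) a (fun r hr => by
    have := (S1c_bd hr).2.2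
    linarith) (by push_cast; linarith)
  have c3 := A_le (p := p) (a := a) (m := 3) a (fun r hr => by
    have := (S1c_bd hr).2.2
    linarith) (by push_cast; linarith)
  push_cast at c2 c3
  linarith

lemma cnt6 {p a : ℕ} (h1 : 4 * a < p) (h2 : p ≤ 6 * a) :
    Ttok p a ≤ 32 * (a : ℝ) - 16 / 3 * p + 500 := by
  have h1' : 4 * (a : ℝ) < p := by exact_mod_cast h1
  have h2' : (p : ℝ) ≤ 6 * a := by exact_mod_cast h2
  have h := Ttok_le' (p := p) (a := a) (by omega)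
      (fun r => 16 * (ind p a 2 r : ℝ)) (by
    intro r hr
    refine f_le3 _ _ (ind_le _ _ _ _) ?_
    have h3 := ntok_le p a r hr
    have h4 := S1c_int hr
    have h5 : ind p a 3 (-r) = 0 := ind_zero (by push_cast; omega)
    have h6 : ind p a 4 (-r) = 0 := ind_zero (by push_cast; omega)
    have h7 : ind p a 2 (-r) = 0 := ind_zero (by push_cast; omega)
    have h8 : ind p a 4 r = 0 := ind_zero (by push_cast; omega)
    have h9 : ind p a 3 r = 0 := ind_zero (by push_cast; omega)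
    omega)
  rw [← Finset.mul_sum] at h
  have c2 := A_le (p := p) (a := a) (m := 2) a (fun r hr => by
    have := (S1c_bd hr).2.2
    linarith) (by push_cast; linarith)
  push_cast at c2
  linarith

lemma cnt7 {p a : ℕ} (h1 : 6 * a < p) : Ttok p a ≤ 0 := by
  have h := Ttok_le' (p := p) (a := a) (by omega) (fun _ => 0) (by
    intro r hr
    have h3 := ntok_le p a r hr
    have h4 := S1c_int hr
    have h5 : ind p a 3 (-r) = 0 := ind_zero (by push_cast; omega)
    have h6 : ind p a 4 (-r) = 0 := ind_zero (by push_cast; omega)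
    have h7 : ind p a 2 (-r) = 0 := ind_zero (by push_cast; omega)
    have h8 : ind p a 4 r = 0 := ind_zero (by push_cast; omega)
    have h9 : ind p a 3 r = 0 := ind_zero (by push_cast; omega)
    have h10 : ind p a 2 r = 0 := ind_zero (by push_cast; omega)
    have : ntok p a r = 0 := by omega
    rw [this]
    norm_num)
  simpa using h

theorem cnt : Cnt := by
  intro p a _ hp5 _ hap
  exact ⟨fun h => ⟨cnt1 hp5 hap h, cnt2 hp5 hap h, cnt3 hp5 hap h⟩, fun h h' => cnt4 h h',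
    fun h h' => cnt5 h h', fun h h' => cnt6 h h', fun h => cnt7 h⟩

end ZT
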