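import Pool.Agent.Lib.DIM3.Defs
import Pool.Agent.Lib.Z579.E6Defs

/-!
# At least two of `ζ(5), ζ(7), ..., ζ(15)` are irrational: definitions and module statements

`R(v) = 2 v / (∏_{|u| ≤ a-1} (v+u))^16`.  The functional is the combination

`Φ(G) = c₁ ∑_{v ∈ ℤ} R(v) G(v²) + c₂ ∑_{v ∈ ℤ + 1/2} R(v) G(v²) + c₃ ∑_{v ∈ ℤ ± 1/3} R(v) G(v²)`,

all sums over `v > a - 1`.  The points are `v = a - 1 + n/6`, `n ≥ 1`, with coefficient `γ(n)`,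
`γ` of period `6`.  `Φ(G) = ∑_{u,i} Acoef(u,i)(G) (z_i - ∑_{1 ≤ n ≤ 6(u+a-1)} γ(n) (6/n)^i)` with
`z_i = ∑_{n ≥ 1} γ(n) (6/n)^i = (c₁ + c₂ (2^i - 1) + c₃ (3^i - 1)) ζ(i)`, `i` odd, `3 ≤ i ≤ 15`.
Parameters: `p` prime, `2 a - 1 = 3 p`, `K = (23 p + 1)/2`.
-/

open Polynomial Finset Z579

namespace ZT

/-- the coefficients of period `6` -/
def gam (c : ℤ × ℤ × ℤ) (n : ℕ) : ℤ :=
  if n % 6 = 0 then c.1 else if n % 6 = 3 then c.2.1 else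
    if n % 6 = 2 ∨ n % 6 = 4 then c.2.2 else 0

/-- `∑_{1 ≤ k ≤ n} γ(k) (6/k)^s` -/
def Hg (c : ℤ × ℤ × ℤ) (s n : ℕ) : ℚ := ∑ k ∈ range n, (gam c (k + 1) : ℚ) * (6 / ((k : ℚ) + 1)) ^ s

/-- the weights -/
def wg (c : ℤ × ℤ × ℤ) (a Q : ℕ) (z : ℕ → ℚ) (u : ℤ) (i : ℕ) : ℚ :=
  (Q : ℚ) * (z i - Hg c i (6 * (u + a - 1)).toNat)

/-- the functional -/
noncomputable def FL (c : ℤ × ℤ × ℤ) (a Q : ℕ) (z : ℕ → ℚ) : ℚ[X] →ₗ[ℚ] ℚ :=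
  Lw 0 16 0 a a (wg c a Q z)

/-- support of the values -/
def Adm (z : ℕ → ℚ) : Prop := ∀ s, ¬ (Odd s ∧ 3 ≤ s ∧ s ≤ 15) → z s = 0

/-- `z s = ∑ γ(n) (6/n)^s` for odd `s`, `3 ≤ s ≤ 15` -/
structure IsZ (c : ℤ × ℤ × ℤ) (z : ℕ → ℚ) : Prop where
  adm : Adm z
  val : ∀ s, Odd s → 3 ≤ s → s ≤ 15 →
    (z s : ℝ) = ∑' n : ℕ, (gam c (n + 1) : ℝ) * (6 / ((n : ℝ) + 1)) ^ s

/-- the rational function on the real line -/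
noncomputable def Rr (a : ℕ) (v : ℝ) : ℝ := 2 * v / (∏ w ∈ pc a, (v + (w : ℝ))) ^ 16

/-- the points `a - 1 + (t+1)/6` -/
noncomputable def xp (a t : ℕ) : ℝ := (a : ℝ) - 1 + ((t : ℝ) + 1) / 6

/-- the real moments -/
noncomputable def mom (c : ℤ × ℤ × ℤ) (a n : ℕ) : ℝ :=
  ∑' t : ℕ, (gam c (t + 1) : ℝ) * (Rr a (xp a t) * (xp a t ^ 2) ^ n)

/-- real Hankel determinant of a sequence -/
noncomputable def hankS {R : Type*} [CommRing R] (μ : ℕ → R) (K : ℕ) : R :=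
  Matrix.det (Matrix.of fun i j : Fin K => μ ((i : ℕ) + (j : ℕ)))

/-- R1: the Hankel determinant is the real determinant of the moments. -/
def RealId : Prop := ∀ (c : ℤ × ℤ × ℤ) (a Q K : ℕ) (z : ℕ → ℚ), IsZ c z → 1 ≤ a →
  4 * K + 15 ≤ 32 * a →
  ((hank (FL c a Q z) K : ℚ) : ℝ) = (Q : ℝ) ^ K * hankS (mom c a) K

/-- R2: the values are multiples of zeta values -/
def ZetaSum : Prop := ∀ (c : ℤ × ℤ × ℤ) (s : ℕ), 2 ≤ s →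
  ∑' n : ℕ, (gam c (n + 1) : ℝ) * (6 / ((n : ℝ) + 1)) ^ s =
    ((c.1 : ℝ) + c.2.1 * (2 ^ s - 1) + c.2.2 * (3 ^ s - 1)) * zr s

/-- the parameters: `p = 2 k + 1`, `2 a - 1 = 3 p`, `K = (23 p + 1) / 2` -/
def pa (k : ℕ) : ℕ := 3 * k + 2

def pK (k : ℕ) : ℕ := 23 * k + 12

/-- A: the archimedean bound (`32 a K - 2 K^2 ~ 1150 k^2`). -/
def ArchTot (A0 : ℝ) : Prop := ∀ c : ℤ × ℤ × ℤ, ∀ δ : ℝ, 0 < δ → ∃ k0 : ℕ, ∀ k : ℕ, k0 ≤ k →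
  |hankS (mom c (pa k)) (pK k)| ≤ Real.exp (k ^ 2 * (-1150 * Real.log k + A0 + δ))

/-! ## `p`-adic bounds -/

/-- P1: valuations of the weights, all primes; `K = log_p`. -/
def WgtAll : Prop := ∀ (c : ℤ × ℤ × ℤ) (p a Q K : ℕ) (z : ℕ → ℚ) (u : ℤ) (i : ℕ), p.Prime →
  (∀ s, VG p 0 ((Q : ℚ) * z s)) → 1 ≤ a → u ∈ pc a → 1 ≤ i → i ≤ 16 → Nat.log p (12 * a) ≤ K →
  VG p (-((i : ℝ) * K)) (wg c a Q z u i)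

/-- P2: the bound for the primes `p > a`. -/
def PGt : Prop := ∀ (c : ℤ × ℤ × ℤ) (p a K : ℕ) (z : ℕ → ℚ), p.Prime → 5 ≤ p → 1 ≤ a → a < p →
  12 * a ≤ p ^ 2 → (∀ s, VG p 0 (z s)) →
  (p ≤ 2 * a → VG p (-(206 * (a : ℝ) - 70 * p + 500)) (hank (FL c a 1 z) K) ∧
    VG p (-(226 * (a : ℝ) - 85 * p + 500)) (hank (FL c a 1 z) K) ∧
    VG p (-(266 * (a : ℝ) - 335 / 3 * p + 500)) (hank (FL c a 1 z) K)) ∧
  (2 * a < p → p ≤ 3 * a → VG p (-(82 * (a : ℝ) - 59 / 3 * p + 500)) (hank (FL c a 1 z) K)) ∧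
  (3 * a < p → p ≤ 4 * a → VG p (-(60 * (a : ℝ) - 37 / 3 * p + 500)) (hank (FL c a 1 z) K)) ∧
  (4 * a < p → p ≤ 6 * a → VG p (-(32 * (a : ℝ) - 16 / 3 * p + 500)) (hank (FL c a 1 z) K)) ∧
  (6 * a < p → VG p 0 (hank (FL c a 1 z) K))

/-! ## nonvanishing at the prime `p = (2a-1)/3` -/

/-- expansion at `ξ = -l` (local coordinate `x`, `ξ = x - l`) of `(∏_{l' ∈ S} (ξ + l'))^(-16)`
without the factor `l' = l` -/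
noncomputable def locR (S : Finset ℤ) (l : ℤ) : PowerSeries ℚ :=
  ((∏ i ∈ S.erase l, lin (i - l))⁻¹) ^ 16

/-- local moments, noncentral class: poles `ξ = 0, -1, -2`; `(t, t')` one of
`(0,4), (0,3), (2,3)` -/
noncomputable def muN (c : ℤ × ℤ × ℤ) (t t' n : ℕ) : ℚ := ∑ l ∈ Finset.range 3,
  ∑ i ∈ Finset.Icc 1 16, (Hg c i (6 * l + t) + (-1) ^ (i + 1) * Hg c i (6 * (2 - l) + t')) *
    PowerSeries.coeff (16 - i) (locR (Finset.Icc 0 2) l * lin (-l) ^ n)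

/-- local moments, central class: poles `ξ = 1, 0, -1`, factor `2 ξ`, variable `ξ^2` -/
noncomputable def muC (c : ℤ × ℤ × ℤ) (n : ℕ) : ℚ := ∑ l ∈ Finset.range 3,
  ∑ i ∈ Finset.Icc 1 16, (Hg c i (6 * l + 2) + (-1) ^ (i + 1) * Hg c i (6 * (2 - l) + 2)) *
    PowerSeries.coeff (16 - i) (2 * lin (-((l : ℤ) - 1)) *
      locR (Finset.Icc (-1) 1) ((l : ℤ) - 1) * (lin (-((l : ℤ) - 1)) ^ 2) ^ n)

/-- N1: the local determinants do not vanish. -/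
def LocalDet (c : ℤ × ℤ × ℤ) : Prop := hankS (muN c 0 4) 23 ≠ 0 ∧ hankS (muN c 0 3) 23 ≠ 0 ∧
  hankS (muN c 2 3) 23 ≠ 0 ∧ hankS (muC c) 12 ≠ 0

/-- N2: nonvanishing. -/
def NonVan : Prop := ∀ c : ℤ × ℤ × ℤ, LocalDet c → ∀ z : ℕ → ℚ, Adm z → ∃ p₀ : ℕ,
  ∀ p a : ℕ, p.Prime → p₀ ≤ p → 2 * a = 3 * p + 1 → hank (FL c a 1 z) ((23 * p + 1) / 2) ≠ 0

/-! ## the sum over the primes -/

/-- S: the `p`-adic total, `a = 3k+2`, `K = 23k+12`. -/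
def PSum (P0 : ℝ) : Prop := ∀ C δ : ℝ, 0 ≤ C → 0 < δ → ∃ k0 : ℕ, ∀ k : ℕ, k0 ≤ k →
  ∀ (a K : ℕ), a = pa k → K = pK k → ∀ β : ℕ → ℝ,
  (∀ p : ℕ, p.Prime → p ^ 2 < 12 * a →
    β p ≤ (32 * a * K - 2 * (K : ℝ) ^ 2) / (p - 1) + C * (1 + Nat.log p (2 * (a + a + K))) * K) →
  (∀ p : ℕ, p.Prime → 12 * a ≤ p ^ 2 → p ≤ a →
    β p ≤ K + (32 * a * K - 2 * (K : ℝ) ^ 2) / p + 8 * p + 1 / 8 * (4 * K / p + 16) ^ 2) →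
  (∀ p : ℕ, p.Prime → a < p → p ≤ 2 * a → β p ≤ 206 * (a : ℝ) - 70 * p + 500 ∧
    β p ≤ 226 * (a : ℝ) - 85 * p + 500 ∧ β p ≤ 266 * (a : ℝ) - 335 / 3 * p + 500) →
  (∀ p : ℕ, p.Prime → 2 * a < p → p ≤ 3 * a → β p ≤ 82 * (a : ℝ) - 59 / 3 * p + 500) →
  (∀ p : ℕ, p.Prime → 3 * a < p → p ≤ 4 * a → β p ≤ 60 * (a : ℝ) - 37 / 3 * p + 500) →
  (∀ p : ℕ, p.Prime → 4 * a < p → p ≤ 6 * a → β p ≤ 32 * (a : ℝ) - 16 / 3 * p + 500) →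
  ∑ p ∈ (Finset.Icc 1 (6 * a)).filter Nat.Prime, β p * Real.log p ≤
    k ^ 2 * (1150 * Real.log k + P0 + δ)

/-! ## the theorem -/

/-- the theorem for one choice of the coefficients -/
def Main (c : ℤ × ℤ × ℤ) : Prop := ¬ ∃ z : ℕ → ℚ, IsZ c z

end ZT
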