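import Pool.Agent.Lib.ZT.Defs

/-!
# N1: the local determinants of the nonvanishing step do not vanish

Everything is reduced modulo `23`: `Red x y` says that the rational number `x` is `23`-integral with
residue `y`.
-/

open Polynomial Finset Z579

namespace ZT

namespace LD

instance fact23 : Fact (Nat.Prime 23) := ⟨by norm_num⟩

/-- `x` is `23`-integral with residue `y` -/
def Red (x : ℚ) (y : ZMod 23) : Prop :=
  ∃ a b : ℤ, (b : ZMod 23) ≠ 0 ∧ x * b = a ∧ y * b = a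

lemma Red.int (n : ℤ) : Red n n := ⟨n, 1, by simp, by simp, by simp⟩

lemma Red.zero : Red 0 0 := by simpa using Red.int 0

lemma Red.one : Red 1 1 := by simpa using Red.int 1

lemma Red.add {x x' : ℚ} {y y' : ZMod 23} (h : Red x y) (h' : Red x' y') :
    Red (x + x') (y + y') := by
  obtain ⟨a, b, hb, h1, h2⟩ := h
  obtain ⟨a', b', hb', h1', h2'⟩ := h'
  refine ⟨a * b' + a' * b, b * b', by push_cast; exact mul_ne_zero hb hb', ?_, ?_⟩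
  · push_cast
    linear_combination (b' : ℚ) * h1 + (b : ℚ) * h1'
  · push_cast
    linear_combination (b' : ZMod 23) * h2 + (b : ZMod 23) * h2'

lemma Red.mul {x x' : ℚ} {y y' : ZMod 23} (h : Red x y) (h' : Red x' y') :
    Red (x * x') (y * y') := by
  obtain ⟨a, b, hb, h1, h2⟩ := h
  obtain ⟨a', b', hb', h1', h2'⟩ := h'
  refine ⟨a * a', b * b', by push_cast; exact mul_ne_zero hb hb', ?_, ?_⟩
  · push_cast
    rw [← h1, ← h1']; ring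
  · push_cast
    rw [← h2, ← h2']; ring

lemma Red.pow {x : ℚ} {y : ZMod 23} (h : Red x y) (n : ℕ) : Red (x ^ n) (y ^ n) := by
  induction n with
  | zero => simpa using Red.one
  | succ n ih => rw [pow_succ, pow_succ]; exact ih.mul h

lemma Red.sum {ι : Type*} (s : Finset ι) {x : ι → ℚ} {y : ι → ZMod 23}
    (h : ∀ i ∈ s, Red (x i) (y i)) : Red (∑ i ∈ s, x i) (∑ i ∈ s, y i) := by
  classical
  induction s using Finset.induction_on with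
  | empty => simpa using Red.zero
  | insert i s hi ih =>
    rw [Finset.sum_insert hi, Finset.sum_insert hi]
    exact (h i (Finset.mem_insert_self i s)).add (ih fun j hj => h j (Finset.mem_insert_of_mem hj))

lemma Red.prod {ι : Type*} (s : Finset ι) {x : ι → ℚ} {y : ι → ZMod 23}
    (h : ∀ i ∈ s, Red (x i) (y i)) : Red (∏ i ∈ s, x i) (∏ i ∈ s, y i) := by
  classical
  induction s using Finset.induction_on with
  | empty => simpa using Red.one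
  | insert i s hi ih =>
    rw [Finset.prod_insert hi, Finset.prod_insert hi]
    exact (h i (Finset.mem_insert_self i s)).mul (ih fun j hj => h j (Finset.mem_insert_of_mem hj))

lemma Red.det {ι : Type*} [Fintype ι] [DecidableEq ι] {M : Matrix ι ι ℚ}
    {N : Matrix ι ι (ZMod 23)} (h : ∀ i j, Red (M i j) (N i j)) : Red M.det N.det := by
  rw [Matrix.det_apply', Matrix.det_apply']
  refine Red.sum _ fun σ _ => ?_
  refine Red.mul ?_ (Red.prod _ fun i _ => h _ _)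
  have := Red.int ((Equiv.Perm.sign σ : ℤˣ) : ℤ)
  simpa using this

lemma Red.ne_zero {x : ℚ} {y : ZMod 23} (h : Red x y) (hy : y ≠ 0) : x ≠ 0 := by
  obtain ⟨a, b, hb, h1, h2⟩ := h
  rintro rfl
  rw [zero_mul] at h1
  have h3 : a = 0 := by exact_mod_cast h1.symm
  rw [h3, Int.cast_zero] at h2
  exact (mul_ne_zero hy hb) h2

lemma cast_mod (n : ℕ) : ((n % 23 : ℕ) : ZMod 23) = n := ZMod.natCast_mod n 23

lemma red_tab {x : ℚ} {m n : ℕ} (h : Red x ((m : ℕ) : ZMod 23)) (hmn : m % 23 = n) :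
    Red x ((n : ℕ) : ZMod 23) := by
  rw [← hmn, cast_mod]
  exact h

/-! ## truncated power series -/

/-- the first sixteen coefficients of `f` have the residues `l` -/
def Rep (l : List ℕ) (f : PowerSeries ℚ) : Prop :=
  ∀ k < 16, Red (PowerSeries.coeff k f) ((l.getD k 0 : ℕ) : ZMod 23)

/-- truncated product -/
def mulT (a b : List ℕ) : List ℕ :=
  (List.range 16).map fun k => (∑ i ∈ Finset.range (k + 1), a.getD i 0 * b.getD (k - i) 0) % 23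

lemma getD_range_map (g : ℕ → ℕ) {k : ℕ} (hk : k < 16) :
    ((List.range 16).map g).getD k 0 = g k := by
  rw [List.getD_eq_getElem _ _ (by simpa using hk)]
  simp

lemma Rep.mul {a b : List ℕ} {f g : PowerSeries ℚ} (hf : Rep a f) (hg : Rep b g) :
    Rep (mulT a b) (f * g) := by
  intro k hk
  rw [mulT, getD_range_map _ hk, cast_mod, PowerSeries.coeff_mul,
    Finset.Nat.sum_antidiagonal_eq_sum_range_succ_mk]
  push_cast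
  refine Red.sum _ fun i hi => ?_
  rw [Finset.mem_range] at hi
  exact (hf i (by omega)).mul (hg (k - i) (by omega))

lemma Rep.congr {a b : List ℕ} {f : PowerSeries ℚ} (hf : Rep a f)
    (h : ∀ k : Fin 16, a.getD k 0 = b.getD k 0) : Rep b f := by
  intro k hk
  have := h ⟨k, hk⟩
  simp only at this
  rw [← this]
  exact hf k hk

lemma rep_lin (c : ℤ) (n : ℕ) (hn : (n : ZMod 23) = (c : ZMod 23)) : Rep [n, 1] (lin c) := by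
  intro k hk
  rw [lin, map_add, PowerSeries.coeff_X, PowerSeries.coeff_C]
  match k with
  | 0 => simpa [hn] using Red.int c
  | 1 => simpa using Red.one
  | (k + 2) => simpa using Red.zero

lemma rep_one : Rep [1] (1 : PowerSeries ℚ) := by
  intro k hk
  rw [PowerSeries.coeff_one]
  match k with
  | 0 => simpa using Red.one
  | (k + 1) => simpa using Red.zero

lemma rep_two : Rep [2] (2 : PowerSeries ℚ) := by
  intro k hk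
  have e : (2 : PowerSeries ℚ) = PowerSeries.C (2 : ℚ) := (map_ofNat PowerSeries.C 2).symm
  rw [e, PowerSeries.coeff_C]
  match k with
  | 0 => simpa using Red.int 2
  | (k + 1) => simpa using Red.zero

lemma lin_inv (c : ℤ) (hc : c ≠ 0) :
    (lin c)⁻¹ = PowerSeries.mk fun k => (-1 : ℚ) ^ k / (c : ℚ) ^ (k + 1) := by
  have hc' : (c : ℚ) ≠ 0 := by exact_mod_cast hc
  have h : PowerSeries.constantCoeff (lin c) ≠ 0 := by simpa [lin] using hc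
  rw [eq_comm, PowerSeries.eq_inv_iff_mul_eq_one h]
  ext k
  rw [lin, mul_add, map_add, PowerSeries.coeff_mul_C, PowerSeries.coeff_one]
  match k with
  | 0 => simp [hc']
  | (k + 1) =>
    rw [PowerSeries.coeff_succ_mul_X, PowerSeries.coeff_mk, PowerSeries.coeff_mk]
    simp only [Nat.add_eq_zero_iff, one_ne_zero, and_false, if_false]
    field_simp
    ring

/-- residues of the coefficients of `(lin c)⁻¹`, `d = c⁻¹` -/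
def invL (d : ℕ) : List ℕ := (List.range 16).map fun k => (22 ^ k * d ^ (k + 1)) % 23

lemma rep_inv (c : ℤ) (d : ℕ) (hd : (c : ZMod 23) * d = 1) : Rep (invL d) ((lin c)⁻¹) := by
  have hc5 : (c : ZMod 23) ≠ 0 := left_ne_zero_of_mul_eq_one hd
  have hc : c ≠ 0 := by
    rintro rfl
    exact hc5 (by simp)
  have hc' : (c : ℚ) ≠ 0 := by exact_mod_cast hc
  have h4 : ((22 : ℕ) : ZMod 23) = -1 := by decide
  intro k hk
  rw [invL, getD_range_map _ hk, cast_mod, lin_inv c hc, PowerSeries.coeff_mk]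
  refine ⟨(-1) ^ k, c ^ (k + 1), ?_, ?_, ?_⟩
  · push_cast
    exact pow_ne_zero _ hc5
  · push_cast
    field_simp
  · rw [Nat.cast_mul, Nat.cast_pow, h4]
    push_cast
    have : (c : ZMod 23) ^ (k + 1) * d ^ (k + 1) = 1 := by rw [← mul_pow, hd, one_pow]
    linear_combination (-1 : ZMod 23) ^ k * this

/-- powers -/
def powL (l : List ℕ) : ℕ → List ℕ
  | 0 => [1]
  | n + 1 => mulT (powL l n) l

lemma rep_pow {l : List ℕ} {f : PowerSeries ℚ} (h : Rep l f) (n : ℕ) :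
    Rep (powL l n) (f ^ n) := by
  induction n with
  | zero => simpa [powL] using rep_one
  | succ n ih => rw [powL, pow_succ]; exact ih.mul h

lemma rep_sixteen (c1 c2 : ℤ) (d1 d2 : ℕ) (T : List ℕ) (h1 : (c1 : ZMod 23) * d1 = 1)
    (h2 : (c2 : ZMod 23) * d2 = 1)
    (h : ∀ k : Fin 16, (powL (mulT (invL d2) (invL d1)) 16).getD k 0 = T.getD k 0) :
    Rep T ((lin c1 * lin c2)⁻¹ ^ 16) := by
  rw [PowerSeries.mul_inv_rev]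
  exact (rep_pow ((rep_inv c2 d2 h2).mul (rep_inv c1 d1 h1)) 16).congr h

/-- residues of `locR` -/
def R0 : List ℕ := [18, 5, 5, 8, 8, 16, 7, 20, 15, 4, 1, 12, 21, 22, 12, 0]

/-- residues of `locR` -/
def R1 : List ℕ := [1, 0, 16, 0, 21, 0, 11, 0, 12, 0, 2, 0, 7, 0, 22, 0]

/-- residues of `locR` -/
def R2 : List ℕ := [18, 18, 5, 15, 8, 7, 7, 3, 15, 19, 1, 11, 21, 1, 12, 0]

lemma repR0 : Rep R0 ((lin 1 * lin 2)⁻¹ ^ 16) :=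
  rep_sixteen 1 2 1 12 R0 (by decide) (by decide) (by decide +kernel)

lemma repR1 : Rep R1 ((lin (-1) * lin 1)⁻¹ ^ 16) :=
  rep_sixteen (-1) 1 22 1 R1 (by decide) (by decide) (by decide +kernel)

lemma repR2 : Rep R2 ((lin (-2) * lin (-1))⁻¹ ^ 16) :=
  rep_sixteen (-2) (-1) 11 22 R2 (by decide) (by decide) (by decide +kernel)

lemma locRN0 : Rep R0 (locR (Finset.Icc 0 2) 0) := by
  have e : (Finset.Icc (0 : ℤ) 2).erase 0 = {1, 2} := by decide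
  rw [locR, e, Finset.prod_insert (by decide), Finset.prod_singleton]
  exact repR0

lemma locRN1 : Rep R1 (locR (Finset.Icc 0 2) 1) := by
  have e : (Finset.Icc (0 : ℤ) 2).erase 1 = {0, 2} := by decide
  rw [locR, e, Finset.prod_insert (by decide), Finset.prod_singleton]
  exact repR1

lemma locRN2 : Rep R2 (locR (Finset.Icc 0 2) 2) := by
  have e : (Finset.Icc (0 : ℤ) 2).erase 2 = {0, 1} := by decide
  rw [locR, e, Finset.prod_insert (by decide), Finset.prod_singleton]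
  exact repR2

lemma locRC0 : Rep R0 (locR (Finset.Icc (-1) 1) (-1)) := by
  have e : (Finset.Icc (-1 : ℤ) 1).erase (-1) = {0, 1} := by decide
  rw [locR, e, Finset.prod_insert (by decide), Finset.prod_singleton]
  exact repR0

lemma locRC1 : Rep R1 (locR (Finset.Icc (-1) 1) 0) := by
  have e : (Finset.Icc (-1 : ℤ) 1).erase 0 = {-1, 1} := by decide
  rw [locR, e, Finset.prod_insert (by decide), Finset.prod_singleton]
  exact repR1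

lemma locRC2 : Rep R2 (locR (Finset.Icc (-1) 1) 1) := by
  have e : (Finset.Icc (-1 : ℤ) 1).erase 1 = {-1, 0} := by decide
  rw [locR, e, Finset.prod_insert (by decide), Finset.prod_singleton]
  exact repR2

/-! ## the weights -/

/-- coefficients modulo `23` -/
def gamN (c : ℕ × ℕ × ℕ) (n : ℕ) : ℕ :=
  if n % 6 = 0 then c.1 else if n % 6 = 3 then c.2.1 else
    if n % 6 = 2 ∨ n % 6 = 4 then c.2.2 else 0

/-- compatibility of the coefficients -/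
def Cc (c : ℤ × ℤ × ℤ) (c' : ℕ × ℕ × ℕ) : Prop :=
  (c'.1 : ZMod 23) = c.1 ∧ (c'.2.1 : ZMod 23) = c.2.1 ∧ (c'.2.2 : ZMod 23) = c.2.2

lemma gam_cast {c : ℤ × ℤ × ℤ} {c' : ℕ × ℕ × ℕ} (h : Cc c c') (n : ℕ) :
    ((gam c n : ℤ) : ZMod 23) = (gamN c' n : ℕ) := by
  unfold gam gamN
  split_ifs
  · exact h.1.symm
  · exact h.2.1.symm
  · exact h.2.2.symm
  · simp

/-- residue of `Hg` -/
def HgN (c : ℕ × ℕ × ℕ) (s n : ℕ) : ℕ :=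
  (∑ k ∈ Finset.range n, gamN c (k + 1) * (6 * (k + 1) ^ 21 % 23) ^ s) % 23

lemma red_six (k : ℕ) (hk : k < 16) :
    Red (6 / ((k : ℚ) + 1)) ((6 * (k + 1) ^ 21 % 23 : ℕ) : ZMod 23) := by
  have hk' : (((k + 1 : ℕ)) : ZMod 23) ≠ 0 := by
    rw [Ne, ZMod.natCast_eq_zero_iff]
    intro h
    have := Nat.le_of_dvd (by omega) h
    omega
  refine ⟨6, ((k + 1 : ℕ) : ℤ), by simpa using hk', ?_, ?_⟩
  · push_cast
    field_simp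
  · rw [cast_mod]
    have h1 := ZMod.pow_card_sub_one_eq_one hk'
    push_cast at h1 ⊢
    linear_combination 6 * h1

lemma red_Hg {c : ℤ × ℤ × ℤ} {c' : ℕ × ℕ × ℕ} (h : Cc c c') (s n : ℕ) (hn : n ≤ 16) :
    Red (Hg c s n) ((HgN c' s n : ℕ) : ZMod 23) := by
  rw [Hg, HgN, cast_mod]
  push_cast
  refine Red.sum _ fun k hk => ?_
  rw [Finset.mem_range] at hk
  refine Red.mul ?_ ?_
  · have := Red.int (gam c (k + 1))
    rw [gam_cast h] at this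
    exact this
  · have := (red_six k (by omega)).pow s
    exact_mod_cast this

/-- residue of the weight -/
def wN (c : ℕ × ℕ × ℕ) (t t' l i : ℕ) : ℕ :=
  (HgN c i (6 * l + t) + 22 ^ (i + 1) * HgN c i (6 * (2 - l) + t')) % 23

lemma red_w {c : ℤ × ℤ × ℤ} {c' : ℕ × ℕ × ℕ} (h : Cc c c') (t t' l i : ℕ) (ht : t ≤ 4)
    (ht' : t' ≤ 4) (hl : l < 3) :
    Red (Hg c i (6 * l + t) + (-1) ^ (i + 1) * Hg c i (6 * (2 - l) + t'))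
      ((wN c' t t' l i : ℕ) : ZMod 23) := by
  rw [wN, cast_mod]
  push_cast
  refine (red_Hg h i _ (by omega)).add (Red.mul ?_ (red_Hg h i _ (by omega)))
  have h22 : (22 : ZMod 23) = -1 := by decide
  rw [h22]
  have := Red.int ((-1) ^ (i + 1))
  exact_mod_cast this

/-! ## the moments -/

/-- multiplication by `lin` -/
def stepL (c : ℕ) (a : List ℕ) : List ℕ :=
  (List.range 16).map fun k => ((if k = 0 then 0 else a.getD (k - 1) 0) + c * a.getD k 0) % 23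

lemma rep_step {a : List ℕ} {f : PowerSeries ℚ} (h : Rep a f) (c : ℤ) (n : ℕ)
    (hn : (n : ZMod 23) = (c : ZMod 23)) : Rep (stepL n a) (f * lin c) := by
  intro k hk
  rw [stepL, getD_range_map _ hk, cast_mod, lin, mul_add, map_add, PowerSeries.coeff_mul_C]
  push_cast
  refine Red.add ?_ ?_
  · rcases k with _ | k
    · simpa using Red.zero
    · rw [PowerSeries.coeff_succ_mul_X, if_neg (by omega), Nat.add_sub_cancel]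
      exact h k (by omega)
  · rw [mul_comm, hn]
    exact (Red.int c).mul (h k hk)

/-- iterated multiplication by `lin` -/
def seqL (R : List ℕ) (c : ℕ) : ℕ → List ℕ
  | 0 => R
  | n + 1 => stepL c (seqL R c n)

lemma rep_seq {R : List ℕ} {f : PowerSeries ℚ} (h : Rep R f) (c : ℤ) (m : ℕ)
    (hm : (m : ZMod 23) = (c : ZMod 23)) (n : ℕ) : Rep (seqL R m n) (f * lin c ^ n) := by
  induction n with
  | zero => simpa [seqL] using h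
  | succ n ih =>
    rw [seqL, pow_succ, ← mul_assoc]
    exact rep_step ih c m hm

/-- iterated multiplication by the square of `lin` -/
def seq2L (R : List ℕ) (c : ℕ) : ℕ → List ℕ
  | 0 => R
  | n + 1 => stepL c (stepL c (seq2L R c n))

lemma rep_seq2 {R : List ℕ} {f : PowerSeries ℚ} (h : Rep R f) (c : ℤ) (m : ℕ)
    (hm : (m : ZMod 23) = (c : ZMod 23)) (n : ℕ) :
    Rep (seq2L R m n) (f * (lin c ^ 2) ^ n) := by
  induction n with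
  | zero => simpa [seq2L] using h
  | succ n ih =>
    rw [seq2L, pow_succ, ← mul_assoc, pow_two (lin c), ← mul_assoc]
    exact rep_step (rep_step (by rw [← pow_two]; exact ih) c m hm) c m hm

/-- weighted sum of the coefficients -/
def dot (W S : List ℕ) : ℕ := ∑ i ∈ Finset.Icc 1 16, W.getD i 0 * S.getD (16 - i) 0

/-- the list of the weights -/
def wL (c : ℕ × ℕ × ℕ) (t t' l : ℕ) : List ℕ := (List.range 17).map (wN c t t' l)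

lemma red_dot {c : ℤ × ℤ × ℤ} {c' : ℕ × ℕ × ℕ} (h : Cc c c') (t t' l : ℕ) (ht : t ≤ 4)
    (ht' : t' ≤ 4) (hl : l < 3) {S : List ℕ} {f : PowerSeries ℚ} (hf : Rep S f) {W : List ℕ}
    (hW : W = wL c' t t' l) :
    Red (∑ i ∈ Finset.Icc 1 16, (Hg c i (6 * l + t) + (-1) ^ (i + 1) *
      Hg c i (6 * (2 - l) + t')) * PowerSeries.coeff (16 - i) f) ((dot W S : ℕ) : ZMod 23) := by
  rw [dot]
  push_cast
  refine Red.sum _ fun i hi => ?_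
  rw [Finset.mem_Icc] at hi
  have e : W.getD i 0 = wN c' t t' l i := by
    rw [hW, wL, List.getD_eq_getElem _ _ (by simp; omega)]
    simp
  rw [e]
  exact (red_w h t t' l i ht ht' hl).mul (hf _ (by omega))

/-- residue of `muN` -/
def mN (W0 W1 W2 : List ℕ) (n : ℕ) : ℕ :=
  dot W0 (seqL R0 0 n) + dot W1 (seqL R1 22 n) + dot W2 (seqL R2 21 n)

lemma red_muN {c : ℤ × ℤ × ℤ} {c' : ℕ × ℕ × ℕ} (h : Cc c c') (t t' : ℕ) (ht : t ≤ 4)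
    (ht' : t' ≤ 4) {W0 W1 W2 : List ℕ} (h0 : W0 = wL c' t t' 0) (h1 : W1 = wL c' t t' 1)
    (h2 : W2 = wL c' t t' 2) (n : ℕ) :
    Red (muN c t t' n) ((mN W0 W1 W2 n : ℕ) : ZMod 23) := by
  rw [muN, mN, Finset.sum_range_succ, Finset.sum_range_succ, Finset.sum_range_one]
  push_cast
  refine ((red_dot h t t' 0 ht ht' (by norm_num) (rep_seq locRN0 (-0) 0 (by decide) n) h0).add
    (red_dot h t t' 1 ht ht' (by norm_num) (rep_seq locRN1 (-1) 22 (by decide) n) h1)).add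
    (red_dot h t t' 2 ht ht' (by norm_num) (rep_seq locRN2 (-2) 21 (by decide) n) h2)

/-- residue of `muC` -/
def mC (W0 W1 W2 : List ℕ) (n : ℕ) : ℕ :=
  dot W0 (seq2L (mulT (mulT [2] [1, 1]) R0) 1 n) + dot W1 (seq2L (mulT (mulT [2] [0, 1]) R1) 0 n) +
    dot W2 (seq2L (mulT (mulT [2] [22, 1]) R2) 22 n)

lemma red_muC {c : ℤ × ℤ × ℤ} {c' : ℕ × ℕ × ℕ} (h : Cc c c') {W0 W1 W2 : List ℕ}
    (h0 : W0 = wL c' 2 2 0) (h1 : W1 = wL c' 2 2 1) (h2 : W2 = wL c' 2 2 2) (n : ℕ) :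
    Red (muC c n) ((mC W0 W1 W2 n : ℕ) : ZMod 23) := by
  rw [muC, mC, Finset.sum_range_succ, Finset.sum_range_succ, Finset.sum_range_one]
  push_cast
  refine ((red_dot h 2 2 0 (by norm_num) (by norm_num) (by norm_num) (rep_seq2 ((rep_two.mul
      (rep_lin 1 1 (by decide))).mul ?_) 1 1 (by decide) n) h0).add
    (red_dot h 2 2 1 (by norm_num) (by norm_num) (by norm_num) (rep_seq2 ((rep_two.mul
      (rep_lin (-0) 0 (by decide))).mul ?_) (-0) 0 (by decide) n) h1)).add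
    (red_dot h 2 2 2 (by norm_num) (by norm_num) (by norm_num) (rep_seq2 ((rep_two.mul
      (rep_lin (-1) 22 (by decide))).mul ?_) (-1) 22 (by decide) n) h2)
  · exact locRC0
  · exact locRC1
  · exact locRC2

/-! ## certificate -/

/-- nonvanishing of a Hankel determinant from residues and an inverse modulo `23` -/
lemma hankS_ne_zero {μ : ℕ → ℚ} (K : ℕ) (A : List ℕ) (W : List (List ℕ))
    (hA : ∀ n : ℕ, n < 2 * K - 1 → Red (μ n) ((A.getD n 0 : ℕ) : ZMod 23))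
    (hW : ∀ i j : Fin K, (∑ k ∈ Finset.range K,
      A.getD ((i : ℕ) + k) 0 * (W.getD k []).getD j 0) % 23 = if i = j then 1 else 0) :
    hankS μ K ≠ 0 := by
  classical
  let N : Matrix (Fin K) (Fin K) (ZMod 23) := fun i k => ((A.getD ((i : ℕ) + k) 0 : ℕ) : ZMod 23)
  let V : Matrix (Fin K) (Fin K) (ZMod 23) := fun k j => (((W.getD k []).getD j 0 : ℕ) : ZMod 23)
  have hNV : N * V = 1 := by
    ext i j
    rw [Matrix.mul_apply, Matrix.one_apply]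
    have h1 := hW i j
    have h2 : ((((∑ k ∈ Finset.range K,
      A.getD ((i : ℕ) + k) 0 * (W.getD k []).getD j 0) % 23 : ℕ)) : ZMod 23) =
        ((if i = j then 1 else 0 : ℕ) : ZMod 23) := by
      rw [h1]
    rw [cast_mod, Finset.sum_range] at h2
    push_cast at h2
    simpa [N, V] using h2
  have hN : N.det ≠ 0 := by
    intro h0
    have := congrArg Matrix.det hNV
    rw [Matrix.det_mul, h0, zero_mul, Matrix.det_one] at this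
    exact zero_ne_one this
  have hred : Red (hankS μ K) N.det := by
    rw [hankS]
    refine Red.det fun i c => ?_
    rw [Matrix.of_apply]
    exact hA _ (by omega)
  exact hred.ne_zero hN

/-! ## coefficients `(100, -18, 1)` -/

lemma cc7 : Cc (100, -18, 1) (8, 5, 1) := by
  refine ⟨?_, ?_, ?_⟩ <;> decide

/-- weights -/
def W7A0 : List ℕ := [9, 12, 10, 19, 13, 15, 7, 3, 14, 18, 12, 0, 21, 1, 18, 15, 11]

lemma hW7A0 : W7A0 = wL (8, 5, 1) 0 4 0 := by decide +kernel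

/-- weights -/
def W7A1 : List ℕ := [16, 1, 13, 18, 17, 0, 16, 3, 7, 19, 12, 12, 13, 22, 5, 6, 1]

lemma hW7A1 : W7A1 = wL (8, 5, 1) 0 4 1 := by decide +kernel

/-- weights -/
def W7A2 : List ℕ := [0, 20, 20, 11, 3, 21, 18, 8, 19, 20, 12, 12, 22, 16, 4, 10, 13]

lemma hW7A2 : W7A2 = wL (8, 5, 1) 0 4 2 := by decide +kernel

/-- moments -/
def T7A : List ℕ := [21, 1, 3, 15, 0, 7, 19, 2, 11, 6, 9, 15, 21, 13, 12, 15, 6, 11, 13, 0, 21, 13, 6, 12, 15, 1, 18, 9, 13, 18, 7, 1, 2, 21, 14, 12, 6, 11, 20, 14, 20, 0, 1, 3, 4]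

lemma hT7A : ∀ n : Fin 45, mN W7A0 W7A1 W7A2 n % 23 = T7A.getD n 0 := by
  decide +kernel

/-- inverse matrix -/
def V7A : List (List ℕ) :=
   [[9, 5, 15, 2, 11, 14, 1, 1, 21, 4, 14, 4, 6, 1, 21, 16, 9, 13, 0, 0, 12, 12, 1],
    [5, 12, 11, 14, 0, 11, 3, 16, 8, 0, 21, 1, 14, 16, 4, 5, 12, 13, 14, 14, 19, 10, 0],
    [15, 11, 1, 10, 12, 3, 20, 3, 22, 12, 10, 10, 15, 22, 13, 10, 18, 0, 9, 15, 0, 9, 8],
    [2, 14, 10, 15, 7, 15, 13, 5, 13, 21, 9, 18, 7, 19, 15, 3, 20, 10, 0, 11, 1, 11, 22],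
    [11, 0, 12, 7, 21, 8, 0, 9, 20, 2, 12, 2, 2, 11, 1, 1, 17, 19, 9, 4, 6, 20, 15],
    [14, 11, 3, 15, 8, 11, 13, 18, 14, 19, 19, 20, 3, 22, 19, 14, 19, 17, 16, 11, 14, 14, 22],
    [1, 3, 20, 13, 0, 13, 20, 0, 7, 3, 13, 1, 10, 5, 18, 18, 8, 9, 20, 12, 9, 15, 4],
    [1, 16, 3, 5, 9, 18, 0, 19, 9, 8, 10, 6, 0, 7, 12, 4, 12, 16, 11, 22, 8, 10, 10],
    [21, 8, 22, 13, 20, 14, 7, 9, 15, 3, 8, 17, 22, 12, 22, 0, 3, 12, 21, 21, 20, 10, 21],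
    [4, 0, 12, 21, 2, 19, 3, 8, 3, 17, 7, 6, 9, 15, 1, 7, 21, 20, 0, 17, 21, 6, 20],
    [14, 21, 10, 9, 12, 19, 13, 10, 8, 7, 20, 13, 2, 8, 19, 16, 8, 3, 13, 4, 15, 12, 22],
    [4, 1, 10, 18, 2, 20, 1, 6, 17, 6, 13, 2, 22, 17, 19, 15, 10, 1, 13, 13, 13, 21, 16],
    [6, 14, 15, 7, 2, 3, 10, 0, 22, 9, 2, 22, 21, 2, 6, 12, 3, 3, 9, 19, 18, 19, 21],
    [1, 16, 22, 19, 11, 22, 5, 7, 12, 15, 8, 17, 2, 14, 12, 13, 20, 4, 13, 4, 14, 2, 19],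
    [21, 4, 13, 15, 1, 19, 18, 12, 22, 1, 19, 19, 6, 12, 8, 8, 14, 14, 3, 4, 12, 19, 21],
    [16, 5, 10, 3, 1, 14, 18, 4, 0, 7, 16, 15, 12, 13, 8, 3, 16, 20, 6, 9, 13, 12, 9],
    [9, 12, 18, 20, 17, 19, 8, 12, 3, 21, 8, 10, 3, 20, 14, 16, 12, 17, 16, 14, 17, 15, 3],
    [13, 13, 0, 10, 19, 17, 9, 16, 12, 20, 3, 1, 3, 4, 14, 20, 17, 10, 5, 19, 8, 21, 18],
    [0, 14, 9, 0, 9, 16, 20, 11, 21, 0, 13, 13, 9, 13, 3, 6, 16, 5, 6, 16, 1, 6, 19],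
    [0, 14, 15, 11, 4, 11, 12, 22, 21, 17, 4, 13, 19, 4, 4, 9, 14, 19, 16, 1, 18, 8, 1],
    [12, 19, 0, 1, 6, 14, 9, 8, 20, 21, 15, 13, 18, 14, 12, 13, 17, 8, 1, 18, 13, 6, 10],
    [12, 10, 9, 11, 20, 14, 15, 10, 10, 6, 12, 21, 19, 2, 19, 12, 15, 21, 6, 8, 6, 5, 12],
    [1, 0, 8, 22, 15, 22, 4, 10, 21, 20, 22, 16, 21, 19, 21, 9, 3, 18, 19, 1, 10, 12, 22]]

theorem det7A : hankS (muN (100, -18, 1) 0 4) 23 ≠ 0 := by
  refine hankS_ne_zero 23 T7A V7A (fun n hn => red_tab (red_muN cc7 0 4 (by norm_num)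
    (by norm_num) hW7A0 hW7A1 hW7A2 n) (hT7A ⟨n, by omega⟩)) ?_
  decide +kernel

/-- weights -/
def W7B0 : List ℕ := [10, 3, 22, 3, 19, 7, 10, 22, 4, 16, 7, 22, 7, 12, 11, 9, 19]

lemma hW7B0 : W7B0 = wL (8, 5, 1) 0 3 0 := by decide +kernel

/-- weights -/
def W7B1 : List ℕ := [17, 5, 6, 13, 20, 12, 18, 11, 16, 9, 18, 13, 17, 15, 0, 9, 13]

lemma hW7B1 : W7B1 = wL (8, 5, 1) 0 3 1 := by decide +kernel

/-- weights -/
def W7B2 : List ℕ := [1, 7, 5, 22, 21, 17, 1, 22, 21, 17, 5, 11, 12, 8, 16, 15, 17]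

lemma hW7B2 : W7B2 = wL (8, 5, 1) 0 3 2 := by decide +kernel

/-- moments -/
def T7B : List ℕ := [14, 12, 12, 14, 18, 5, 9, 21, 14, 21, 15, 22, 10, 4, 13, 20, 8, 21, 17, 20, 6, 7, 22, 0, 1, 0, 13, 7, 3, 14, 10, 16, 8, 5, 3, 3, 7, 16, 22, 1, 1, 20, 9, 20, 20]

lemma hT7B : ∀ n : Fin 45, mN W7B0 W7B1 W7B2 n % 23 = T7B.getD n 0 := by
  decide +kernel

/-- inverse matrix -/
def V7B : List (List ℕ) :=
   [[10, 0, 14, 9, 15, 10, 14, 12, 15, 3, 11, 20, 10, 2, 13, 22, 6, 16, 8, 21, 17, 15, 9],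
    [0, 14, 16, 2, 3, 8, 7, 7, 15, 5, 13, 13, 17, 11, 21, 21, 4, 21, 20, 1, 17, 18, 6],
    [14, 16, 2, 3, 8, 7, 7, 15, 5, 13, 13, 17, 11, 21, 21, 4, 21, 20, 1, 17, 18, 6, 0],
    [9, 2, 3, 18, 12, 10, 12, 13, 17, 14, 11, 15, 12, 3, 5, 22, 22, 8, 10, 20, 13, 9, 9],
    [15, 3, 8, 12, 14, 15, 6, 7, 19, 21, 0, 20, 18, 15, 15, 2, 5, 8, 18, 19, 3, 9, 1],
    [10, 8, 7, 10, 15, 4, 7, 20, 15, 0, 8, 2, 10, 18, 5, 13, 8, 5, 7, 19, 17, 2, 13],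
    [14, 7, 7, 12, 6, 7, 5, 5, 21, 13, 20, 2, 16, 18, 6, 4, 15, 2, 9, 9, 5, 8, 16],
    [12, 7, 15, 13, 7, 20, 5, 2, 12, 20, 0, 21, 21, 18, 16, 1, 2, 3, 7, 0, 17, 20, 6],
    [15, 15, 5, 17, 19, 15, 21, 12, 5, 9, 3, 13, 21, 6, 1, 10, 21, 17, 19, 10, 13, 15, 19],
    [3, 5, 13, 14, 21, 0, 13, 20, 9, 18, 10, 13, 5, 14, 9, 1, 1, 17, 15, 19, 16, 3, 12],
    [11, 13, 13, 11, 0, 8, 20, 0, 3, 10, 6, 11, 13, 5, 20, 21, 17, 17, 12, 10, 0, 3, 21],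
    [20, 13, 17, 15, 20, 2, 2, 21, 13, 13, 11, 5, 17, 10, 6, 19, 8, 3, 3, 4, 1, 0, 6],
    [10, 17, 11, 12, 18, 10, 16, 21, 21, 5, 13, 17, 14, 6, 20, 13, 14, 15, 18, 11, 15, 8, 7],
    [2, 11, 21, 3, 15, 18, 18, 18, 6, 14, 5, 10, 6, 15, 4, 19, 17, 7, 21, 2, 19, 5, 4],
    [13, 21, 21, 5, 15, 5, 6, 16, 1, 9, 20, 6, 20, 4, 3, 6, 15, 13, 8, 20, 18, 18, 3],
    [22, 21, 4, 22, 2, 13, 4, 1, 10, 1, 21, 19, 13, 19, 6, 16, 21, 15, 8, 20, 20, 7, 11],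
    [6, 4, 21, 22, 5, 8, 15, 2, 21, 1, 17, 8, 14, 17, 15, 21, 21, 8, 15, 20, 2, 6, 2],
    [16, 21, 20, 8, 8, 5, 2, 3, 17, 17, 17, 3, 15, 7, 13, 15, 8, 19, 6, 13, 0, 7, 19],
    [8, 20, 1, 10, 18, 7, 9, 7, 19, 15, 12, 3, 18, 21, 8, 8, 15, 6, 1, 0, 18, 7, 14],
    [21, 1, 17, 20, 19, 19, 9, 0, 10, 19, 10, 4, 11, 2, 20, 20, 20, 13, 0, 5, 8, 2, 8],
    [17, 17, 18, 13, 3, 17, 5, 17, 13, 16, 0, 1, 15, 19, 18, 20, 2, 0, 18, 8, 15, 21, 4],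
    [15, 18, 6, 9, 9, 2, 8, 20, 15, 3, 3, 0, 8, 5, 18, 7, 6, 7, 7, 2, 21, 14, 13],
    [9, 6, 0, 9, 1, 13, 16, 6, 19, 12, 21, 6, 7, 4, 3, 11, 2, 19, 14, 8, 4, 13, 17]]

theorem det7B : hankS (muN (100, -18, 1) 0 3) 23 ≠ 0 := by
  refine hankS_ne_zero 23 T7B V7B (fun n hn => red_tab (red_muN cc7 0 3 (by norm_num)
    (by norm_num) hW7B0 hW7B1 hW7B2 n) (hT7B ⟨n, by omega⟩)) ?_
  decide +kernel

/-- weights -/
def W7D0 : List ℕ := [11, 6, 8, 7, 8, 20, 3, 1, 10, 11, 15, 0, 10, 21, 15, 21, 9]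

lemma hW7D0 : W7D0 = wL (8, 5, 1) 2 3 0 := by decide +kernel

/-- weights -/
def W7D1 : List ℕ := [18, 0, 8, 3, 1, 15, 3, 17, 9, 21, 4, 14, 12, 17, 13, 13, 16]

lemma hW7D1 : W7D1 = wL (8, 5, 1) 2 3 1 := by decide +kernel

/-- weights -/
def W7D2 : List ℕ := [2, 14, 8, 20, 7, 11, 5, 4, 10, 9, 18, 10, 5, 5, 18, 6, 0]

lemma hW7D2 : W7D2 = wL (8, 5, 1) 2 3 2 := by decide +kernel

/-- moments -/
def T7D : List ℕ := [18, 21, 15, 15, 3, 0, 15, 0, 7, 11, 4, 3, 19, 7, 14, 5, 3, 4, 19, 13, 19, 19, 3, 9, 4, 1, 21, 2, 9, 16, 3, 6, 20, 9, 12, 6, 8, 1, 17, 7, 3, 13, 22, 9, 1]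

lemma hT7D : ∀ n : Fin 45, mN W7D0 W7D1 W7D2 n % 23 = T7D.getD n 0 := by
  decide +kernel

/-- inverse matrix -/
def V7D : List (List ℕ) :=
   [[16, 14, 10, 1, 9, 4, 14, 14, 21, 17, 14, 15, 22, 2, 18, 14, 1, 15, 0, 22, 12, 15, 16],
    [14, 16, 22, 14, 12, 17, 7, 4, 6, 7, 20, 9, 22, 11, 2, 10, 0, 11, 9, 11, 13, 18, 7],
    [10, 22, 20, 16, 12, 11, 7, 6, 1, 19, 11, 5, 3, 21, 10, 17, 9, 13, 14, 1, 6, 6, 3],
    [1, 14, 16, 21, 20, 18, 12, 18, 9, 3, 7, 14, 19, 3, 6, 2, 21, 17, 13, 11, 12, 9, 15],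
    [9, 12, 12, 20, 20, 21, 6, 5, 13, 7, 20, 2, 6, 15, 10, 10, 10, 9, 3, 18, 8, 9, 17],
    [4, 17, 11, 18, 21, 10, 7, 18, 9, 9, 5, 7, 21, 18, 0, 21, 13, 6, 15, 18, 22, 2, 6],
    [14, 7, 7, 12, 6, 7, 5, 5, 21, 13, 20, 2, 16, 18, 6, 4, 15, 2, 9, 9, 5, 8, 16],
    [14, 4, 6, 18, 5, 18, 5, 18, 14, 17, 1, 4, 2, 18, 10, 6, 8, 18, 12, 8, 0, 20, 16],
    [21, 6, 1, 9, 13, 9, 21, 14, 11, 0, 6, 8, 10, 6, 6, 2, 16, 16, 11, 11, 8, 15, 3],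
    [17, 7, 19, 3, 7, 9, 13, 17, 0, 20, 17, 9, 10, 14, 13, 13, 20, 7, 4, 6, 12, 3, 13],
    [14, 20, 11, 7, 20, 5, 20, 1, 6, 17, 19, 20, 19, 5, 11, 17, 3, 5, 8, 22, 9, 3, 13],
    [15, 9, 5, 14, 2, 7, 2, 4, 8, 9, 20, 13, 7, 10, 21, 18, 16, 0, 2, 7, 9, 0, 4],
    [22, 22, 3, 19, 6, 21, 16, 2, 10, 10, 19, 7, 15, 6, 7, 20, 4, 13, 2, 13, 5, 8, 21],
    [2, 11, 21, 3, 15, 18, 18, 18, 6, 14, 5, 10, 6, 15, 4, 19, 17, 7, 21, 2, 19, 5, 4],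
    [18, 2, 10, 6, 10, 0, 6, 10, 6, 13, 11, 21, 7, 4, 11, 7, 7, 16, 9, 17, 10, 18, 5],
    [14, 10, 17, 2, 10, 21, 4, 6, 2, 13, 17, 18, 20, 19, 7, 19, 20, 1, 11, 11, 19, 7, 17],
    [1, 0, 9, 21, 10, 13, 15, 8, 16, 20, 3, 16, 4, 17, 7, 20, 6, 5, 14, 0, 10, 6, 0],
    [15, 11, 13, 17, 9, 6, 2, 18, 16, 7, 5, 0, 13, 7, 16, 1, 5, 0, 15, 9, 20, 7, 14],
    [0, 9, 14, 13, 3, 15, 9, 12, 11, 4, 8, 2, 2, 21, 9, 11, 14, 15, 4, 14, 17, 7, 20],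
    [22, 11, 1, 11, 18, 18, 9, 8, 11, 6, 22, 7, 13, 2, 17, 11, 0, 9, 14, 9, 11, 2, 13],
    [12, 13, 6, 12, 8, 22, 5, 0, 8, 12, 9, 9, 5, 19, 10, 19, 10, 20, 17, 11, 0, 21, 2],
    [15, 18, 6, 9, 9, 2, 8, 20, 15, 3, 3, 0, 8, 5, 18, 7, 6, 7, 7, 2, 21, 14, 13],
    [16, 7, 3, 15, 17, 6, 16, 16, 3, 13, 13, 4, 21, 4, 5, 17, 0, 14, 20, 13, 2, 13, 6]]

theorem det7D : hankS (muN (100, -18, 1) 2 3) 23 ≠ 0 := by
  refine hankS_ne_zero 23 T7D V7D (fun n hn => red_tab (red_muN cc7 2 3 (by norm_num)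
    (by norm_num) hW7D0 hW7D1 hW7D2 n) (hT7D ⟨n, by omega⟩)) ?_
  decide +kernel

/-- weights -/
def W7C0 : List ℕ := [16, 4, 18, 3, 5, 12, 20, 8, 21, 2, 14, 5, 8, 8, 11, 18, 1]

lemma hW7C0 : W7C0 = wL (8, 5, 1) 2 2 0 := by decide +kernel

/-- weights -/
def W7C1 : List ℕ := [0, 12, 0, 16, 0, 8, 0, 19, 0, 4, 0, 9, 0, 2, 0, 14, 0]

lemma hW7C1 : W7C1 = wL (8, 5, 1) 2 2 1 := by decide +kernel

/-- weights -/
def W7C2 : List ℕ := [7, 4, 5, 3, 18, 12, 3, 8, 2, 2, 9, 5, 15, 8, 12, 18, 22]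

lemma hW7C2 : W7C2 = wL (8, 5, 1) 2 2 2 := by decide +kernel

/-- moments -/
def T7C : List ℕ := [17, 1, 8, 17, 2, 0, 14, 5, 9, 6, 6, 16, 20, 14, 20, 15, 18, 22, 12, 5, 8, 17, 0]

lemma hT7C : ∀ n : Fin 23, mC W7C0 W7C1 W7C2 n % 23 = T7C.getD n 0 := by
  decide +kernel

/-- inverse matrix -/
def V7C : List (List ℕ) :=
   [[22, 9, 0, 3, 13, 2, 15, 5, 16, 18, 21, 2],
    [9, 7, 9, 12, 9, 17, 20, 6, 22, 1, 7, 3],
    [0, 9, 4, 16, 22, 16, 22, 9, 8, 14, 13, 10],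
    [3, 12, 16, 17, 2, 11, 7, 15, 18, 6, 21, 12],
    [13, 9, 22, 2, 0, 22, 1, 20, 1, 17, 22, 12],
    [2, 17, 16, 11, 22, 12, 22, 5, 8, 17, 2, 21],
    [15, 20, 22, 7, 1, 22, 5, 15, 18, 9, 7, 21],
    [5, 6, 9, 15, 20, 5, 15, 13, 5, 2, 8, 8],
    [16, 22, 8, 18, 1, 8, 18, 5, 6, 20, 3, 11],
    [18, 1, 14, 6, 17, 17, 9, 2, 20, 4, 15, 6],
    [21, 7, 13, 21, 22, 2, 7, 8, 3, 15, 2, 21],
    [2, 3, 10, 12, 12, 21, 21, 8, 11, 6, 21, 16]]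

theorem det7C : hankS (muC (100, -18, 1)) 12 ≠ 0 := by
  refine hankS_ne_zero 12 T7C V7C (fun n hn => red_tab (red_muC cc7
    hW7C0 hW7C1 hW7C2 n) (hT7C ⟨n, by omega⟩)) ?_
  decide +kernel

/-! ## coefficients `(247, -39, 1)` -/

lemma cc9 : Cc (247, -39, 1) (17, 7, 1) := by
  refine ⟨?_, ?_, ?_⟩ <;> decide

/-- weights -/
def W9A0 : List ℕ := [8, 14, 21, 3, 13, 3, 18, 22, 9, 21, 9, 20, 16, 5, 5, 22, 11]

lemma hW9A0 : W9A0 = wL (17, 7, 1) 0 4 0 := by decide +kernel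

/-- weights -/
def W9A1 : List ℕ := [14, 13, 7, 3, 22, 20, 8, 17, 6, 8, 9, 13, 4, 16, 1, 14, 12]

lemma hW9A1 : W9A1 = wL (17, 7, 1) 0 4 1 := by decide +kernel

/-- weights -/
def W9A2 : List ℕ := [20, 16, 20, 14, 9, 10, 1, 19, 9, 13, 19, 13, 10, 9, 21, 11, 12]

lemma hW9A2 : W9A2 = wL (17, 7, 1) 0 4 2 := by decide +kernel

/-- moments -/
def T9A : List ℕ := [19, 19, 22, 19, 17, 1, 7, 13, 21, 3, 15, 5, 5, 22, 8, 8, 7, 20, 9, 18, 18, 11, 10, 14, 4, 19, 7, 9, 1, 8, 15, 16, 1, 4, 17, 2, 15, 7, 12, 11, 11, 14, 4, 15, 10]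

lemma hT9A : ∀ n : Fin 45, mN W9A0 W9A1 W9A2 n % 23 = T9A.getD n 0 := by
  decide +kernel

/-- inverse matrix -/
def V9A : List (List ℕ) :=
   [[19, 6, 3, 5, 12, 17, 8, 8, 13, 1, 5, 17, 9, 3, 10, 3, 3, 15, 17, 4, 12, 3, 16],
    [6, 13, 4, 19, 18, 4, 13, 21, 10, 19, 19, 21, 22, 22, 12, 16, 7, 19, 15, 1, 14, 6, 12],
    [3, 4, 5, 20, 21, 4, 22, 18, 15, 12, 19, 12, 16, 13, 16, 18, 4, 15, 4, 6, 8, 0, 22],
    [5, 19, 20, 3, 6, 15, 18, 7, 2, 14, 15, 20, 8, 12, 3, 5, 3, 16, 5, 21, 6, 0, 10],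
    [12, 18, 21, 6, 6, 1, 9, 6, 14, 5, 9, 17, 4, 22, 17, 15, 14, 0, 14, 21, 13, 22, 13],
    [17, 4, 4, 15, 1, 8, 16, 15, 10, 19, 18, 1, 19, 22, 2, 16, 19, 6, 21, 1, 15, 15, 14],
    [8, 13, 22, 18, 9, 16, 3, 14, 8, 15, 22, 20, 7, 17, 8, 1, 14, 9, 12, 6, 8, 19, 2],
    [8, 21, 18, 7, 6, 15, 14, 2, 19, 1, 5, 10, 19, 5, 7, 9, 0, 21, 11, 12, 12, 20, 19],
    [13, 10, 15, 2, 14, 10, 8, 19, 9, 2, 16, 6, 8, 12, 11, 3, 20, 14, 1, 19, 22, 22, 8],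
    [1, 19, 12, 14, 5, 19, 15, 1, 2, 13, 5, 13, 5, 19, 2, 19, 18, 11, 10, 15, 19, 7, 20],
    [5, 19, 19, 15, 9, 18, 22, 5, 16, 5, 7, 4, 17, 21, 0, 8, 12, 16, 20, 7, 6, 10, 7],
    [17, 21, 12, 20, 17, 1, 20, 10, 6, 13, 4, 22, 19, 21, 19, 3, 16, 2, 19, 16, 8, 21, 16],
    [9, 22, 16, 8, 4, 19, 7, 19, 8, 5, 17, 19, 19, 0, 12, 10, 22, 21, 3, 15, 16, 10, 20],
    [3, 22, 13, 12, 22, 22, 17, 5, 12, 19, 21, 21, 0, 5, 20, 7, 13, 18, 2, 8, 2, 5, 3],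
    [10, 12, 16, 3, 17, 2, 8, 7, 11, 2, 0, 19, 12, 20, 13, 18, 10, 11, 22, 5, 4, 8, 16],
    [3, 16, 18, 5, 15, 16, 1, 9, 3, 19, 8, 3, 10, 7, 18, 13, 9, 22, 10, 6, 19, 19, 6],
    [3, 7, 4, 3, 14, 19, 14, 0, 20, 18, 12, 16, 22, 13, 10, 9, 9, 17, 7, 0, 21, 6, 20],
    [15, 19, 15, 16, 0, 6, 9, 21, 14, 11, 16, 2, 21, 18, 11, 22, 17, 10, 21, 4, 14, 10, 5],
    [17, 15, 4, 5, 14, 21, 12, 11, 1, 10, 20, 19, 3, 2, 22, 10, 7, 21, 0, 17, 15, 21, 9],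
    [4, 1, 6, 21, 21, 1, 6, 12, 19, 15, 7, 16, 15, 8, 5, 6, 0, 4, 17, 21, 13, 8, 16],
    [12, 14, 8, 6, 13, 15, 8, 12, 22, 19, 6, 8, 16, 2, 4, 19, 21, 14, 15, 13, 10, 12, 13],
    [3, 6, 0, 0, 22, 15, 19, 20, 22, 7, 10, 21, 10, 5, 8, 19, 6, 10, 21, 8, 12, 11, 8],
    [16, 12, 22, 10, 13, 14, 2, 19, 8, 20, 7, 16, 20, 3, 16, 6, 20, 5, 9, 16, 13, 8, 20]]

theorem det9A : hankS (muN (247, -39, 1) 0 4) 23 ≠ 0 := by
  refine hankS_ne_zero 23 T9A V9A (fun n hn => red_tab (red_muN cc9 0 4 (by norm_num)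
    (by norm_num) hW9A0 hW9A1 hW9A2 n) (hT9A ⟨n, by omega⟩)) ?_
  decide +kernel

/-- weights -/
def W9B0 : List ℕ := [9, 5, 10, 10, 19, 18, 21, 18, 22, 19, 4, 19, 2, 16, 21, 16, 19]

lemma hW9B0 : W9B0 = wL (17, 7, 1) 0 3 0 := by decide +kernel

/-- weights -/
def W9B1 : List ℕ := [15, 17, 0, 21, 2, 9, 10, 2, 15, 21, 15, 14, 8, 9, 19, 17, 1]

lemma hW9B1 : W9B1 = wL (17, 7, 1) 0 3 1 := by decide +kernel

/-- weights -/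
def W9B2 : List ℕ := [21, 3, 5, 2, 4, 6, 7, 10, 11, 10, 12, 12, 0, 1, 10, 16, 16]

lemma hW9B2 : W9B2 = wL (17, 7, 1) 0 3 2 := by decide +kernel

/-- moments -/
def T9B : List ℕ := [12, 7, 8, 18, 12, 22, 20, 9, 1, 18, 21, 12, 17, 13, 9, 13, 9, 7, 13, 15, 3, 5, 3, 2, 13, 18, 2, 7, 14, 4, 18, 8, 7, 11, 6, 16, 16, 12, 14, 21, 15, 11, 12, 9, 3]

lemma hT9B : ∀ n : Fin 45, mN W9B0 W9B1 W9B2 n % 23 = T9B.getD n 0 := by
  decide +kernel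

/-- inverse matrix -/
def V9B : List (List ℕ) :=
   [[6, 9, 11, 16, 4, 8, 0, 10, 13, 3, 16, 8, 18, 19, 16, 15, 13, 2, 3, 21, 3, 5, 1],
    [9, 7, 11, 20, 11, 22, 6, 17, 10, 15, 20, 16, 4, 13, 0, 15, 10, 22, 20, 13, 9, 2, 19],
    [11, 11, 16, 15, 10, 6, 11, 15, 15, 9, 14, 14, 14, 12, 7, 0, 12, 0, 2, 15, 10, 20, 10],
    [16, 20, 15, 22, 11, 12, 0, 0, 2, 7, 11, 17, 11, 2, 5, 9, 14, 4, 8, 19, 3, 16, 5],
    [4, 11, 10, 11, 17, 22, 20, 9, 14, 8, 14, 15, 6, 0, 3, 10, 6, 15, 16, 12, 11, 2, 2],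
    [8, 22, 6, 12, 22, 0, 14, 4, 10, 8, 15, 16, 4, 3, 15, 19, 10, 20, 6, 11, 7, 4, 16],
    [0, 6, 11, 0, 20, 14, 14, 17, 8, 18, 4, 18, 9, 18, 17, 19, 6, 1, 14, 20, 6, 22, 14],
    [10, 17, 15, 0, 9, 4, 17, 7, 19, 6, 21, 22, 7, 22, 22, 16, 2, 0, 22, 20, 1, 2, 16],
    [13, 10, 15, 2, 14, 10, 8, 19, 9, 2, 16, 6, 8, 12, 11, 3, 20, 14, 1, 19, 22, 22, 8],
    [3, 15, 9, 7, 8, 8, 18, 6, 2, 18, 21, 2, 16, 13, 17, 3, 20, 13, 21, 0, 8, 12, 17],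
    [16, 20, 14, 11, 14, 15, 4, 21, 16, 21, 3, 1, 20, 11, 2, 12, 0, 4, 0, 5, 3, 3, 2],
    [8, 16, 14, 17, 15, 16, 18, 22, 6, 2, 1, 14, 4, 2, 9, 6, 7, 16, 4, 3, 0, 10, 18],
    [18, 4, 14, 11, 6, 4, 9, 7, 8, 16, 20, 4, 11, 19, 22, 7, 8, 7, 18, 5, 1, 21, 18],
    [19, 13, 12, 2, 0, 3, 18, 22, 12, 13, 11, 2, 19, 3, 2, 17, 6, 11, 21, 3, 6, 22, 2],
    [16, 0, 7, 5, 3, 15, 17, 22, 11, 17, 2, 9, 22, 2, 12, 16, 16, 17, 9, 6, 17, 0, 7],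
    [15, 15, 0, 9, 10, 19, 19, 16, 3, 3, 12, 6, 7, 17, 16, 9, 21, 11, 7, 8, 22, 3, 11],
    [13, 10, 12, 14, 6, 10, 6, 2, 20, 20, 0, 7, 8, 6, 16, 21, 19, 4, 16, 17, 12, 8, 5],
    [2, 22, 0, 4, 15, 20, 1, 0, 14, 13, 4, 16, 7, 11, 17, 11, 4, 20, 7, 21, 5, 12, 13],
    [3, 20, 2, 8, 16, 6, 14, 22, 1, 21, 0, 4, 18, 21, 9, 7, 16, 7, 15, 7, 0, 9, 7],
    [21, 13, 15, 19, 12, 11, 20, 20, 19, 0, 5, 3, 5, 3, 6, 8, 17, 21, 7, 20, 0, 16, 2],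
    [3, 9, 10, 3, 11, 7, 6, 1, 22, 8, 3, 0, 1, 6, 17, 22, 12, 5, 0, 0, 2, 1, 15],
    [5, 2, 20, 16, 2, 4, 22, 2, 22, 12, 3, 10, 21, 22, 0, 3, 8, 12, 9, 16, 1, 16, 5],
    [1, 19, 10, 5, 2, 16, 14, 16, 8, 17, 2, 18, 18, 2, 7, 11, 5, 13, 7, 2, 15, 5, 8]]

theorem det9B : hankS (muN (247, -39, 1) 0 3) 23 ≠ 0 := by
  refine hankS_ne_zero 23 T9B V9B (fun n hn => red_tab (red_muN cc9 0 3 (by norm_num)
    (by norm_num) hW9B0 hW9B1 hW9B2 n) (hT9B ⟨n, by omega⟩)) ?_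
  decide +kernel

/-- weights -/
def W9D0 : List ℕ := [10, 8, 19, 14, 8, 8, 14, 20, 5, 14, 12, 20, 5, 2, 2, 5, 9]

lemma hW9D0 : W9D0 = wL (17, 7, 1) 2 3 0 := by decide +kernel

/-- weights -/
def W9D1 : List ℕ := [16, 12, 2, 11, 6, 12, 18, 8, 8, 10, 1, 15, 3, 11, 9, 21, 4]

lemma hW9D1 : W9D1 = wL (17, 7, 1) 2 3 1 := by decide +kernel

/-- weights -/
def W9D2 : List ℕ := [22, 10, 8, 0, 13, 0, 11, 15, 0, 2, 2, 11, 16, 21, 12, 7, 22]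

lemma hW9D2 : W9D2 = wL (17, 7, 1) 2 3 2 := by decide +kernel

/-- moments -/
def T9D : List ℕ := [16, 16, 11, 19, 20, 17, 3, 11, 17, 8, 10, 16, 3, 16, 10, 21, 4, 13, 15, 8, 16, 17, 7, 11, 16, 19, 10, 2, 20, 6, 11, 21, 19, 15, 15, 19, 17, 20, 9, 4, 17, 4, 2, 21, 7]

lemma hT9D : ∀ n : Fin 45, mN W9D0 W9D1 W9D2 n % 23 = T9D.getD n 0 := by
  decide +kernel

/-- inverse matrix -/
def V9D : List (List ℕ) :=
   [[19, 20, 3, 9, 4, 2, 12, 1, 15, 6, 17, 10, 14, 13, 4, 2, 7, 21, 21, 21, 6, 22, 15],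
    [20, 11, 6, 7, 11, 1, 2, 20, 17, 14, 12, 0, 13, 15, 4, 4, 12, 8, 14, 13, 8, 4, 22],
    [3, 6, 5, 14, 10, 15, 16, 17, 12, 16, 1, 11, 20, 21, 2, 8, 21, 6, 21, 15, 17, 6, 12],
    [9, 7, 14, 1, 11, 17, 13, 19, 8, 16, 14, 0, 22, 7, 15, 16, 19, 15, 16, 19, 12, 21, 1],
    [4, 11, 10, 11, 17, 22, 20, 9, 14, 8, 14, 15, 6, 0, 3, 10, 6, 15, 16, 12, 11, 2, 2],
    [2, 1, 15, 17, 22, 1, 12, 17, 2, 19, 11, 8, 20, 4, 17, 2, 11, 13, 3, 11, 18, 5, 6],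
    [12, 2, 16, 13, 20, 12, 18, 14, 1, 19, 12, 11, 0, 16, 13, 7, 4, 15, 20, 20, 7, 20, 11],
    [1, 20, 17, 19, 9, 17, 14, 15, 7, 11, 15, 10, 8, 12, 2, 2, 15, 1, 6, 20, 6, 15, 1],
    [15, 17, 12, 8, 14, 2, 1, 7, 4, 6, 2, 1, 18, 4, 18, 1, 12, 1, 2, 19, 3, 14, 19],
    [6, 14, 16, 16, 8, 19, 19, 11, 6, 1, 0, 6, 8, 1, 16, 0, 8, 5, 11, 0, 14, 0, 22],
    [17, 12, 1, 14, 14, 11, 12, 15, 2, 0, 19, 10, 2, 7, 17, 11, 19, 9, 12, 5, 5, 22, 19],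
    [10, 0, 11, 0, 15, 8, 11, 10, 1, 6, 10, 9, 14, 17, 16, 4, 22, 3, 5, 3, 4, 2, 6],
    [14, 13, 20, 22, 6, 20, 0, 8, 18, 8, 2, 14, 14, 12, 8, 11, 1, 10, 16, 5, 16, 14, 19],
    [13, 15, 21, 7, 0, 4, 16, 12, 4, 1, 7, 17, 12, 4, 4, 0, 7, 4, 18, 3, 17, 0, 15],
    [4, 4, 2, 15, 3, 17, 13, 2, 18, 16, 17, 16, 8, 4, 16, 5, 18, 3, 3, 6, 16, 2, 10],
    [2, 4, 8, 16, 10, 2, 7, 2, 1, 0, 11, 4, 11, 0, 5, 22, 4, 15, 12, 8, 19, 9, 20],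
    [7, 12, 21, 19, 6, 11, 4, 15, 12, 8, 19, 22, 1, 7, 18, 4, 20, 20, 13, 17, 0, 9, 18],
    [21, 8, 6, 15, 15, 13, 15, 1, 1, 5, 9, 3, 10, 4, 3, 15, 20, 0, 5, 21, 20, 5, 14],
    [21, 14, 21, 16, 16, 3, 20, 6, 2, 11, 12, 5, 16, 18, 3, 12, 13, 5, 1, 7, 13, 6, 14],
    [21, 13, 15, 19, 12, 11, 20, 20, 19, 0, 5, 3, 5, 3, 6, 8, 17, 21, 7, 20, 0, 16, 2],
    [6, 8, 17, 12, 11, 18, 7, 6, 3, 14, 5, 4, 16, 17, 16, 19, 0, 20, 13, 0, 8, 12, 20],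
    [22, 4, 6, 21, 2, 5, 20, 15, 14, 0, 22, 2, 14, 0, 2, 9, 9, 5, 6, 16, 12, 17, 18],
    [15, 22, 12, 1, 2, 6, 11, 1, 19, 22, 19, 6, 19, 15, 10, 20, 18, 14, 14, 2, 20, 18, 16]]

theorem det9D : hankS (muN (247, -39, 1) 2 3) 23 ≠ 0 := by
  refine hankS_ne_zero 23 T9D V9D (fun n hn => red_tab (red_muN cc9 2 3 (by norm_num)
    (by norm_num) hW9D0 hW9D1 hW9D2 n) (hT9D ⟨n, by omega⟩)) ?_
  decide +kernel

/-- weights -/
def W9C0 : List ℕ := [17, 19, 10, 13, 13, 6, 1, 16, 2, 6, 6, 4, 16, 16, 1, 10, 7]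

lemma hW9C0 : W9C0 = wL (17, 7, 1) 2 2 0 := by decide +kernel

/-- weights -/
def W9C1 : List ℕ := [0, 15, 0, 20, 0, 16, 0, 20, 0, 0, 0, 8, 0, 13, 0, 4, 0]

lemma hW9C1 : W9C1 = wL (17, 7, 1) 2 2 1 := by decide +kernel

/-- weights -/
def W9C2 : List ℕ := [6, 19, 13, 13, 10, 6, 22, 16, 21, 6, 17, 4, 7, 16, 22, 10, 16]

lemma hW9C2 : W9C2 = wL (17, 7, 1) 2 2 2 := by decide +kernel

/-- moments -/
def T9C : List ℕ := [20, 18, 4, 6, 1, 11, 16, 21, 16, 2, 5, 10, 5, 16, 21, 15, 8, 3, 1, 15, 15, 13, 22]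

lemma hT9C : ∀ n : Fin 23, mC W9C0 W9C1 W9C2 n % 23 = T9C.getD n 0 := by
  decide +kernel

/-- inverse matrix -/
def V9C : List (List ℕ) :=
   [[0, 22, 11, 22, 4, 17, 15, 17, 4, 22, 21, 13],
    [22, 10, 10, 3, 21, 9, 9, 21, 3, 20, 11, 13],
    [11, 10, 0, 10, 6, 9, 3, 20, 11, 19, 6, 8],
    [22, 3, 10, 15, 7, 21, 12, 3, 14, 13, 22, 11],
    [4, 21, 6, 7, 20, 9, 4, 5, 6, 18, 3, 3],
    [17, 9, 9, 21, 9, 22, 9, 2, 19, 20, 14, 21],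
    [15, 9, 3, 12, 4, 9, 9, 6, 12, 16, 2, 2],
    [17, 21, 20, 3, 5, 2, 6, 3, 10, 15, 5, 14],
    [4, 3, 11, 14, 6, 19, 12, 10, 6, 13, 7, 16],
    [22, 20, 19, 13, 18, 20, 16, 15, 13, 7, 16, 12],
    [21, 11, 6, 22, 3, 14, 2, 5, 7, 16, 12, 20],
    [13, 13, 8, 11, 3, 21, 2, 14, 16, 12, 20, 17]]

theorem det9C : hankS (muC (247, -39, 1)) 12 ≠ 0 := by
  refine hankS_ne_zero 12 T9C V9C (fun n hn => red_tab (red_muC cc9
    hW9C0 hW9C1 hW9C2 n) (hT9C ⟨n, by omega⟩)) ?_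
  decide +kernel

end LD

/-- N1 for the coefficients without `ζ(3)` and `ζ(7)` -/
theorem localDet7 : LocalDet (100, -18, 1) := ⟨LD.det7A, LD.det7B, LD.det7D, LD.det7C⟩

/-- N1 for the coefficients without `ζ(3)` and `ζ(9)` -/
theorem localDet9 : LocalDet (247, -39, 1) := ⟨LD.det9A, LD.det9B, LD.det9D, LD.det9C⟩

end ZT
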