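import Pool.Agent.Lib.ZT.NV4

/-!
# N2: nonvanishing of the Hankel determinant at a prime `p = (2a-1)/3`
-/

open Polynomial Finset Z579

namespace ZT

/-! ### the Gram relation -/

lemma gram1 {ι : Type*} [Fintype ι] [DecidableEq ι] (L : ℚ[X] →ₗ[ℚ] ℚ) (K : ℕ)
    (P : ι → ℚ[X]) (hP : ∀ α, (P α).natDegree < K) (hcard : Fintype.card ι = K)
    (h0 : hank L K = 0) : (Matrix.of fun α β : ι => L (P α * P β)).det = 0 := by
  let T : Matrix ι (Fin K) ℚ := Matrix.of fun α i => (P α).coeff i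
  have hM : (Matrix.of fun α β : ι => L (P α * P β)) =
      T * (Matrix.of fun i j : Fin K => L (X ^ ((i : ℕ) + (j : ℕ)))) * T.transpose := by
    ext α β
    rw [Matrix.mul_apply]
    simp only [Matrix.mul_apply, T, Matrix.of_apply, Matrix.transpose_apply]
    rw [DIM3.lin_mul L (hP α) (hP β), Finset.sum_comm, ← Finset.sum_range
      (fun j => (∑ x : Fin K, (P α).coeff x * L (X ^ ((x : ℕ) + j))) * (P β).coeff j)]
    refine Finset.sum_congr rfl fun j _ => ?_
    rw [← Finset.sum_range (fun x => (P α).coeff x * L (X ^ (x + j))), Finset.sum_mul]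
    exact Finset.sum_congr rfl fun n _ => by ring
  rw [hM]
  exact det_gram_zero hcard T _ h0

/-- number of levels of a class -/
def NR (d : ℤ) : ℕ := if d = 0 then 12 else 23

/-- exponents of the product of two adapted polynomials -/
def nn (ca : ℤ) (r : ℕ) (cb : ℤ) (s : ℕ) (d : ℤ) : ℕ :=
  (if d = ca then r else NR d) + (if d = cb then s else NR d)

/-- weight of a row -/
def wR (c : ℤ) (r : ℕ) : ℕ := if c = 0 then 2 * r else r

/-- weight of a column -/
def wC (c : ℤ) (j : ℕ) : ℕ := if c = 0 then 2 * j + 1 else j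

lemma ne_zero_of_mem_Dn {h : ℕ} {c : ℤ} (hc : c ∈ Dn h) : c ≠ 0 := by
  rw [mem_Dn] at hc; omega

section
variable {p : ℕ} [hp : Fact p.Prime]

/-- the entries of the scaled matrix -/
lemma entry_block {h : ℕ} (hh : p = 2 * h + 1) (hp5 : 5 < p) {ω : ℤ → ℕ → ℚ} {τ : ℕ}
    {VN : ℤ → ℤ → PowerSeries (ZMod p)} {VC : ℤ → PowerSeries (ZMod p)}
    (hwN : ∀ c ∈ Dn h, ∀ j ∈ Finset.Icc (0 : ℤ) 2, ∀ i : ℕ, 1 ≤ i → i ≤ 16 →
      ∃ w : ℚ, (p : ℚ) ^ i * DIM3.ws ω (c + j * p) i = (p : ℚ) ^ 0 * w ∧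
      red p w (PowerSeries.coeff (i - 1) (VN c j)))
    (hwC : ∀ j ∈ Finset.Icc (-1 : ℤ) 1, ∀ i : ℕ, 1 ≤ i → i ≤ 16 →
      ∃ w : ℚ, (p : ℚ) ^ i * DIM3.ws ω (0 + j * p) i = (p : ℚ) ^ 0 * w ∧
      red p w (PowerSeries.coeff (i - 1) (VC j)))
    {ca cb : ℤ} {r s : ℕ} (ha : (ca = 0 ∧ r < 12) ∨ (ca ∈ Dn h ∧ r < 23))
    (hb : (cb = 0 ∧ s < 12) ∨ (cb ∈ Dn h ∧ s < 23)) (hτ : τ + wC cb s + wR ca r = 48) :
    red p ((p : ℚ) ^ τ * Lw 0 16 0 (3 * h + 2) (3 * h + 2) ω (PolyN (Da h) (nn ca r cb s)))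
      (if ca = cb then (if ca = 0 then KC p h (nn ca r cb s) * mC p VC (r + s) else
        KN p h (nn ca r cb s) ca * mN p (VN ca) (r + s)) else
        if cb = 0 then 0 ^ (22 - 2 * s) * (KN p h (nn ca r cb s) ca * mN p (VN ca) (r + 23))
        else 0) := by
  have hn : ∀ c ∈ Dn h, wC cb s + wR ca r ≤ nn ca r cb s c ∧
      ((c ≠ ca ∨ (ca ≠ cb ∧ cb ≠ 0)) → wC cb s + wR ca r < nn ca r cb s c) := by
    intro c hc
    have hc0 := ne_zero_of_mem_Dn hc
    rcases ha with ⟨rfl, hr⟩ | ⟨hca, hr⟩ <;> rcases hb with ⟨rfl, hj⟩ | ⟨hcb, hj⟩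
    · simp only [nn, wC, wR, NR, if_true, hc0, if_false]; omega
    · have hcb0 := ne_zero_of_mem_Dn hcb
      simp only [nn, wC, wR, NR, if_true, hc0, if_false, hcb0]
      split_ifs <;> omega
    · have hca0 := ne_zero_of_mem_Dn hca
      simp only [nn, wC, wR, NR, if_true, hc0, if_false, hca0]
      split_ifs with h1
      · refine ⟨by omega, fun h2 => ?_⟩
        rcases h2 with h2 | h2
        · exact absurd h1 h2
        · exact absurd rfl h2.2
      · omega
    · have hcb0 := ne_zero_of_mem_Dn hcb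
      have hca0 := ne_zero_of_mem_Dn hca
      simp only [nn, wC, wR, NR, hc0, if_false, hca0, hcb0]
      split_ifs with h1 h2 h2
      · subst h1; subst h2; simp; omega
      · omega
      · omega
      · omega
  have hn0 : wC cb s + wR ca r ≤ 2 * nn ca r cb s 0 + 1 ∧
      ((ca ≠ cb ∨ ca ≠ 0) → wC cb s + wR ca r < 2 * nn ca r cb s 0 + 1) := by
    rcases ha with ⟨rfl, hr⟩ | ⟨hca, hr⟩ <;> rcases hb with ⟨rfl, hj⟩ | ⟨hcb, hj⟩
    · simp only [nn, wC, wR, if_true, ne_eq, not_true, or_false, false_imp_iff, and_true]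
      omega
    · have hcb0 := ne_zero_of_mem_Dn hcb
      have hcb0' : (0 : ℤ) ≠ cb := fun h => hcb0 h.symm
      simp only [nn, wC, wR, NR, if_true, if_false, hcb0, hcb0']
      omega
    · have hca0 := ne_zero_of_mem_Dn hca
      have hca0' : (0 : ℤ) ≠ ca := fun h => hca0 h.symm
      simp only [nn, wC, wR, NR, if_true, if_false, hca0, hca0']
      omega
    · have hcb0 := ne_zero_of_mem_Dn hcb
      have hcb0' : (0 : ℤ) ≠ cb := fun h => hcb0 h.symm
      have hca0 := ne_zero_of_mem_Dn hca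
      have hca0' : (0 : ℤ) ≠ ca := fun h => hca0 h.symm
      simp only [nn, wC, wR, NR, if_true, if_false, hca0, hca0', hcb0, hcb0']
      omega
  have key := entry_gen (p := p) (τ := τ) (g := 0) hh hp5 (n := nn ca r cb s)
    (kN := fun c => nn ca r cb s c - (wC cb s + wR ca r))
    (kC := 2 * nn ca r cb s 0 + 1 - (wC cb s + wR ca r)) hwN hwC
    (fun c hc => by have := (hn c hc).1; push_cast [this]; omega)
    (by have := hn0.1; push_cast [this]; omega)
  convert key using 1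
  have hz : ∀ c ∈ Dn h, (c ≠ ca ∨ (ca ≠ cb ∧ cb ≠ 0)) →
      (0 : ZMod p) ^ (nn ca r cb s c - (wC cb s + wR ca r)) * (KN p h (nn ca r cb s) c *
        mN p (VN c) (nn ca r cb s c)) = 0 := by
    intro c hc h1
    have := (hn c hc).2 h1
    rw [zero_pow (by omega), zero_mul]
  have hz0 : (ca ≠ cb ∨ ca ≠ 0) → (0 : ZMod p) ^ (2 * nn ca r cb s 0 + 1 - (wC cb s + wR ca r)) *
      (KC p h (nn ca r cb s) * mC p VC (nn ca r cb s 0)) = 0 := by
    intro h1
    have := hn0.2 h1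
    rw [zero_pow (by omega), zero_mul]
  by_cases hab : ca = cb
  · rw [if_pos hab]
    by_cases hc0 : ca = 0
    · rw [if_pos hc0, Finset.sum_eq_zero, add_zero]
      · subst hab
        subst hc0
        have h1 : nn 0 r 0 s 0 = r + s := by simp [nn]
        have h2 : 2 * (r + s) + 1 - (wC 0 s + wR 0 r) = 0 := by
          simp only [wC, wR, if_true]; omega
        rw [h1, h2, pow_zero, one_mul]
      · intro c hc
        exact hz c hc (Or.inl (by rw [hc0]; exact ne_zero_of_mem_Dn hc))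
    · rw [if_neg hc0, hz0 (Or.inr hc0), zero_add]
      have hca : ca ∈ Dn h := by
        rcases ha with h1 | h1
        · exact absurd h1.1 hc0
        · exact h1.1
      rw [Finset.sum_eq_single ca (fun c hc hcc => hz c hc (Or.inl hcc))
        (fun h1 => absurd hca h1)]
      subst hab
      have h1 : nn ca r ca s ca = r + s := by simp [nn]
      have h2 : (r + s) - (wC ca s + wR ca r) = 0 := by
        simp only [wC, wR, hc0, if_false]; omega
      rw [h1, h2, pow_zero, one_mul]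
  · rw [if_neg hab, hz0 (Or.inl hab), zero_add]
    by_cases hb0 : cb = 0
    · rw [if_pos hb0]
      have hca0 : ca ≠ 0 := fun h1 => hab (h1.trans hb0.symm)
      have hca : ca ∈ Dn h := by
        rcases ha with h1 | h1
        · exact absurd h1.1 hca0
        · exact h1.1
      rw [Finset.sum_eq_single ca (fun c hc hcc => hz c hc (Or.inl hcc))
        (fun h1 => absurd hca h1)]
      subst hb0
      have h1 : nn ca r 0 s ca = r + 23 := by simp [nn, NR, hca0]
      have h2 : (r + 23) - (wC 0 s + wR ca r) = 22 - 2 * s := by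
        simp only [wC, wR, hca0, if_false, if_true]; omega
      rw [h1, h2]
    · rw [if_neg hb0, Finset.sum_eq_zero]
      intro c hc
      exact hz c hc (Or.inr ⟨hab, hb0⟩)

/-! ### the units -/

/-- unit of a noncentral class -/
noncomputable def UN (p : ℕ) [Fact p.Prime] (h : ℕ) (c : ℤ) : ZMod p :=
  KN p h (fun d => if d = c then 0 else NR d + NR d) c

/-- unit of the central class -/
noncomputable def UC (p : ℕ) [Fact p.Prime] (h : ℕ) : ZMod p :=
  KC p h (fun d => NR d + NR d)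

lemma KN_factor {h : ℕ} {c : ℤ} {r j : ℕ} :
    KN p h (nn c r c j) c = UN p h c * ((-2 * (c : ZMod p)) ^ r * (-2 * (c : ZMod p)) ^ j) := by
  unfold UN KN
  have h1 : nn c r c j c = r + j := by simp [nn]
  have h3 : ∏ d ∈ (Da h).erase c, ((c : ZMod p) ^ 2 - d ^ 2) ^ (nn c r c j d) =
      ∏ d ∈ (Da h).erase c, ((c : ZMod p) ^ 2 - d ^ 2) ^ (if d = c then 0 else NR d + NR d) := by
    refine Finset.prod_congr rfl fun d hd => ?_
    have hne := (Finset.mem_erase.1 hd).1
    simp [nn, hne]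
  rw [h1, h3]
  simp only [if_true, pow_zero, pow_add]
  ring

lemma KC_factor {h : ℕ} {r j : ℕ} : KC p h (nn 0 r 0 j) = UC p h := by
  unfold UC KC
  congr 1
  refine Finset.prod_congr rfl fun d hd => ?_
  have hne := (Finset.mem_erase.1 hd).1
  simp [nn, hne]

lemma cast_ne_shift {x : ℤ} (k : ℤ) (h0 : x + k * p ≠ 0) (h1 : |x + k * p| < p) :
    (x : ZMod p) ≠ 0 := by
  have := cast_ne_zero_of_small h0 h1
  push_cast at this
  simpa using this

lemma cDn_ne {h : ℕ} (hh : p = 2 * h + 1) {c : ℤ} (hc : c ∈ Dn h) : (c : ZMod p) ≠ 0 := by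
  have hpz : (p : ℤ) = 2 * h + 1 := by exact_mod_cast hh
  rw [mem_Dn] at hc
  refine cast_ne_shift 1 ?_ ?_
  · omega
  · rw [abs_lt]; omega

lemma UN_ne {h : ℕ} (hh : p = 2 * h + 1) (hp5 : 5 < p) {c : ℤ} (hc : c ∈ Dn h) :
    UN p h c ≠ 0 := by
  have hpz : (p : ℤ) = 2 * h + 1 := by exact_mod_cast hh
  have hc0 := cDn_ne hh hc
  have hc' := mem_Dn.1 hc
  unfold UN KN
  refine mul_ne_zero (mul_ne_zero (mul_ne_zero (DIM3.two_ne hp5) (neg_ne_zero.2 hc0)) ?_)
    (mul_ne_zero ?_ ?_)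
  · refine pow_ne_zero _ (inv_ne_zero (Finset.prod_ne_zero_iff.2 fun w hw => ?_))
    have := On_ne hw
    push_cast at this
    exact this
  · exact pow_ne_zero _ (mul_ne_zero (neg_ne_zero.2 (DIM3.two_ne hp5)) hc0)
  · refine Finset.prod_ne_zero_iff.2 fun d hd => pow_ne_zero _ ?_
    rw [Finset.mem_erase, Da, Finset.mem_insert] at hd
    obtain ⟨hdc, rfl | hd⟩ := hd
    · push_cast
      simpa using hc0
    · have hd' := mem_Dn.1 hd
      have h5 : (c : ZMod p) ^ 2 - d ^ 2 = ((c - d : ℤ) : ZMod p) * ((c + d : ℤ) : ZMod p) := by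
        push_cast; ring
      rw [h5]
      refine mul_ne_zero ?_ ?_
      · refine cast_ne_zero_of_small (sub_ne_zero.2 (Ne.symm hdc)) ?_
        rw [abs_lt]; omega
      · refine cast_ne_shift 2 ?_ ?_
        · omega
        · rw [abs_lt]; omega

lemma UC_ne {h : ℕ} (hh : p = 2 * h + 1) : UC p h ≠ 0 := by
  unfold UC KC
  refine mul_ne_zero ?_ ?_
  · refine pow_ne_zero _ (inv_ne_zero (Finset.prod_ne_zero_iff.2 fun w hw => ?_))
    have := On_ne hw
    push_cast at this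
    simpa using this
  · refine Finset.prod_ne_zero_iff.2 fun d hd => pow_ne_zero _ ?_
    rw [Finset.mem_erase, Da, Finset.mem_insert] at hd
    obtain ⟨hdc, h1 | hd⟩ := hd
    · exact absurd h1 hdc
    · exact neg_ne_zero.2 (pow_ne_zero _ (cDn_ne hh hd))

/-! ### the index type -/

/-- index type of rows and columns -/
abbrev Idx (h : ℕ) := (Fin 23 × {c // c ∈ Dn h}) ⊕ Fin 12

def icls {h : ℕ} : Idx h → ℤ := Sum.elim (fun x => x.2.1) (fun _ => 0)
def irow {h : ℕ} : Idx h → ℕ := Sum.elim (fun x => (x.1 : ℕ)) (fun x => (x : ℕ))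

lemma irow_lt {h : ℕ} (α : Idx h) : (icls α = 0 ∧ irow α < 12) ∨ (icls α ∈ Dn h ∧ irow α < 23) := by
  rcases α with ⟨x, c⟩ | x
  · right; exact ⟨c.2, x.2⟩
  · left; exact ⟨rfl, x.2⟩

lemma card_Dn (h : ℕ) : (Dn h).card = h := by
  rw [Dn, Int.card_Icc]; omega

lemma zero_notMem_Dn (h : ℕ) : (0 : ℤ) ∉ Dn h := fun h1 => ne_zero_of_mem_Dn h1 rfl

lemma card_Idx (h : ℕ) : Fintype.card (Idx h) = 23 * h + 12 := by
  simp only [Idx, Fintype.card_sum, Fintype.card_prod, Fintype.card_fin, Fintype.card_coe, card_Dn]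

lemma sum_Da (h : ℕ) (x y : ℕ) : ∑ d ∈ Da h, (if d = 0 then x else y) = x + h * y := by
  rw [Da, Finset.sum_insert (zero_notMem_Dn h), if_pos rfl]
  congr 1
  rw [Finset.sum_congr rfl (fun d hd => if_neg (ne_zero_of_mem_Dn hd)), Finset.sum_const, card_Dn,
    smul_eq_mul]

lemma mem_Da_of {h : ℕ} {c : ℤ} (hc : c = 0 ∨ c ∈ Dn h) : c ∈ Da h := by
  rw [Da, Finset.mem_insert]; exact hc

lemma deg_row {h : ℕ} (α : Idx h) :
    (PolyN (Da h) fun d => if d = icls α then irow α else NR d).natDegree < 23 * h + 12 := by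
  rw [natDegree_PolyN]
  have h1 : ∑ d ∈ Da h, NR d = 23 * h + 12 := by
    have := sum_Da h 12 23
    simp only [NR]
    rw [this]; ring
  rw [← h1]
  have h2 : irow α < NR (icls α) := by
    rcases irow_lt α with h3 | h3
    · rw [NR, if_pos h3.1]; exact h3.2
    · rw [NR, if_neg (ne_zero_of_mem_Dn h3.1)]; exact h3.2
  refine Finset.sum_lt_sum (fun d _ => ?_) ⟨icls α, mem_Da_of ?_, ?_⟩
  · split_ifs with h3
    · rw [h3]; exact h2.le
    · exact le_rfl
  · rcases irow_lt α with h3 | h3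
    · exact Or.inl h3.1
    · exact Or.inr h3.1
  · rw [if_pos rfl]; exact h2

/-! ### determinants of the blocks -/

/-- a local block -/
noncomputable def blk (K : ℕ) (U x : ZMod p) (f : ℕ → ZMod p) :
    Matrix (Fin K) (Fin K) (ZMod p) :=
  Matrix.of fun α β => U * (x ^ (α : ℕ) * x ^ (β : ℕ)) * f ((α : ℕ) + (β : ℕ))

lemma blk_det {K : ℕ} {U x : ZMod p} {f : ℕ → ZMod p} (hU : U ≠ 0) (hx : x ≠ 0)
    (hd : hankS f K ≠ 0) : (blk K U x f).det ≠ 0 := by
  have h1 : blk K U x f = Matrix.of fun i j : Fin K => (U * x ^ (i : ℕ)) *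
      (Matrix.of fun i j : Fin K => f ((i : ℕ) + (j : ℕ))) i j * (x ^ (j : ℕ)) := by
    ext i j
    simp only [blk, Matrix.of_apply]
    ring
  rw [h1, det_scale]
  refine mul_ne_zero (mul_ne_zero (Finset.prod_ne_zero_iff.2 fun i _ => ?_) hd)
    (Finset.prod_ne_zero_iff.2 fun i _ => pow_ne_zero _ hx)
  exact mul_ne_zero hU (pow_ne_zero _ hx)

/-! ### the reduced matrix -/

/-- the reduced matrix -/
noncomputable def Mbar (p : ℕ) [Fact p.Prime] (h : ℕ) (VN : ℤ → ℤ → PowerSeries (ZMod p))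
    (VC : ℤ → PowerSeries (ZMod p)) : Matrix (Idx h) (Idx h) (ZMod p) :=
  Matrix.fromBlocks
    (Matrix.blockDiagonal fun c : {c // c ∈ Dn h} => blk 23 (UN p h c) (-2 * ((c : ℤ) : ZMod p))
      (mN p (VN c)))
    (Matrix.of fun x y => 0 ^ (22 - 2 * (y : ℕ)) * (KN p h (nn x.2.1 x.1 0 y) x.2.1 *
      mN p (VN x.2.1) (x.1 + 23))) 0
    (blk 12 (UC p h) 1 (mC p VC))

lemma Mbar_apply {h : ℕ} {VN : ℤ → ℤ → PowerSeries (ZMod p)} {VC : ℤ → PowerSeries (ZMod p)}
    (α β : Idx h) :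
    Mbar p h VN VC α β = if icls α = icls β then (if icls α = 0 then
      KC p h (nn (icls α) (irow α) (icls β) (irow β)) * mC p VC (irow α + irow β) else
      KN p h (nn (icls α) (irow α) (icls β) (irow β)) (icls α) *
        mN p (VN (icls α)) (irow α + irow β)) else
      if icls β = 0 then 0 ^ (22 - 2 * irow β) *
        (KN p h (nn (icls α) (irow α) (icls β) (irow β)) (icls α) *
          mN p (VN (icls α)) (irow α + 23)) else 0 := by
  rcases α with ⟨x, c⟩ | x <;> rcases β with ⟨y, d⟩ | y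
  · have hc0 : (c : ℤ) ≠ 0 := ne_zero_of_mem_Dn c.2
    have hd0 : (d : ℤ) ≠ 0 := ne_zero_of_mem_Dn d.2
    by_cases hcd : c = d
    · subst hcd
      rw [if_pos (show icls (Sum.inl (x, c)) = icls (Sum.inl (y, c)) from rfl),
        if_neg (show icls (Sum.inl (x, c)) ≠ 0 from hc0)]
      change Mbar p h VN VC (Sum.inl (x, c)) (Sum.inl (y, c)) =
        KN p h (nn (c : ℤ) x c y) c * mN p (VN c) ((x : ℕ) + y)
      rw [KN_factor]
      simp [Mbar, Matrix.blockDiagonal_apply, blk]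
    · rw [if_neg (show icls (Sum.inl (x, c)) ≠ icls (Sum.inl (y, d)) from
        fun h1 => hcd (Subtype.ext h1)), if_neg (show icls (Sum.inl (y, d)) ≠ 0 from hd0)]
      simp [Mbar, Matrix.blockDiagonal_apply, hcd]
  · have hc0 : (c : ℤ) ≠ 0 := ne_zero_of_mem_Dn c.2
    simp [Mbar, icls, irow, hc0]
  · have hc0 : (0 : ℤ) ≠ d := (ne_zero_of_mem_Dn d.2).symm
    have hd0 : (d : ℤ) ≠ 0 := ne_zero_of_mem_Dn d.2
    simp [Mbar, icls, hc0, hd0]
  · simp only [Mbar, Matrix.fromBlocks_apply₂₂, icls, irow, Sum.elim_inr]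
    simp only [if_true]
    rw [KC_factor]
    simp [blk]

lemma Mbar_det {h : ℕ} (hh : p = 2 * h + 1) (hp5 : 5 < p) {VN : ℤ → ℤ → PowerSeries (ZMod p)}
    {VC : ℤ → PowerSeries (ZMod p)} (hdN : ∀ c ∈ Dn h, hankS (mN p (VN c)) 23 ≠ 0)
    (hdC : hankS (mC p VC) 12 ≠ 0) : (Mbar p h VN VC).det ≠ 0 := by
  rw [Mbar, Matrix.det_fromBlocks_zero₂₁, Matrix.det_blockDiagonal]
  refine mul_ne_zero (Finset.prod_ne_zero_iff.2 fun c _ => ?_) ?_
  · refine blk_det (UN_ne hh hp5 c.2) ?_ (hdN c c.2)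
    exact mul_ne_zero (neg_ne_zero.2 (DIM3.two_ne hp5)) (cDn_ne hh c.2)
  · exact blk_det (UC_ne hh) one_ne_zero hdC

/-- the main step -/
lemma nonvan_aux {h : ℕ} (hh : p = 2 * h + 1) (hp20 : 20 < p) {cc : ℤ × ℤ × ℤ} {z : ℕ → ℚ}
    (hz : ∀ s, VG p 0 (z s))
    (hdN : ∀ c ∈ Dn h, hankS (mN p (VT p cc (tya h c) (tyb h c))) 23 ≠ 0)
    (hdC : hankS (mC p (fun j => VT p cc 2 2 (j + 1))) 12 ≠ 0) :
    hank (FL cc (3 * h + 2) 1 z) (23 * h + 12) ≠ 0 := by
  intro h0
  set P : Idx h → ℚ[X] := fun α => PolyN (Da h) fun d => if d = icls α then irow α else NR d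
    with hP
  have hdet := gram1 (FL cc (3 * h + 2) 1 z) (23 * h + 12) P deg_row (card_Idx h) h0
  have hsc := det_scale (Matrix.of fun α β : Idx h => FL cc (3 * h + 2) 1 z (P α * P β))
    (fun α => (p : ℚ) ^ (24 - wR (icls α) (irow α)))
    (fun β => (p : ℚ) ^ (24 - wC (icls β) (irow β)))
  rw [hdet, mul_zero, zero_mul] at hsc
  have hPQ : ∀ α β : Idx h, P α * P β =
      PolyN (Da h) (nn (icls α) (irow α) (icls β) (irow β)) := by
    intro α β
    rw [hP]
    simp only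
    rw [PolyN_mul]
    rfl
  have hred : red p 0 (Mbar p h (fun c => VT p cc (tya h c) (tyb h c))
      (fun j => VT p cc 2 2 (j + 1))).det := by
    rw [← hsc]
    refine red_det _ _ fun α β => ?_
    rw [Mbar_apply]
    simp only [Matrix.of_apply]
    rw [hPQ]
    have hR : wR (icls α) (irow α) ≤ 22 := by
      rcases irow_lt α with h1 | h1
      · rw [wR, if_pos h1.1]; omega
      · rw [wR, if_neg (ne_zero_of_mem_Dn h1.1)]; omega
    have hC : wC (icls β) (irow β) ≤ 23 := by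
      rcases irow_lt β with h1 | h1
      · rw [wC, if_pos h1.1]; omega
      · rw [wC, if_neg (ne_zero_of_mem_Dn h1.1)]; omega
    have key := entry_block (τ := 48 - wC (icls β) (irow β) - wR (icls α) (irow α))
      hh (by omega) (ω := wg cc (3 * h + 2) 1 z)
      (VN := fun c => VT p cc (tya h c) (tyb h c)) (VC := fun j => VT p cc 2 2 (j + 1))
      (fun c hc j hj i hi _ => hwN hh hp20 hz hc hj hi)
      (fun j hj i hi _ => hwC hh hp20 hz hj hi) (irow_lt α) (irow_lt β) (by omega)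
    convert key using 1
    rw [FL, mul_comm ((p : ℚ) ^ (24 - wR (icls α) (irow α))), mul_assoc, mul_comm, ← pow_add]
    congr 2
    omega
  exact Mbar_det hh (by omega) hdN hdC (red_unique hred red_zero)

lemma red_hankS {f : ℕ → ℚ} {f' : ℕ → ZMod p} (hf : ∀ n, red p (f n) (f' n)) (K : ℕ) :
    red p (hankS f K) (hankS f' K) :=
  red_det _ _ fun _ _ => hf _

omit hp in
lemma hankS_smul {R : Type*} [CommRing R] (f : ℕ → R) (x : R) (K : ℕ) :
    hankS (fun n => x * f n) K = x ^ K * hankS f K := by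
  unfold hankS
  have : (Matrix.of fun i j : Fin K => x * f ((i : ℕ) + (j : ℕ))) =
      x • (Matrix.of fun i j : Fin K => f ((i : ℕ) + (j : ℕ))) := by
    ext i j; simp
  rw [this, Matrix.det_smul, Fintype.card_fin]

lemma hank_mod_ne {f : ℕ → ℚ} {g : ℕ → ZMod p} {x : ZMod p} {K : ℕ}
    (hf : ∀ n, red p (f n) (x * g n)) (h0 : hankS f K ≠ 0)
    (hlt : (hankS f K).num.natAbs < p) : hankS g K ≠ 0 := by
  have h1 := DIM3.ne_zero_of_red (red_hankS hf K) h0 hlt
  rw [hankS_smul] at h1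
  exact fun h2 => h1 (by rw [h2, mul_zero])

end

/-- N2 -/
theorem nonVan : NonVan := by
  intro c hLD z hadm
  obtain ⟨h04, h03, h23, hC⟩ := hLD
  refine ⟨21 + (hankS (muN c 0 4) 23).num.natAbs + (hankS (muN c 0 3) 23).num.natAbs +
    (hankS (muN c 2 3) 23).num.natAbs + (hankS (muC c) 12).num.natAbs +
    ∑ s ∈ range 16, (z s).den, fun p a hp hpp hpa => ?_⟩
  have : Fact p.Prime := ⟨hp⟩
  obtain ⟨h, hh⟩ : ∃ h, p = 2 * h + 1 := by
    rcases Nat.even_or_odd' p with ⟨k, hk | hk⟩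
    · have := hp.eq_one_or_self_of_dvd 2 ⟨k, hk⟩
      omega
    · exact ⟨k, hk⟩
  have ha : a = 3 * h + 2 := by omega
  have hp20 : 20 < p := by omega
  have hz : ∀ s, VG p 0 (z s) := by
    intro s
    by_cases hs : s < 16
    · have h1 : (z s).den ≤ ∑ s ∈ range 16, (z s).den :=
        Finset.single_le_sum (f := fun s => (z s).den) (fun _ _ => Nat.zero_le _)
          (mem_range.2 hs)
      exact DIM3.VG_of_den_nv (by omega)
    · left
      exact hadm s (fun h => by omega)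
  have key := nonvan_aux (cc := c) hh hp20 hz (fun d hd => ?_) ?_
  · rw [ha]
    have : (23 * p + 1) / 2 = 23 * h + 12 := by omega
    rw [this]
    exact key
  · rcases ty_cases (h := h) d with ⟨e1, e2⟩ | ⟨e1, e2⟩ | ⟨e1, e2⟩ <;> rw [e1, e2]
    · exact hank_mod_ne (x := -1) (fun n => by
        have := red_muN (p := p) hp20 c (t := 0) (t' := 4) (by norm_num) (by norm_num) n
        rwa [neg_one_mul]) h04 (by omega)
    · exact hank_mod_ne (x := -1) (fun n => by
        have := red_muN (p := p) hp20 c (t := 0) (t' := 3) (by norm_num) (by norm_num) n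
        rwa [neg_one_mul]) h03 (by omega)
    · exact hank_mod_ne (x := -1) (fun n => by
        have := red_muN (p := p) hp20 c (t := 2) (t' := 3) (by norm_num) (by norm_num) n
        rwa [neg_one_mul]) h23 (by omega)
  · exact hank_mod_ne (x := -2) (fun n => red_muC hp20 c n) hC (by omega)

end ZT
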