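import Pool.Agent.Lib.ZT.PDefs

open Polynomial Finset Z579

namespace ZT

section
variable {p : ℕ} [hp : Fact p.Prime]

/-- image of a `p`-integral polynomial -/
lemma OC_aeval {K : ℝ} (hK : 0 ≤ K) (u : ℤ) (G : ℚ[X]) (hG : ∀ n, VG p 0 (G.coeff n)) :
    WA p K 0 (Polynomial.aeval (Z579.lin u ^ 2) G) := by
  rw [Polynomial.aeval_eq_sum_range]
  intro j
  rw [map_sum]
  refine VG.sum fun i _ => ?_
  have h2 : WA p K 0 ((Z579.lin u ^ 2) ^ i) := by
    have := ((WA.lin0 (p := p) hK u).pow 2).pow i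
    simpa using this
  have h3 := (hG i).mul (h2 j)
  rw [PowerSeries.coeff_smul]
  simpa using h3

/-- the partial fraction coefficients are integral if the class has one pole -/
lemma OC_Acoef {a : ℕ} {u : ℤ} (hone : ∀ w ∈ pc a, (p : ℤ) ∣ w - u → w = u) (i : ℕ)
    {G : ℚ[X]} (hG : ∀ n, VG p 0 (G.coeff n)) : VG p 0 (Acoef 16 0 a a u i G) := by
  rw [Acoef_apply]
  have := ((base_WA_zero (q := 16) (B := 0) (b := a) hone).mul
    (OC_aeval (p := p) le_rfl (-u) G hG)) (16 - i)
  simpa using this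

lemma OC_inv_nat {n : ℕ} (h : ¬ p ∣ n) : VG p 0 ((n : ℚ)⁻¹) := by
  right
  rw [padicValRat.inv, padicValRat.of_nat, padicValNat.eq_zero_of_not_dvd h]
  simp

lemma OC_inv_p : VG p (-1) ((p : ℚ)⁻¹) := by
  right
  rw [padicValRat.inv, padicValRat.self hp.out.one_lt]
  norm_num

lemma OC_dvd_of {n : ℤ} (h : VG p 1 (n : ℚ)) : (p : ℤ) ∣ n := by
  by_contra hn
  rcases h with h | h
  · apply hn
    have : n = 0 := by exact_mod_cast h
    rw [this]; exact dvd_zero _
  · rw [padicValRat.of_int, padicValInt.eq_zero_of_not_dvd hn] at h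
    norm_num at h

lemma OC_fac {n : ℤ} {h : ℚ} (hn : ¬ (p : ℤ) ∣ n) (hh : VG p 1 h) :
    VG p 0 ((h + n)⁻¹) := by
  have key : ¬ VG p 1 (h + n) := by
    intro h1
    apply hn
    apply OC_dvd_of
    have := h1.sub hh
    rwa [add_sub_cancel_left] at this
  unfold VG at key
  push Not at key
  right
  rw [padicValRat.inv]
  have h2 : padicValRat p (h + n) < 1 := by exact_mod_cast key.2
  have : (0 : ℤ) ≤ -padicValRat p (h + n) := by omega
  exact_mod_cast this

end

lemma OC_gam_zero (c : ℤ × ℤ × ℤ) {p m : ℕ} (hp : p.Prime) (hp5 : 5 ≤ p)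
    (hm : m = 1 ∨ m = 5) : gam c (p * m) = 0 := by
  have h2 : p % 2 ≠ 0 := by
    intro h
    have := (Nat.prime_dvd_prime_iff_eq Nat.prime_two hp).1 (Nat.dvd_of_mod_eq_zero h)
    omega
  have h3 : p % 3 ≠ 0 := by
    intro h
    have := (Nat.prime_dvd_prime_iff_eq Nat.prime_three hp).1 (Nat.dvd_of_mod_eq_zero h)
    omega
  unfold gam
  rcases hm with rfl | rfl
  · rw [if_neg (by omega), if_neg (by omega), if_neg (by omega)]
  · rw [if_neg (by omega), if_neg (by omega), if_neg (by omega)]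

/-- the terms divisible by `p` -/
lemma OC_split {p a : ℕ} {u : ℤ} (hp : p.Prime) (hp5 : 5 ≤ p) (hu0 : 0 ≤ u + a - 1)
    (hup : u + a - 1 < p) (f : ℕ → ℚ) (hf : ∀ m, m = 1 ∨ m = 5 → f (p * m) = 0) :
    ∑ k ∈ (range (6 * (u + a - 1)).toNat).filter (fun k => p ∣ k + 1), f (k + 1) =
      ∑ m ∈ mset p a u, f (p * m) := by
  have hp0 : 0 < p := hp.pos
  have h1 : (range (6 * (u + a - 1)).toNat).filter (fun k => p ∣ k + 1) =
      (((Finset.Icc 1 5 : Finset ℕ).filter fun m => ((p * m : ℕ) : ℤ) ≤ 6 * (u + a - 1)).image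
        fun m => p * m - 1) := by
    ext k
    simp only [Finset.mem_filter, Finset.mem_range, Finset.mem_image, Finset.mem_Icc]
    constructor
    · rintro ⟨hk, m, hm⟩
      refine ⟨m, ⟨⟨?_, ?_⟩, ?_⟩, ?_⟩
      · rcases Nat.eq_zero_or_pos m with h | h
        · rw [h] at hm; omega
        · exact h
      · by_contra h6
        push Not at h6
        have : p * 6 ≤ p * m := Nat.mul_le_mul_left p h6
        omega
      · rw [← hm]; omega
      · rw [← hm]; omega
    · rintro ⟨m, ⟨⟨hm1, hm5⟩, hm⟩, rfl⟩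
      have : 0 < p * m := Nat.mul_pos hp0 hm1
      refine ⟨by omega, m, by omega⟩
  rw [h1, Finset.sum_image]
  · have h2 : ∀ m ∈ (Finset.Icc 1 5 : Finset ℕ).filter
        (fun m => ((p * m : ℕ) : ℤ) ≤ 6 * (u + a - 1)), f (p * m - 1 + 1) = f (p * m) := by
      intro m hm
      rw [Finset.mem_filter, Finset.mem_Icc] at hm
      have : 0 < p * m := Nat.mul_pos hp0 hm.1.1
      congr 1; omega
    rw [Finset.sum_congr rfl h2]
    symm
    refine Finset.sum_subset ?_ ?_
    · intro m hm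
      rw [mset, Finset.mem_filter] at hm
      rw [Finset.mem_filter, Finset.mem_Icc]
      refine ⟨?_, hm.2⟩
      have := hm.1
      simp only [Finset.mem_insert, Finset.mem_singleton] at this
      omega
    · intro m hm hm'
      rw [Finset.mem_filter, Finset.mem_Icc] at hm
      apply hf
      by_contra h
      apply hm'
      rw [mset, Finset.mem_filter]
      refine ⟨?_, hm.2⟩
      simp only [Finset.mem_insert, Finset.mem_singleton]
      omega
  · intro m hm m' hm' h
    simp only [Finset.coe_filter, Set.mem_ofPred_eq, Finset.mem_Icc] at hm hm'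
    have a1 : 0 < p * m := Nat.mul_pos hp0 hm.1.1
    have a2 : 0 < p * m' := Nat.mul_pos hp0 hm'.1.1
    have h3 : p * m = p * m' := by
      simp only at h
      omega
    exact Nat.eq_of_mul_eq_mul_left hp0 h3

theorem oneCls (h : PPart) : OneCls := by
  intro c p a z u hp hp5 hz hu hone
  have := Fact.mk hp
  have hu' : 1 - (a : ℤ) ≤ u ∧ u ≤ (a : ℤ) - 1 := by simpa [pc] using hu
  have hup : u + a - 1 < p := by
    by_contra hh
    push Not at hh
    have h1 : u - p ∈ pc a := by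
      rw [pc, Finset.mem_Icc]; omega
    have h2 := hone _ h1 ⟨-1, by ring⟩
    omega
  have hu0 : 0 ≤ u + a - 1 := by omega
  -- the points
  set H : ℕ → ℚ := fun m => ((p * m : ℕ) : ℚ) / 6 with hH
  have hmm : ∀ m ∈ mset p a u, ¬ p ∣ m ∧ m ≠ 0 := by
    intro m hm
    rw [mset, Finset.mem_filter] at hm
    have := hm.1
    simp only [Finset.mem_insert, Finset.mem_singleton] at this
    refine ⟨fun hd => ?_, by omega⟩
    have := Nat.le_of_dvd (by omega) hd
    omega
  have hp6 : ¬ p ∣ 6 := by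
    intro hd
    have h7 := Nat.le_of_dvd (by norm_num) hd
    interval_cases p <;> revert hp hd <;> decide
  have hH1 : ∀ m, VG p 1 (H m) := by
    intro m
    have h1 := ((VG.of_dvd (p := p) (dvd_refl (p : ℤ))).mul (VG.nat (p := p) m)).mul
      (OC_inv_nat hp6)
    have h2 : H m = ((p : ℤ) : ℚ) * (m : ℚ) * ((6 : ℕ) : ℚ)⁻¹ := by
      rw [hH]; push_cast; ring
    rw [h2]
    exact h1.mono (by norm_num)
  have hp0 : (p : ℚ) ≠ 0 := by exact_mod_cast hp.ne_zero
  have hH0 : ∀ m ∈ mset p a u, H m ≠ 0 := by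
    intro m hm
    have h1 : (m : ℚ) ≠ 0 := by exact_mod_cast (hmm m hm).2
    rw [hH]
    push_cast
    positivity
  have hHi : ∀ m ∈ mset p a u, VG p (-1) (H m)⁻¹ := by
    intro m hm
    have h1 := ((VG.nat (p := p) 6).mul (OC_inv_p (p := p))).mul (OC_inv_nat (hmm m hm).1)
    have h2 : (H m)⁻¹ = ((6 : ℕ) : ℚ) * (p : ℚ)⁻¹ * (m : ℚ)⁻¹ := by
      rw [hH]; push_cast
      have h1 : (m : ℚ) ≠ 0 := by exact_mod_cast (hmm m hm).2
      field_simp
    rw [h2]
    exact h1.mono (by norm_num)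
  refine ⟨fun m => -(gam c (p * m) : ℚ) * (2 * (H m - u)) *
    ((H m)⁻¹ * ∏ w ∈ (pc a).erase u, (H m + ((w - u : ℤ) : ℚ))⁻¹) ^ 16, ?_, ?_⟩
  · intro m hm
    have h1 : VG p 0 (∏ w ∈ (pc a).erase u, (H m + ((w - u : ℤ) : ℚ))⁻¹) := by
      have := VG.prod (p := p) (s := (pc a).erase u)
        (f := fun w => (H m + ((w - u : ℤ) : ℚ))⁻¹) (c := fun _ => 0) (by
          intro w hw
          rw [Finset.mem_erase] at hw
          exact OC_fac (fun hd => hw.1 (hone w hw.2 hd)) (hH1 m))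
      simpa using this
    have h2 := ((hHi m hm).mul h1).pow 16
    have h3 : VG p 0 (2 * (H m - u)) := by
      have := (VG.int (p := p) 2).mul (((hH1 m).mono zero_le_one).sub (VG.int (p := p) u))
      simpa using this
    have h4 := ((VG.int (p := p) (gam c (p * m))).neg.mul h3).mul h2
    exact h4.mono (by norm_num)
  · intro G hG
    have hA := fun i => OC_Acoef (p := p) hone i hG
    -- split of the harmonic sums
    have hsplit : ∀ i, Hg c i (6 * (u + a - 1)).toNat =
        ∑ m ∈ mset p a u, (gam c (p * m) : ℚ) * ((H m)⁻¹) ^ i +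
        ∑ k ∈ (range (6 * (u + a - 1)).toNat).filter (fun k => ¬ p ∣ k + 1),
          (gam c (k + 1) : ℚ) * (6 / ((k : ℚ) + 1)) ^ i := by
      intro i
      rw [Hg, ← Finset.sum_filter_add_sum_filter_not _ (fun k => p ∣ k + 1)]
      congr 1
      have h1 := OC_split hp hp5 hu0 hup (fun n => (gam c n : ℚ) * (6 / (n : ℚ)) ^ i) (by
        intro m hm
        rw [OC_gam_zero c hp hp5 hm]; simp)
      refine Eq.trans ?_ (h1.trans ?_)
      · refine Finset.sum_congr rfl fun k _ => ?_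
        push_cast; rfl
      · refine Finset.sum_congr rfl fun m _ => ?_
        rw [hH]
        simp only [inv_div]
    have hint : ∀ i, VG p 0 (∑ k ∈ (range (6 * (u + a - 1)).toNat).filter (fun k => ¬ p ∣ k + 1),
          (gam c (k + 1) : ℚ) * (6 / ((k : ℚ) + 1)) ^ i) := by
      intro i
      refine VG.sum fun k hk => ?_
      rw [Finset.mem_filter] at hk
      have h1 := ((VG.nat (p := p) 6).mul (OC_inv_nat hk.2)).pow i
      have h2 := (VG.int (p := p) (gam c (k + 1))).mul h1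
      have h3 : (gam c (k + 1) : ℚ) * (6 / ((k : ℚ) + 1)) ^ i =
        (gam c (k + 1) : ℚ) * (((6 : ℕ) : ℚ) * ((k + 1 : ℕ) : ℚ)⁻¹) ^ i := by
        push_cast; rw [div_eq_mul_inv]
      rw [h3]
      exact h2.mono (by norm_num)
    -- principal parts
    have hPP : ∀ m ∈ mset p a u, VG p 0 (∑ i ∈ Finset.Icc 1 16, Acoef 16 0 a a u i G / H m ^ i -
        2 * (H m - u) * G.eval ((H m - u) ^ 2) /
          (H m * ∏ w ∈ (pc a).erase u, (H m - u + w)) ^ 16) := fun m hm =>
      h p a u (H m) G hp hu (hH0 m hm) (hH1 m) hone hG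
    have hfin : VG p 0 (∑ i ∈ Finset.Icc 1 16, (z i -
        ∑ k ∈ (range (6 * (u + a - 1)).toNat).filter (fun k => ¬ p ∣ k + 1),
          (gam c (k + 1) : ℚ) * (6 / ((k : ℚ) + 1)) ^ i) * Acoef 16 0 a a u i G -
        ∑ m ∈ mset p a u, (gam c (p * m) : ℚ) *
          (∑ i ∈ Finset.Icc 1 16, Acoef 16 0 a a u i G / H m ^ i -
        2 * (H m - u) * G.eval ((H m - u) ^ 2) /
          (H m * ∏ w ∈ (pc a).erase u, (H m - u + w)) ^ 16)) := by
      refine VG.sub (VG.sum fun i _ => ?_) (VG.sum fun m hm => ?_)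
      · have := ((hz i).sub (hint i)).mul (hA i)
        simpa using this
      · have := (VG.int (p := p) (gam c (p * m))).mul (hPP m hm)
        simpa using this
    convert hfin using 1
    have e1 : ∀ i ∈ Finset.Icc 1 16, wg c a 1 z u i * Acoef 16 0 a a u i G =
        (z i - ∑ k ∈ (range (6 * (u + a - 1)).toNat).filter (fun k => ¬ p ∣ k + 1),
          (gam c (k + 1) : ℚ) * (6 / ((k : ℚ) + 1)) ^ i) * Acoef 16 0 a a u i G -
        ∑ m ∈ mset p a u, (gam c (p * m) : ℚ) * (Acoef 16 0 a a u i G / H m ^ i) := by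
      intro i _
      rw [wg, hsplit i]
      have : ∑ m ∈ mset p a u, (gam c (p * m) : ℚ) * (Acoef 16 0 a a u i G / H m ^ i) =
          (∑ m ∈ mset p a u, (gam c (p * m) : ℚ) * ((H m)⁻¹) ^ i) * Acoef 16 0 a a u i G := by
        rw [Finset.sum_mul]
        refine Finset.sum_congr rfl fun m _ => ?_
        rw [inv_pow]; ring
      rw [this]
      push_cast
      ring
    rw [Finset.sum_congr rfl e1, Finset.sum_sub_distrib, Finset.sum_comm]
    have e2 : ∀ m ∈ mset p a u, (-(gam c (p * m) : ℚ) * (2 * (H m - u)) *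
        ((H m)⁻¹ * ∏ w ∈ (pc a).erase u, (H m + ((w - u : ℤ) : ℚ))⁻¹) ^ 16) *
          G.eval ((H m - u) ^ 2) = -((gam c (p * m) : ℚ) *
        (2 * (H m - u) * G.eval ((H m - u) ^ 2) /
          (H m * ∏ w ∈ (pc a).erase u, (H m - u + w)) ^ 16)) := by
      intro m _
      have e3 : (H m)⁻¹ * ∏ w ∈ (pc a).erase u, (H m + ((w - u : ℤ) : ℚ))⁻¹ =
          (H m * ∏ w ∈ (pc a).erase u, (H m - u + w))⁻¹ := by
        rw [mul_inv, ← Finset.prod_inv_distrib]
        congr 1
        refine Finset.prod_congr rfl fun w _ => ?_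
        congr 1; push_cast; ring
      rw [e3, inv_pow, div_eq_mul_inv]
      ring
    have e4 : ∑ m ∈ mset p a u, (-(gam c (p * m) : ℚ) * (2 * (H m - u)) *
        ((H m)⁻¹ * ∏ w ∈ (pc a).erase u, (H m + ((w - u : ℤ) : ℚ))⁻¹) ^ 16) *
          G.eval ((((p * m : ℕ) : ℚ) / 6 - u) ^ 2) = ∑ m ∈ mset p a u, -((gam c (p * m) : ℚ) *
        (2 * (H m - u) * G.eval ((H m - u) ^ 2) /
          (H m * ∏ w ∈ (pc a).erase u, (H m - u + w)) ^ 16)) := Finset.sum_congr rfl e2
    rw [e4]
    simp only [mul_sub, Finset.sum_sub_distrib, Finset.sum_neg_distrib, Finset.mul_sum]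
    ring

end ZT


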