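import Pool.Agent.Lib.ZT.PDefs

open Polynomial Finset Z579

namespace ZT

/-- polynomials with `p`-integral coefficients -/
def PI (p : ℕ) (P : ℚ[X]) : Prop := ∀ n, VG p 0 (P.coeff n)

section
variable {p : ℕ} [hp : Fact p.Prime]

lemma PI.add {P Q : ℚ[X]} (h1 : PI p P) (h2 : PI p Q) : PI p (P + Q) := fun n => by
  rw [coeff_add]; exact (h1 n).add (h2 n)

lemma PI.sub {P Q : ℚ[X]} (h1 : PI p P) (h2 : PI p Q) : PI p (P - Q) := fun n => by
  rw [coeff_sub]; exact (h1 n).sub (h2 n)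

lemma PI.mul {P Q : ℚ[X]} (h1 : PI p P) (h2 : PI p Q) : PI p (P * Q) := fun n => by
  rw [coeff_mul]
  refine VG.sum fun x _ => ?_
  simpa using (h1 x.1).mul (h2 x.2)

lemma PI.const {x : ℚ} (hx : VG p 0 x) : PI p (Polynomial.C x) := fun n => by
  rw [coeff_C]
  split_ifs
  · exact hx
  · exact VG.zero' _ _

lemma PI.one : PI p 1 := by
  have := PI.const (p := p) (VG.one (p := p))
  simpa using this

lemma PI.X : PI p (Polynomial.X : ℚ[X]) := fun n => by
  rw [coeff_X]
  split_ifs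
  · exact VG.one
  · exact VG.zero' _ _

lemma PI.pow {P : ℚ[X]} (h : PI p P) (n : ℕ) : PI p (P ^ n) := by
  induction n with
  | zero => rw [pow_zero]; exact PI.one
  | succ n ih => rw [pow_succ]; exact ih.mul h

lemma PI.sum {ι : Type*} {s : Finset ι} {f : ι → ℚ[X]} (h : ∀ i ∈ s, PI p (f i)) :
    PI p (∑ i ∈ s, f i) := fun n => by
  rw [finsetSum_coeff]
  exact VG.sum fun i hi => h i hi n

lemma PI.prod {ι : Type*} {s : Finset ι} {f : ι → ℚ[X]} (h : ∀ i ∈ s, PI p (f i)) :
    PI p (∏ i ∈ s, f i) := by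
  classical
  induction s using Finset.induction_on with
  | empty => rw [Finset.prod_empty]; exact PI.one
  | insert i s hi ih =>
    rw [Finset.prod_insert hi]
    exact (h i (Finset.mem_insert_self i s)).mul
      (ih fun j hj => h j (Finset.mem_insert_of_mem hj))

lemma PI.comp {P Q : ℚ[X]} (h1 : PI p P) (h2 : PI p Q) : PI p (P.comp Q) := by
  rw [comp_eq_sum_left, Polynomial.sum]
  exact PI.sum fun n _ => (PI.const (h1 n)).mul (h2.pow n)

lemma VG.pow0 {x : ℚ} (hx : VG p 0 x) (n : ℕ) : VG p 0 (x ^ n) := by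
  simpa using hx.pow n

lemma PI.eval {P : ℚ[X]} (h : PI p P) {x : ℚ} (hx : VG p 0 x) : VG p 0 (P.eval x) := by
  rw [eval_eq_sum_range]
  refine VG.sum fun i _ => ?_
  simpa using (h i).mul (VG.pow0 hx i)

/-- units -/
lemma unit_add {h : ℚ} (hh : VG p 1 h) {n : ℤ} (hn : ¬ (p : ℤ) ∣ n) :
    h + n ≠ 0 ∧ VG p 0 (h + n)⁻¹ := by
  have hn0 : n ≠ 0 := by rintro rfl; exact hn (dvd_zero _)
  have hnq : (n : ℚ) ≠ 0 := by exact_mod_cast hn0
  have hv : padicValRat p (n : ℚ) = 0 := by
    rw [padicValRat.of_int, padicValInt.eq_zero_of_not_dvd hn]; rfl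
  rcases hh with h0 | h0
  · subst h0
    rw [zero_add]
    refine ⟨hnq, Or.inr ?_⟩
    rw [padicValRat.inv, hv]; simp
  · have h1 : (1 : ℤ) ≤ padicValRat p h := by exact_mod_cast h0
    have hne : h + n ≠ 0 := by
      intro h2
      have h3 : h = -(n : ℚ) := by linarith
      rw [h3, padicValRat.neg, hv] at h1
      omega
    have hh0 : h ≠ 0 := by
      rintro rfl
      simp at h1
    refine ⟨hne, Or.inr ?_⟩
    have h4 : padicValRat p ((n : ℚ) + h) = padicValRat p (n : ℚ) :=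
      padicValRat.add_eq_of_lt (by rwa [add_comm]) hnq hh0 (by rw [hv]; omega)
    rw [padicValRat.inv, add_comm, h4, hv]; simp

end

/-- the polynomial `X + c` -/
noncomputable def plin (c : ℤ) : ℚ[X] := Polynomial.X + Polynomial.C (c : ℚ)

lemma plin_coe (c : ℤ) : ((plin c : ℚ[X]) : PowerSeries ℚ) = lin c := by
  rw [plin, lin, Polynomial.coe_add, Polynomial.coe_X, Polynomial.coe_C]

lemma coe_comp (G Q : ℚ[X]) :
    ((G.comp Q : ℚ[X]) : PowerSeries ℚ) = Polynomial.aeval (Q : PowerSeries ℚ) G := by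
  rw [Polynomial.aeval_def, Polynomial.comp, Polynomial.eval₂_eq_sum_range,
    Polynomial.eval₂_eq_sum_range]
  rw [← Polynomial.coeToPowerSeries.ringHom_apply, map_sum]
  refine Finset.sum_congr rfl fun i _ => ?_
  rw [map_mul, map_pow, Polynomial.coeToPowerSeries.ringHom_apply,
    Polynomial.coeToPowerSeries.ringHom_apply, Polynomial.coe_C]
  rfl

lemma coe_prod' {ι : Type*} (s : Finset ι) (f : ι → ℚ[X]) :
    ((∏ i ∈ s, f i : ℚ[X]) : PowerSeries ℚ) = ∏ i ∈ s, (f i : PowerSeries ℚ) := by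
  rw [← Polynomial.coeToPowerSeries.ringHom_apply, map_prod]
  rfl

/-- numerator -/
noncomputable def numP (u : ℤ) (G : ℚ[X]) : ℚ[X] :=
  2 * plin (-u) * G.comp (plin (-u) ^ 2)

/-- denominator -/
noncomputable def denP (a : ℕ) (u : ℤ) : ℚ[X] := (∏ w ∈ (pc a).erase u, plin (w - u)) ^ 16

lemma lin_prod_ne {a : ℕ} {u : ℤ} :
    PowerSeries.constantCoeff (∏ w ∈ (pc a).erase u, lin (w - u)) ≠ 0 := by
  rw [map_prod]
  refine Finset.prod_ne_zero_iff.2 fun w hw => ?_
  have h1 : w ≠ u := Finset.ne_of_mem_erase hw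
  have h2 : ((w - u : ℤ) : ℚ) ≠ 0 := by
    exact_mod_cast sub_ne_zero.2 h1
  rw [lin, map_add, PowerSeries.constantCoeff_X, PowerSeries.constantCoeff_C, zero_add]
  exact h2

/-- `Num = Den * F` -/
lemma num_eq (a : ℕ) (u : ℤ) (G : ℚ[X]) :
    ((numP u G : ℚ[X]) : PowerSeries ℚ) = (denP a u : PowerSeries ℚ) *
      (base 16 0 a a u * Polynomial.aeval (lin (-u) ^ 2) G) := by
  have h2 : (2 : ℚ[X]) = Polynomial.C 2 := rfl
  rw [numP, denP, base, Polynomial.coe_mul, Polynomial.coe_mul, coe_comp, Polynomial.coe_pow,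
    plin_coe, Polynomial.coe_pow, coe_prod', h2, Polynomial.coe_C]
  simp only [plin_coe]
  have h3 := PowerSeries.mul_inv_cancel _ (lin_prod_ne (a := a) (u := u))
  have h4 : PowerSeries.C (2 : ℚ) = 2 := map_ofNat _ 2
  rw [h4]
  set D := ∏ w ∈ (pc a).erase u, lin (w - u)
  have h5 : D ^ 16 * D⁻¹ ^ 16 = 1 := by rw [← mul_pow, h3, one_pow]
  linear_combination (-(2 * lin (-u) * Polynomial.aeval (lin (-u) ^ 2) G)) * h5

theorem pPart : PPart := by
  intro p a u h G hp hu hh0 hh hone hG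
  have : Fact p.Prime := ⟨hp⟩
  have hh' : VG p 0 h := hh.mono zero_le_one
  set F : PowerSeries ℚ := base 16 0 a a u * Polynomial.aeval (lin (-u) ^ 2) G with hF
  have hint : ∀ j, VG p 0 (PowerSeries.coeff j F) := by
    intro j
    have h1 := base_WA_zero (p := p) (q := 16) (B := 0) (b := a) hone
    have h2 : WA p 0 0 (Polynomial.aeval (lin (-u) ^ 2) G) := by
      have h3 : Polynomial.aeval (lin (-u) ^ 2) G = ((G.comp (plin (-u) ^ 2) : ℚ[X]) : PowerSeries ℚ) := by
        rw [coe_comp, Polynomial.coe_pow, plin_coe]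
      rw [h3]
      intro j
      rw [Polynomial.coeff_coe]
      have h4 : PI p (G.comp (plin (-u) ^ 2)) :=
        PI.comp hG ((PI.X.add (PI.const (VG.int _))).pow 2)
      simpa using h4 j
    simpa using (h1.mul h2) j
  set T : ℚ[X] := PowerSeries.trunc 16 F with hT
  have hTI : PI p T := by
    intro n
    rw [hT, PowerSeries.coeff_trunc]
    split_ifs
    · exact hint n
    · exact VG.zero' _ _
  have hNI : PI p (numP u G) := by
    have h1 : PI p (plin (-u)) := PI.X.add (PI.const (VG.int _))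
    have h2 : PI p (2 : ℚ[X]) := by
      have h3 : (2 : ℚ[X]) = Polynomial.C ((2 : ℤ) : ℚ) := by push_cast; rfl
      rw [h3]
      exact PI.const (p := p) (VG.int (p := p) 2)
    exact (h2.mul h1).mul (PI.comp hG (h1.pow 2))
  have hDI : PI p (denP a u) :=
    (PI.prod fun w _ => PI.X.add (PI.const (VG.int _))).pow 16
  set E : ℚ[X] := numP u G - denP a u * T with hE
  have hEI : PI p E := hNI.sub (hDI.mul hTI)
  have hdvd : Polynomial.X ^ 16 ∣ E := by
    rw [Polynomial.X_pow_dvd_iff]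
    intro d hd
    have h1 : E.coeff d = PowerSeries.coeff d ((E : ℚ[X]) : PowerSeries ℚ) :=
      (Polynomial.coeff_coe _ _).symm
    rw [h1, hE, Polynomial.coe_sub, Polynomial.coe_mul, num_eq a u G, ← hF, ← mul_sub,
      PowerSeries.coeff_mul]
    refine Finset.sum_eq_zero fun x hx => ?_
    have hx' : x.1 + x.2 = d := Finset.HasAntidiagonal.mem_antidiagonal.1 hx
    rw [map_sub, Polynomial.coeff_coe T, hT, PowerSeries.coeff_trunc, if_pos (by omega), sub_self,
      mul_zero]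
  obtain ⟨Q, hQ⟩ := hdvd
  have hQI : PI p Q := by
    intro n
    have := hEI (n + 16)
    rwa [hQ, Polynomial.coeff_X_pow_mul] at this
  -- the units
  have hfac : ∀ w ∈ (pc a).erase u, (h - u + w) ≠ 0 ∧ VG p 0 (h - u + w)⁻¹ := by
    intro w hw
    rw [Finset.mem_erase] at hw
    have := unit_add hh (n := w - u) fun hd => hw.1 (hone w hw.2 hd)
    have h1 : h + ((w - u : ℤ) : ℚ) = h - u + w := by push_cast; ring
    rwa [h1] at this
  set D : ℚ := ∏ w ∈ (pc a).erase u, (h - u + w) with hD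
  have hD0 : D ≠ 0 := Finset.prod_ne_zero_iff.2 fun w hw => (hfac w hw).1
  have hDV : VG p 0 D⁻¹ := by
    rw [hD, ← Finset.prod_inv_distrib]
    have := VG.prod (p := p) (s := (pc a).erase u) (f := fun w => (h - u + w : ℚ)⁻¹)
      (c := fun _ => 0) fun w hw => (hfac w hw).2
    simpa using this
  have hden : (denP a u).eval h = D ^ 16 := by
    rw [denP, eval_pow, eval_prod, hD]
    congr 1
    refine Finset.prod_congr rfl fun w _ => ?_
    rw [plin, eval_add, eval_X, eval_C]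
    push_cast; ring
  have hnum : (numP u G).eval h = 2 * (h - u) * G.eval ((h - u) ^ 2) := by
    rw [numP, eval_mul, eval_mul, eval_comp, eval_pow, plin, eval_add, eval_X, eval_C]
    have h2 : (2 : ℚ[X]).eval h = 2 := by
      have : (2 : ℚ[X]) = Polynomial.C 2 := rfl
      rw [this, eval_C]
    rw [h2]
    push_cast
    rw [← sub_eq_add_neg]
  have hTe : T.eval h = ∑ j ∈ range 16, PowerSeries.coeff j F * h ^ j := by
    have h1 : T.natDegree < 16 := by
      rw [hT]; exact PowerSeries.natDegree_trunc_lt F 15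
    rw [Polynomial.eval_eq_sum_range' h1]
    refine Finset.sum_congr rfl fun j hj => ?_
    rw [hT, PowerSeries.coeff_trunc, if_pos (Finset.mem_range.1 hj)]
  have hsum : ∑ i ∈ Finset.Icc 1 16, Acoef 16 0 a a u i G / h ^ i = T.eval h / h ^ 16 := by
    rw [hTe, Finset.sum_div]
    refine Finset.sum_bij (fun i _ => 16 - i) ?_ ?_ ?_ ?_
    · intro i hi
      rw [Finset.mem_Icc] at hi
      rw [Finset.mem_range]; omega
    · intro i hi j hj hij
      rw [Finset.mem_Icc] at hi hj
      omega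
    · intro j hj
      rw [Finset.mem_range] at hj
      exact ⟨16 - j, by rw [Finset.mem_Icc]; omega, by omega⟩
    · intro i hi
      rw [Finset.mem_Icc] at hi
      rw [Acoef_apply, ← hF, div_eq_div_iff (pow_ne_zero _ hh0) (pow_ne_zero _ hh0), mul_assoc,
        ← pow_add]
      congr 2; omega
  have hEe : E.eval h = h ^ 16 * Q.eval h := by
    rw [hQ, eval_mul, eval_pow, eval_X]
  have hEe' : E.eval h = 2 * (h - u) * G.eval ((h - u) ^ 2) - D ^ 16 * T.eval h := by
    rw [hE, eval_sub, eval_mul, hnum, hden]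
  have hres : ∑ i ∈ Finset.Icc 1 16, Acoef 16 0 a a u i G / h ^ i -
      2 * (h - u) * G.eval ((h - u) ^ 2) / (h * D) ^ 16 = -(Q.eval h * D⁻¹ ^ 16) := by
    rw [hsum]
    have h16 : h ^ 16 ≠ 0 := pow_ne_zero _ hh0
    have hD16 : D ^ 16 ≠ 0 := pow_ne_zero _ hD0
    have key : 2 * (h - u) * G.eval ((h - u) ^ 2) = D ^ 16 * T.eval h + h ^ 16 * Q.eval h := by
      linarith
    rw [key, mul_pow, inv_pow]
    field_simp
    ring
  rw [hres]
  refine VG.neg ?_
  simpa using (hQI.eval hh').mul (VG.pow0 hDV 16)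

end ZT
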