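import Pool.Agent.Lib.ZT.Defs
import Pool.Agent.Lib.Z579.M9g
import Pool.Agent.Lib.DIM3.MertEM

/-!
# `T2(15)`: the `p`-adic total
-/

open Filter Topology Finset MeasureTheory Polynomial Z579 Z579.EM

namespace ZT

/-- upper bound for `32 a K - 2 K ^ 2` -/
private noncomputable def EA (a : ℕ) : ℝ := 1150 / 9 * (a : ℝ) ^ 2

private lemma EA_nonneg (a : ℕ) : 0 ≤ EA a := by unfold EA; positivity

/-- pointwise bound for `p ≤ a` -/
private lemma point_small (C : ℝ) (hC : 0 ≤ C) (a K : ℕ) (ha : 1 ≤ a) (hK : 3 * K ≤ 23 * a) (E : ℝ)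
    (hE : E ≤ EA a) (b : ℝ) (p : ℕ) (hp : p.Prime) (hpa : p ≤ a)
    (h1 : p ^ 2 < 12 * a → b ≤ E / (p - 1) + C * (1 + Nat.log p (2 * (a + a + K))) * K)
    (h2 : 12 * a ≤ p ^ 2 → b ≤ K + E / p + 8 * p + 1 / 8 * (4 * K / p + 16) ^ 2) :
    b * Real.log p ≤ EA a * (Real.log p / (p - 1)) + 23 / 3 * a * Real.log p +
      8 * (p * Real.log p) +
      (if p ≤ Nat.sqrt (12 * a) then 2 * C * (23 / 3 * a) * Real.log (20 * a) else 0) +
      (2 * (23 / 3 * a) ^ 2 / √(12 * (a : ℝ)) + 16 * (23 / 3 * a)) * (Real.log p / (p - 1)) +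
      32 * Real.log p := by
  have hK' : 3 * (K : ℝ) ≤ 23 * a := by exact_mod_cast hK
  have hKe : (K : ℝ) ≤ 23 / 3 * a := by linarith
  have har : (1 : ℝ) ≤ a := by exact_mod_cast ha
  have ha0 : (0 : ℝ) < a := by linarith
  have hK0 : (0 : ℝ) ≤ K := Nat.cast_nonneg K
  have hp2 : (2 : ℝ) ≤ p := by exact_mod_cast hp.two_le
  have hp0 : (0 : ℝ) < p := by linarith
  have hp1 : (0 : ℝ) < p - 1 := by linarith
  have hlp : 0 ≤ Real.log p := Real.log_natCast_nonneg p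
  have hEA := EA_nonneg a
  set X := 2 * (a + a + K) with hX
  have hXr : (X : ℝ) ≤ 20 * a := by
    rw [hX]; push_cast
    linarith
  have hX0 : (0 : ℝ) < X := by
    have : 0 < X := by omega
    exact_mod_cast this
  have hlogX : Real.log X ≤ Real.log (20 * a) := Real.log_le_log hX0 hXr
  have hlogp : Real.log p ≤ Real.log (20 * a) := by
    apply Real.log_le_log hp0
    have : (p : ℝ) ≤ a := by exact_mod_cast hpa
    linarith
  have hL0 : 0 ≤ Real.log (20 * a) := hlp.trans hlogp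
  have q1 : 0 ≤ 8 * (p * Real.log p) := by positivity
  have q2 : 0 ≤ 23 / 3 * a * Real.log p := by positivity
  have q3 : 0 ≤ (2 * (23 / 3 * (a : ℝ)) ^ 2 / √(12 * (a : ℝ)) + 16 * (23 / 3 * a)) *
      (Real.log p / (p - 1)) := by positivity
  have q4 : 0 ≤ 32 * Real.log p := by positivity
  have hEdiv : E / (p - 1) * Real.log p ≤ EA a * (Real.log p / (p - 1)) := by
    have : E / (p - 1) * Real.log p = E * (Real.log p / (p - 1)) := by ring
    rw [this]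
    exact mul_le_mul_of_nonneg_right hE (by positivity)
  by_cases hc : p ^ 2 < 12 * a
  · have hb := h1 hc
    have hsq : p ≤ Nat.sqrt (12 * a) := by
      rw [Nat.le_sqrt]; nlinarith
    rw [if_pos hsq]
    have hXne : X ≠ 0 := by omega
    have hlog : (Nat.log p X : ℝ) * Real.log p ≤ Real.log (X : ℝ) := by
      rw [← Real.log_pow]
      refine Real.log_le_log (pow_pos hp0 _) ?_
      exact_mod_cast Nat.pow_log_le_self p hXne
    have hm := mul_le_mul_of_nonneg_right hb hlp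
    have e1 : (E / (p - 1) + C * (1 + (Nat.log p X : ℝ)) * K) * Real.log p =
        E / (p - 1) * Real.log p +
          C * K * (Real.log p + (Nat.log p X : ℝ) * Real.log p) := by ring
    rw [e1] at hm
    have e2 : C * K * (Real.log p + (Nat.log p X : ℝ) * Real.log p) ≤
        C * (23 / 3 * a) * (2 * Real.log (20 * a)) := by
      have hn : 0 ≤ (Nat.log p X : ℝ) * Real.log p := by positivity
      refine mul_le_mul (mul_le_mul_of_nonneg_left hKe hC) (by linarith) (by linarith)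
        (by positivity)
    have e4 : 2 * C * (23 / 3 * a) * Real.log (20 * a) =
        C * (23 / 3 * a) * (2 * Real.log (20 * a)) := by ring
    rw [e4]
    linarith
  · push Not at hc
    have hb := h2 hc
    have q5 : 0 ≤ (if p ≤ Nat.sqrt (12 * a) then
        2 * C * (23 / 3 * (a : ℝ)) * Real.log (20 * a) else 0) := by
      split_ifs
      · positivity
      · exact le_rfl
    have hm := mul_le_mul_of_nonneg_right hb hlp
    have hs0 : 0 < √(12 * (a : ℝ)) := Real.sqrt_pos.mpr (by positivity)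
    have hsp : √(12 * (a : ℝ)) ≤ p := by
      rw [Real.sqrt_le_left hp0.le]
      exact_mod_cast hc
    have hK2 : (K : ℝ) ^ 2 ≤ (23 / 3 * a) ^ 2 := pow_le_pow_left₀ hK0 hKe 2
    have e1 : 1 / 8 * (4 * (K : ℝ) / p + 16) ^ 2 =
        2 * (K : ℝ) ^ 2 / (p : ℝ) ^ 2 + 16 * K / p + 32 := by
      field_simp
      ring
    have e3 : 2 * (K : ℝ) ^ 2 / (p : ℝ) ^ 2 * Real.log p ≤
        2 * (23 / 3 * (a : ℝ)) ^ 2 / √(12 * (a : ℝ)) * (Real.log p / (p - 1)) := by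
      rw [div_mul_div_comm, div_mul_eq_mul_div]
      apply div_le_div₀ (by positivity) _ (by positivity) _
      · exact mul_le_mul_of_nonneg_right (by linarith) hlp
      · nlinarith
    have e3' : 16 * (K : ℝ) / p * Real.log p ≤
        16 * (23 / 3 * (a : ℝ)) * (Real.log p / (p - 1)) := by
      rw [← mul_div_assoc, div_mul_eq_mul_div]
      apply div_le_div₀ (by positivity) _ (by positivity) (by linarith)
      exact mul_le_mul_of_nonneg_right (by linarith) hlp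
    have e4 : E / p * Real.log p ≤ EA a * (Real.log p / (p - 1)) := by
      have h3 : E / p * Real.log p ≤ EA a / p * Real.log p :=
        mul_le_mul_of_nonneg_right (div_le_div_of_nonneg_right hE hp0.le) hlp
      have h4 : EA a / p * Real.log p ≤ EA a / (p - 1) * Real.log p :=
        mul_le_mul_of_nonneg_right (div_le_div_of_nonneg_left hEA hp1 (by linarith)) hlp
      have h5 : EA a / (p - 1) * Real.log p = EA a * (Real.log p / (p - 1)) := by ring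
      linarith
    have e6 : (K : ℝ) * Real.log p ≤ 23 / 3 * a * Real.log p :=
      mul_le_mul_of_nonneg_right hKe hlp
    have e9 : (K + E / p + 8 * p + 1 / 8 * (4 * (K : ℝ) / p + 16) ^ 2) * Real.log p =
        K * Real.log p + E / p * Real.log p + 8 * (p * Real.log p) +
        (2 * (K : ℝ) ^ 2 / (p : ℝ) ^ 2 * Real.log p + 16 * K / p * Real.log p +
          32 * Real.log p) := by
      rw [e1]
      ring
    rw [e9] at hm
    linarith

/-- the error term -/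
private noncomputable def errA (C c : ℝ) (a : ℕ) : ℝ :=
  Nat.sqrt (12 * a) * (2 * C * (23 / 3 * a) * Real.log (20 * a)) +
  (2 * (23 / 3 * (a : ℝ)) ^ 2 / √(12 * (a : ℝ)) + 16 * (23 / 3 * a)) *
    (Real.log a + (|c| + 1)) + 32 * Chebyshev.theta a

private lemma tendsto_errA (C c : ℝ) (hC : 0 ≤ C) :
    Tendsto (fun a : ℕ => errA C c a / (a : ℝ) ^ 2) atTop (𝓝 0) := by
  have h1 : Tendsto (fun a : ℕ => (4 * (2 * C * (23 / 3))) *
      (Real.log (20 * a) / √(a : ℝ))) atTop (𝓝 ((4 * (2 * C * (23 / 3))) * 0)) :=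
    (tendsto_logK 20 (by norm_num)).const_mul _
  have hl := tendsto_logK 1 (by norm_num)
  simp only [one_mul] at hl
  have h2 : Tendsto (fun a : ℕ => (2 * (23 / 3) ^ 2 : ℝ) * (Real.log a / √(a : ℝ) +
      (|c| + 1) * (√(a : ℝ))⁻¹)) atTop (𝓝 ((2 * (23 / 3) ^ 2 : ℝ) * (0 + (|c| + 1) * 0))) :=
    (hl.add (tendsto_inv_sqrtk.const_mul _)).const_mul _
  have h3 : Tendsto (fun a : ℕ => (16 * (23 / 3) : ℝ) * (Real.log a / √(a : ℝ) * (√(a : ℝ))⁻¹ +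
      (|c| + 1) * ((a : ℝ))⁻¹)) atTop (𝓝 ((16 * (23 / 3) : ℝ) * (0 * 0 + (|c| + 1) * 0))) :=
    ((hl.mul tendsto_inv_sqrtk).add (tendsto_invk.const_mul _)).const_mul _
  have h4 : Tendsto (fun a : ℕ => (32 : ℝ) *
      (Chebyshev.theta a / a * ((a : ℝ))⁻¹)) atTop (𝓝 ((32 : ℝ) * (1 * 0))) :=
    ((PNT.theta_tendsto.comp (tendsto_natCast_atTop_atTop (R := ℝ))).mul tendsto_invk).const_mul _
  have h5 := ((h1.add h2).add h3).add h4
  simp only [mul_zero, add_zero] at h5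
  refine squeeze_zero' ?_ ?_ h5
  · filter_upwards [eventually_ge_atTop 1] with a ha
    have ha' : (1 : ℝ) ≤ a := by exact_mod_cast ha
    have l1 : 0 ≤ Real.log (20 * a) := Real.log_nonneg (by linarith)
    have l2 : 0 ≤ Real.log a := Real.log_natCast_nonneg a
    have l3 := Chebyshev.theta_nonneg (a : ℝ)
    unfold errA
    positivity
  · filter_upwards [eventually_ge_atTop 1] with a ha
    have ha' : (1 : ℝ) ≤ a := by exact_mod_cast ha
    have ha0 : (0 : ℝ) < a := by linarith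
    have hs : 0 < √(a : ℝ) := Real.sqrt_pos.mpr ha0
    have hsq : √(a : ℝ) * √(a : ℝ) = a := Real.mul_self_sqrt ha0.le
    have l1 : 0 ≤ Real.log (20 * a) := Real.log_nonneg (by linarith)
    have l2 : 0 ≤ Real.log a := Real.log_natCast_nonneg a
    have hsqrt : (Nat.sqrt (12 * a) : ℝ) ≤ 4 * √(a : ℝ) := by
      have e : (4 : ℝ) * √(a : ℝ) = √(16 * a) := by
        rw [show (16 : ℝ) * a = 4 ^ 2 * a by ring, Real.sqrt_mul (by norm_num),
          Real.sqrt_sq (by norm_num)]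
      rw [e]
      refine Real.nat_sqrt_le_real_sqrt.trans (Real.sqrt_le_sqrt ?_)
      push_cast
      linarith
    have hsN : √(a : ℝ) ≤ √(12 * (a : ℝ)) := Real.sqrt_le_sqrt (by linarith)
    have hs2 : (a : ℝ) ^ 2 = (√(a : ℝ) * √(a : ℝ)) * a := by rw [hsq]; ring
    have t1 : Nat.sqrt (12 * a) * (2 * C * (23 / 3 * (a : ℝ)) * Real.log (20 * a)) ≤
        4 * √(a : ℝ) * (2 * C * (23 / 3 * a) * Real.log (20 * a)) :=
      mul_le_mul_of_nonneg_right hsqrt (by positivity)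
    have e1 : 4 * √(a : ℝ) * (2 * C * (23 / 3 * a) * Real.log (20 * a)) / (a : ℝ) ^ 2 =
        (4 * (2 * C * (23 / 3))) * (Real.log (20 * a) / √(a : ℝ)) := by
      rw [hs2]
      field_simp
    have t2 : 2 * (23 / 3 * (a : ℝ)) ^ 2 / √(12 * (a : ℝ)) ≤
        2 * (23 / 3 * (a : ℝ)) ^ 2 / √(a : ℝ) :=
      div_le_div_of_nonneg_left (by positivity) hs hsN
    have t3 : (2 * (23 / 3 * (a : ℝ)) ^ 2 / √(12 * (a : ℝ)) + 16 * (23 / 3 * a)) *
        (Real.log a + (|c| + 1)) ≤ (2 * (23 / 3 * (a : ℝ)) ^ 2 / √(a : ℝ) + 16 * (23 / 3 * a)) *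
        (Real.log a + (|c| + 1)) :=
      mul_le_mul_of_nonneg_right (by linarith) (by positivity)
    have e3 : (2 * (23 / 3 * (a : ℝ)) ^ 2 / √(a : ℝ) + 16 * (23 / 3 * a)) *
        (Real.log a + (|c| + 1)) / (a : ℝ) ^ 2 =
        (2 * (23 / 3) ^ 2 : ℝ) * (Real.log a / √(a : ℝ) + (|c| + 1) * (√(a : ℝ))⁻¹) +
        (16 * (23 / 3) : ℝ) * (Real.log a / √(a : ℝ) * (√(a : ℝ))⁻¹ + (|c| + 1) * ((a : ℝ))⁻¹) := by
      have e : Real.log a / √(a : ℝ) * (√(a : ℝ))⁻¹ = Real.log a / a := by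
        rw [← div_eq_mul_inv, div_div, hsq]
      rw [e]
      field_simp
    have e4 : 32 * Chebyshev.theta a / (a : ℝ) ^ 2 =
        (32 : ℝ) * (Chebyshev.theta a / a * ((a : ℝ))⁻¹) := by
      field_simp
    unfold errA
    rw [add_div, add_div, e4]
    have u1 := div_le_div_of_nonneg_right t1 (show (0 : ℝ) ≤ (a : ℝ) ^ 2 by positivity)
    have u3 := div_le_div_of_nonneg_right t3 (show (0 : ℝ) ≤ (a : ℝ) ^ 2 by positivity)
    rw [e1] at u1
    rw [e3] at u3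
    linarith

/-- the sum over `p ≤ a` -/
private lemma sum_small (C c ε : ℝ) (hC : 0 ≤ C) (hε1 : ε ≤ 1) (a K : ℕ) (ha : 1 ≤ a)
    (hK : 3 * K ≤ 23 * a) (E : ℝ) (hE : E ≤ EA a) (β : ℕ → ℝ)
    (hM : ∑ p ∈ (Finset.Icc 1 a).filter Nat.Prime,
      Real.log p / ((p : ℝ) - 1) ≤ Real.log a - c + ε)
    (h1 : ∀ p : ℕ, p.Prime → p ^ 2 < 12 * a →
      β p ≤ E / (p - 1) + C * (1 + Nat.log p (2 * (a + a + K))) * K)
    (h2 : ∀ p : ℕ, p.Prime → 12 * a ≤ p ^ 2 → p ≤ a →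
      β p ≤ K + E / p + 8 * p + 1 / 8 * (4 * K / p + 16) ^ 2) :
    ∑ p ∈ (Finset.Ioc 0 a).filter Nat.Prime, β p * Real.log p ≤
      EA a * (Real.log a - c + ε) +
      23 / 3 * a * PS (fun _ => 1) (a : ℝ) ⌊(0 : ℝ) * (a : ℝ)⌋₊ ⌊(1 : ℝ) * (a : ℝ)⌋₊ +
      8 * (a * PS (fun t => t) (a : ℝ) ⌊(0 : ℝ) * (a : ℝ)⌋₊ ⌊(1 : ℝ) * (a : ℝ)⌋₊) +
      errA C c a := by
  have har : (1 : ℝ) ≤ a := by exact_mod_cast ha
  have ha0 : (0 : ℝ) < a := by linarith
  have hIcc : Finset.Icc 1 a = Finset.Ioc 0 a := by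
    ext x; simp [Nat.succ_le_iff]
  rw [hIcc] at hM
  have hEN := EA_nonneg a
  have hL0 : 0 ≤ Real.log (20 * a) := Real.log_nonneg (by linarith)
  refine (Finset.sum_le_sum (g := fun p : ℕ => EA a * (Real.log p / (p - 1)) +
      23 / 3 * a * Real.log p + 8 * (p * Real.log p) +
      (if p ≤ Nat.sqrt (12 * a) then 2 * C * (23 / 3 * a) * Real.log (20 * a) else 0) +
      (2 * (23 / 3 * a) ^ 2 / √(12 * (a : ℝ)) + 16 * (23 / 3 * a)) * (Real.log p / (p - 1)) +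
      32 * Real.log p) (fun p hp => by
      rw [Finset.mem_filter, Finset.mem_Ioc] at hp
      exact point_small C hC a K ha hK E hE (β p) p hp.2 hp.1.2 (h1 p hp.2)
        (fun h => h2 p hp.2 h hp.1.2))).trans ?_
  rw [Finset.sum_add_distrib, Finset.sum_add_distrib, Finset.sum_add_distrib,
    Finset.sum_add_distrib, Finset.sum_add_distrib, ← Finset.mul_sum, ← Finset.mul_sum,
    ← Finset.mul_sum, ← Finset.mul_sum, ← Finset.mul_sum]
  have hPS1 : PS (fun _ => 1) (a : ℝ) ⌊(0 : ℝ) * (a : ℝ)⌋₊ ⌊(1 : ℝ) * (a : ℝ)⌋₊ =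
      ∑ p ∈ (Finset.Ioc 0 a).filter Nat.Prime, Real.log p := by
    rw [zero_mul, one_mul, Nat.floor_zero, Nat.floor_natCast]
    unfold PS
    simp
  have hPS2 : (a : ℝ) * PS (fun t => t) (a : ℝ) ⌊(0 : ℝ) * (a : ℝ)⌋₊ ⌊(1 : ℝ) * (a : ℝ)⌋₊ =
      ∑ p ∈ (Finset.Ioc 0 a).filter Nat.Prime, (p : ℝ) * Real.log p := by
    rw [zero_mul, one_mul, Nat.floor_zero, Nat.floor_natCast]
    unfold PS
    rw [Finset.mul_sum]
    refine Finset.sum_congr rfl fun p _ => ?_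
    field_simp
  have hth : ∑ p ∈ (Finset.Ioc 0 a).filter Nat.Prime, Real.log p = Chebyshev.theta a := by
    unfold Chebyshev.theta
    rw [Nat.floor_natCast]
  rw [hPS1, hPS2]
  have hsum1 : ∑ p ∈ (Finset.Ioc 0 a).filter Nat.Prime,
      (if p ≤ Nat.sqrt (12 * a) then 2 * C * (23 / 3 * (a : ℝ)) * Real.log (20 * a) else 0) ≤
      Nat.sqrt (12 * a) * (2 * C * (23 / 3 * a) * Real.log (20 * a)) := by
    rw [← Finset.sum_filter, Finset.sum_const, nsmul_eq_mul]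
    have h6 : ((Finset.Ioc 0 a).filter Nat.Prime).filter
        (fun p => p ≤ Nat.sqrt (12 * a)) ⊆ Finset.Ioc 0 (Nat.sqrt (12 * a)) := by
      intro p hp
      rw [Finset.mem_filter, Finset.mem_filter, Finset.mem_Ioc] at hp
      rw [Finset.mem_Ioc]
      exact ⟨hp.1.1.1, hp.2⟩
    have h7 := Finset.card_le_card h6
    rw [Nat.card_Ioc, Nat.sub_zero] at h7
    have h8 : ((((Finset.Ioc 0 a).filter Nat.Prime).filter
        (fun p => p ≤ Nat.sqrt (12 * a))).card : ℝ) ≤ Nat.sqrt (12 * a) := by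
      exact_mod_cast h7
    exact mul_le_mul_of_nonneg_right h8 (by positivity)
  have hE1 := mul_le_mul_of_nonneg_left hM hEN
  have hM2 : ∑ p ∈ (Finset.Ioc 0 a).filter Nat.Prime,
      Real.log p / ((p : ℝ) - 1) ≤ Real.log a + (|c| + 1) := by
    have := neg_abs_le c
    linarith
  have hE2 := mul_le_mul_of_nonneg_left hM2
    (show 0 ≤ 2 * (23 / 3 * (a : ℝ)) ^ 2 / √(12 * (a : ℝ)) + 16 * (23 / 3 * a) by positivity)
  unfold errA
  rw [← hth]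
  linarith

private lemma integral_affA (A B α β : ℝ) :
    ∫ t in α..β, (A - B * t) = A * (β - α) - B * ((β ^ 2 - α ^ 2) / 2) := by
  rw [intervalIntegral.integral_sub intervalIntegrable_const
    (intervalIntegral.intervalIntegrable_id.const_mul _), intervalIntegral.integral_const_mul,
    integral_id, intervalIntegral.integral_const, smul_eq_mul]
  ring

/-- one block `(α a, β a]` -/
private lemma sum_block (a : ℕ) (ha : 1 ≤ a) (α γ A B : ℝ) (hγ : 0 ≤ γ) (β : ℕ → ℝ)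
    (h : ∀ p : ℕ, p.Prime → α * a < p → (p : ℝ) ≤ γ * a → β p ≤ A * (a : ℝ) - B * p + 500) :
    ∑ p ∈ (Finset.Ioc ⌊α * (a : ℝ)⌋₊ ⌊γ * (a : ℝ)⌋₊).filter Nat.Prime, β p * Real.log p ≤
      a * PS (fun t => A - B * t) (a : ℝ) ⌊α * (a : ℝ)⌋₊ ⌊γ * (a : ℝ)⌋₊ +
      500 * PS (fun _ => 1) (a : ℝ) ⌊α * (a : ℝ)⌋₊ ⌊γ * (a : ℝ)⌋₊ := by
  have har : (1 : ℝ) ≤ a := by exact_mod_cast ha
  have ha0 : (0 : ℝ) < a := by linarith
  unfold PS
  rw [Finset.mul_sum, Finset.mul_sum, ← Finset.sum_add_distrib]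
  refine Finset.sum_le_sum fun p hp => ?_
  rw [Finset.mem_filter, Finset.mem_Ioc] at hp
  have hlp : 0 ≤ Real.log p := Real.log_natCast_nonneg p
  have u1 : α * (a : ℝ) < p := Nat.lt_of_floor_lt hp.1.1
  have u2 : (p : ℝ) ≤ γ * a := (Nat.le_floor_iff (by positivity)).mp hp.1.2
  have u3 := mul_le_mul_of_nonneg_right (h p hp.2 u1 u2) hlp
  refine u3.trans (le_of_eq ?_)
  field_simp

/-- the constant -/
private noncomputable def cA (c : ℝ) : ℝ := 1150 / 9 * (-c) + 23 / 3 + 4 + 464 / 3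

/-- upper bound for the total, main term removed -/
private noncomputable def VA (C c ε : ℝ) (a : ℕ) : ℝ :=
  (EA a * (Real.log a - c + ε) - 1150 / 9 * (a : ℝ) ^ 2 * Real.log a) +
  23 / 3 * a * PS (fun _ => 1) (a : ℝ) ⌊(0 : ℝ) * (a : ℝ)⌋₊ ⌊(1 : ℝ) * (a : ℝ)⌋₊ +
  8 * (a * PS (fun t => t) (a : ℝ) ⌊(0 : ℝ) * (a : ℝ)⌋₊ ⌊(1 : ℝ) * (a : ℝ)⌋₊) +
  errA C c a +
  (a * PS (fun t => 206 - 70 * t) (a : ℝ) ⌊(1 : ℝ) * (a : ℝ)⌋₊ ⌊(4 / 3 : ℝ) * (a : ℝ)⌋₊ +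
    500 * PS (fun _ => 1) (a : ℝ) ⌊(1 : ℝ) * (a : ℝ)⌋₊ ⌊(4 / 3 : ℝ) * (a : ℝ)⌋₊) +
  (a * PS (fun t => 226 - 85 * t) (a : ℝ) ⌊(4 / 3 : ℝ) * (a : ℝ)⌋₊ ⌊(3 / 2 : ℝ) * (a : ℝ)⌋₊ +
    500 * PS (fun _ => 1) (a : ℝ) ⌊(4 / 3 : ℝ) * (a : ℝ)⌋₊ ⌊(3 / 2 : ℝ) * (a : ℝ)⌋₊) +
  (a * PS (fun t => 266 - 335 / 3 * t) (a : ℝ) ⌊(3 / 2 : ℝ) * (a : ℝ)⌋₊ ⌊(2 : ℝ) * (a : ℝ)⌋₊ +
    500 * PS (fun _ => 1) (a : ℝ) ⌊(3 / 2 : ℝ) * (a : ℝ)⌋₊ ⌊(2 : ℝ) * (a : ℝ)⌋₊) +
  (a * PS (fun t => 82 - 59 / 3 * t) (a : ℝ) ⌊(2 : ℝ) * (a : ℝ)⌋₊ ⌊(3 : ℝ) * (a : ℝ)⌋₊ +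
    500 * PS (fun _ => 1) (a : ℝ) ⌊(2 : ℝ) * (a : ℝ)⌋₊ ⌊(3 : ℝ) * (a : ℝ)⌋₊) +
  (a * PS (fun t => 60 - 37 / 3 * t) (a : ℝ) ⌊(3 : ℝ) * (a : ℝ)⌋₊ ⌊(4 : ℝ) * (a : ℝ)⌋₊ +
    500 * PS (fun _ => 1) (a : ℝ) ⌊(3 : ℝ) * (a : ℝ)⌋₊ ⌊(4 : ℝ) * (a : ℝ)⌋₊) +
  (a * PS (fun t => 32 - 16 / 3 * t) (a : ℝ) ⌊(4 : ℝ) * (a : ℝ)⌋₊ ⌊(6 : ℝ) * (a : ℝ)⌋₊ +
    500 * PS (fun _ => 1) (a : ℝ) ⌊(4 : ℝ) * (a : ℝ)⌋₊ ⌊(6 : ℝ) * (a : ℝ)⌋₊)

/-- limit of one block -/
private lemma tendsto_block (α γ A B : ℝ) (hα : 0 ≤ α) (h : α ≤ γ) :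
    Tendsto (fun a : ℕ => (a * PS (fun t => A - B * t) (a : ℝ) ⌊α * (a : ℝ)⌋₊ ⌊γ * (a : ℝ)⌋₊ +
      500 * PS (fun _ => 1) (a : ℝ) ⌊α * (a : ℝ)⌋₊ ⌊γ * (a : ℝ)⌋₊) / (a : ℝ) ^ 2) atTop
      (𝓝 (A * (γ - α) - B * ((γ ^ 2 - α ^ 2) / 2))) := by
  have h1 := m7bk α γ (fun t => A - B * t) hα h (by fun_prop)
  rw [integral_affA] at h1
  have h2 := ((m7bk α γ (fun _ => 1) hα h continuousOn_const).mul tendsto_invk).const_mul
    (500 : ℝ)
  have h3 := h1.add h2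
  rw [mul_zero, mul_zero, add_zero] at h3
  refine h3.congr' ?_
  filter_upwards [eventually_gt_atTop 0] with a ha
  have ha' : (0 : ℝ) < a := by exact_mod_cast ha
  field_simp

private lemma tendsto_VA (C c ε : ℝ) (hC : 0 ≤ C) :
    Tendsto (fun a : ℕ => VA C c ε a / (a : ℝ) ^ 2) atTop (𝓝 (cA c + 1150 / 9 * ε)) := by
  have k1 : Tendsto (fun _ : ℕ => 1150 / 9 * (-c + ε)) atTop (𝓝 (1150 / 9 * (-c + ε))) :=
    tendsto_const_nhds
  have k2 := (m7bk 0 1 (fun _ => 1) le_rfl (by norm_num) continuousOn_const).const_mul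
    (23 / 3 : ℝ)
  have k3 := (m7bk 0 1 (fun t => t) le_rfl (by norm_num) continuousOn_id).const_mul
    (8 : ℝ)
  have i3 : ∫ t in (0 : ℝ)..1, t = 1 / 2 := by rw [integral_id]; norm_num
  have i2 : ∫ t in (0 : ℝ)..1, (1 : ℝ) = 1 := by simp
  rw [i2] at k2
  rw [i3] at k3
  have k4 := tendsto_errA C c hC
  have k5 := tendsto_block 1 (4 / 3) 206 70 (by norm_num) (by norm_num)
  have k6 := tendsto_block (4 / 3) (3 / 2) 226 85 (by norm_num) (by norm_num)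
  have k7 := tendsto_block (3 / 2) 2 266 (335 / 3) (by norm_num) (by norm_num)
  have k8 := tendsto_block 2 3 82 (59 / 3) (by norm_num) (by norm_num)
  have k9 := tendsto_block 3 4 60 (37 / 3) (by norm_num) (by norm_num)
  have k10 := tendsto_block 4 6 32 (16 / 3) (by norm_num) (by norm_num)
  have K := ((((((((k1.add k2).add k3).add k4).add k5).add k6).add k7).add k8).add k9).add k10
  have hlim : 1150 / 9 * (-c + ε) + 23 / 3 * 1 + 8 * (1 / 2) + 0 +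
      (206 * (4 / 3 - 1) - 70 * (((4 / 3) ^ 2 - 1 ^ 2) / 2)) +
      (226 * (3 / 2 - 4 / 3) - 85 * (((3 / 2) ^ 2 - (4 / 3) ^ 2) / 2)) +
      (266 * (2 - 3 / 2) - 335 / 3 * ((2 ^ 2 - (3 / 2) ^ 2) / 2)) +
      (82 * (3 - 2) - 59 / 3 * ((3 ^ 2 - 2 ^ 2) / 2)) +
      (60 * (4 - 3) - 37 / 3 * ((4 ^ 2 - 3 ^ 2) / 2)) +
      (32 * (6 - 4) - 16 / 3 * ((6 ^ 2 - 4 ^ 2) / 2)) = cA c + 1150 / 9 * ε := by
    unfold cA
    ring
  rw [hlim] at K
  refine K.congr' ?_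
  filter_upwards [eventually_gt_atTop 0] with a ha
  have ha' : (0 : ℝ) < a := by exact_mod_cast ha
  unfold VA EA
  field_simp
  ring

/-- the total in terms of `a` -/
private theorem psumA (c : ℝ) (hMert : MertensUB c) (C δ : ℝ) (hC : 0 ≤ C)
    (hδ : 0 < δ) : ∃ a0 : ℕ, ∀ a K : ℕ, a0 ≤ a → 3 * K ≤ 23 * a → ∀ E : ℝ, E ≤ EA a →
  ∀ β : ℕ → ℝ,
  (∀ p : ℕ, p.Prime → p ^ 2 < 12 * a →
    β p ≤ E / (p - 1) + C * (1 + Nat.log p (2 * (a + a + K))) * K) →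
  (∀ p : ℕ, p.Prime → 12 * a ≤ p ^ 2 → p ≤ a →
    β p ≤ K + E / p + 8 * p + 1 / 8 * (4 * K / p + 16) ^ 2) →
  (∀ p : ℕ, p.Prime → a < p → p ≤ 2 * a → β p ≤ 206 * (a : ℝ) - 70 * p + 500 ∧
    β p ≤ 226 * (a : ℝ) - 85 * p + 500 ∧ β p ≤ 266 * (a : ℝ) - 335 / 3 * p + 500) →
  (∀ p : ℕ, p.Prime → 2 * a < p → p ≤ 3 * a → β p ≤ 82 * (a : ℝ) - 59 / 3 * p + 500) →
  (∀ p : ℕ, p.Prime → 3 * a < p → p ≤ 4 * a → β p ≤ 60 * (a : ℝ) - 37 / 3 * p + 500) →
  (∀ p : ℕ, p.Prime → 4 * a < p → p ≤ 6 * a → β p ≤ 32 * (a : ℝ) - 16 / 3 * p + 500) →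
  ∑ p ∈ (Finset.Icc 1 (6 * a)).filter Nat.Prime, β p * Real.log p ≤
    (a : ℝ) ^ 2 * (1150 / 9 * Real.log a + cA c + δ) := by
  obtain ⟨ε, hε, hε1, hεδ⟩ : ∃ ε : ℝ, 0 < ε ∧ ε ≤ 1 ∧ 1150 / 9 * ε < δ :=
    ⟨min 1 (δ / 200), lt_min one_pos (by positivity), min_le_left _ _, by
      have := min_le_right 1 (δ / 200)
      linarith⟩
  have hlim := tendsto_VA C c ε hC
  have hev := hlim.eventually_lt_const
    (show cA c + 1150 / 9 * ε < cA c + δ by linarith)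
  rw [eventually_atTop] at hev
  obtain ⟨n₁, hn₁⟩ := hev
  obtain ⟨n₂, hn₂⟩ := hMert ε hε
  refine ⟨max n₁ (max n₂ 1), fun a K ha hK E hE β h1 h2 h3 h4 h5 h6 => ?_⟩
  have ha1 : n₁ ≤ a := (le_max_left _ _).trans ha
  have ha2 : n₂ ≤ a := ((le_max_left _ _).trans (le_max_right _ _)).trans ha
  have ha3 : 1 ≤ a := ((le_max_right _ _).trans (le_max_right _ _)).trans ha
  have har : (1 : ℝ) ≤ a := by exact_mod_cast ha3
  have ha0 : (0 : ℝ) < a := by linarith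
  have hM := hn₂ a ha2
  have s1 := sum_small C c ε hC hε1 a K ha3 hK E hE β hM h1 h2
  have b1 := sum_block a ha3 1 (4 / 3) 206 70 (by norm_num) β
    (fun p hp u1 u2 => by
      refine (h3 p hp ?_ ?_).1
      · have : (a : ℝ) < p := by linarith
        exact_mod_cast this
      · have : (p : ℝ) ≤ 2 * a := by linarith
        exact_mod_cast this)
  have b2 := sum_block a ha3 (4 / 3) (3 / 2) 226 85 (by norm_num) β
    (fun p hp u1 u2 => by
      refine (h3 p hp ?_ ?_).2.1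
      · have : (a : ℝ) < p := by linarith
        exact_mod_cast this
      · have : (p : ℝ) ≤ 2 * a := by linarith
        exact_mod_cast this)
  have b3 := sum_block a ha3 (3 / 2) 2 266 (335 / 3) (by norm_num) β
    (fun p hp u1 u2 => by
      refine (h3 p hp ?_ ?_).2.2
      · have : (a : ℝ) < p := by linarith
        exact_mod_cast this
      · exact_mod_cast u2)
  have b4 := sum_block a ha3 2 3 82 (59 / 3) (by norm_num) β
    (fun p hp u1 u2 => h4 p hp (by exact_mod_cast u1) (by exact_mod_cast u2))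
  have b5 := sum_block a ha3 3 4 60 (37 / 3) (by norm_num) β
    (fun p hp u1 u2 => h5 p hp (by exact_mod_cast u1) (by exact_mod_cast u2))
  have b6 := sum_block a ha3 4 6 32 (16 / 3) (by norm_num) β
    (fun p hp u1 u2 => h6 p hp (by exact_mod_cast u1) (by exact_mod_cast u2))
  have e1 : ⌊(1 : ℝ) * (a : ℝ)⌋₊ = a := by rw [one_mul, Nat.floor_natCast]
  have e6 : ⌊(6 : ℝ) * (a : ℝ)⌋₊ = 6 * a := by
    have : (6 : ℝ) * (a : ℝ) = ((6 * a : ℕ) : ℝ) := by push_cast; ring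
    rw [this, Nat.floor_natCast]
  have mm : ∀ x y : ℝ, x ≤ y → ⌊x * (a : ℝ)⌋₊ ≤ ⌊y * (a : ℝ)⌋₊ := fun x y h =>
    Nat.floor_le_floor (mul_le_mul_of_nonneg_right h ha0.le)
  have hIcc : Finset.Icc 1 (6 * a) = Finset.Ioc 0 (6 * a) := by
    ext x; simp [Nat.succ_le_iff]
  have hsplit : ∑ p ∈ (Finset.Icc 1 (6 * a)).filter Nat.Prime, β p * Real.log p =
      ∑ p ∈ (Finset.Ioc 0 a).filter Nat.Prime, β p * Real.log p +
      (∑ p ∈ (Finset.Ioc ⌊(1 : ℝ) * (a : ℝ)⌋₊ ⌊(4 / 3 : ℝ) * (a : ℝ)⌋₊).filter Nat.Prime,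
        β p * Real.log p +
      (∑ p ∈ (Finset.Ioc ⌊(4 / 3 : ℝ) * (a : ℝ)⌋₊ ⌊(3 / 2 : ℝ) * (a : ℝ)⌋₊).filter Nat.Prime,
        β p * Real.log p +
      (∑ p ∈ (Finset.Ioc ⌊(3 / 2 : ℝ) * (a : ℝ)⌋₊ ⌊(2 : ℝ) * (a : ℝ)⌋₊).filter Nat.Prime,
        β p * Real.log p +
      (∑ p ∈ (Finset.Ioc ⌊(2 : ℝ) * (a : ℝ)⌋₊ ⌊(3 : ℝ) * (a : ℝ)⌋₊).filter Nat.Prime,
        β p * Real.log p +
      (∑ p ∈ (Finset.Ioc ⌊(3 : ℝ) * (a : ℝ)⌋₊ ⌊(4 : ℝ) * (a : ℝ)⌋₊).filter Nat.Prime,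
        β p * Real.log p +
      ∑ p ∈ (Finset.Ioc ⌊(4 : ℝ) * (a : ℝ)⌋₊ ⌊(6 : ℝ) * (a : ℝ)⌋₊).filter Nat.Prime,
        β p * Real.log p))))) := by
    have m1 := mm 1 (4 / 3) (by norm_num)
    have m2 := mm (4 / 3) (3 / 2) (by norm_num)
    have m3 := mm (3 / 2) 2 (by norm_num)
    have m4 := mm 2 3 (by norm_num)
    have m5 := mm 3 4 (by norm_num)
    have m6 := mm 4 6 (by norm_num)
    rw [hIcc, ← e6]
    simp only [Finset.sum_filter]
    rw [Finset.sum_Ioc_consecutive _ m5 m6, Finset.sum_Ioc_consecutive _ m4 (m5.trans m6),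
      Finset.sum_Ioc_consecutive _ m3 (m4.trans (m5.trans m6)),
      Finset.sum_Ioc_consecutive _ m2 (m3.trans (m4.trans (m5.trans m6))),
      Finset.sum_Ioc_consecutive _ m1 (m2.trans (m3.trans (m4.trans (m5.trans m6)))), e1,
      Finset.sum_Ioc_consecutive _ (Nat.zero_le _)]
    rw [e6]
    omega
  rw [hsplit]
  have hfin := hn₁ a ha1
  rw [div_lt_iff₀ (by positivity)] at hfin
  unfold VA at hfin
  linarith [s1, b1, b2, b3, b4, b5, b6, hfin]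

/-- `a = 3 k + 2` -/
private lemma tendsto_ak (c : ℝ) :
    Tendsto (fun k : ℕ => ((3 * (k : ℝ) + 2) ^ 2 * (1150 / 9 * Real.log (3 * (k : ℝ) + 2) + c) -
      1150 * (k : ℝ) ^ 2 * Real.log k) / (k : ℝ) ^ 2) atTop
      (𝓝 (1150 * Real.log 3 + 9 * c)) := by
  have h0 : Tendsto (fun k : ℕ => 3 + 2 * ((k : ℝ))⁻¹) atTop (𝓝 (3 + 2 * 0)) :=
    tendsto_const_nhds.add (tendsto_invk.const_mul _)
  rw [mul_zero, add_zero] at h0
  have h1 := h0.log (by norm_num)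
  have hl := tendsto_logK 1 (by norm_num)
  simp only [one_mul] at hl
  have h2 : Tendsto (fun k : ℕ => 1150 / 9 * (12 * (Real.log k / √(k : ℝ) * (√(k : ℝ))⁻¹) +
      4 * (Real.log k / √(k : ℝ) * (√(k : ℝ))⁻¹ * ((k : ℝ))⁻¹))) atTop
      (𝓝 (1150 / 9 * (12 * (0 * 0) + 4 * (0 * 0 * 0)))) :=
    (((hl.mul tendsto_inv_sqrtk).const_mul _).add
      (((hl.mul tendsto_inv_sqrtk).mul tendsto_invk).const_mul _)).const_mul _
  have h3 := ((h0.pow 2).mul ((h1.const_mul (1150 / 9 : ℝ)).add_const c)).add h2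
  have hlim : (3 : ℝ) ^ 2 * (1150 / 9 * Real.log 3 + c) +
      1150 / 9 * (12 * (0 * 0) + 4 * (0 * 0 * 0)) = 1150 * Real.log 3 + 9 * c := by ring
  rw [hlim] at h3
  refine h3.congr' ?_
  filter_upwards [eventually_gt_atTop 0] with k hk
  have hk' : (0 : ℝ) < k := by exact_mod_cast hk
  have hs : 0 < √(k : ℝ) := Real.sqrt_pos.mpr hk'
  have hsq : √(k : ℝ) * √(k : ℝ) = k := Real.mul_self_sqrt hk'.le
  have e1 : Real.log k / √(k : ℝ) * (√(k : ℝ))⁻¹ = Real.log k / k := by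
    rw [← div_eq_mul_inv, div_div, hsq]
  rw [e1]
  have e2 : Real.log (3 + 2 * ((k : ℝ))⁻¹) = Real.log (3 * k + 2) - Real.log k := by
    rw [← Real.log_div (by positivity) hk'.ne']
    congr 1
    field_simp
  rw [e2]
  field_simp
  ring

/-- `log 3 ≤ 1.09862` -/
private lemma log3_leA : Real.log 3 ≤ 109862 / 100000 := by
  have h1 : 12 * Real.log 3 = 19 * Real.log 2 + Real.log (531441 / 524288) := by
    have e1 : 12 * Real.log 3 = Real.log (3 ^ 12) := by rw [Real.log_pow]; norm_num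
    have e2 : 19 * Real.log 2 = Real.log (2 ^ 19) := by rw [Real.log_pow]; norm_num
    rw [e1, e2, ← Real.log_mul (by norm_num) (by norm_num)]
    norm_num
  have h2 : Real.log (531441 / 524288) ≤ 531441 / 524288 - 1 :=
    Real.log_le_sub_one_of_pos (by norm_num)
  have h3 := Real.log_two_lt_d9
  norm_num at h2
  linarith

theorem pSum : PSum (2096.65) := by
  intro C δ hC hδ
  set c : ℝ := 57719 / 100000 with hc
  have hδ' : (0 : ℝ) < δ / 18 := by positivity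
  obtain ⟨a0, hA⟩ := psumA c mertens57719 C (δ / 18) hC hδ'
  have hlim := tendsto_ak (cA c + δ / 18)
  have hnum : 1150 * Real.log 3 + 9 * (cA c + δ / 18) < 2096.65 + δ := by
    have h3 := log3_leA
    unfold cA
    rw [hc]
    norm_num
    linarith
  have hev := hlim.eventually_lt_const hnum
  rw [eventually_atTop] at hev
  obtain ⟨k1, hk1⟩ := hev
  refine ⟨max k1 (max a0 1), fun k hk a K ha hK β h1 h2 h3 h4 h5 h6 => ?_⟩
  have hk1' : k1 ≤ k := (le_max_left _ _).trans hk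
  have hka : a0 ≤ k := ((le_max_left _ _).trans (le_max_right _ _)).trans hk
  have hk1'' : 1 ≤ k := ((le_max_right _ _).trans (le_max_right _ _)).trans hk
  have hkr : (0 : ℝ) < k := by exact_mod_cast hk1''
  have ha' : a = 3 * k + 2 := ha
  have hK' : K = 23 * k + 12 := hK
  have har : (a : ℝ) = 3 * k + 2 := by rw [ha']; push_cast; ring
  have hKr : (K : ℝ) = 23 * k + 12 := by rw [hK']; push_cast; ring
  have h3K : 3 * K ≤ 23 * a := by rw [ha', hK']; omega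
  have hE : 32 * a * K - 2 * (K : ℝ) ^ 2 ≤ EA a := by
    unfold EA
    rw [har, hKr]
    nlinarith
  have h := hA a K (by omega) h3K _ hE β h1 h2 h3 h4 h5 h6
  have hf := hk1 k hk1'
  rw [div_lt_iff₀ (by positivity)] at hf
  rw [har] at h
  have e2 : 1150 / 9 * Real.log (3 * (k : ℝ) + 2) + cA c + δ / 18 =
      1150 / 9 * Real.log (3 * (k : ℝ) + 2) + (cA c + δ / 18) := by ring
  rw [e2] at h
  linarith

end ZT
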