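import Pool.Agent.Lib.ZT.Defs
import Pool.Agent.Lib.Z579.M1

/-!
# R1: the Hankel determinant is the real determinant of the moments
-/

open Polynomial Finset Z579 Filter Topology

namespace ZT

/-- the terms of the series -/
noncomputable def hh (c : ℤ × ℤ × ℤ) (i n : ℕ) : ℝ :=
  (gam c (n + 1) : ℝ) * (6 / ((n : ℝ) + 1)) ^ i

lemma gam_bound (c : ℤ × ℤ × ℤ) : ∃ M : ℝ, 0 ≤ M ∧ ∀ n, |(gam c n : ℝ)| ≤ M := by
  refine ⟨|(c.1 : ℝ)| + |(c.2.1 : ℝ)| + |(c.2.2 : ℝ)|, by positivity, fun n => ?_⟩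
  have h1 := abs_nonneg (c.1 : ℝ)
  have h2 := abs_nonneg (c.2.1 : ℝ)
  have h3 := abs_nonneg (c.2.2 : ℝ)
  unfold gam
  split_ifs
  · linarith
  · linarith
  · linarith
  · simp only [Int.cast_zero, abs_zero]
    linarith

lemma gam_add (c : ℤ × ℤ × ℤ) (n m : ℕ) : gam c (n + 6 * m) = gam c n := by
  unfold gam
  rw [Nat.add_mul_mod_self_left]

lemma Hg_cast (c : ℤ × ℤ × ℤ) (i k : ℕ) : ((Hg c i k : ℚ) : ℝ) = ∑ j ∈ range k, hh c i j := by
  unfold Hg hh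
  push_cast
  rfl

lemma summable_hh (c : ℤ × ℤ × ℤ) {i : ℕ} (hi : 2 ≤ i) : Summable (hh c i) := by
  obtain ⟨M, hM0, hM⟩ := gam_bound c
  have h1 := (summable_zr hi).mul_left (M * 6 ^ i)
  refine Summable.of_norm_bounded h1 fun n => ?_
  have hn : (0 : ℝ) < (n : ℝ) + 1 := by positivity
  rw [Real.norm_eq_abs]
  unfold hh
  rw [abs_mul, abs_of_pos (by positivity : (0 : ℝ) < (6 / ((n : ℝ) + 1)) ^ i), div_pow]
  have h2 : M * 6 ^ i * (1 / ((n : ℝ) + 1) ^ i) = M * (6 ^ i / ((n : ℝ) + 1) ^ i) := by ring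
  rw [h2]
  exact mul_le_mul_of_nonneg_right (hM _) (by positivity)

lemma hasSum_ge (c : ℤ × ℤ × ℤ) {i : ℕ} (hi : 2 ≤ i) (m : ℕ) :
    HasSum (fun t : ℕ => (gam c (t + 1) : ℝ) * (6 / ((t : ℝ) + 1 + 6 * m)) ^ i)
      ((∑' n, hh c i n) - ((Hg c i (6 * m) : ℚ) : ℝ)) := by
  have h1 := (hasSum_nat_add_iff' (6 * m)).2 (summable_hh c hi).hasSum
  rw [Hg_cast]
  refine h1.congr_fun fun t => ?_
  unfold hh
  have h2 : t + 6 * m + 1 = t + 1 + 6 * m := by ring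
  rw [h2, gam_add]
  push_cast
  congr 3
  ring

lemma sum_tel (h : ℕ → ℝ) (k N : ℕ) : ∑ t ∈ range N, (h (t + k) - h t) =
    ∑ j ∈ range k, h (N + j) - ∑ j ∈ range k, h j := by
  induction N with
  | zero => simp
  | succ N ih =>
    rw [Finset.sum_range_succ, ih]
    have h1 : ∑ j ∈ range k, h (N + 1 + j) + h N = ∑ j ∈ range k, h (N + j) + h (N + k) := by
      have h2 := Finset.sum_range_succ (fun j => h (N + j)) k
      have h3 := Finset.sum_range_succ' (fun j => h (N + j)) k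
      rw [h2] at h3
      simp only [add_zero] at h3
      rw [h3]
      congr 1
      refine Finset.sum_congr rfl fun j _ => ?_
      congr 1
      ring
    linarith

lemma tendsto_hh (c : ℤ × ℤ × ℤ) : Tendsto (hh c 1) atTop (𝓝 0) := by
  obtain ⟨M, hM0, hM⟩ := gam_bound c
  have h1 : Tendsto (fun n : ℕ => M * 6 * (1 / ((n : ℝ) + 1))) atTop (𝓝 0) := by
    have := (tendsto_one_div_add_atTop_nhds_zero_nat (𝕜 := ℝ)).const_mul (M * 6)
    simpa using this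
  refine squeeze_zero_norm (fun n => ?_) h1
  have hn : (0 : ℝ) < (n : ℝ) + 1 := by positivity
  rw [Real.norm_eq_abs]
  unfold hh
  rw [pow_one, abs_mul, abs_of_pos (by positivity : (0 : ℝ) < 6 / ((n : ℝ) + 1))]
  have h2 : M * 6 * (1 / ((n : ℝ) + 1)) = M * (6 / ((n : ℝ) + 1)) := by ring
  rw [h2]
  exact mul_le_mul_of_nonneg_right (hM _) (by positivity)

lemma hasSum_one (c : ℤ × ℤ × ℤ) (m : ℕ) :
    HasSum (fun t : ℕ => (gam c (t + 1) : ℝ) * (6 / ((t : ℝ) + 1 + 6 * m) - 6 / ((t : ℝ) + 1)))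
      (-((Hg c 1 (6 * m) : ℚ) : ℝ)) := by
  obtain ⟨M, hM0, hM⟩ := gam_bound c
  have hs : Summable (fun t : ℕ =>
      (gam c (t + 1) : ℝ) * (6 / ((t : ℝ) + 1 + 6 * m) - 6 / ((t : ℝ) + 1))) := by
    have h1 := (summable_zr (s := 2) le_rfl).mul_left (M * (36 * m))
    refine Summable.of_norm_bounded h1 fun t => ?_
    have ht : (0 : ℝ) < (t : ℝ) + 1 := by positivity
    have ht2 : (0 : ℝ) < (t : ℝ) + 1 + 6 * m := by positivity
    rw [Real.norm_eq_abs, abs_mul]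
    have h2 : |6 / ((t : ℝ) + 1 + 6 * m) - 6 / ((t : ℝ) + 1)| ≤
        36 * m * (1 / ((t : ℝ) + 1) ^ 2) := by
      have h3 : 6 / ((t : ℝ) + 1 + 6 * m) - 6 / ((t : ℝ) + 1) =
          -(36 * m / (((t : ℝ) + 1 + 6 * m) * ((t : ℝ) + 1))) := by
        field_simp
        ring
      rw [h3, abs_neg, abs_of_nonneg (by positivity), mul_one_div]
      refine div_le_div_of_nonneg_left (by positivity) (by positivity) ?_
      rw [pow_two]
      refine mul_le_mul_of_nonneg_right ?_ ht.le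
      have : (0 : ℝ) ≤ 6 * m := by positivity
      linarith
    calc |(gam c (t + 1) : ℝ)| * |6 / ((t : ℝ) + 1 + 6 * m) - 6 / ((t : ℝ) + 1)|
        ≤ M * (36 * m * (1 / ((t : ℝ) + 1) ^ 2)) :=
          mul_le_mul (hM _) h2 (abs_nonneg _) hM0
      _ = M * (36 * m) * (1 / ((t : ℝ) + 1) ^ 2) := by ring
  have h2 := hs.hasSum.tendsto_sum_nat
  have h3 : ∀ t : ℕ, (gam c (t + 1) : ℝ) * (6 / ((t : ℝ) + 1 + 6 * m) - 6 / ((t : ℝ) + 1)) =
      hh c 1 (t + 6 * m) - hh c 1 t := by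
    intro t
    unfold hh
    have h4 : t + 6 * m + 1 = t + 1 + 6 * m := by ring
    rw [h4, gam_add, pow_one, pow_one, mul_sub]
    push_cast
    have h5 : (t : ℝ) + 6 * m + 1 = (t : ℝ) + 1 + 6 * m := by ring
    rw [h5]
  have h4 : Tendsto (fun N : ℕ => ∑ t ∈ range N,
      (gam c (t + 1) : ℝ) * (6 / ((t : ℝ) + 1 + 6 * m) - 6 / ((t : ℝ) + 1))) atTop
      (𝓝 (-((Hg c 1 (6 * m) : ℚ) : ℝ))) := by
    have h5 : ∀ N : ℕ, ∑ t ∈ range N,
        (gam c (t + 1) : ℝ) * (6 / ((t : ℝ) + 1 + 6 * m) - 6 / ((t : ℝ) + 1)) =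
        ∑ j ∈ range (6 * m), hh c 1 (N + j) - ∑ j ∈ range (6 * m), hh c 1 j := by
      intro N
      rw [Finset.sum_congr rfl fun t _ => h3 t]
      exact sum_tel _ _ _
    simp_rw [h5]
    have h6 : Tendsto (fun N : ℕ => ∑ j ∈ range (6 * m), hh c 1 (N + j)) atTop (𝓝 0) := by
      have h7 : Tendsto (fun N : ℕ => ∑ j ∈ range (6 * m), hh c 1 (N + j)) atTop
          (𝓝 (∑ j ∈ range (6 * m), (0 : ℝ))) :=
        tendsto_finsetSum _ fun j _ => (tendsto_hh c).comp (tendsto_add_atTop_nat j)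
      simpa using h7
    rw [Hg_cast]
    simpa using h6.sub_const (∑ j ∈ range (6 * m), hh c 1 j)
  rw [← tendsto_nhds_unique h2 h4]
  exact hs.hasSum

/-- the constant attached to `i` -/
noncomputable def cz (c : ℤ × ℤ × ℤ) (i : ℕ) : ℝ := if i = 1 then 0 else ∑' n, hh c i n

lemma hasSum_ui (c : ℤ × ℤ × ℤ) {i : ℕ} (hi : 1 ≤ i) (m : ℕ) :
    HasSum (fun t : ℕ => (gam c (t + 1) : ℝ) *
      ((6 / ((t : ℝ) + 1 + 6 * m)) ^ i - (if i = 1 then 6 / ((t : ℝ) + 1) else 0)))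
      (cz c i - ((Hg c i (6 * m) : ℚ) : ℝ)) := by
  by_cases h : i = 1
  · subst h
    simpa [cz] using hasSum_one c m
  · have := hasSum_ge c (i := i) (by omega) m
    simpa [cz, h] using this

/-- the real identity -/
theorem hasSum_R (c : ℤ × ℤ × ℤ) {a : ℕ} (ha : 1 ≤ a) (G : ℚ[X])
    (hdeg : 2 * G.natDegree + 3 ≤ 16 * (2 * a - 1)) :
    HasSum (fun t : ℕ => (gam c (t + 1) : ℝ) *
        (Rr a (xp a t) * Polynomial.aeval (xp a t ^ 2) G))
      (∑ u ∈ pc a, ∑ i ∈ Finset.Icc 1 16, (Acoef 16 0 a a u i G : ℝ) *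
        (cz c i - ((Hg c i (6 * (u + a - 1)).toNat : ℚ) : ℝ))) := by
  have hterm : ∀ u ∈ pc a, ∀ i ∈ Finset.Icc 1 16, HasSum
      (fun t : ℕ => (Acoef 16 0 a a u i G : ℝ) * ((gam c (t + 1) : ℝ) *
        ((6 / ((t : ℝ) + 1 + 6 * ((u + a - 1).toNat : ℕ))) ^ i -
          (if i = 1 then 6 / ((t : ℝ) + 1) else 0))))
      ((Acoef 16 0 a a u i G : ℝ) * (cz c i - ((Hg c i (6 * (u + a - 1)).toNat : ℚ) : ℝ))) := by
    intro u hu i hi
    rw [Finset.mem_Icc] at hi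
    rw [mem_pc] at hu
    have h1 := hasSum_ui c hi.1 ((u + a - 1).toNat)
    have e : 6 * (u + (a : ℤ) - 1).toNat = (6 * (u + a - 1)).toNat := by omega
    rw [e] at h1
    exact h1.mul_left _
  have hsum := hasSum_sum (s := pc a) fun u hu => hasSum_sum (s := Finset.Icc 1 16) fun i hi =>
    hterm u hu i hi
  refine hsum.congr_fun ?_
  intro t
  have h1 := sum_Acoef_one (q := 16) (B := 0) (b := a) ha le_rfl (by norm_num) G (by
    simpa using hdeg)
  have hv6 : ∀ u ∈ pc a, xp a t + (u : ℝ) = ((t : ℝ) + 1 + 6 * ((u + a - 1).toNat : ℕ)) / 6 := by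
    intro u hu
    rw [mem_pc] at hu
    have h4 : (((u + (a : ℤ) - 1).toNat : ℕ) : ℝ) = (u : ℝ) + a - 1 := by
      have h5 : (((u + (a : ℤ) - 1).toNat : ℕ) : ℤ) = u + (a : ℤ) - 1 :=
        Int.toNat_of_nonneg (by omega)
      exact_mod_cast h5
    rw [h4, xp]
    ring
  have hv : ∀ u ∈ pc a, xp a t + (u : ℝ) ≠ 0 := by
    intro u hu
    rw [hv6 u hu]
    positivity
  have h2 := pf_field (K := ℝ) (q := 16) (B := 0) (b := a) ha le_rfl G (by
    simp only [Nat.sub_self, mul_zero, zero_add]; omega) (xp a t) hv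
  rw [pow_zero, mul_one] at h2
  rw [Rr, h2]
  have h3 : ∀ u ∈ pc a, ∀ i ∈ Finset.Icc 1 16, (Acoef 16 0 a a u i G : ℝ) *
      ((gam c (t + 1) : ℝ) * ((6 / ((t : ℝ) + 1 + 6 * ((u + a - 1).toNat : ℕ))) ^ i -
          (if i = 1 then 6 / ((t : ℝ) + 1) else 0))) =
      (gam c (t + 1) : ℝ) * ((Acoef 16 0 a a u i G : ℝ) / (xp a t + (u : ℝ)) ^ i) -
      (gam c (t + 1) : ℝ) * ((Acoef 16 0 a a u i G : ℝ) *
        (if i = 1 then 6 / ((t : ℝ) + 1) else 0)) := by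
    intro u hu i _
    rw [hv6 u hu, div_pow, div_pow]
    have h5 : (0 : ℝ) < (t : ℝ) + 1 + 6 * ((u + a - 1).toNat : ℕ) := by positivity
    rw [div_div_eq_mul_div]
    ring
  rw [Finset.sum_congr rfl fun u hu => Finset.sum_congr rfl fun i hi => h3 u hu i hi]
  simp only [Finset.sum_sub_distrib, ← Finset.mul_sum]
  have h4 : ∑ u ∈ pc a, ∑ i ∈ Finset.Icc 1 16, (Acoef 16 0 a a u i G : ℝ) *
      (if i = 1 then 6 / ((t : ℝ) + 1) else 0) = 0 := by
    have h5 : ∀ u ∈ pc a, ∑ i ∈ Finset.Icc 1 16, (Acoef 16 0 a a u i G : ℝ) *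
        (if i = 1 then 6 / ((t : ℝ) + 1) else 0) =
        (Acoef 16 0 a a u 1 G : ℝ) * (6 / ((t : ℝ) + 1)) := by
      intro u _
      rw [Finset.sum_eq_single 1]
      · simp
      · intro i _ hi
        simp [hi]
      · intro h
        exfalso
        apply h
        rw [Finset.mem_Icc]
        norm_num
    rw [Finset.sum_congr rfl h5, ← Finset.sum_mul]
    have h6 : ∑ u ∈ pc a, (Acoef 16 0 a a u 1 G : ℝ) = 0 := by exact_mod_cast h1
    rw [h6, zero_mul]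
  rw [h4, mul_zero, sub_zero]

/-- `FL G = Q ∑_t γ(t+1) R(x_t) G(x_t²)` -/
theorem FL_eq {c : ℤ × ℤ × ℤ} {a Q : ℕ} {z : ℕ → ℚ} (h : IsZ c z) (ha : 1 ≤ a) (G : ℚ[X])
    (hdeg : 2 * G.natDegree + 3 ≤ 16 * (2 * a - 1)) :
    ((FL c a Q z G : ℚ) : ℝ) =
      Q * ∑' t : ℕ, (gam c (t + 1) : ℝ) * (Rr a (xp a t) * Polynomial.aeval (xp a t ^ 2) G) := by
  rw [(hasSum_R c ha G hdeg).tsum_eq, FL, Lw_apply]
  have h1 : ∑ u ∈ pc a, ∑ i ∈ Finset.Icc 1 16, (Acoef 16 0 a a u i G : ℝ) * (z i : ℝ) =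
      ∑ u ∈ pc a, ∑ i ∈ Finset.Icc 1 16, (Acoef 16 0 a a u i G : ℝ) * cz c i := by
    rw [Finset.sum_comm, Finset.sum_comm (s := pc a)]
    refine Finset.sum_congr rfl fun i hi => ?_
    rw [← Finset.sum_mul, ← Finset.sum_mul]
    rw [Finset.mem_Icc] at hi
    rcases Nat.even_or_odd i with he | ho
    · have := sum_Acoef_even (q := 16) (B := 0) (b := a) ha (by decide) hi.2 he G
      have h7 : ∑ u ∈ pc a, (Acoef 16 0 a a u i G : ℝ) = 0 := by exact_mod_cast this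
      rw [h7, zero_mul, zero_mul]
    · by_cases hi1 : i = 1
      · subst hi1
        have := sum_Acoef_one (q := 16) (B := 0) (b := a) ha le_rfl (by norm_num) G (by
          simpa using hdeg)
        have h7 : ∑ u ∈ pc a, (Acoef 16 0 a a u 1 G : ℝ) = 0 := by exact_mod_cast this
        rw [h7, zero_mul, zero_mul]
      · congr 1
        rw [cz, if_neg hi1]
        have hi15 : i ≤ 15 := by
          rcases ho with ⟨m, hm⟩
          omega
        have hi3 : 3 ≤ i := by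
          rcases ho with ⟨m, hm⟩
          omega
        rw [h.val i ho hi3 hi15]
        rfl
  have h2 : (Q : ℝ) * ∑ u ∈ pc a, ∑ i ∈ Finset.Icc 1 16, (Acoef 16 0 a a u i G : ℝ) *
        (cz c i - ((Hg c i (6 * (u + a - 1)).toNat : ℚ) : ℝ)) =
      Q * (∑ u ∈ pc a, ∑ i ∈ Finset.Icc 1 16, (Acoef 16 0 a a u i G : ℝ) * (z i : ℝ) -
        ∑ u ∈ pc a, ∑ i ∈ Finset.Icc 1 16,
          (Acoef 16 0 a a u i G : ℝ) * ((Hg c i (6 * (u + a - 1)).toNat : ℚ) : ℝ)) := by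
    rw [h1, ← Finset.sum_sub_distrib]
    congr 1
    refine Finset.sum_congr rfl fun u _ => ?_
    rw [← Finset.sum_sub_distrib]
    refine Finset.sum_congr rfl fun i _ => ?_
    ring
  rw [h2]
  push_cast
  rw [← Finset.sum_sub_distrib, Finset.mul_sum]
  refine Finset.sum_congr rfl fun u _ => ?_
  rw [← Finset.sum_sub_distrib, Finset.mul_sum]
  refine Finset.sum_congr rfl fun i _ => ?_
  rw [wg, add_zero, Nat.choose_zero_right]
  push_cast
  ring

/-- R1 -/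
theorem realId : RealId := by
  intro c a Q K z h ha hK
  have hF : ∀ n, 2 * n + 3 ≤ 16 * (2 * a - 1) →
      ((FL c a Q z (X ^ n) : ℚ) : ℝ) = Q * mom c a n := by
    intro n hn
    rw [FL_eq h ha (X ^ n) (by rw [natDegree_X_pow]; exact hn), mom]
    congr 1
    refine tsum_congr fun t => ?_
    rw [map_pow, aeval_X]
  have hmat : (Matrix.of fun i j : Fin K => FL c a Q z (X ^ ((i : ℕ) + (j : ℕ)))).map
      (Rat.castHom ℝ) = (Q : ℝ) • (Matrix.of fun i j : Fin K => mom c a ((i : ℕ) + (j : ℕ))) := by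
    ext i j
    have hi := i.2
    have hj := j.2
    rw [Matrix.map_apply, Matrix.smul_apply, Matrix.of_apply, Matrix.of_apply, smul_eq_mul,
      ← hF _ (by omega)]
    rfl
  have hdet : ((hank (FL c a Q z) K : ℚ) : ℝ) = Matrix.det ((Matrix.of fun i j : Fin K =>
      FL c a Q z (X ^ ((i : ℕ) + (j : ℕ)))).map (Rat.castHom ℝ)) := by
    rw [hank]
    exact RingHom.map_det (Rat.castHom ℝ) _
  rw [hdet, hmat, Matrix.det_smul, Fintype.card_fin, hankS]

end ZT
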