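import Pool.Agent.Lib.ZT.PDefs

open Polynomial Finset Z579

namespace ZT

section tok

variable (C : Finset ℤ) (hC : C.Nonempty) (x : ℤ → ℕ → ℚ) (θ : ℤ → ℕ → ℝ)

/-- the class of the next token -/
private noncomputable def tch (N : ℤ → ℕ) : ℤ :=
  (Finset.exists_max_image C (fun c => θ c (N c)) hC).choose

private lemma tch_mem (N : ℤ → ℕ) : tch C hC θ N ∈ C :=
  (Finset.exists_max_image C (fun c => θ c (N c)) hC).choose_spec.1

private lemma tch_max (N : ℤ → ℕ) {c : ℤ} (hc : c ∈ C) :
    θ c (N c) ≤ θ (tch C hC θ N) (N (tch C hC θ N)) :=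
  (Finset.exists_max_image C (fun c => θ c (N c)) hC).choose_spec.2 c hc

/-- the numbers of tokens used after `i` steps -/
private noncomputable def tst : ℕ → ℤ → ℕ
  | 0 => fun _ => 0
  | i + 1 => Function.update (tst i) (tch C hC θ (tst i)) (tst i (tch C hC θ (tst i)) + 1)

private lemma tst_sum {M : Type*} [AddCommMonoid M] (g : ℤ → ℕ → M) (i : ℕ) :
    ∑ c ∈ C, ∑ j ∈ range (tst C hC θ i c), g c j =
      ∑ k ∈ range i, g (tch C hC θ (tst C hC θ k)) (tst C hC θ k (tch C hC θ (tst C hC θ k))) := by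
  induction i with
  | zero => simp [tst]
  | succ i ih =>
    rw [Finset.sum_range_succ, ← ih]
    have hmem := tch_mem C hC θ (tst C hC θ i)
    set c₀ := tch C hC θ (tst C hC θ i) with hc₀
    rw [← Finset.add_sum_erase C _ hmem,
      ← Finset.add_sum_erase C (fun c => ∑ j ∈ range (tst C hC θ i c), g c j) hmem]
    have h1 : tst C hC θ (i + 1) c₀ = tst C hC θ i c₀ + 1 := by
      show Function.update (tst C hC θ i) c₀ (tst C hC θ i c₀ + 1) c₀ = _
      rw [Function.update_self]
    have h2 : ∀ c ∈ C.erase c₀, tst C hC θ (i + 1) c = tst C hC θ i c := by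
      intro c hc
      show Function.update (tst C hC θ i) c₀ (tst C hC θ i c₀ + 1) c = _
      rw [Function.update_of_ne (Finset.ne_of_mem_erase hc)]
    have h3 : ∑ c ∈ C.erase c₀, ∑ j ∈ range (tst C hC θ (i + 1) c), g c j =
        ∑ c ∈ C.erase c₀, ∑ j ∈ range (tst C hC θ i c), g c j :=
      Finset.sum_congr rfl fun c hc => by rw [h2 c hc]
    rw [h1, Finset.sum_range_succ, h3]
    rw [add_assoc, add_assoc, add_comm (g c₀ _)]

private lemma tpol_monic (N : ℤ → ℕ) :
    (∏ c ∈ C, ∏ j ∈ range (N c), (X - Polynomial.C (x c j))).Monic :=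
  monic_prod_of_monic _ _ fun _ _ => monic_prod_of_monic _ _ fun _ _ => monic_X_sub_C _

private lemma tpol_natDegree (N : ℤ → ℕ) :
    (∏ c ∈ C, ∏ j ∈ range (N c), (X - Polynomial.C (x c j))).natDegree = ∑ c ∈ C, N c := by
  rw [natDegree_prod_of_monic _ _ fun _ _ => monic_prod_of_monic _ _ fun _ _ => monic_X_sub_C _]
  refine Finset.sum_congr rfl fun c _ => ?_
  rw [natDegree_prod_of_monic _ _ fun _ _ => monic_X_sub_C _]
  simp

end tok

theorem tok : Tok := by
  intro p L C x θ n K hp hC hθ hn hL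
  have : Fact p.Prime := ⟨hp⟩
  have key := VG_hank (p := p) L K
    (fun i => ∏ c ∈ C, ∏ j ∈ range (tst C hC θ i c), (X - Polynomial.C (x c j)))
    (fun i => θ (tch C hC θ (tst C hC θ i)) (tst C hC θ i (tch C hC θ (tst C hC θ i))))
    (fun i => tpol_monic C x _) (fun i => by
      rw [tpol_natDegree]
      have h1 := tst_sum C hC θ (fun _ _ => (1 : ℕ)) i
      simpa using h1)
    (fun i j => hL _ _ _ fun c hc => by
      have h1 := tch_max C hC θ (tst C hC θ i) hc
      have h2 := tch_max C hC θ (tst C hC θ j) hc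
      linarith)
  refine VG_mono key (neg_le_neg ?_)
  rw [← tst_sum C hC θ θ K]
  refine Finset.sum_le_sum fun c hc => ?_
  rcases le_total (tst C hC θ K c) (n c) with h | h
  · exact Finset.sum_le_sum_of_subset_of_nonneg (Finset.range_mono h) fun j _ _ => hθ c hc j
  · refine le_of_eq (Finset.sum_subset (Finset.range_mono h) fun j _ hj => ?_).symm
    exact hn c hc j (by simpa using hj)

end ZT
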