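import Pool.Agent.Lib.ZT.Defs
import Pool.Agent.Lib.Z579.VGL

/-!
# Valuations of the weights
-/

open Polynomial Finset Z579

namespace ZT

theorem wgtAll : WgtAll := by
  intro c p a Q K z u i hp hQz ha hu _ _ hK
  have hpf : Fact p.Prime := ⟨hp⟩
  have hK0 : (0 : ℝ) ≤ (i : ℝ) * K := by positivity
  have hu' : u ≤ (a : ℤ) - 1 := by
    rw [pc, Finset.mem_Icc] at hu
    exact hu.2
  have h1 : VG p (-((i : ℝ) * K)) (Hg c i (6 * (u + a - 1)).toNat) := by
    rw [Hg]
    refine VG.sum fun k hk => ?_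
    rw [Finset.mem_range] at hk
    have hk12 : k + 1 ≤ 12 * a := by omega
    have h2 : padicValNat p (k + 1) ≤ K :=
      ((padicValNat_le_nat_log (k + 1)).trans (Nat.log_mono_right hk12)).trans hK
    have h3 : VG p (-(K : ℝ)) (((k : ℚ) + 1)⁻¹) := by
      right
      rw [padicValRat.inv]
      have h4 : padicValRat p ((k : ℚ) + 1) = padicValNat p (k + 1) := by
        rw [← padicValRat.of_nat]; push_cast; rfl
      rw [h4]
      have h5 : (padicValNat p (k + 1) : ℝ) ≤ K := by exact_mod_cast h2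
      rw [Int.cast_neg, Int.cast_natCast]
      linarith
    have h6 : VG p (0 + -(K : ℝ)) (6 * ((k : ℚ) + 1)⁻¹) := by
      have := (VG.nat (p := p) 6).mul h3
      simpa using this
    have h7 := (VG.int (p := p) (gam c (k + 1))).mul (h6.pow i)
    refine VG.mono ?_ (le_of_eq ?_) (d := 0 + (i : ℝ) * (0 + -(K : ℝ)))
    · rw [div_eq_mul_inv]
      exact h7
    · ring
  have h2 : VG p (-((i : ℝ) * K)) ((Q : ℚ) * Hg c i (6 * (u + a - 1)).toNat) := by
    have := (VG.nat (p := p) Q).mul h1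
    simpa using this
  have h3 : VG p (-((i : ℝ) * K)) ((Q : ℚ) * z i) := (hQz i).mono (by linarith)
  rw [wg, mul_sub]
  exact h3.sub h2

end ZT
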