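import Pool.Agent.Lib.ZT.Defs

/-!
# The values are multiples of zeta values
-/

open Polynomial Finset Z579

namespace ZT

private lemma hasSum_dvd (d s : ℕ) (hd : 1 ≤ d) (hs : 2 ≤ s) :
    HasSum (fun n : ℕ => if d ∣ n + 1 then (6 / ((n : ℝ) + 1)) ^ s else 0)
      ((6 / (d : ℝ)) ^ s * zr s) := by
  have hd' : (0 : ℝ) < d := by exact_mod_cast hd
  have hg : Function.Injective (fun m : ℕ => d * (m + 1) - 1) := by
    intro a b hab
    simp only at hab
    have h1 : 1 ≤ d * (a + 1) := Nat.mul_pos hd (Nat.succ_pos a)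
    have h2 : 1 ≤ d * (b + 1) := Nat.mul_pos hd (Nat.succ_pos b)
    have h3 : d * (a + 1) = d * (b + 1) := by omega
    have h4 := Nat.eq_of_mul_eq_mul_left hd h3
    omega
  rw [← hg.hasSum_iff (f := fun n : ℕ => if d ∣ n + 1 then (6 / ((n : ℝ) + 1)) ^ s else 0)]
  · have hsum : Summable (fun n : ℕ => 1 / ((n : ℝ) + 1) ^ s) := by
      have h1 := (summable_nat_add_iff 1).mpr
        (Real.summable_one_div_nat_pow.mpr (by omega : 1 < s))
      refine h1.congr fun n => ?_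
      push_cast
      rfl
    have h2 : HasSum (fun n : ℕ => (6 / (d : ℝ)) ^ s * (1 / ((n : ℝ) + 1) ^ s))
        ((6 / (d : ℝ)) ^ s * zr s) := hsum.hasSum.mul_left _
    have h3 : (fun n : ℕ => (6 / (d : ℝ)) ^ s * (1 / ((n : ℝ) + 1) ^ s)) =
        (fun n : ℕ => if d ∣ n + 1 then (6 / ((n : ℝ) + 1)) ^ s else 0) ∘
          (fun m : ℕ => d * (m + 1) - 1) := by
      funext n
      have h4 : d * (n + 1) - 1 + 1 = d * (n + 1) :=
        Nat.sub_add_cancel (Nat.mul_pos hd (Nat.succ_pos n))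
      have h5 : ((d * (n + 1) - 1 : ℕ) : ℝ) + 1 = (d : ℝ) * ((n : ℝ) + 1) := by
        exact_mod_cast h4
      show (6 / (d : ℝ)) ^ s * (1 / ((n : ℝ) + 1) ^ s) =
        if d ∣ d * (n + 1) - 1 + 1 then (6 / (((d * (n + 1) - 1 : ℕ) : ℝ) + 1)) ^ s else 0
      rw [if_pos (by rw [h4]; exact Dvd.intro _ rfl), h5, ← div_div, div_pow (6 / (d : ℝ)),
        mul_one_div]
    rw [← h3]
    exact h2
  · intro n hn
    rw [if_neg]
    rintro ⟨k, hk⟩
    apply hn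
    have hk0 : k ≠ 0 := by
      rintro rfl
      simp at hk
    refine ⟨k - 1, ?_⟩
    show d * (k - 1 + 1) - 1 = n
    rw [Nat.sub_add_cancel (Nat.one_le_iff_ne_zero.mpr hk0)]
    omega

theorem zetaSum : ZetaSum := by
  intro c s hs
  have h6 := (hasSum_dvd 6 s (by norm_num) hs).mul_left ((c.1 : ℝ) - c.2.1 - c.2.2)
  have h3 := (hasSum_dvd 3 s (by norm_num) hs).mul_left (c.2.1 : ℝ)
  have h2 := (hasSum_dvd 2 s (by norm_num) hs).mul_left (c.2.2 : ℝ)
  have h := (h6.add h3).add h2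
  have e1 : (fun n : ℕ => (gam c (n + 1) : ℝ) * (6 / ((n : ℝ) + 1)) ^ s) =
      fun n : ℕ => ((c.1 : ℝ) - c.2.1 - c.2.2) *
        (if 6 ∣ n + 1 then (6 / ((n : ℝ) + 1)) ^ s else 0) +
        (c.2.1 : ℝ) * (if 3 ∣ n + 1 then (6 / ((n : ℝ) + 1)) ^ s else 0) +
        (c.2.2 : ℝ) * (if 2 ∣ n + 1 then (6 / ((n : ℝ) + 1)) ^ s else 0) := by
    funext n
    obtain ⟨y, hy⟩ : ∃ y : ℝ, y = (6 / ((n : ℝ) + 1)) ^ s := ⟨_, rfl⟩
    rw [← hy]
    unfold gam
    have hlt : (n + 1) % 6 < 6 := Nat.mod_lt _ (by norm_num)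
    by_cases q0 : (n + 1) % 6 = 0
    · rw [if_pos q0, if_pos (by omega), if_pos (by omega), if_pos (by omega)]
      ring
    · rw [if_neg q0, if_neg (show ¬ 6 ∣ n + 1 by omega)]
      by_cases q3 : (n + 1) % 6 = 3
      · rw [if_pos q3, if_pos (by omega), if_neg (show ¬ 2 ∣ n + 1 by omega)]
        ring
      · rw [if_neg q3, if_neg (show ¬ 3 ∣ n + 1 by omega)]
        by_cases q2 : (n + 1) % 6 = 2 ∨ (n + 1) % 6 = 4
        · rw [if_pos q2, if_pos (by omega)]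
          ring
        · rw [if_neg q2, if_neg (show ¬ 2 ∣ n + 1 by omega)]
          push_cast
          ring
  rw [e1, h.tsum_eq]
  have e6 : (6 / ((6 : ℕ) : ℝ)) ^ s = 1 := by norm_num
  have e3 : (6 / ((3 : ℕ) : ℝ)) ^ s = 2 ^ s := by norm_num
  have e2 : (6 / ((2 : ℕ) : ℝ)) ^ s = 3 ^ s := by norm_num
  rw [e6, e3, e2]
  ring

end ZT
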