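import Pool.Agent.Lib.ZT.Main
import Pool.Agent.Lib.ZT.Arch
import Pool.Agent.Lib.ZT.LocalDet
import Pool.Agent.Lib.ZT.NonVan
import Pool.Agent.Lib.ZT.OneCls
import Pool.Agent.Lib.ZT.Bounds
import Pool.Agent.Lib.ZT.PPart
import Pool.Agent.Lib.ZT.Tok
import Pool.Agent.Lib.ZT.Cnt
import Pool.Agent.Lib.ZT.PSum
import Pool.Agent.Lib.ZT.RealId
import Pool.Agent.Lib.ZT.ZetaSum
import Pool.Agent.Lib.ZT.WgtAll

/-!
# One of `ζ(5), ζ(9), ζ(11), ζ(13), ζ(15)` is irrational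
-/

open Polynomial Finset Z579

namespace ZT

theorem main_of_localDet (c : ℤ × ℤ × ℤ) (h : LocalDet c) : Main c :=
  main_of (A0 := -2099) (P0 := 2096.65) (by norm_num) realId archTot wgtAll
    (pGt_of tok (bounds (oneCls pPart)) cnt) nonVan pSum c h

theorem exists_isZ (c : ℤ × ℤ × ℤ)
    (h : ∀ s, Odd s → 3 ≤ s → s ≤ 15 →
      ((c.1 : ℝ) + c.2.1 * (2 ^ s - 1) + c.2.2 * (3 ^ s - 1) = 0 ∨ ¬ Irrational (zr s))) :
    ∃ z : ℕ → ℚ, IsZ c z := by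
  have h' : ∀ s, Odd s ∧ 3 ≤ s ∧ s ≤ 15 → ∃ q : ℚ,
      (q : ℝ) = ((c.1 : ℝ) + c.2.1 * (2 ^ s - 1) + c.2.2 * (3 ^ s - 1)) * zr s := by
    rintro s ⟨h1, h2, h3⟩
    rcases h s h1 h2 h3 with h4 | h4
    · exact ⟨0, by rw [h4]; simp⟩
    · unfold Irrational at h4
      rw [not_not] at h4
      obtain ⟨q, hq⟩ := h4
      exact ⟨(c.1 + c.2.1 * (2 ^ s - 1) + c.2.2 * (3 ^ s - 1)) * q, by rw [← hq]; push_cast; ring⟩
  classical
  refine ⟨fun s => if hs : Odd s ∧ 3 ≤ s ∧ s ≤ 15 then (h' s hs).choose else 0, ⟨?_, ?_⟩⟩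
  · intro s hs
    exact dif_neg hs
  · intro s h1 h2 h3
    have hs : Odd s ∧ 3 ≤ s ∧ s ≤ 15 := ⟨h1, h2, h3⟩
    rw [dif_pos hs, zetaSum c s (by omega)]
    exact (h' s hs).choose_spec

/-- at least one of `ζ(5), ζ(9), ζ(11), ζ(13), ζ(15)` is irrational -/
theorem one_of_5_9 :
    Irrational (∑' n : ℕ, 1 / ((n : ℝ) + 1) ^ 5) ∨ Irrational (∑' n : ℕ, 1 / ((n : ℝ) + 1) ^ 9) ∨
    Irrational (∑' n : ℕ, 1 / ((n : ℝ) + 1) ^ 11) ∨ Irrational (∑' n : ℕ, 1 / ((n : ℝ) + 1) ^ 13) ∨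
    Irrational (∑' n : ℕ, 1 / ((n : ℝ) + 1) ^ 15) := by
  by_contra hcon
  simp only [not_or] at hcon
  obtain ⟨h5, h9, h11, h13, h15⟩ := hcon
  refine main_of_localDet (100, -18, 1) localDet7 (exists_isZ _ ?_)
  intro s hs h1 h2
  obtain ⟨k, rfl⟩ := hs
  have h3 : k = 1 ∨ k = 2 ∨ k = 3 ∨ k = 4 ∨ k = 5 ∨ k = 6 ∨ k = 7 := by omega
  rcases h3 with rfl | rfl | rfl | rfl | rfl | rfl | rfl
  · left; norm_num
  · right; exact h5
  · left; norm_num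
  · right; exact h9
  · right; exact h11
  · right; exact h13
  · right; exact h15

end ZT
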