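import Pool.Agent.Lib.ZT.Defs
import Pool.Agent.Lib.DIM3.Main
import Pool.Agent.Lib.Z579.M6
import Pool.Agent.Lib.Z579.M6de

/-!
# Assembly for `T2(15)`
-/

open Polynomial Finset Z579

namespace ZT

lemma FL_smul (c : ℤ × ℤ × ℤ) (a Q : ℕ) (z : ℕ → ℚ) : FL c a Q z = (Q : ℚ) • FL c a 1 z := by
  have h : wg c a Q z = fun u i => (Q : ℚ) * wg c a 1 z u i := by
    funext u i
    simp [wg]
  rw [FL, FL, h, Lw_smul]

lemma hank_Q (c : ℤ × ℤ × ℤ) (a Q K : ℕ) (z : ℕ → ℚ) :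
    hank (FL c a Q z) K = (Q : ℚ) ^ K * hank (FL c a 1 z) K := by
  rw [FL_smul, hank_smul]

/-- a common denominator -/
lemma exists_den1 {z : ℕ → ℚ} (h : Adm z) :
    ∃ Q : ℕ, 1 ≤ Q ∧ (∀ s, ∃ k : ℤ, (Q : ℚ) * z s = k) ∧ ∀ s, (z s).den ∣ Q := by
  have hz : ∀ s, 16 ≤ s → z s = 0 := fun s hs => h s (fun h1 => by omega)
  set Q : ℕ := ∏ s ∈ Finset.range 16, (z s).den with hQ
  have h1 : ∀ s, (z s).den ∣ Q := by
    intro s
    by_cases hs : s < 16
    · exact Finset.dvd_prod_of_mem (fun s => (z s).den) (Finset.mem_range.2 hs)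
    · rw [hz s (by omega)]; simp
  have h3 : ∀ x : ℚ, x.den ∣ Q → ∃ k : ℤ, (Q : ℚ) * x = k := by
    intro x hx
    obtain ⟨k, hk⟩ := hx
    refine ⟨k * x.num, ?_⟩
    rw [hk]
    push_cast
    have : (x.den : ℚ) * x = x.num := by
      rw [mul_comm]; exact Rat.mul_den_eq_num x
    linear_combination (k : ℚ) * this
  exact ⟨Q, Finset.prod_pos fun s _ => (z s).den_pos, fun s => h3 _ (h1 s), h1⟩

/-- the assembly -/
theorem main_of {A0 P0 : ℝ} (hA : A0 + P0 < 0) (h1 : RealId) (h2 : ArchTot A0) (h3 : WgtAll)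
    (h4 : PGt) (h5 : NonVan) (h6 : PSum P0) (c : ℤ × ℤ × ℤ) (h7 : LocalDet c) : Main c := by
  rintro ⟨z, hzb⟩
  obtain ⟨Q, hQ1, hQz, hQzd⟩ := exists_den1 hzb.adm
  have hVz : ∀ p : ℕ, p.Prime → ∀ s, VG p 0 ((Q : ℚ) * z s) := by
    intro p hp s
    haveI : Fact p.Prime := ⟨hp⟩
    obtain ⟨k, hk⟩ := hQz s
    rw [hk]
    exact VG.int k
  set δ : ℝ := -(A0 + P0) / 4 with hδ
  have hδ0 : 0 < δ := by rw [hδ]; linarith
  obtain ⟨C, hC, hM6e⟩ := m6e 0 16 0
  obtain ⟨k6, h6'⟩ := h6 C δ hC hδ0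
  obtain ⟨k2, h2'⟩ := h2 c δ hδ0
  obtain ⟨p5, h5'⟩ := h5 c h7 z hzb.adm
  -- size of the term `K log Q`
  obtain ⟨kQ, hkQ⟩ : ∃ kQ : ℕ, ∀ k : ℕ, kQ ≤ k →
      (23 * (k : ℝ) + 12) * Real.log Q ≤ k ^ 2 * δ := by
    have hlQ : 0 ≤ Real.log Q := Real.log_nonneg (by exact_mod_cast hQ1)
    obtain ⟨N, hN⟩ := exists_nat_ge (35 * Real.log Q / δ)
    refine ⟨N + 1, fun k hk => ?_⟩
    have hk1 : (1 : ℝ) ≤ k := by
      have : 1 ≤ k := by omega
      exact_mod_cast this
    have hkN : (N : ℝ) ≤ k := by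
      have : N ≤ k := by omega
      exact_mod_cast this
    have h1 : 35 * Real.log Q ≤ k * δ := by
      rw [div_le_iff₀ hδ0] at hN
      nlinarith
    have h2 : (23 * (k : ℝ) + 12) * Real.log Q ≤ k * (35 * Real.log Q) := by
      nlinarith
    nlinarith
  obtain ⟨P, hPlt, hP⟩ := Nat.exists_infinite_primes (p5 + 2 * (Q + k6 + k2 + kQ + 30) + 4)
  obtain ⟨k, hk⟩ : ∃ k, P = 2 * k + 1 := by
    rcases hP.eq_two_or_odd' with h | h
    · omega
    · obtain ⟨k, hk⟩ := h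
      exact ⟨k, hk⟩
  have hkb : Q + k6 + k2 + kQ + 30 ≤ k := by omega
  set a := pa k with ha
  set K := pK k with hK
  have haP : 2 * a = 3 * P + 1 := by rw [ha, pa, hk]; ring
  have hKP : K = (23 * P + 1) / 2 := by rw [hK, pK, hk]; omega
  have hak : a = 3 * k + 2 := rfl
  have hKk : K = 23 * k + 12 := rfl
  have ha1 : 1 ≤ a := by omega
  -- nonvanishing
  have hne1 : hank (FL c a 1 z) K ≠ 0 := by
    rw [hKP]
    exact h5' P a hP (by omega) haP
  set D : ℚ := hank (FL c a Q z) K with hD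
  have hDeq : D = (Q : ℚ) ^ K * hank (FL c a 1 z) K := hank_Q _ _ _ _ _
  have hQ0 : (Q : ℚ) ≠ 0 := by
    have : Q ≠ 0 := by omega
    exact_mod_cast this
  have hD0 : D ≠ 0 := by
    rw [hDeq]
    exact mul_ne_zero (pow_ne_zero _ hQ0) hne1
  -- archimedean bound
  have hlogD : Real.log |((D : ℚ) : ℝ)| ≤ k ^ 2 * (-1150 * Real.log k + A0 + 2 * δ) := by
    have h11 := h2' k (by omega)
    have h12 := h1 c a Q K z hzb ha1 (by omega)
    rw [← hD] at h12
    have hDpos : 0 < |((D : ℚ) : ℝ)| := by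
      rw [abs_pos]; exact_mod_cast hD0
    have hQr : (0 : ℝ) < Q := by
      have : 0 < Q := by omega
      exact_mod_cast this
    have hle : |((D : ℚ) : ℝ)| ≤ (Q : ℝ) ^ K *
        Real.exp (k ^ 2 * (-1150 * Real.log k + A0 + δ)) := by
      rw [h12, abs_mul, abs_of_nonneg (by positivity : (0 : ℝ) ≤ (Q : ℝ) ^ K)]
      exact mul_le_mul_of_nonneg_left h11 (by positivity)
    have hlog := Real.log_le_log hDpos hle
    rw [Real.log_mul (by positivity) (Real.exp_pos _).ne', Real.log_exp, Real.log_pow] at hlog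
    have hq := hkQ k (by omega)
    have hKr : (K : ℝ) = 23 * k + 12 := by rw [hKk]; push_cast; ring
    rw [hKr] at hlog
    have e2 : (k : ℝ) ^ 2 * (-1150 * Real.log k + A0 + 2 * δ) =
      k ^ 2 * (-1150 * Real.log k + A0 + δ) + k ^ 2 * δ := by ring
    linarith
  -- valuations with `Q = 1` transfer to `D`
  have htr : ∀ p : ℕ, p.Prime → ∀ t : ℝ, VG p t (hank (FL c a 1 z) K) → VG p t D := by
    intro p hp t ht
    haveI : Fact p.Prime := ⟨hp⟩
    rw [hDeq]
    have := (DIM3.VG_npow hp Q K).mul ht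
    simpa using this
  have hbig : ∀ p : ℕ, p.Prime → a < p → ∀ s, VG p 0 (z s) := by
    intro p hp h s
    exact DIM3.VG_of_den hp hQ1 (by omega) (hQzd s)
  have hsq : ∀ p : ℕ, a < p → 12 * a ≤ p ^ 2 := by
    intro p h
    have h1 : 12 * a ≤ p * p := by
      have h2 : 12 * a ≤ 12 * p := by omega
      have h3 : 12 * p ≤ p * p := Nat.mul_le_mul_right p (by omega)
      omega
    rw [pow_two]; exact h1
  have hgt : ∀ p : ℕ, p.Prime → a < p → _ := fun p hp hap =>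
    h4 c p a K z hp (by omega) ha1 hap (hsq p hap) (hbig p hp hap)
  have hden := log_abs_ge D hD0 (6 * a) (by
    intro p hp hpa
    exact htr p hp 0 ((hgt p hp (by omega)).2.2.2.2 hpa))
  have har : (a : ℝ) = 3 * k + 2 := by rw [hak]; push_cast; ring
  have hKr : (K : ℝ) = 23 * k + 12 := by rw [hKk]; push_cast; ring
  have hk0 : (0 : ℝ) ≤ k := Nat.cast_nonneg k
  have hEnn : (0 : ℝ) ≤ 32 * a * K - 2 * (K : ℝ) ^ 2 := by
    rw [har, hKr]
    nlinarith
  have ha0 : (0 : ℝ) ≤ a := Nat.cast_nonneg a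
  have hpadic := h6' k (by omega) a K rfl rfl (fun p => (D.den.factorization p : ℝ))
    ?_ ?_ ?_ ?_ ?_ ?_
  · have h13 : (0 : ℝ) < (k : ℝ) ^ 2 := by
      have : 0 < k := by omega
      have : (0 : ℝ) < k := by exact_mod_cast this
      positivity
    have h14 : (k : ℝ) ^ 2 * (-1150 * Real.log k + A0 + 2 * δ) +
        k ^ 2 * (1150 * Real.log k + P0 + δ) = k ^ 2 * (A0 + P0 + 3 * δ) := by ring
    have h15 : A0 + P0 + 3 * δ < 0 := by rw [hδ]; linarith
    have h16 := mul_neg_of_pos_of_neg h13 h15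
    linarith
  · -- small primes
    intro p hp hp2
    haveI : Fact p.Prime := ⟨hp⟩
    have hp1 : (0 : ℝ) < (p : ℝ) - 1 := by
      have : (1 : ℝ) < p := by exact_mod_cast hp.one_lt
      linarith
    refine fact_le_of_VG hp hD0 (by positivity) ?_
    have hcall := hM6e p a a K (wg c a Q z) hp ha1 le_rfl (by norm_num) (by
      intro u hu i hi1 hi2
      have := h3 c p a Q (Nat.log p (2 * (a + a + K))) z u i hp (hVz p hp) ha1 hu hi1 hi2
        (Nat.log_mono_right (by omega))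
      refine VG.mono this (le_of_eq ?_)
      push_cast
      ring)
    refine VG.mono hcall (le_of_eq ?_)
    push_cast
    ring
  · -- middle primes
    intro p hp hp2 hp3
    haveI : Fact p.Prime := ⟨hp⟩
    have hp0 : (0 : ℝ) < (p : ℝ) := by exact_mod_cast hp.pos
    have hK0 : (0 : ℝ) ≤ K := Nat.cast_nonneg K
    refine fact_le_of_VG hp hD0 (by positivity) ?_
    have hpne : p ≠ 2 := by
      rintro rfl
      omega
    have hlog1 : Nat.log p (12 * a) ≤ 1 := by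
      have h0 : 12 * a ≠ 0 := by omega
      have hlt : 12 * a < p ^ 2 := by
        refine lt_of_le_of_ne hp2 ?_
        intro he
        have hd : p ∣ 12 * a := ⟨p, by rw [he, pow_two]⟩
        have h2d : 2 ∣ p ^ 2 := ⟨6 * a, by omega⟩
        have := (Nat.prime_dvd_prime_iff_eq Nat.prime_two hp).1 (Nat.prime_two.dvd_of_dvd_pow h2d)
        omega
      have := Nat.log_lt_of_lt_pow h0 hlt
      omega
    have hcall := m6a p 0 16 0 a a K (wg c a Q z) hp hpne hp3 le_rfl (by omega) (by norm_num) (by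
      intro u hu i hi1 hi2
      have := h3 c p a Q 1 z u i hp (hVz p hp) ha1 hu hi1 hi2 hlog1
      refine VG.mono this (le_of_eq ?_)
      push_cast
      ring)
    refine VG.mono hcall (le_of_eq ?_)
    push_cast
    ring
  · intro p hp hp2 hp3
    have hle : (p : ℝ) ≤ 2 * a := by exact_mod_cast hp3
    obtain ⟨g1, g2, g3⟩ := (hgt p hp hp2).1 hp3
    refine ⟨fact_le_of_VG hp hD0 (by linarith) (htr p hp _ g1),
      fact_le_of_VG hp hD0 (by linarith) (htr p hp _ g2),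
      fact_le_of_VG hp hD0 (by linarith) (htr p hp _ g3)⟩
  · intro p hp hp2 hp3
    have hle : (p : ℝ) ≤ 3 * a := by exact_mod_cast hp3
    exact fact_le_of_VG hp hD0 (by linarith) (htr p hp _ ((hgt p hp (by omega)).2.1 hp2 hp3))
  · intro p hp hp2 hp3
    have hle : (p : ℝ) ≤ 4 * a := by exact_mod_cast hp3
    exact fact_le_of_VG hp hD0 (by linarith) (htr p hp _ ((hgt p hp (by omega)).2.2.1 hp2 hp3))
  · intro p hp hp2 hp3
    have hle : (p : ℝ) ≤ 6 * a := by exact_mod_cast hp3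
    exact fact_le_of_VG hp hD0 (by linarith) (htr p hp _ ((hgt p hp (by omega)).2.2.2.1 hp2 hp3))

end ZT
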