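import Pool.Agent.Lib.ZT.NV1

/-!
# N2, part 2: weights, the sum over the classes
-/

open Polynomial Finset Z579

namespace ZT

lemma gam_add_six (c : ℤ × ℤ × ℤ) (n : ℕ) : gam c (n + 6) = gam c n := by
  unfold gam
  rw [Nat.add_mod_right]

lemma gam_mod (c : ℤ × ℤ × ℤ) (n : ℕ) : gam c n = gam c (n % 6) := by
  unfold gam
  rw [Nat.mod_mod]

lemma Hg_succ (c : ℤ × ℤ × ℤ) (s n : ℕ) :
    Hg c s (n + 1) = Hg c s n + (gam c (n + 1) : ℚ) * (6 / ((n : ℚ) + 1)) ^ s := by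
  rw [Hg, Finset.sum_range_succ, ← Hg]

section
variable {p : ℕ} [hp : Fact p.Prime]

lemma mod_six_of_prime (hp5 : 5 ≤ p) : p % 6 = 1 ∨ p % 6 = 5 := by
  have h2 : p % 2 = 1 := by
    rcases hp.out.eq_two_or_odd with h | h
    · omega
    · exact h
  have h3 : p % 3 ≠ 0 := by
    intro h
    have := (Nat.prime_dvd_prime_iff_eq Nat.prime_three hp.out).1 (Nat.dvd_of_mod_eq_zero h)
    omega
  omega

lemma gam_mul_prime (hp5 : 5 ≤ p) (c : ℤ × ℤ × ℤ) (m : ℕ) : gam c (p * m) = gam c m := by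
  rw [gam_mod c (p * m), gam_mod c m, Nat.mul_mod]
  have hm : m % 6 < 6 := Nat.mod_lt _ (by norm_num)
  generalize m % 6 = r at hm
  rcases mod_six_of_prime (p := p) hp5 with h | h <;> rw [h] <;> interval_cases r <;> rfl

lemma red_gterm {c : ℤ × ℤ × ℤ} {n : ℕ} (hn : ¬ p ∣ n + 1) (s : ℕ) :
    red p ((gam c (n + 1) : ℚ) * (6 / ((n : ℚ) + 1)) ^ s)
      ((gam c (n + 1) : ZMod p) * (6 * ((n : ZMod p) + 1)⁻¹) ^ s) := by
  have h1 : ((n : ZMod p) + 1) ≠ 0 := by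
    intro h
    apply hn
    rw [← ZMod.natCast_eq_zero_iff]
    exact_mod_cast h
  refine red_mul (red_int _) (red_pow ?_ s)
  rw [div_eq_mul_inv]
  refine red_mul (by simpa using red_int (p := p) 6) ?_
  exact red_inv (by simpa using red_add (red_nat (p := p) n) red_one) h1

/-- `Hg` modulo `p` -/
noncomputable def Hgp (p : ℕ) [Fact p.Prime] (c : ℤ × ℤ × ℤ) (s n : ℕ) : ZMod p :=
  ∑ k ∈ range n, (gam c (k + 1) : ZMod p) * (6 * ((k : ZMod p) + 1)⁻¹) ^ s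

lemma red_Hg {c : ℤ × ℤ × ℤ} {s n : ℕ} (hn : n < p) : red p (Hg c s n) (Hgp p c s n) := by
  unfold Hg Hgp
  refine red_sum _ _ _ fun k hk => red_gterm ?_ s
  rw [mem_range] at hk
  intro hd
  have := Nat.le_of_dvd (by omega) hd
  omega

lemma Hg_split (hp5 : 5 ≤ p) (c : ℤ × ℤ × ℤ) (s n : ℕ) :
    ∃ x : ℚ, (p : ℚ) ^ s * Hg c s n = Hg c s (n / p) + (p : ℚ) ^ s * x ∧ ∃ y, red p x y := by
  have hp0 : (p : ℚ) ≠ 0 := by exact_mod_cast hp.out.ne_zero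
  induction n with
  | zero => exact ⟨0, by simp [Hg], 0, red_zero⟩
  | succ n ih =>
    obtain ⟨x, hx, y, hy⟩ := ih
    rw [Hg_succ, Nat.succ_div]
    by_cases hd : p ∣ n + 1
    · refine ⟨x, ?_, y, hy⟩
      rw [if_pos hd, Hg_succ, mul_add, hx]
      have h1 : (n + 1) / p = n / p + 1 := by rw [Nat.succ_div, if_pos hd]
      have h2 : n + 1 = p * (n / p + 1) := by
        rw [← h1]; exact (Nat.mul_div_cancel' hd).symm
      have h3 : (n : ℚ) + 1 = p * (((n / p : ℕ) : ℚ) + 1) := by exact_mod_cast h2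
      have h4 : (((n / p : ℕ) : ℚ) + 1) ≠ 0 := by positivity
      have h5 : gam c (n + 1) = gam c (n / p + 1) := by
        conv_lhs => rw [h2]
        exact gam_mul_prime hp5 c _
      have h6 : (p : ℚ) ^ s * (6 / (p * (((n / p : ℕ) : ℚ) + 1))) ^ s =
          (6 / (((n / p : ℕ) : ℚ) + 1)) ^ s := by
        rw [← mul_pow]
        congr 1
        field_simp
      rw [h5, h3]
      linear_combination (gam c (n / p + 1) : ℚ) * h6
    · refine ⟨x + (gam c (n + 1) : ℚ) * (6 / ((n : ℚ) + 1)) ^ s, ?_, _,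
        red_add hy (red_gterm hd s)⟩
      rw [if_neg hd, add_zero, mul_add, hx]
      ring

lemma red_wg_gen (hp5 : 5 ≤ p) {c : ℤ × ℤ × ℤ} {a m : ℕ} {z : ℕ → ℚ} {u : ℤ} {i : ℕ}
    (hz : VG p 0 (z i)) (hi : i ≠ 0) (hm : (6 * (u + a - 1)).toNat / p = m) (hmp : m < p) :
    red p ((p : ℚ) ^ i * wg c a 1 z u i) (-Hgp p c i m) := by
  obtain ⟨x, hx, y1, hy1⟩ := Hg_split (p := p) hp5 c i (6 * (u + a - 1)).toNat
  obtain ⟨y2, hy2⟩ := exists_red hz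
  have h1 : (p : ℚ) ^ i * wg c a 1 z u i = (p : ℚ) ^ i * z i - Hg c i m - (p : ℚ) ^ i * x := by
    rw [wg, Nat.cast_one, one_mul, mul_sub, hx, hm]
    ring
  rw [h1]
  have := red_sub (red_sub (red_ppow_mul hy2 hi) (red_Hg (c := c) (s := i) hmp))
    (red_ppow_mul hy1 hi)
  simpa using this

/-! ### symmetrised weights -/

/-- contribution of one pole, symmetrised weights -/
noncomputable def Sv (a : ℕ) (ω : ℤ → ℕ → ℚ) (u : ℤ) (G : ℚ[X]) : ℚ :=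
  ∑ i ∈ Finset.Icc 1 16, DIM3.ws ω u i * Acoef 16 0 a a u i G

omit hp in
lemma Lw_eq_sum_Sv {a : ℕ} (ha : 1 ≤ a) (ω : ℤ → ℕ → ℚ) (G : ℚ[X]) :
    Lw 0 16 0 a a ω G = ∑ u ∈ pc a, Sv a ω u G := by
  have h1 : Lw 0 16 0 a a ω G = ∑ u ∈ pc a, ∑ i ∈ Finset.Icc 1 16,
      ω u i * Acoef 16 0 a a u i G := by
    rw [Lw_apply]
    refine Finset.sum_congr rfl fun u _ => Finset.sum_congr rfl fun i _ => ?_
    simp
  have h2 : ∑ u ∈ pc a, ∑ i ∈ Finset.Icc 1 16, ω u i * Acoef 16 0 a a u i G =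
      ∑ u ∈ pc a, ∑ i ∈ Finset.Icc 1 16, (-1) ^ (i + 1) * ω (-u) i * Acoef 16 0 a a u i G := by
    refine Finset.sum_nbij' (fun u => -u) (fun u => -u) (fun u hu => neg_mem_pc.2 hu)
      (fun u hu => neg_mem_pc.2 hu) (fun u _ => neg_neg u) (fun u _ => neg_neg u) ?_
    intro u hu
    refine Finset.sum_congr rfl fun i hi => ?_
    rw [Finset.mem_Icc] at hi
    rw [neg_neg, Acoef_neg ha hu (by decide) hi.2]
    have h3 : ((-1 : ℚ) ^ (i + 1)) * (-1) ^ (i + 1) = 1 := by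
      rw [← mul_pow]; norm_num
    linear_combination (-(ω u i * Acoef 16 0 a a u i G)) * h3
  have h3 : Lw 0 16 0 a a ω G = (∑ u ∈ pc a, ∑ i ∈ Finset.Icc 1 16,
      ω u i * Acoef 16 0 a a u i G + ∑ u ∈ pc a, ∑ i ∈ Finset.Icc 1 16,
      (-1) ^ (i + 1) * ω (-u) i * Acoef 16 0 a a u i G) / 2 := by
    rw [← h2, h1]; ring
  rw [h3, ← Finset.sum_add_distrib, Finset.sum_div]
  refine Finset.sum_congr rfl fun u _ => ?_
  rw [← Finset.sum_add_distrib, Finset.sum_div, Sv]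
  refine Finset.sum_congr rfl fun i _ => ?_
  rw [DIM3.ws]
  ring

omit hp in
lemma Sv_neg {a : ℕ} (ha : 1 ≤ a) (ω : ℤ → ℕ → ℚ) {u : ℤ} (hu : u ∈ pc a) (G : ℚ[X]) :
    Sv a ω (-u) G = Sv a ω u G := by
  rw [Sv, Sv]
  refine Finset.sum_congr rfl fun i hi => ?_
  rw [Finset.mem_Icc] at hi
  rw [Acoef_neg ha hu (by decide) hi.2, DIM3.ws, DIM3.ws, neg_neg]
  have h3 : ((-1 : ℚ) ^ (i + 1)) * (-1) ^ (i + 1) = 1 := by
    rw [← mul_pow]; norm_num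
  linear_combination (ω u i / 2 * Acoef 16 0 a a u i G) * h3

/-! ### the classes -/

/-- representatives of the noncentral classes, `p = 2h+1` -/
noncomputable def Dn (h : ℕ) : Finset ℤ := Finset.Icc (-(3 * h + 1) : ℤ) (-(2 * h + 2))

/-- representatives of all classes -/
noncomputable def Da (h : ℕ) : Finset ℤ := insert 0 (Dn h)

lemma mem_Dn {h : ℕ} {c : ℤ} : c ∈ Dn h ↔ -(3 * (h : ℤ) + 1) ≤ c ∧ c ≤ -(2 * (h : ℤ) + 2) := by
  simp [Dn]

omit hp in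
lemma sum_cls_nv {h : ℕ} (hh : p = 2 * h + 1) (f : ℤ → ℚ)
    (hf : ∀ u ∈ pc (3 * h + 2), f (-u) = f u) :
    ∑ u ∈ pc (3 * h + 2), f u = ∑ j ∈ Finset.Icc (-1 : ℤ) 1, f (0 + j * p) +
      ∑ c ∈ Dn h, ∑ j ∈ Finset.Icc (0 : ℤ) 2, 2 * f (c + j * p) := by
  classical
  have hpz : (p : ℤ) = 2 * h + 1 := by exact_mod_cast hh
  rw [hpz]
  set A : Finset ℤ := (Finset.Icc (-1 : ℤ) 1).image (fun j => 0 + j * (2 * (h : ℤ) + 1)) with hA
  set B : Finset ℤ := (Dn h ×ˢ Finset.Icc (0 : ℤ) 2).image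
    (fun x => x.1 + x.2 * (2 * (h : ℤ) + 1)) with hB
  set C : Finset ℤ := (Dn h ×ˢ Finset.Icc (0 : ℤ) 2).image
    (fun x => -(x.1 + x.2 * (2 * (h : ℤ) + 1))) with hC
  have mA : ∀ u, u ∈ A ↔ ∃ j : ℤ, (-1 ≤ j ∧ j ≤ 1) ∧ 0 + j * (2 * (h : ℤ) + 1) = u := by
    intro u; simp [hA]
  have mB : ∀ u, u ∈ B ↔ ∃ c j : ℤ, ((-(3 * (h : ℤ) + 1) ≤ c ∧ c ≤ -(2 * (h : ℤ) + 2)) ∧
      (0 ≤ j ∧ j ≤ 2)) ∧ c + j * (2 * (h : ℤ) + 1) = u := by
    intro u
    rw [hB, Finset.mem_image]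
    constructor
    · rintro ⟨⟨c, j⟩, hx, rfl⟩
      rw [Finset.mem_product, mem_Dn, Finset.mem_Icc] at hx
      exact ⟨c, j, hx, rfl⟩
    · rintro ⟨c, j, hx, rfl⟩
      exact ⟨⟨c, j⟩, by rw [Finset.mem_product, mem_Dn, Finset.mem_Icc]; exact hx, rfl⟩
  have mC : ∀ u, u ∈ C ↔ ∃ c j : ℤ, ((-(3 * (h : ℤ) + 1) ≤ c ∧ c ≤ -(2 * (h : ℤ) + 2)) ∧
      (0 ≤ j ∧ j ≤ 2)) ∧ -(c + j * (2 * (h : ℤ) + 1)) = u := by
    intro u
    rw [hC, Finset.mem_image]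
    constructor
    · rintro ⟨⟨c, j⟩, hx, rfl⟩
      rw [Finset.mem_product, mem_Dn, Finset.mem_Icc] at hx
      exact ⟨c, j, hx, rfl⟩
    · rintro ⟨c, j, hx, rfl⟩
      exact ⟨⟨c, j⟩, by rw [Finset.mem_product, mem_Dn, Finset.mem_Icc]; exact hx, rfl⟩
  have hAB : Disjoint A B := by
    rw [Finset.disjoint_left]
    intro u h1 h2
    rw [mA] at h1
    rw [mB] at h2
    obtain ⟨j, ⟨h3, h4⟩, rfl⟩ := h1
    obtain ⟨c, j', ⟨⟨h5, h6⟩, h7, h8⟩, h9⟩ := h2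
    interval_cases j <;> interval_cases j' <;> omega
  have hABC : Disjoint (A ∪ B) C := by
    rw [Finset.disjoint_left]
    intro u h1 h2
    rw [mC] at h2
    obtain ⟨c, j', ⟨⟨h5, h6⟩, h7, h8⟩, h9⟩ := h2
    rw [Finset.mem_union, mA, mB] at h1
    rcases h1 with ⟨j, ⟨h3, h4⟩, h10⟩ | ⟨c', j, ⟨⟨h3, h4⟩, h11, h12⟩, h10⟩
    · interval_cases j <;> interval_cases j' <;> omega
    · interval_cases j <;> interval_cases j' <;> omega
  have hU : pc (3 * h + 2) = (A ∪ B) ∪ C := by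
    ext u
    rw [mem_pc, Finset.mem_union, Finset.mem_union, mA, mB, mC]
    push_cast
    constructor
    · rintro ⟨h1, h2⟩
      have hq : ∃ q : ℤ, (0 ≤ q ∧ q ≤ 2) ∧ q * (2 * (h : ℤ) + 1) ≤ u + 3 * h + 1 ∧
          u + 3 * h + 1 < (q + 1) * (2 * (h : ℤ) + 1) := by
        by_cases g1 : u + 3 * h + 1 < 2 * h + 1
        · exact ⟨0, by norm_num, by omega, by omega⟩
        by_cases g2 : u + 3 * h + 1 < 2 * (2 * h + 1)
        · exact ⟨1, by norm_num, by omega, by omega⟩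
        · exact ⟨2, by norm_num, by omega, by omega⟩
      obtain ⟨q, ⟨hq0, hq4⟩, hq1, hq2⟩ := hq
      by_cases r1 : u + 3 * h + 1 < q * (2 * (h : ℤ) + 1) + h
      · left; right
        refine ⟨u - q * (2 * h + 1), q, ⟨⟨?_, ?_⟩, hq0, hq4⟩, by ring⟩
        · interval_cases q <;> omega
        · interval_cases q <;> omega
      by_cases r2 : q * (2 * (h : ℤ) + 1) + h = u + 3 * h + 1
      · left; left
        refine ⟨q - 1, ⟨by omega, by omega⟩, ?_⟩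
        interval_cases q <;> omega
      · right
        refine ⟨-u - (2 - q) * (2 * h + 1), 2 - q, ⟨⟨?_, ?_⟩, by omega, by omega⟩, by ring⟩
        · interval_cases q <;> omega
        · interval_cases q <;> omega
    · rintro ((⟨j, ⟨h3, h4⟩, rfl⟩ | ⟨c, j, ⟨⟨h3, h4⟩, h5, h6⟩, rfl⟩) |
        ⟨c, j, ⟨⟨h3, h4⟩, h5, h6⟩, rfl⟩)
      · interval_cases j <;> constructor <;> omega
      · interval_cases j <;> constructor <;> omega
      · interval_cases j <;> constructor <;> omega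
  have hBpc : ∀ c ∈ Dn h, ∀ j ∈ Finset.Icc (0 : ℤ) 2,
      c + j * (2 * (h : ℤ) + 1) ∈ pc (3 * h + 2) := by
    intro c hc j hj
    rw [hU, Finset.mem_union, Finset.mem_union]
    left; right
    rw [mB]
    exact ⟨c, j, ⟨mem_Dn.1 hc, Finset.mem_Icc.1 hj⟩, rfl⟩
  have hinj : ∀ x ∈ Dn h ×ˢ Finset.Icc (0 : ℤ) 2, ∀ y ∈ Dn h ×ˢ Finset.Icc (0 : ℤ) 2,
      x.1 + x.2 * (2 * (h : ℤ) + 1) = y.1 + y.2 * (2 * (h : ℤ) + 1) → x = y := by
    rintro ⟨c, j⟩ hx ⟨c', j'⟩ hy hxy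
    rw [Finset.mem_product, mem_Dn, Finset.mem_Icc] at hx hy
    obtain ⟨⟨h1, h2⟩, h3, h4⟩ := hx
    obtain ⟨⟨h5, h6⟩, h7, h8⟩ := hy
    simp only at h1 h2 h3 h4 h5 h6 h7 h8 hxy
    have h9 : j = j' := by
      interval_cases j <;> interval_cases j' <;> omega
    subst h9
    rw [Prod.mk.injEq]
    exact ⟨by linarith, rfl⟩
  rw [hU, Finset.sum_union hABC, Finset.sum_union hAB, hA, hB, hC, Finset.sum_image,
    Finset.sum_image, Finset.sum_image, Finset.sum_product, Finset.sum_product, add_assoc,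
    ← Finset.sum_add_distrib]
  · congr 1
    refine Finset.sum_congr rfl fun c hc => ?_
    rw [← Finset.sum_add_distrib]
    refine Finset.sum_congr rfl fun j hj => ?_
    simp only
    rw [hf _ (hBpc c hc j hj)]
    ring
  · intro x hx y hy hxy
    exact hinj x hx y hy (by simpa using neg_injective hxy)
  · intro x hx y hy hxy
    exact hinj x hx y hy hxy
  · intro x _ y _ hxy
    have h1 : (2 * (h : ℤ) + 1) ≠ 0 := by omega
    have h2 : x * (2 * (h : ℤ) + 1) = y * (2 * (h : ℤ) + 1) := by simpa using hxy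
    exact mul_right_cancel₀ h1 h2

end

end ZT
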