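import Pool.Agent.Lib.ZT.NV3

/-!
# N2, part 4: the weights, the local moments
-/

open Polynomial Finset Z579

namespace ZT

section
variable {p : ℕ} [hp : Fact p.Prime]

/-! ### weights -/

lemma Hgp_succ (c : ℤ × ℤ × ℤ) (s n : ℕ) : Hgp p c s (n + 1) =
    Hgp p c s n + (gam c (n + 1) : ZMod p) * (6 * ((n : ZMod p) + 1)⁻¹) ^ s := by
  rw [Hgp, Finset.sum_range_succ, ← Hgp]

lemma Hgp_one (c : ℤ × ℤ × ℤ) (s l : ℕ) : Hgp p c s (6 * l + 1) = Hgp p c s (6 * l) := by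
  have h : gam c (6 * l + 1) = 0 := by
    have h1 : (6 * l + 1) % 6 = 1 := by omega
    unfold gam
    rw [h1]; simp
  rw [Hgp_succ, h]
  simp

lemma Hgp_five (c : ℤ × ℤ × ℤ) (s l : ℕ) : Hgp p c s (6 * l + 5) = Hgp p c s (6 * l + 4) := by
  have h : gam c (6 * l + 4 + 1) = 0 := by
    have h1 : (6 * l + 4 + 1) % 6 = 5 := by omega
    unfold gam
    rw [h1]; simp
  have h5 : 6 * l + 5 = 6 * l + 4 + 1 := rfl
  rw [h5, Hgp_succ, h]
  simp

/-- the series of weights -/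
noncomputable def VT (p : ℕ) [Fact p.Prime] (c : ℤ × ℤ × ℤ) (t t' : ℕ) (j : ℤ) :
    PowerSeries (ZMod p) := PowerSeries.mk fun n => -(2 : ZMod p)⁻¹ *
  (Hgp p c (n + 1) (6 * j.toNat + t) + (-1) ^ (n + 2) * Hgp p c (n + 1) (6 * (2 - j).toNat + t'))

lemma hwT (hp5 : 5 < p) {c : ℤ × ℤ × ℤ} {a : ℕ} {z : ℕ → ℚ} (hz : ∀ s, VG p 0 (z s)) {j u : ℤ}
    {t t' m1 m2 : ℕ} (h1 : (6 * (u + a - 1)).toNat / p = m1)
    (h2 : (6 * (-u + a - 1)).toNat / p = m2) (hm1 : m1 < p) (hm2 : m2 < p)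
    {i : ℕ} (hi : 1 ≤ i) (e1 : Hgp p c i m1 = Hgp p c i (6 * j.toNat + t))
    (e2 : Hgp p c i m2 = Hgp p c i (6 * (2 - j).toNat + t')) :
    ∃ w : ℚ, (p : ℚ) ^ i * DIM3.ws (wg c a 1 z) u i = (p : ℚ) ^ 0 * w ∧
      red p w (PowerSeries.coeff (i - 1) (VT p c t t' j)) := by
  have g1 := red_wg_gen (p := p) (by omega) (c := c) (hz i) (by omega) h1 hm1
  have g2 := red_wg_gen (p := p) (by omega) (c := c) (hz i) (by omega) h2 hm2
  have hs : red p ((-1 : ℚ) ^ (i + 1)) ((-1) ^ (i + 1)) := by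
    have := red_pow (red_neg (red_one (p := p))) (i + 1)
    exact this
  refine ⟨_, (by rw [pow_zero, one_mul]), ?_⟩
  obtain ⟨i, rfl⟩ := Nat.exists_eq_add_of_le' hi
  rw [Nat.add_sub_cancel, VT, PowerSeries.coeff_mk, DIM3.ws, ← e1, ← e2]
  have h6 := red_mul (red_inv (red_int (p := p) 2) (by simpa using DIM3.two_ne hp5))
    (red_add g1 (red_mul hs g2))
  convert h6 using 1
  · push_cast; ring
  · push_cast; ring

/-- types of the classes -/
def tya (h : ℕ) (c : ℤ) : ℕ := if 3 * (c + 3 * h + 1) < 2 * h + 1 then 0 else 2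

def tyb (h : ℕ) (c : ℤ) : ℕ := if 3 * (c + 3 * h + 2) ≤ 2 * h + 1 then 4 else 3

omit hp in
lemma ty_cases {h : ℕ} (c : ℤ) : (tya h c = 0 ∧ tyb h c = 4) ∨
    (tya h c = 0 ∧ tyb h c = 3) ∨ (tya h c = 2 ∧ tyb h c = 3) := by
  unfold tya tyb
  split_ifs with h1 h2 h2
  · left; exact ⟨rfl, rfl⟩
  · right; left; exact ⟨rfl, rfl⟩
  · omega
  · right; right; exact ⟨rfl, rfl⟩

lemma hwN {h : ℕ} (hh : p = 2 * h + 1) (hp20 : 20 < p) {cc : ℤ × ℤ × ℤ} {z : ℕ → ℚ}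
    (hz : ∀ s, VG p 0 (z s)) {c : ℤ} (hc : c ∈ Dn h) {j : ℤ} (hj : j ∈ Finset.Icc (0 : ℤ) 2)
    {i : ℕ} (hi : 1 ≤ i) :
    ∃ w : ℚ, (p : ℚ) ^ i * DIM3.ws (wg cc (3 * h + 2) 1 z) (c + j * p) i = (p : ℚ) ^ 0 * w ∧
      red p w (PowerSeries.coeff (i - 1) (VT p cc (tya h c) (tyb h c) j)) := by
  have hpz : (p : ℤ) = 2 * h + 1 := by exact_mod_cast hh
  rw [mem_Dn] at hc
  have hj' := Finset.mem_Icc.1 hj
  obtain ⟨j0, hj0⟩ : ∃ j0 : ℕ, j = j0 := ⟨j.toNat, by omega⟩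
  have hj2 : j0 ≤ 2 := by omega
  have hjn : j.toNat = j0 := by omega
  have hjn' : (2 - j).toNat = 2 - j0 := by omega
  -- first index
  have A1 : ∃ m1 : ℕ, (6 * (c + j * p + ((3 * h + 2 : ℕ) : ℤ) - 1)).toNat / p = m1 ∧ m1 < p ∧
      Hgp p cc i m1 = Hgp p cc i (6 * j.toNat + tya h c) := by
    unfold tya
    split_ifs with h1
    · by_cases h2 : 6 * (c + 3 * h + 1) < 2 * h + 1
      · refine ⟨6 * j0, ?_, by omega, by rw [hjn, add_zero]⟩
        refine DIM3.toNat_div (r := 6 * (c + 3 * h + 1)) ?_ (by omega) (by omega)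
        rw [hj0]; push_cast; ring
      · refine ⟨6 * j0 + 1, ?_, by omega, by rw [hjn, add_zero, Hgp_one]⟩
        refine DIM3.toNat_div (r := 6 * (c + 3 * h + 1) - p) ?_ (by omega) (by omega)
        rw [hj0]; push_cast; ring
    · refine ⟨6 * j0 + 2, ?_, by omega, by rw [hjn]⟩
      refine DIM3.toNat_div (r := 6 * (c + 3 * h + 1) - 2 * p) ?_ (by omega) (by omega)
      rw [hj0]; push_cast; ring
  have A2 : ∃ m2 : ℕ, (6 * (-(c + j * p) + ((3 * h + 2 : ℕ) : ℤ) - 1)).toNat / p = m2 ∧ m2 < p ∧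
      Hgp p cc i m2 = Hgp p cc i (6 * (2 - j).toNat + tyb h c) := by
    have e0 : ((2 - j0 : ℕ) : ℤ) = 2 - j := by rw [hj0]; omega
    unfold tyb
    split_ifs with h1
    · by_cases h2 : 6 * (c + 3 * h + 2) ≤ 2 * h + 1
      · refine ⟨6 * (2 - j0) + 5, ?_, by omega, by rw [hjn', Hgp_five]⟩
        refine DIM3.toNat_div (r := p - 6 * (c + 3 * h + 2)) ?_ (by omega) (by omega)
        push_cast
        rw [e0, hpz]; ring
      · refine ⟨6 * (2 - j0) + 4, ?_, by omega, by rw [hjn']⟩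
        refine DIM3.toNat_div (r := 2 * p - 6 * (c + 3 * h + 2)) ?_ (by omega) (by omega)
        push_cast
        rw [e0, hpz]; ring
    · refine ⟨6 * (2 - j0) + 3, ?_, by omega, by rw [hjn']⟩
      refine DIM3.toNat_div (r := 3 * p - 6 * (c + 3 * h + 2)) ?_ (by omega) (by omega)
      push_cast
      rw [e0, hpz]; ring
  obtain ⟨m1, g1, g2, g3⟩ := A1
  obtain ⟨m2, g4, g5, g6⟩ := A2
  exact hwT (by omega) hz g1 g4 g2 g5 hi g3 g6

lemma hwC {h : ℕ} (hh : p = 2 * h + 1) (hp20 : 20 < p) {cc : ℤ × ℤ × ℤ} {z : ℕ → ℚ}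
    (hz : ∀ s, VG p 0 (z s)) {j : ℤ} (hj : j ∈ Finset.Icc (-1 : ℤ) 1)
    {i : ℕ} (hi : 1 ≤ i) :
    ∃ w : ℚ, (p : ℚ) ^ i * DIM3.ws (wg cc (3 * h + 2) 1 z) (0 + j * p) i = (p : ℚ) ^ 0 * w ∧
      red p w (PowerSeries.coeff (i - 1) (VT p cc 2 2 (j + 1))) := by
  have hpz : (p : ℤ) = 2 * h + 1 := by exact_mod_cast hh
  have hj' := Finset.mem_Icc.1 hj
  obtain ⟨j0, hj0⟩ : ∃ j0 : ℕ, j + 1 = j0 := ⟨(j + 1).toNat, by omega⟩
  have hj2 : j0 ≤ 2 := by omega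
  have hjn : (j + 1).toNat = j0 := by omega
  have hjn' : (2 - (j + 1)).toNat = 2 - j0 := by omega
  have e0 : ((2 - j0 : ℕ) : ℤ) = 1 - j := by omega
  have e1 : ((j0 : ℕ) : ℤ) = j + 1 := hj0.symm
  refine hwT (m1 := 6 * j0 + 2) (m2 := 6 * (2 - j0) + 2) (by omega) hz ?_ ?_ (by omega) (by omega)
    hi (by rw [hjn]) (by rw [hjn'])
  · refine DIM3.toNat_div (r := 2 * h - 2) ?_ (by omega) (by omega)
    push_cast
    rw [e1, hpz]; ring
  · refine DIM3.toNat_div (r := 2 * h - 2) ?_ (by omega) (by omega)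
    push_cast
    rw [e0, hpz]; ring

/-! ### local moments -/

lemma red_muN (hp20 : 20 < p) (c : ℤ × ℤ × ℤ) {t t' : ℕ} (ht : t ≤ 4) (ht' : t' ≤ 4) (m : ℕ) :
    red p (muN c t t' m) (-mN p (VT p c t t') m) := by
  rw [muN, mN, ← Finset.sum_neg_distrib]
  have e : ∑ j ∈ Finset.Icc (0 : ℤ) 2, -(2 * PowerSeries.coeff 15
      (VT p c t t' j * (locRp p (Finset.Icc (0 : ℤ) 2) j * linp p (-j) ^ m))) =
      ∑ l ∈ Finset.range 3, -(2 * PowerSeries.coeff 15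
      (VT p c t t' l * (locRp p (Finset.Icc (0 : ℤ) 2) l * linp p (-l) ^ m))) := by
    refine Finset.sum_nbij' (fun j => j.toNat) (fun l => (l : ℤ)) ?_ ?_ ?_ ?_ ?_
    · intro j hj; rw [Finset.mem_Icc] at hj; rw [Finset.mem_range]; omega
    · intro l hl; rw [Finset.mem_range] at hl; rw [Finset.mem_Icc]; omega
    · intro j hj; rw [Finset.mem_Icc] at hj; omega
    · intro l hl; omega
    · intro j hj
      rw [Finset.mem_Icc] at hj
      have : ((j.toNat : ℕ) : ℤ) = j := by omega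
      rw [this]
  rw [e]
  refine red_sum _ _ _ fun l hl => ?_
  rw [Finset.mem_range] at hl
  have hl' : (l : ℤ) ∈ Finset.Icc (0 : ℤ) 2 := by rw [Finset.mem_Icc]; omega
  have hs := small_ne (p := p) (by omega) rfl (by norm_num) hl'
  rw [← coeff_mul16, Finset.mul_sum, ← Finset.sum_neg_distrib]
  refine red_sum _ _ _ fun i hi => ?_
  rw [Finset.mem_Icc] at hi
  have hR := (Red_mul (Red_locR (p := p) hs) (Red_pow (Red_lin (p := p) (-(l : ℤ))) m)) (16 - i)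
  have hs' : red p ((-1 : ℚ) ^ (i + 1)) ((-1) ^ (i + 1)) :=
    red_pow (red_neg (red_one (p := p))) (i + 1)
  have hW := red_add (red_Hg (p := p) (c := c) (s := i) (n := 6 * l + t) (by omega))
    (red_mul hs' (red_Hg (p := p) (c := c) (s := i) (n := 6 * (2 - l) + t') (by omega)))
  have key := red_mul hW hR
  convert key using 1
  obtain ⟨i, rfl⟩ := Nat.exists_eq_add_of_le' hi.1
  have h2 := DIM3.two_ne (p := p) (by omega)
  have el : (l : ℤ).toNat = l := by omega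
  have el' : (2 - (l : ℤ)).toNat = 2 - l := by omega
  rw [Nat.add_sub_cancel, VT, PowerSeries.coeff_mk, el, el']
  field_simp

lemma red_muC (hp20 : 20 < p) (c : ℤ × ℤ × ℤ) (m : ℕ) :
    red p (muC c m) (-2 * mC p (fun j => VT p c 2 2 (j + 1)) m) := by
  rw [muC, mC, Finset.mul_sum]
  have e : ∑ j ∈ Finset.Icc (-1 : ℤ) 1, (-2 : ZMod p) * PowerSeries.coeff 15
      (VT p c 2 2 (j + 1) * (2 * linp p (-j) * locRp p (Finset.Icc (-1 : ℤ) 1) j *
        (linp p (-j) ^ 2) ^ m)) =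
      ∑ l ∈ Finset.range 3, (-2 : ZMod p) * PowerSeries.coeff 15
      (VT p c 2 2 l * (2 * linp p (-((l : ℤ) - 1)) *
        locRp p (Finset.Icc (-1 : ℤ) 1) ((l : ℤ) - 1) *
        (linp p (-((l : ℤ) - 1)) ^ 2) ^ m)) := by
    refine Finset.sum_nbij' (fun j => (j + 1).toNat) (fun l => (l : ℤ) - 1) ?_ ?_ ?_ ?_ ?_
    · intro j hj; rw [Finset.mem_Icc] at hj; rw [Finset.mem_range]; omega
    · intro l hl; rw [Finset.mem_range] at hl; rw [Finset.mem_Icc]; omega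
    · intro j hj; rw [Finset.mem_Icc] at hj; omega
    · intro l hl; omega
    · intro j hj
      rw [Finset.mem_Icc] at hj
      have h1 : (((j + 1).toNat : ℕ) : ℤ) = j + 1 := by omega
      rw [h1, add_sub_cancel_right]
  rw [e]
  refine red_sum _ _ _ fun l hl => ?_
  rw [Finset.mem_range] at hl
  have hl' : (l : ℤ) - 1 ∈ Finset.Icc (-1 : ℤ) 1 := by rw [Finset.mem_Icc]; omega
  have hs := small_ne (p := p) (by omega) rfl (by norm_num) hl'
  rw [← coeff_mul16, Finset.mul_sum]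
  refine red_sum _ _ _ fun i hi => ?_
  rw [Finset.mem_Icc] at hi
  have hC2 : (PowerSeries.C (2 : ZMod p)) = (2 : PowerSeries (ZMod p)) := map_ofNat _ 2
  have hR := (Red_mul (Red_mul (Red_mul (Red_two (p := p)) (Red_lin (p := p) (-((l : ℤ) - 1))))
    (Red_locR (p := p) hs)) (Red_pow (Red_pow (Red_lin (p := p) (-((l : ℤ) - 1))) 2) m)) (16 - i)
  rw [hC2] at hR
  have hs' : red p ((-1 : ℚ) ^ (i + 1)) ((-1) ^ (i + 1)) :=
    red_pow (red_neg (red_one (p := p))) (i + 1)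
  have hW := red_add (red_Hg (p := p) (c := c) (s := i) (n := 6 * l + 2) (by omega))
    (red_mul hs' (red_Hg (p := p) (c := c) (s := i) (n := 6 * (2 - l) + 2) (by omega)))
  have key := red_mul hW hR
  convert key using 1
  obtain ⟨i, rfl⟩ := Nat.exists_eq_add_of_le' hi.1
  have h2 := DIM3.two_ne (p := p) (by omega)
  have el : (l : ℤ).toNat = l := by omega
  have el' : (2 - (l : ℤ)).toNat = 2 - l := by omega
  rw [Nat.add_sub_cancel, VT, PowerSeries.coeff_mk, el, el']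
  field_simp

end

end ZT
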