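import Pool.Agent.Lib.ZT.Defs
import Pool.Agent.Lib.Z579.M4
import Pool.Agent.Lib.Z579.M5

/-!
# `p`-adic side of `T2(15)` for `p > a`: module statements T1-T5

`PGt` follows from T1 (with `C = Ip p`, `θ = tval`, `n = ntok`), T4 and T5.
-/

open Polynomial Finset Z579

namespace ZT

/-- T1: the greedy token lemma.  (Proof: at each step use the class `c` with the largest
`θ c (N c)`; `VG_hank` with `θ_i` this largest value.) -/
def Tok : Prop := ∀ (p : ℕ) (L : ℚ[X] →ₗ[ℚ] ℚ) (C : Finset ℤ) (x : ℤ → ℕ → ℚ) (θ : ℤ → ℕ → ℝ)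
  (n : ℤ → ℕ) (K : ℕ), p.Prime → C.Nonempty → (∀ c ∈ C, ∀ j, 0 ≤ θ c j) →
  (∀ c ∈ C, ∀ j, n c ≤ j → θ c j = 0) →
  (∀ (N N' : ℤ → ℕ) (t : ℝ), (∀ c ∈ C, t ≤ -((θ c (N c) + θ c (N' c)) / 2)) →
    VG p t (L ((∏ c ∈ C, ∏ j ∈ range (N c), (X - Polynomial.C (x c j))) *
      ∏ c ∈ C, ∏ j ∈ range (N' c), (X - Polynomial.C (x c j))))) →
  VG p (-∑ c ∈ C, ∑ j ∈ range (n c), θ c j) (hank L K)

/-- T2: the principal part at a pole `v = -u` whose class modulo `p` has no other pole, at the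
point `v = h - u`, `p ∣ h`, is the value `R(v) G(v^2)` up to a `p`-integral number. -/
def PPart : Prop := ∀ (p a : ℕ) (u : ℤ) (h : ℚ) (G : ℚ[X]), p.Prime → u ∈ pc a → h ≠ 0 →
  VG p 1 h → (∀ w ∈ pc a, (p : ℤ) ∣ w - u → w = u) → (∀ n, VG p 0 (G.coeff n)) →
  VG p 0 (∑ i ∈ Finset.Icc 1 16, Acoef 16 0 a a u i G / h ^ i -
    2 * (h - u) * G.eval ((h - u) ^ 2) / (h * ∏ w ∈ (pc a).erase u, (h - u + w)) ^ 16)

/-- the multiples `m ∈ {2,3,4}` with `p m / 6 ≤ u + a - 1` -/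
def mset (p a : ℕ) (u : ℤ) : Finset ℕ :=
  ({2, 3, 4} : Finset ℕ).filter fun m => ((p * m : ℕ) : ℤ) ≤ 6 * (u + a - 1)

/-- T3: contribution of a pole whose class has no other pole. -/
def OneCls : Prop := ∀ (c : ℤ × ℤ × ℤ) (p a : ℕ) (z : ℕ → ℚ) (u : ℤ), p.Prime → 5 ≤ p →
  (∀ s, VG p 0 (z s)) → u ∈ pc a → (∀ w ∈ pc a, (p : ℤ) ∣ w - u → w = u) →
  ∃ ρ : ℕ → ℚ, (∀ m ∈ mset p a u, VG p (-16) (ρ m)) ∧
    ∀ G : ℚ[X], (∀ n, VG p 0 (G.coeff n)) →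
    VG p 0 (∑ i ∈ Finset.Icc 1 16, wg c a 1 z u i * Acoef 16 0 a a u i G -
      ∑ m ∈ mset p a u, ρ m * G.eval ((((p * m : ℕ) : ℚ) / 6 - u) ^ 2))

/-- number of tokens of the class `± r`, `0 ≤ r ≤ (p-1)/2` -/
def ntok (p a : ℕ) (r : ℤ) : ℕ :=
  if (p : ℤ) - a < r then 16 else if r < a then
    (mset p a r).card + (if r = 0 then 0 else (mset p a (-r)).card) else 0

/-- values of the tokens -/
noncomputable def tval (p a : ℕ) (r : ℤ) (j : ℕ) : ℝ :=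
  if j < ntok p a r then (if (p : ℤ) - a < r then 32 - 2 * j else 16 - 2 * j) else 0

/-- T4: the functional against products of token factors.  (`x r j = r^2` for the classes with two
poles, `(p m / 6 ∓ r)^2`, `m ∈ mset p a (± r)`, for the classes with one pole.) -/
def Bounds : Prop := ∀ (c : ℤ × ℤ × ℤ) (p a : ℕ) (z : ℕ → ℚ), p.Prime → 5 ≤ p → 1 ≤ a → a < p →
  12 * a ≤ p ^ 2 → (∀ s, VG p 0 (z s)) → ∃ x : ℤ → ℕ → ℚ, ∀ (N N' : ℤ → ℕ) (t : ℝ),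
  (∀ r ∈ Ip p, t ≤ -((tval p a r (N r) + tval p a r (N' r)) / 2)) →
    VG p t (FL c a 1 z ((∏ r ∈ Ip p, ∏ j ∈ range (N r), (X - Polynomial.C (x r j))) *
      ∏ r ∈ Ip p, ∏ j ∈ range (N' r), (X - Polynomial.C (x r j))))

/-- sum of all token values -/
noncomputable def Ttok (p a : ℕ) : ℝ := ∑ r ∈ Ip p, ∑ j ∈ range (ntok p a r), tval p a r j

/-- T5: counting. -/
def Cnt : Prop := ∀ p a : ℕ, p.Prime → 5 ≤ p → 1 ≤ a → a < p →
  (p ≤ 2 * a → Ttok p a ≤ 206 * (a : ℝ) - 70 * p + 500 ∧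
    Ttok p a ≤ 226 * (a : ℝ) - 85 * p + 500 ∧ Ttok p a ≤ 266 * (a : ℝ) - 335 / 3 * p + 500) ∧
  (2 * a < p → p ≤ 3 * a → Ttok p a ≤ 82 * (a : ℝ) - 59 / 3 * p + 500) ∧
  (3 * a < p → p ≤ 4 * a → Ttok p a ≤ 60 * (a : ℝ) - 37 / 3 * p + 500) ∧
  (4 * a < p → p ≤ 6 * a → Ttok p a ≤ 32 * (a : ℝ) - 16 / 3 * p + 500) ∧
  (6 * a < p → Ttok p a ≤ 0)

/-- P2 from its parts -/
theorem pGt_of (h1 : Tok) (h4 : Bounds) (h5 : Cnt) : PGt := by
  intro c p a K z hp hp5 ha hap hp2 hz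
  obtain ⟨x, hx⟩ := h4 c p a z hp hp5 ha hap hp2 hz
  have hne : (Ip p).Nonempty := ⟨0, by rw [Ip, Finset.mem_Icc]; omega⟩
  have hv0 : ∀ r ∈ Ip p, ∀ j, 0 ≤ tval p a r j := by
    intro r hr j
    unfold tval
    split_ifs with h1 h2
    · have : j < 16 := by simpa [ntok, h2] using h1
      have : (j : ℝ) ≤ 15 := by exact_mod_cast (by omega : j ≤ 15)
      linarith
    · have h3 : ntok p a r ≤ 6 := by
        unfold ntok
        rw [if_neg h2]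
        have hm : ∀ u, (mset p a u).card ≤ 3 := fun u => (Finset.card_filter_le _ _).trans (by simp)
        split_ifs
        · have := hm r; omega
        · have := hm r; have := hm (-r); omega
        · omega
      have : (j : ℝ) ≤ 5 := by exact_mod_cast (by omega : j ≤ 5)
      linarith
    · exact le_rfl
  have hv1 : ∀ r ∈ Ip p, ∀ j, ntok p a r ≤ j → tval p a r j = 0 := by
    intro r hr j hj
    unfold tval
    rw [if_neg (by omega)]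
  have key := h1 p (FL c a 1 z) (Ip p) x (tval p a) (ntok p a) K hp hne hv0 hv1 hx
  have hT : ∀ A : ℝ, Ttok p a ≤ A → VG p (-A) (hank (FL c a 1 z) K) := fun A hA =>
    VG.mono key (by unfold Ttok at hA; linarith)
  obtain ⟨g1, g2, g3, g4, g5⟩ := h5 p a hp hp5 ha hap
  refine ⟨fun h => ⟨hT _ (g1 h).1, hT _ (g1 h).2.1, hT _ (g1 h).2.2⟩, fun h h' => hT _ (g2 h h'),
    fun h h' => hT _ (g3 h h'), fun h h' => hT _ (g4 h h'), fun h => ?_⟩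
  have := hT 0 (g5 h)
  rwa [neg_zero] at this

end ZT
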